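import Pool.Agent.V8H47.MH.ContDefs

/-!
# One-way pushdown automata
-/

namespace Pool.Agent.V8H47.MH

/-- No head ever moves to the left. -/
def PDA.OneWay {α H Γ : Type} (M : PDA α H Γ) : Prop :=
  ∀ q a g, ∀ t ∈ M.step q a g, ∀ h, t.2.1 h ≠ Dir.L

/-- The context-free languages over `α`: the languages accepted by nondeterministic one-way
pushdown automata. -/
def CFL (α : Type) : Set (Language α) :=
  {L | ∃ (Γ : Type) (_ : Finite Γ) (M : PDA α (Fin 1) Γ), M.OneWay ∧ M.lang = L}

/-- The languages accepted by nondeterministic one-way pushdown automata with pushdown alphabet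
`Γ` and contents of the store in `R`. -/
def CFLIn {Γ : Type} (R : Set (List Γ)) (α : Type) : Set (Language α) :=
  {L | ∃ M : PDA α (Fin 1) Γ, M.OneWay ∧ M.ContentsIn R ∧ M.lang = L}

end Pool.Agent.V8H47.MH
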