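import Pool.Agent.V8H47.MH.Thin
import Pool.Agent.V8H47.MH.OneWayDefs

/-!
# Pushdown automata whose store contents are restricted to a thick language
-/

namespace Pool.Agent.V8H47.MH

open Relation

/-! ### Restriction of an infinite set of states to a finite one -/

section restr

variable {α H Γ Q : Type}

/-- steps of a transition function -/
def rstep (step : Q → (H → Sym α) → Option Γ → Set (Q × (H → Dir) × Op Γ)) (w : List α)
    (c c' : PCfg Q H Γ) : Prop :=
  ∃ t ∈ step c.q (fun h => symAt w (c.pos h)) c.st.head?,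
    c' = ⟨t.1, fun h => (t.2.1 h).move w.length (c.pos h), t.2.2.apply c.st⟩

/-- restriction to a finite set of states -/
def restr (F : Set Q) (hF : F.Finite) (init : Q) (hi : init ∈ F) (acc : Set Q)
    (step : Q → (H → Sym α) → Option Γ → Set (Q × (H → Dir) × Op Γ)) : PDA α H Γ where
  Q := F
  finQ := hF
  init := ⟨init, hi⟩
  acc := {q | q.1 ∈ acc}
  step q a g := {x | (x.1.1, x.2) ∈ step q.1 a g}

variable {F : Set Q} {hF : F.Finite} {init : Q} {hi : init ∈ F} {acc : Set Q}
  {step : Q → (H → Sym α) → Option Γ → Set (Q × (H → Dir) × Op Γ)}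

theorem det_restr (h : ∀ q a g, (step q a g).Subsingleton) :
    (restr F hF init hi acc step).Det := by
  rintro q a g ⟨⟨x1, hx⟩, x2⟩ h1 ⟨⟨y1, hy⟩, y2⟩ h2
  have := h q.1 a g h1 h2
  simp only [Prod.mk.injEq] at this
  obtain ⟨rfl, rfl⟩ := this
  rfl

theorem restr_to {w : List α} {c : PCfg (restr F hF init hi acc step).Q H Γ}
    (h : (restr F hF init hi acc step).Reach w c) :
    ReflTransGen (rstep step w) ⟨init, fun _ => 0, []⟩ ⟨c.q.1, c.pos, c.st⟩ := by
  rw [PDA.reach_iff] at h
  obtain ⟨b, hb, hP⟩ := simulate (s := rstep step w)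
    (fun (c : PCfg (restr F hF init hi acc step).Q H Γ) (b : PCfg Q H Γ) =>
      b = ⟨c.q.1, c.pos, c.st⟩)
    (by
      rintro c b c' rfl ⟨t, ht, rfl⟩
      exact ⟨_, ⟨(t.1.1, t.2), ht, rfl⟩, rfl⟩)
    (b0 := ⟨init, fun _ => 0, []⟩) rfl h
  rw [hP] at hb
  exact hb

theorem restr_from (hcl : ∀ q ∈ F, ∀ a g, ∀ t ∈ step q a g, t.1 ∈ F) {w : List α}
    {c : PCfg Q H Γ} (h : ReflTransGen (rstep step w) ⟨init, fun _ => 0, []⟩ c) :
    ∃ hq : c.q ∈ F, (restr F hF init hi acc step).Reach w ⟨⟨c.q, hq⟩, c.pos, c.st⟩ := by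
  induction h with
  | refl => exact ⟨hi, 0, rfl⟩
  | @tail b c _ hs ih =>
    obtain ⟨hq, t0, ht0⟩ := ih
    obtain ⟨t, ht, rfl⟩ := hs
    have h1 := hcl _ hq _ _ t ht
    exact ⟨h1, t0 + 1, _, ht0, (⟨t.1, h1⟩, t.2), ht, rfl⟩

end restr

/-! ### The simulation -/

inductive TQ (Q Δ Γ : Type)
  | pre : List Γ → TQ Q Δ Γ
  | run : Q → Option (Δ × Bool) → TQ Q Δ Γ
  | psh : Q → List Γ → (Δ × Bool) → TQ Q Δ Γ
  | pp : Q → List Γ → TQ Q Δ Γ

/-- length of the list in a state -/
def TQ.len {Q Δ Γ : Type} : TQ Q Δ Γ → ℕ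
  | .pre l => l.length
  | .run _ _ => 0
  | .psh _ l _ => l.length
  | .pp _ l => l.length

theorem TQ.finite {Q Δ Γ : Type} [Finite Q] [Finite Δ] [Finite Γ] (B : ℕ) :
    {q : TQ Q Δ Γ | q.len ≤ B}.Finite := by
  have h1 : Finite {l : List Γ // l.length ≤ B} := List.finite_length_le Γ B
  let f : {l : List Γ // l.length ≤ B} ⊕ (Q × Option (Δ × Bool)) ⊕
    (Q × {l : List Γ // l.length ≤ B} × (Δ × Bool)) ⊕ (Q × {l : List Γ // l.length ≤ B}) →
      TQ Q Δ Γ := fun x => match x with
    | .inl l => .pre l.1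
    | .inr (.inl (q, c)) => .run q c
    | .inr (.inr (.inl (q, l, d))) => .psh q l.1 d
    | .inr (.inr (.inr (q, l))) => .pp q l.1
  refine (Set.finite_range f).subset ?_
  intro q hq
  cases q with
  | pre l => exact ⟨.inl ⟨l, hq⟩, rfl⟩
  | run q c => exact ⟨.inr (.inl (q, c)), rfl⟩
  | psh q l d => exact ⟨.inr (.inr (.inl (q, ⟨l, hq⟩, d))), rfl⟩
  | pp q l => exact ⟨.inr (.inr (.inr (q, ⟨l, hq⟩))), rfl⟩

section thick

variable {α H Γ Δ : Type} (M : PDA α H Δ) (u : List Γ) (N : ℕ) (e : Δ × Bool → List Γ)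

/-- the action in a main state, for a given action of the simulated automaton -/
def tAct (q : M.Q) (d : H → Dir) : Op Δ → Option (Δ × Bool) → TQ M.Q Δ Γ × (H → Dir) × Op Γ
  | Op.keep, c => (.run q c, d, Op.keep)
  | Op.push g, none => (.run q (some (g, true)), d, Op.keep)
  | Op.push g, some x => (.psh q (e x) (g, false), d, Op.keep)
  | Op.pop, none => (.run q none, d, Op.keep)
  | Op.pop, some (_, true) => (.run q none, d, Op.keep)
  | Op.pop, some (_, false) => (.pp q [], d, Op.keep)

def tStep : TQ M.Q Δ Γ → (H → Sym α) → Option Γ → Set (TQ M.Q Δ Γ × (H → Dir) × Op Γ)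
  | .pre [], _, _ => {(.run M.init none, fun _ => Dir.S, Op.keep)}
  | .pre (x :: l), _, _ => {(.pre l, fun _ => Dir.S, Op.push x)}
  | .run q c, a, _ => {x | ∃ t ∈ M.step q a (c.map Prod.fst), x = tAct M e t.1 t.2.1 t.2.2 c}
  | .psh q [] d, _, _ => {(.run q (some d), fun _ => Dir.S, Op.keep)}
  | .psh q (x :: l) d, _, _ => {(.psh q l d, fun _ => Dir.S, Op.push x)}
  | .pp q l, _, g => {y | (l.length < N ∧ ∃ x, g = some x ∧ y = (.pp q (x :: l), fun _ => Dir.S, Op.pop)) ∨
      (¬ l.length < N ∧ ∃ d, e d = l ∧ y = (.run q (some d), fun _ => Dir.S, Op.keep))}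

theorem det_tStep (hM : M.Det) (he : Function.Injective e) (q : TQ M.Q Δ Γ) (a : H → Sym α)
    (g : Option Γ) : (tStep M N e q a g).Subsingleton := by
  intro x hx y hy
  cases q with
  | pre l => cases l <;> (rw [tStep] at hx hy; rw [hx, hy])
  | run q c =>
    obtain ⟨t, ht, rfl⟩ := hx
    obtain ⟨t', ht', rfl⟩ := hy
    rw [hM q a _ ht ht']
  | psh q l d => cases l <;> (rw [tStep] at hx hy; rw [hx, hy])
  | pp q l =>
    rcases hx with ⟨h1, x1, h2, rfl⟩ | ⟨h1, x1, h2, rfl⟩ <;>
    rcases hy with ⟨h3, x3, h4, rfl⟩ | ⟨h3, x3, h4, rfl⟩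
    · rw [h2] at h4
      simp only [Option.some.injEq] at h4
      rw [h4]
    · exact absurd h1 h3
    · exact absurd h3 h1
    · rw [he (h2.trans h4.symm)]

theorem closed_tStep (B : ℕ) (hB : N ≤ B) (he : ∀ d, (e d).length = N) (q : TQ M.Q Δ Γ)
    (hq : q.len ≤ B) (a : H → Sym α) (g : Option Γ) (t) (ht : t ∈ tStep M N e q a g) :
    t.1.len ≤ B := by
  cases q with
  | pre l =>
    cases l with
    | nil => rw [tStep] at ht; rw [ht]; exact Nat.zero_le _
    | cons x l =>
      rw [tStep] at ht; rw [ht]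
      simp only [TQ.len, List.length_cons] at hq ⊢
      omega
  | run q c =>
    obtain ⟨t, _, rfl⟩ := ht
    rcases t with ⟨q', d, op⟩
    cases op with
    | keep => exact Nat.zero_le _
    | push g' =>
      cases c with
      | none => exact Nat.zero_le _
      | some x => simp only [tAct, TQ.len, he]; exact hB
    | pop =>
      rcases c with _ | ⟨x, _ | _⟩ <;> exact Nat.zero_le _
  | psh q l d =>
    cases l with
    | nil => rw [tStep] at ht; rw [ht]; exact Nat.zero_le _
    | cons x l =>
      rw [tStep] at ht; rw [ht]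
      simp only [TQ.len, List.length_cons] at hq ⊢
      omega
  | pp q l =>
    rcases ht with ⟨h1, x, _, rfl⟩ | ⟨_, d, _, rfl⟩
    · simp only [TQ.len, List.length_cons] at hq ⊢
      omega
    · exact Nat.zero_le _

theorem oneWay_tStep (hM : M.OneWay) (q : TQ M.Q Δ Γ) (a : H → Sym α)
    (g : Option Γ) : ∀ t ∈ tStep M N e q a g, ∀ h, t.2.1 h ≠ Dir.L := by
  intro t ht h
  cases q with
  | pre l => cases l <;> (rw [tStep] at ht; rw [ht]; simp)
  | run q c =>
    obtain ⟨t, ht, rfl⟩ := ht
    have := hM q a _ t ht h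
    rcases t with ⟨q', d, op⟩
    cases op with
    | keep => exact this
    | push g' => cases c <;> exact this
    | pop => rcases c with _ | ⟨x, _ | _⟩ <;> exact this
  | psh q l d => cases l <;> (rw [tStep] at ht; rw [ht]; simp)
  | pp q l => rcases ht with ⟨h1, x, _, rfl⟩ | ⟨_, d, _, rfl⟩ <;> simp

/-- the coded store -/
def code (l : List (Δ × Bool)) : List Γ := l.flatMap (fun d => (e d).reverse) ++ u.reverse

open Classical in
/-- the store with flags at the bottommost symbol -/
noncomputable def flg : List Δ → List (Δ × Bool)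
  | [] => []
  | g :: st => (g, decide (st = [])) :: flg st

theorem flg_tail (st : List Δ) : flg st.tail = (flg st).tail := by
  cases st <;> rfl

theorem flg_head (st : List Δ) : (flg st).head?.map Prod.fst = st.head? := by
  cases st <;> rfl

theorem code_cons (d : Δ × Bool) (l : List (Δ × Bool)) :
    code u e (d :: l) = (e d).reverse ++ code u e l := by
  simp [code]

/-- main configurations -/
noncomputable def rep (c : PCfg M.Q H Δ) : PCfg (TQ M.Q Δ Γ) H Γ :=
  ⟨.run c.q (flg c.st).head?, c.pos, code u e (flg c.st).tail⟩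

/-- The invariant. -/
def TInv (w : List α) (x : PCfg (TQ M.Q Δ Γ) H Γ) : Prop :=
  match x.q with
  | .pre l => (x.pos = fun _ => 0) ∧ ∃ p, u = p ++ l ∧ x.st = p.reverse
  | .run _ _ => ∃ c, M.Reach w c ∧ x = rep M u e c
  | .psh q l d => ∃ c, M.Reach w c ∧ c.q = q ∧ c.pos = x.pos ∧ ∃ d' p rest, e d' = p ++ l ∧
      flg c.st = d :: d' :: rest ∧ x.st = p.reverse ++ code u e rest
  | .pp q l => ∃ c, M.Reach w c ∧ c.q = q ∧ c.pos = x.pos ∧ ∃ d p rest, e d = p ++ l ∧
      flg c.st = d :: rest ∧ x.st = p.reverse ++ code u e rest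

theorem move_S {w : List α} (pos : H → ℕ) :
    (fun h => (Dir.S).move w.length (pos h)) = pos := rfl

theorem reach_step' {M : PDA α H Δ} {w : List α} {c c' : PCfg M.Q H Δ} (h : M.Reach w c)
    (hs : M.Step w c c') : M.Reach w c' := by
  obtain ⟨t, ht⟩ := h
  exact ⟨t + 1, c, ht, hs⟩

theorem tInv_step (he : Function.Injective e) (hN : ∀ d, (e d).length = N) (w : List α)
    (x x' : PCfg (TQ M.Q Δ Γ) H Γ) (h : TInv M u e w x) (hs : rstep (tStep M N e) w x x') :
    TInv M u e w x' := by
  obtain ⟨xq, pos, st⟩ := x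
  obtain ⟨t, ht, rfl⟩ := hs
  simp only at ht
  cases xq with
  | pre l =>
    obtain ⟨h1, p, h2, h3⟩ := h
    simp only at h1 h3
    subst h1 h3
    cases l with
    | nil =>
      rw [tStep] at ht; rw [ht]
      refine ⟨M.start, ⟨0, rfl⟩, ?_⟩
      simp only [rep, PDA.start, flg, List.head?_nil, List.tail_nil, code, List.flatMap_nil,
        List.nil_append, Op.apply, Dir.move]
      rw [h2, List.append_nil]
    | cons a l =>
      rw [tStep] at ht; rw [ht]
      refine ⟨rfl, p ++ [a], by simp [h2], by simp [Op.apply]⟩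
  | run q c =>
    obtain ⟨c0, hr, hx⟩ := h
    simp only [rep, PCfg.mk.injEq, TQ.run.injEq] at hx
    obtain ⟨⟨rfl, rfl⟩, rfl, rfl⟩ := hx
    obtain ⟨t, ht, rfl⟩ := ht
    rw [flg_head] at ht
    have hs : M.Step w c0 ⟨t.1, fun h => (t.2.1 h).move w.length (c0.pos h), t.2.2.apply c0.st⟩ :=
      ⟨t, ht, rfl⟩
    have hr' := reach_step' hr hs
    obtain ⟨q', d, op⟩ := t
    obtain ⟨q0, pos0, st0⟩ := c0
    simp only at hr' ⊢
    cases op with
    | keep => exact ⟨_, hr', rfl⟩
    | push g' =>
      cases st0 with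
      | nil =>
        refine ⟨_, hr', ?_⟩
        simp [rep, tAct, flg, Op.apply]
      | cons g st0 =>
        simp only [flg, List.head?_cons, tAct]
        refine ⟨_, hr', rfl, rfl, (g, decide (st0 = [])), [], flg st0, rfl, ?_, ?_⟩
        · simp [Op.apply, flg]
        · simp [Op.apply]
    | pop =>
      cases st0 with
      | nil =>
        refine ⟨_, hr', ?_⟩
        simp [rep, tAct, flg, Op.apply]
      | cons g st0 =>
        cases st0 with
        | nil =>
          refine ⟨_, hr', ?_⟩
          simp [rep, tAct, flg, Op.apply]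
        | cons g' st0 =>
          have e1 : decide (g' :: st0 = []) = false := by simp
          simp only [flg, List.head?_cons, e1, tAct]
          refine ⟨_, hr', rfl, rfl, (g', decide (st0 = [])), e (g', decide (st0 = [])), flg st0,
            by simp, ?_, ?_⟩
          · simp [Op.apply, flg]
          · simp [Op.apply, code_cons]
  | psh q l d =>
    obtain ⟨c0, hr, h1, h2, d', p, rest, h3, h4, h5⟩ := h
    simp only at h2 h5
    subst h2 h5
    cases l with
    | nil =>
      rw [tStep] at ht; rw [ht]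
      refine ⟨c0, hr, ?_⟩
      simp only [rep, h1, h4, List.head?_cons, List.tail_cons, code_cons, Op.apply, Dir.move]
      rw [h3, List.append_nil]
    | cons a l =>
      rw [tStep] at ht; rw [ht]
      exact ⟨c0, hr, h1, rfl, d', p ++ [a], rest, by simp [h3], h4, by simp [Op.apply]⟩
  | pp q l =>
    obtain ⟨c0, hr, h1, h2, d, p, rest, h3, h4, h5⟩ := h
    simp only at h2 h5
    subst h2 h5
    have hlen : p.length + l.length = N := by rw [← hN d, h3]; simp
    rcases ht with ⟨hl, a, ha, rfl⟩ | ⟨hl, d', hd', rfl⟩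
    · rcases List.eq_nil_or_concat p with rfl | ⟨p', b, rfl⟩
      · simp only [List.length_nil] at hlen; omega
      · simp only [List.concat_eq_append, List.reverse_append, List.reverse_cons,
          List.reverse_nil, List.nil_append, List.cons_append, List.head?_cons,
          Option.some.injEq] at ha
        subst ha
        refine ⟨c0, hr, h1, rfl, d, p', rest, by simp [h3], h4, by simp [Op.apply]⟩
    · have : p = [] := by
        apply List.eq_nil_of_length_eq_zero; omega
      subst this
      simp only [List.nil_append] at h3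
      have : d' = d := he (hd'.trans h3.symm)
      subst this
      refine ⟨c0, hr, ?_⟩
      simp [rep, h1, h4, Op.apply, Dir.move]

theorem tInv_content (w : List α) (x : PCfg (TQ M.Q Δ Γ) H Γ) (h : TInv M u e w x) :
    ∃ L, x.st <:+ code u e L := by
  obtain ⟨xq, pos, st⟩ := x
  cases xq with
  | pre l =>
    obtain ⟨_, p, h2, h3⟩ := h
    simp only at h3
    subst h3
    refine ⟨[], ?_⟩
    simp only [code, List.flatMap_nil, List.nil_append, h2, List.reverse_append]
    exact List.suffix_append _ _
  | run q c =>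
    obtain ⟨c0, _, hx⟩ := h
    rw [hx]
    exact ⟨_, List.suffix_rfl⟩
  | psh q l d =>
    obtain ⟨c0, _, _, _, d', p, rest, h3, _, h5⟩ := h
    simp only at h5
    subst h5
    refine ⟨d' :: rest, ?_⟩
    rw [code_cons, h3, List.reverse_append, List.append_assoc]
    exact List.suffix_append _ _
  | pp q l =>
    obtain ⟨c0, _, _, _, d', p, rest, h3, _, h5⟩ := h
    simp only at h5
    subst h5
    refine ⟨d' :: rest, ?_⟩
    rw [code_cons, h3, List.reverse_append, List.append_assoc]
    exact List.suffix_append _ _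

theorem run_pre (w : List α) (l p : List Γ) (hp : u = p ++ l) :
    ReflTransGen (rstep (tStep M N e) w) ⟨.pre l, fun _ => 0, p.reverse⟩
      ⟨.run M.init none, fun _ => 0, u.reverse⟩ := by
  induction l generalizing p with
  | nil =>
    refine ReflTransGen.single ⟨(.run M.init none, fun _ => Dir.S, Op.keep), ?_, ?_⟩
    · simp only [tStep]; rfl
    · simp [Op.apply, Dir.move, hp]
  | cons a l ih =>
    refine ReflTransGen.head ⟨(.pre l, fun _ => Dir.S, Op.push a), ?_, rfl⟩ ?_
    · simp only [tStep]; rfl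
    · have := ih (p ++ [a]) (by simp [hp])
      simpa [Op.apply, Dir.move] using this

theorem run_psh (w : List α) (q : M.Q) (d : Δ × Bool) (pos : H → ℕ) (l st : List Γ) :
    ReflTransGen (rstep (tStep M N e) w) ⟨.psh q l d, pos, st⟩
      ⟨.run q (some d), pos, l.reverse ++ st⟩ := by
  induction l generalizing st with
  | nil =>
    refine ReflTransGen.single ⟨(.run q (some d), fun _ => Dir.S, Op.keep), ?_, ?_⟩
    · simp only [tStep]; rfl
    · simp [Op.apply, Dir.move]
  | cons a l ih =>
    refine ReflTransGen.head ⟨(.psh q l d, fun _ => Dir.S, Op.push a), ?_, rfl⟩ ?_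
    · simp only [tStep]; rfl
    · have := ih (a :: st)
      simpa [Op.apply, Dir.move] using this

theorem run_pp (hN : ∀ d, (e d).length = N) (w : List α) (q : M.Q) (d : Δ × Bool)
    (pos : H → ℕ) (p l st : List Γ) (h : e d = p.reverse ++ l) :
    ReflTransGen (rstep (tStep M N e) w) ⟨.pp q l, pos, p ++ st⟩
      ⟨.run q (some d), pos, st⟩ := by
  have hlen : p.length + l.length = N := by rw [← hN d, h]; simp
  induction p generalizing l with
  | nil =>
    refine ReflTransGen.single ⟨(.run q (some d), fun _ => Dir.S, Op.keep), ?_, ?_⟩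
    · refine Or.inr ⟨?_, d, by simpa using h, rfl⟩
      simp only [List.length_nil] at hlen; omega
    · simp [Op.apply, Dir.move]
  | cons a p ih =>
    refine ReflTransGen.head ⟨(.pp q (a :: l), fun _ => Dir.S, Op.pop), ?_, rfl⟩ ?_
    · refine Or.inl ⟨?_, a, rfl, rfl⟩
      simp only [List.length_cons] at hlen; omega
    · have := ih (a :: l) (by simp [h]) (by simp only [List.length_cons] at hlen ⊢; omega)
      simpa [Op.apply, Dir.move] using this

theorem rep_step (hN : ∀ d, (e d).length = N) (w : List α) (c c' : PCfg M.Q H Δ)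
    (hs : M.Step w c c') :
    ReflTransGen (rstep (tStep M N e) w) (rep M u e c) (rep M u e c') := by
  obtain ⟨q0, pos0, st0⟩ := c
  obtain ⟨⟨q', d, op⟩, ht, rfl⟩ := hs
  simp only at ht
  have hfirst : ∀ y, y = tAct M e q' d op (flg st0).head? →
      rstep (tStep M N e) w (rep M u e ⟨q0, pos0, st0⟩)
      ⟨y.1, fun h => (y.2.1 h).move w.length (pos0 h), y.2.2.apply (code u e (flg st0).tail)⟩ := by
    rintro y rfl
    refine ⟨_, ⟨(q', d, op), ?_, rfl⟩, rfl⟩
    rw [flg_head]; exact ht
  cases op with
  | keep =>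
    exact ReflTransGen.single (hfirst _ rfl)
  | push g' =>
    cases st0 with
    | nil =>
      have := hfirst _ rfl
      refine ReflTransGen.single ?_
      simpa [tAct, flg, Op.apply, rep] using this
    | cons g st0 =>
      have := hfirst _ rfl
      simp only [flg, List.head?_cons, tAct, Op.apply, List.tail_cons] at this
      refine ReflTransGen.head this ?_
      have h2 := run_psh M N e w q' (g', false) (fun h => (d h).move w.length (pos0 h))
        (e (g, decide (st0 = []))) (code u e (flg st0))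
      simpa [rep, flg, Op.apply, code_cons] using h2
  | pop =>
    cases st0 with
    | nil =>
      have := hfirst _ rfl
      refine ReflTransGen.single ?_
      simpa [tAct, flg, Op.apply, rep] using this
    | cons g st0 =>
      cases st0 with
      | nil =>
        have := hfirst _ rfl
        refine ReflTransGen.single ?_
        simpa [tAct, flg, Op.apply, rep] using this
      | cons g' st0 =>
        have := hfirst _ rfl
        have e1 : decide (g' :: st0 = []) = false := by simp
        simp only [flg, List.head?_cons, e1, tAct, Op.apply, List.tail_cons, code_cons] at this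
        refine ReflTransGen.head this ?_
        have h2 := run_pp M N e hN w q' (g', decide (st0 = []))
          (fun h => (d h).move w.length (pos0 h))
          (e (g', decide (st0 = []))).reverse [] (code u e (flg st0)) (by simp)
        simpa [rep, flg, Op.apply] using h2

/-- **Thick contents.** -/
theorem thick_main [Finite Δ] [Finite Γ] (he : Function.Injective e)
    (hN : ∀ d, (e d).length = N) (R : Set (List Γ))
    (hR : ∀ L : List (Δ × Bool), ∀ p, p <+: u ++ L.flatMap e → p ∈ R) :
    ∃ M' : PDA α H Γ, (M.Det → M'.Det) ∧ M'.lang = M.lang ∧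
      (∀ w c, M'.Reach w c → c.st.reverse ∈ R) ∧ (M.OneWay → M'.OneWay) := by
  have := M.finQ
  set B := max u.length N with hB
  have hi : (TQ.pre u : TQ M.Q Δ Γ) ∈ {q : TQ M.Q Δ Γ | q.len ≤ B} :=
    show u.length ≤ max u.length N from le_max_left _ _
  have hcl : ∀ q ∈ {q : TQ M.Q Δ Γ | q.len ≤ B}, ∀ (a : H → Sym α) g, ∀ t ∈ tStep M N e q a g,
      t.1 ∈ {q : TQ M.Q Δ Γ | q.len ≤ B} :=
    fun q hq a g t ht => closed_tStep M N e B (le_max_right _ _) hN q hq a g t ht
  let M' : PDA α H Γ := restr {q : TQ M.Q Δ Γ | q.len ≤ B} (TQ.finite B) (TQ.pre u) hi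
    {q | ∃ s ∈ M.acc, ∃ c, q = TQ.run s c} (tStep M N e)
  have hinv : ∀ w (x : PCfg (TQ M.Q Δ Γ) H Γ),
      ReflTransGen (rstep (tStep M N e) w) ⟨.pre u, fun _ => 0, []⟩ x → TInv M u e w x := by
    intro w x hx
    induction hx with
    | refl => exact ⟨rfl, [], rfl, rfl⟩
    | tail _ hs ih => exact tInv_step M u N e he hN w _ _ ih hs
  refine ⟨M', fun h => det_restr (det_tStep M N e h he), ?_, ?_,
    fun h q a g t ht => oneWay_tStep M N e h q.1 a g _ ht⟩
  · ext w
    constructor
    · rintro ⟨c, hc, s, hs, c1, hq⟩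
      have h1 := hinv w _ (restr_to hc)
      unfold TInv at h1
      simp only [hq] at h1
      obtain ⟨c0, hc0, hx⟩ := h1
      refine ⟨c0, hc0, ?_⟩
      simp only [rep, PCfg.mk.injEq, TQ.run.injEq] at hx
      rw [← hx.1.1]; exact hs
    · intro hw
      obtain ⟨c, hc, hacc⟩ := (M.mem_lang w).1 hw
      obtain ⟨x, hx, hP⟩ := simulates (s := rstep (tStep M N e) w)
        (fun c x => x = rep M u e c)
        (by
          rintro c x c' rfl hs
          exact ⟨_, rep_step M u N e hN w c c' hs, rfl⟩)
        (b0 := rep M u e M.start) rfl hc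
      have h0 : ReflTransGen (rstep (tStep M N e) w) ⟨.pre u, fun _ => 0, []⟩
          (rep M u e M.start) := by
        have := run_pre M u N e w u [] rfl
        simpa [rep, PDA.start, flg, code] using this
      have h1 := h0.trans hx
      obtain ⟨hq, hreach⟩ := restr_from (hF := TQ.finite B) (hi := hi)
        (acc := {q | ∃ s ∈ M.acc, ∃ c, q = TQ.run s c}) hcl h1
      refine ⟨_, hreach, c.q, hacc, (flg c.st).head?, ?_⟩
      change x.q = _
      rw [hP]
      rfl
  · intro w c hc
    obtain ⟨L, hL⟩ := tInv_content M u e w _ (hinv w _ (restr_to hc))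
    simp only at hL
    have h2 : (code u e L).reverse = u ++ L.reverse.flatMap e := by
      clear hL
      induction L with
      | nil => simp [code]
      | cons d L ih =>
        rw [code_cons, List.reverse_append, ih]
        simp
    refine hR L.reverse _ ?_
    rw [← h2]
    exact List.reverse_prefix.2 hL

end thick

end Pool.Agent.V8H47.MH
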