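import Pool.Agent.V8H47.MH.Thin

/-!
# Pushdown automata with thin store contents are simulated by multihead finite automata
-/

namespace Pool.Agent.V8H47.MH

open Relation

variable {α H Γ σ : Type}

theorem finite_shp [Finite σ] [Finite Γ] (n : ℕ) :
    Finite {E : Shp Γ σ // E.2.length < n} := by
  have h1 : {l : List (Option Γ × σ) | l.length < n}.Finite := List.finite_length_lt _ n
  have h2 : Finite {l : List (Option Γ × σ) // l.length < n} := h1
  let f : {E : Shp Γ σ // E.2.length < n} → (Option Γ × σ) × {l : List (Option Γ × σ) // l.length < n} :=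
    fun E => (E.1.1, ⟨E.1.2, E.2⟩)
  refine Finite.of_injective f ?_
  rintro ⟨⟨a, l⟩, h⟩ ⟨⟨a', l'⟩, h'⟩ he
  simp only [f, Prod.mk.injEq, Subtype.mk.injEq] at he
  obtain ⟨rfl, rfl⟩ := he
  rfl

/-- the counter machine which simulates a pushdown automaton with thin contents -/
noncomputable def thinCM [Finite σ] [Finite Γ] (A : DFA Γ σ) (M : PDA α H Γ) :
    CM α H (Fin (Nat.card σ)) where
  Q := M.Q × {E : Shp Γ σ // E.2.length < Nat.card σ}
  finQ := by
    have := M.finQ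
    have := finite_shp (Γ := Γ) (σ := σ) (Nat.card σ)
    infer_instance
  init := (M.init, ⟨((none, A.start), []), by
    have : Nonempty σ := ⟨A.start⟩
    exact Nat.card_pos⟩)
  acc := {q | q.1 ∈ M.acc}
  step q a z := {x | ∃ t ∈ M.step q.1 a (shTop A (z ⟨q.2.1.2.length, q.2.2⟩) q.2.1),
    x.1.1 = t.1 ∧ x.1.2.1 = (shOp A (z ⟨q.2.1.2.length, q.2.2⟩) q.2.1 t.2.2).1 ∧
    x.2 = (t.2.1, fun j : Fin (Nat.card σ) => if (j : ℕ) = q.2.1.2.length then
      (shOp A (z ⟨q.2.1.2.length, q.2.2⟩) q.2.1 t.2.2).2 else Dir.S)}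

theorem det_thinCM [Finite σ] [Finite Γ] (A : DFA Γ σ) (M : PDA α H Γ) (h : M.Det) :
    (thinCM A M).Det := by
  rintro q a z ⟨⟨x1, x2⟩, x3⟩ ⟨t, ht, h1, h2, h3⟩ ⟨⟨y1, y2⟩, y3⟩ ⟨t', ht', h1', h2', h3'⟩
  have : t = t' := h _ _ _ ht ht'
  subst this
  simp only at h1 h2 h3 h1' h2' h3'
  subst h1
  subst h1'
  subst h3
  subst h3'
  have : x2 = y2 := Subtype.ext (h2.trans h2'.symm)
  rw [this]

/-- The simulation relation. -/
def ThinRel [Finite σ] [Finite Γ] (A : DFA Γ σ) (M : PDA α H Γ) (w : List α)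
    (c : PCfg M.Q H Γ) (x : CCfg (thinCM A M).Q H (Fin (Nat.card σ))) : Prop :=
  M.Reach w c ∧ x.q.1 = c.q ∧ x.q.2.1 = forget (enc A c.st) ∧ x.pos = c.pos ∧
    x.cnt = fun j : Fin (Nat.card σ) => cnts A c.st j

theorem forget_length (E : Seg Γ σ × List (Seg Γ σ)) : (forget E).2.length = E.2.length := by
  simp [forget]

section
variable [Finite σ] [Finite Γ] {A : DFA Γ σ} {M : PDA α H Γ} {w : List α}

theorem reach_step {c c' : PCfg M.Q H Γ} (h : M.Reach w c) (hs : M.Step w c c') : M.Reach w c' := by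
  obtain ⟨t, ht⟩ := h
  exact ⟨t + 1, c, ht, hs⟩

theorem thin_sim (hT : ThinA A) (hG : ∀ c, M.Reach w c → Good A c.st) {N : ℕ}
    {c c' : PCfg M.Q H Γ} {x : CCfg (thinCM A M).Q H (Fin (Nat.card σ))}
    (hP : ThinRel A M w c x) (hs : M.Step w c c') (hN : c'.st.length < N) :
    ∃ x', (thinCM A M).Step N w x x' ∧ ThinRel A M w c' x' := by
  obtain ⟨⟨q, E, hE⟩, pos, cn⟩ := x
  obtain ⟨hr, h1, h2, h3, h4⟩ := hP
  simp only at h1 h2 h3 h4
  subst h1 h2 h3 h4
  have hr' := reach_step hr hs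
  have hg := hG c hr
  have hg' := hG c' hr'
  obtain ⟨t, ht, rfl⟩ := hs
  simp only at hg' hN
  have hlen := enc_length_lt hg'
  have hz : (cnts A c.st ((⟨(forget (enc A c.st)).2.length, hE⟩ : Fin (Nat.card σ)) : ℕ) = 0) =
      ((enc A c.st).1.2.2 = 0) := by
    simp only [forget_length, cnts_top]
  have hsp := shOp_spec hT t.2.2 hg
  refine ⟨⟨(t.1, ⟨forget (enc A (t.2.2.apply c.st)), by rw [forget_length]; exact hlen⟩),
    fun h => (t.2.1 h).move w.length (c.pos h), fun j => cnts A (t.2.2.apply c.st) j⟩,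
    ⟨⟨(t.1, ⟨forget (enc A (t.2.2.apply c.st)), by rw [forget_length]; exact hlen⟩), t.2.1,
      fun j => if (j : ℕ) = (forget (enc A c.st)).2.length then
      (shOp A ((enc A c.st).1.2.2 = 0) (forget (enc A c.st)) t.2.2).2 else Dir.S⟩,
      ⟨t, ?_, rfl, ?_, ?_⟩, ?_, ?_⟩, hr', rfl, rfl, rfl, rfl⟩
  · simp only
    rw [hz, shTop_spec hT hg]
    exact ht
  · simp only
    rw [hz]
    exact hsp.1.symm
  · simp only
    rw [hz]
  · intro j hj
    simp only at hj ⊢
    have h5 := hsp.2 j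
    rw [← forget_length, hj] at h5
    simp only [Dir.cmove] at h5
    rw [h5]
    exact lt_of_le_of_lt (cnts_le _ _) hN
  · simp only [CCfg.mk.injEq, true_and]
    funext j
    have h5 := hsp.2 j
    rw [← forget_length] at h5
    exact h5.symm

theorem thin_sim' (hT : ThinA A) (hG : ∀ c, M.Reach w c → Good A c.st) {N : ℕ}
    {c : PCfg M.Q H Γ} {x x' : CCfg (thinCM A M).Q H (Fin (Nat.card σ))}
    (hP : ThinRel A M w c x) (hs : (thinCM A M).Step N w x x') :
    ∃ c', M.Step w c c' ∧ ThinRel A M w c' x' := by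
  obtain ⟨⟨q, E, hE⟩, pos, cn⟩ := x
  obtain ⟨hr, h1, h2, h3, h4⟩ := hP
  simp only at h1 h2 h3 h4
  subst h1 h2 h3 h4
  have hg := hG c hr
  obtain ⟨⟨⟨q', E'⟩, d⟩, ⟨t, ht, h5, h6, h7⟩, hR, rfl⟩ := hs
  simp only at h5 h6 h7
  subst h5 h7
  have hz : (cnts A c.st ((⟨(forget (enc A c.st)).2.length, hE⟩ : Fin (Nat.card σ)) : ℕ) = 0) =
      ((enc A c.st).1.2.2 = 0) := by
    simp only [forget_length, cnts_top]
  have hsp := shOp_spec hT t.2.2 hg
  simp only at ht
  rw [hz, shTop_spec hT hg] at ht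
  rw [hz] at h6
  have hs : M.Step w c ⟨t.1, fun h => (t.2.1 h).move w.length (c.pos h), t.2.2.apply c.st⟩ :=
    ⟨t, ht, rfl⟩
  refine ⟨_, hs, reach_step hr hs, rfl, ?_, rfl, ?_⟩
  · simp only
    rw [h6]
    exact hsp.1
  · simp only
    funext j
    have h5 := hsp.2 j
    rw [← forget_length] at h5
    rw [hz]
    exact h5

/-! ### The pushdown system of a pushdown automaton on a word -/

/-- the pushdown system of a pushdown automaton and an input word -/
def pds (M : PDA α H Γ) (w : List α) : PDS (M.Q × (H → Fin (w.length + 2))) Γ where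
  E op g v v' := ∃ t ∈ M.step v.1 (fun h => symAt w (v.2 h)) g, t.2.2 = op ∧ v'.1 = t.1 ∧
    ∀ h, ((v'.2 h : ℕ)) = (t.2.1 h).move w.length (v.2 h)

theorem move_lt {n p : ℕ} (d : Dir) (hp : p < n + 2) : d.move n p < n + 2 := by
  cases d <;> simp only [Dir.move] <;> omega

theorem pds_of_step {v : M.Q × (H → Fin (w.length + 2))} {st : List Γ} {c' : PCfg M.Q H Γ}
    (hs : M.Step w ⟨v.1, fun h => v.2 h, st⟩ c') :
    ∃ v' st', c' = ⟨v'.1, fun h => v'.2 h, st'⟩ ∧ (pds M w).Step (v, st) (v', st') := by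
  obtain ⟨t, ht, rfl⟩ := hs
  refine ⟨(t.1, fun h => ⟨(t.2.1 h).move w.length (v.2 h), move_lt _ (v.2 h).2⟩),
    t.2.2.apply st, rfl, t.2.2, ⟨t, ht, rfl, rfl, fun h => rfl⟩, rfl⟩

theorem step_of_pds {v v' : M.Q × (H → Fin (w.length + 2))} {st st' : List Γ}
    (hs : (pds M w).Step (v, st) (v', st')) :
    M.Step w ⟨v.1, fun h => v.2 h, st⟩ ⟨v'.1, fun h => v'.2 h, st'⟩ := by
  obtain ⟨op, ⟨t, ht, rfl, h1, h2⟩, h3⟩ := hs
  refine ⟨t, ht, ?_⟩
  simp only at h1 h2 h3
  simp only [PCfg.mk.injEq]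
  exact ⟨h1, funext h2, h3⟩

theorem bounded_run {b : ℕ} [Finite H] (hw : w ∈ M.lang)
    (hb : Nat.card (Option Γ × (M.Q × (H → Fin (w.length + 2)))) +
      Nat.card (Option Γ × (M.Q × (H → Fin (w.length + 2))) × (M.Q × (H → Fin (w.length + 2)))) ≤ b) :
    ∃ c, ReflTransGen (fun c c' => M.Step w c c' ∧ c'.st.length ≤ b) M.start c ∧ c.q ∈ M.acc := by
  have := M.finQ
  obtain ⟨c, hc, hacc⟩ := (M.mem_lang w).1 hw
  obtain ⟨v, hv, hP⟩ := simulate (s := (pds M w).Step)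
    (fun (c : PCfg M.Q H Γ) (v : (M.Q × (H → Fin (w.length + 2))) × List Γ) =>
      c = ⟨v.1.1, fun h => v.1.2 h, v.2⟩)
    (by
      rintro c ⟨v, st⟩ c' rfl hs
      obtain ⟨v', st', h1, h2⟩ := pds_of_step hs
      exact ⟨(v', st'), h2, h1⟩)
    (b0 := ((M.init, fun _ => 0), [])) rfl hc
  subst hP
  obtain ⟨y, hy, st', hst'⟩ := (pds M w).exists_small {v | v.1 ∈ M.acc} hv hacc hb
  obtain ⟨c, hc, hP⟩ := simulate (s := fun c c' => M.Step w c c' ∧ c'.st.length ≤ b)
    (fun (v : (M.Q × (H → Fin (w.length + 2))) × List Γ) (c : PCfg M.Q H Γ) =>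
      c = ⟨v.1.1, fun h => v.1.2 h, v.2⟩)
    (by
      rintro ⟨v, st⟩ c ⟨v', st'⟩ rfl hs
      exact ⟨_, ⟨step_of_pds hs.1, hs.2.2⟩, rfl⟩)
    (b0 := M.start) rfl hst'
  refine ⟨c, hc, ?_⟩
  rw [hP]
  exact hy

theorem exists_pow_bound (G Q h : ℕ) : ∃ c, ∀ r, 2 ≤ r →
    G * (Q * r ^ h) + G * (Q * r ^ h * (Q * r ^ h)) < r ^ c := by
  refine ⟨2 * h + (G * Q + G * Q * Q), fun r hr => ?_⟩
  have h1 : r ^ h ≤ r ^ (2 * h) := Nat.pow_le_pow_right (by omega) (by omega)
  have h2 : r ^ h * r ^ h = r ^ (2 * h) := by rw [← pow_add]; congr 1; omega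
  have h3 : G * Q + G * Q * Q < r ^ (G * Q + G * Q * Q) := Nat.lt_pow_self (by omega)
  have hp : 0 < r ^ (2 * h) := Nat.pow_pos (by omega)
  calc G * (Q * r ^ h) + G * (Q * r ^ h * (Q * r ^ h))
      = G * Q * r ^ h + G * Q * Q * (r ^ h * r ^ h) := by ring
    _ ≤ G * Q * r ^ (2 * h) + G * Q * Q * r ^ (2 * h) := by
        rw [h2]; exact Nat.add_le_add_right (Nat.mul_le_mul_left _ h1) _
    _ = r ^ (2 * h) * (G * Q + G * Q * Q) := by ring
    _ < r ^ (2 * h) * r ^ (G * Q + G * Q * Q) := Nat.mul_lt_mul_of_pos_left h3 hp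
    _ = r ^ (2 * h + (G * Q + G * Q * Q)) := by rw [← pow_add]

/-- **Thin contents.** A pushdown automaton with thin store contents is equivalent to a multihead
finite automaton, which is deterministic if the pushdown automaton is. -/
theorem thin_main [Finite H] (A : DFA Γ σ) (hT : ThinA A) (M : PDA α H Γ)
    (hG : ∀ w c, M.Reach w c → Good A c.st) :
    ∃ c, (M.Det → ((thinCM A M).toFA c).Det) ∧ ((thinCM A M).toFA c).lang = M.lang := by
  have := M.finQ
  obtain ⟨e, he⟩ := exists_pow_bound (Nat.card (Option Γ)) (Nat.card M.Q) (Nat.card H)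
  refine ⟨e, fun h => CM.det_toFA _ _ (det_thinCM A M h), ?_⟩
  ext w
  rw [CM.mem_lang_toFA]
  have hstart : ThinRel A M w M.start (thinCM A M).start := by
    refine ⟨⟨0, rfl⟩, rfl, rfl, rfl, ?_⟩
    funext j
    have := cnts_le (A := A) (M.start : PCfg M.Q H Γ).st j
    simp only [PDA.start, List.length_nil, Nat.le_zero] at this
    exact this.symm
  constructor
  · rintro ⟨x, hx, hacc⟩
    obtain ⟨c, hc, hP⟩ := simulate (s := M.Step w)
      (fun x c => ThinRel A M w c x)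
      (by
        intro x c x' hP hs
        exact thin_sim' hT (hG w) hP hs) hstart hx
    rw [M.mem_lang]
    refine ⟨c, hc, ?_⟩
    have h1 : x.q.1 = c.q := hP.2.1
    rw [← h1]
    exact hacc
  · intro hw
    have hcard : Nat.card (M.Q × (H → Fin (w.length + 2))) =
        Nat.card M.Q * (w.length + 2) ^ Nat.card H := by
      rw [Nat.card_prod, Nat.card_fun, Nat.card_fin]
    obtain ⟨c, hc, hacc⟩ := bounded_run hw le_rfl
    obtain ⟨x, hx, hP⟩ := simulate (s := (thinCM A M).Step ((w.length + 2) ^ e) w)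
      (fun c x => ThinRel A M w c x)
      (by
        intro c x c' hP hs
        refine thin_sim hT (hG w) hP hs.1 ?_
        refine lt_of_le_of_lt hs.2 ?_
        have h2 := he (w.length + 2) (by omega)
        rw [Nat.card_prod (Option Γ) (M.Q × (H → Fin (w.length + 2))),
          Nat.card_prod (Option Γ)
            ((M.Q × (H → Fin (w.length + 2))) × (M.Q × (H → Fin (w.length + 2)))),
          Nat.card_prod (M.Q × (H → Fin (w.length + 2))) (M.Q × (H → Fin (w.length + 2))), hcard]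
        exact h2) hstart hc
    refine ⟨x, hx, ?_⟩
    have h1 : x.q.1 = c.q := hP.2.1
    change x.q.1 ∈ M.acc
    rw [h1]
    exact hacc

end

end Pool.Agent.V8H47.MH
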