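import Pool.Agent.V8H47.MH.ContDefs
import Pool.Agent.V8H47.MH.ThinSim
import Pool.Agent.V8H47.MH.ThickSim

/-!
# The dichotomy for store contents
-/

namespace Pool.Agent.V8H47.MH

open Relation

variable {α H Γ σ : Type}

/-! ### Blocks of equal length -/

theorem flatten_inj {b : ℕ} : ∀ (l l' : List (List Γ)), (∀ v ∈ l, v.length = b) →
    (∀ v ∈ l', v.length = b) → l.length = l'.length → l.flatten = l'.flatten → l = l' := by
  intro l
  induction l with
  | nil =>
    intro l' _ _ h _
    cases l' with
    | nil => rfl
    | cons a l => simp at h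
  | cons v l ih =>
    intro l' h1 h2 h3 h4
    cases l' with
    | nil => simp at h3
    | cons v' l' =>
      simp only [List.flatten_cons] at h4
      have e1 : v.length = v'.length := by rw [h1 v (by simp), h2 v' (by simp)]
      obtain ⟨rfl, h5⟩ := List.append_inj h4 e1
      rw [ih l' (fun x hx => h1 x (by simp [hx])) (fun x hx => h2 x (by simp [hx]))
        (by simpa using h3) h5]

theorem length_flatten_blocks {b : ℕ} (l : List (List Γ)) (h : ∀ v ∈ l, v.length = b) :
    l.flatten.length = l.length * b := by
  induction l with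
  | nil => simp
  | cons v l ih =>
    simp only [List.flatten_cons, List.length_append, List.length_cons]
    rw [ih (fun x hx => h x (by simp [hx])), h v (by simp)]
    ring

theorem flatMap_flatten {D : Type} (g : D → List (List Γ)) (L : List D) :
    L.flatMap (fun d => (g d).flatten) = (L.flatMap g).flatten := by
  induction L with
  | nil => rfl
  | cons d L ih => simp [ih]

/-- the blocks for a function to the booleans -/
def blk {m : ℕ} (x y : List Γ) (f : Fin m → Bool) : List (List Γ) :=
  List.ofFn (fun i => if f i = true then x else y)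

theorem mem_blk {m : ℕ} {x y : List Γ} {f : Fin m → Bool} {v : List Γ} (h : v ∈ blk x y f) :
    v = x ∨ v = y := by
  unfold blk at h
  rw [List.mem_ofFn] at h
  obtain ⟨i, rfl⟩ := h
  by_cases hi : f i = true <;> simp [hi]

theorem blk_inj {m : ℕ} {x y : List Γ} (hl : x.length = y.length) (hne : x ≠ y)
    {f f' : Fin m → Bool} (h : (blk x y f).flatten = (blk x y f').flatten) : f = f' := by
  have h1 : ∀ f : Fin m → Bool, ∀ v ∈ blk x y f, v.length = x.length := by
    intro f v hv
    rcases mem_blk hv with rfl | rfl
    · rfl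
    · exact hl.symm
  have h2 := flatten_inj _ _ (h1 f) (h1 f') (by simp [blk]) h
  have h3 := List.ofFn_injective h2
  funext i
  have h4 := congrFun h3 i
  cases hf : f i <;> cases hf' : f' i <;> simp only [hf, hf', if_true, Bool.false_eq_true, if_false] at h4
  · rfl
  · exact absurd h4.symm hne
  · exact absurd h4 hne
  · rfl

theorem exists_code {D : Type} [Finite D] {R : Set (List Γ)} (h : Thick R) :
    ∃ (u : List Γ) (N : ℕ) (e : D → List Γ), Function.Injective e ∧ (∀ d, (e d).length = N) ∧
      ∀ L : List D, ∀ p, p <+: u ++ L.flatMap e → p ∈ R := by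
  obtain ⟨u, x, y, hl, hne, hR⟩ := h
  obtain ⟨m, ⟨eq⟩⟩ := Finite.exists_equiv_fin D
  let f : D → Fin m → Bool := fun d i => decide (eq d = i)
  have hf : Function.Injective f := by
    intro d d' h
    have := congrFun h (eq d)
    simp only [f, decide_true] at this
    have h2 := of_decide_eq_true this.symm
    exact (eq.injective h2).symm
  refine ⟨u, m * x.length, fun d => (blk x y (f d)).flatten, ?_, ?_, ?_⟩
  · intro d d' h
    exact hf (blk_inj hl hne h)
  · intro d
    have : ∀ v ∈ blk x y (f d), v.length = x.length := by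
      intro v hv
      rcases mem_blk hv with rfl | rfl
      · rfl
      · exact hl.symm
    rw [length_flatten_blocks _ this]
    simp [blk]
  · intro L p hp
    rw [flatMap_flatten (fun d => blk x y (f d))] at hp
    refine hR _ ?_ p hp
    intro v hv
    rw [List.mem_flatMap] at hv
    obtain ⟨d, _, hv⟩ := hv
    exact mem_blk hv

theorem exists_pow_lt (a b c : ℕ) : ∃ m : ℕ, (a + m * b) ^ c < 2 ^ m := by
  have h1 := tendsto_pow_const_div_const_pow_of_one_lt c (r := (2 : ℝ)) (by norm_num)
  have hpos : (0 : ℝ) < 1 / ((a + b + 1 : ℕ) : ℝ) ^ c := by positivity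
  have h2 := (h1.eventually (gt_mem_nhds hpos)).and (Filter.eventually_ge_atTop 1)
  obtain ⟨m, h3, h4⟩ := h2.exists
  refine ⟨m, ?_⟩
  have h5 : (a + m * b) ≤ (a + b + 1) * m := by nlinarith
  have h6 : (a + m * b) ^ c ≤ (a + b + 1) ^ c * m ^ c := by
    rw [← mul_pow]; exact Nat.pow_le_pow_left h5 c
  refine lt_of_le_of_lt h6 ?_
  have h7 : ((a + b + 1 : ℕ) : ℝ) ^ c * (m : ℝ) ^ c < 2 ^ m := by
    have hp : (0 : ℝ) < ((a + b + 1 : ℕ) : ℝ) ^ c := by positivity
    rw [div_lt_div_iff₀ (by positivity) hp] at h3
    linarith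
  exact_mod_cast h7

theorem not_polyGrowth_of_thick [Finite Γ] {R : Set (List Γ)} (h : Thick R) : ¬ PolyGrowth R := by
  rintro ⟨c, hc⟩
  obtain ⟨u, x, y, hl, hne, hR⟩ := h
  obtain ⟨m, hm⟩ := exists_pow_lt (u.length + 2) x.length c
  have h1 := hc (u.length + m * x.length)
  have hfin : {v : List Γ | v.length = u.length + m * x.length ∧ ∀ p, p <+: v → p ∈ R}.Finite :=
    (List.finite_length_eq Γ _).subset (fun v hv => hv.1)
  have h2 : Nat.card (Fin m → Bool) ≤
      {v : List Γ | v.length = u.length + m * x.length ∧ ∀ p, p <+: v → p ∈ R}.ncard := by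
    have := hfin.to_subtype
    rw [← Nat.card_coe_set_eq]
    refine Nat.card_le_card_of_injective
      (fun f : Fin m → Bool => ⟨u ++ (blk x y f).flatten, ?_, ?_⟩) ?_
    · have : ∀ v ∈ blk x y f, v.length = x.length := by
        intro v hv
        rcases mem_blk hv with rfl | rfl
        · rfl
        · exact hl.symm
      rw [List.length_append, length_flatten_blocks _ this]
      simp [blk]
    · intro p hp
      exact hR _ (fun v hv => mem_blk hv) p hp
    · intro f f' h
      simp only [Subtype.mk.injEq, List.append_cancel_left_eq] at h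
      exact blk_inj hl hne h
  have h3 : Nat.card (Fin m → Bool) = 2 ^ m := by simp
  have e1 : u.length + 2 + m * x.length = u.length + m * x.length + 2 := by ring
  rw [e1] at hm
  omega

/-- a thin content is determined by its shape and its counters -/
theorem shape_inj {A : DFA Γ σ} (hT : ThinA A) : ∀ (n : ℕ) (st st' : List Γ), st.length = n →
    Good A st → Good A st' → forget (enc A st) = forget (enc A st') →
    cnts A st = cnts A st' → st = st' := by
  intro n
  induction n with
  | zero =>
    intro st st' hn hg hg' h1 h2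
    have : st = [] := List.eq_nil_of_length_eq_zero hn
    subst this
    have h3 : (enc A ([] : List Γ)).1.2.2 = (enc A st').1.2.2 := by
      rw [← cnts_top, ← cnts_top, h2, ← forget_length, ← forget_length, h1]
    have h4 := shTop_spec hT hg
    have h5 := shTop_spec hT hg'
    rw [← h1, ← h3, h4] at h5
    cases st' with
    | nil => rfl
    | cons a st' => simp at h5
  | succ n ih =>
    intro st st' hn hg hg' h1 h2
    have h3 : (enc A st).1.2.2 = (enc A st').1.2.2 := by
      rw [← cnts_top, ← cnts_top, h2, ← forget_length, ← forget_length, h1]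
    have h4 := shTop_spec hT hg
    have h5 := shTop_spec hT hg'
    rw [← h1, ← h3, h4] at h5
    have h6 := shOp_spec hT Op.pop hg
    have h7 := shOp_spec hT Op.pop hg'
    cases st with
    | nil => simp at hn
    | cons a st =>
      cases st' with
      | nil => simp at h5
      | cons a' st' =>
        simp only [List.head?_cons, Option.some.injEq] at h5
        subst h5
        simp only [Op.apply, List.tail_cons] at h6 h7
        have h8 : st = st' := by
          refine ih st st' (by simpa using hn) hg.tail hg'.tail ?_ ?_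
          · rw [← h6.1, ← h7.1, h1, h3]
          · funext j
            rw [← h6.2 j, ← h7.2 j, h1, h2, h3, ← forget_length, ← forget_length, h1]
        rw [h8]

theorem good_iff {A : DFA Γ σ} {st : List Γ} :
    Good A st ↔ ∀ p, p <+: st.reverse → p ∈ A.accepts := by
  constructor
  · intro h p hp
    have h1 : p.reverse <:+ st := by
      have := List.reverse_suffix.2 hp
      rwa [List.reverse_reverse] at this
    have := h p.reverse h1
    rwa [List.reverse_reverse] at this
  · intro h st' hst'
    exact h st'.reverse (List.reverse_prefix.2 hst')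

theorem polyGrowth_of_thin [Finite Γ] [Finite σ] {A : DFA Γ σ} (hT : ThinA A) :
    PolyGrowth (A.accepts : Set (List Γ)) := by
  have := finite_shp (Γ := Γ) (σ := σ) (Nat.card σ)
  refine ⟨Nat.card {E : Shp Γ σ // E.2.length < Nat.card σ} + Nat.card σ, fun n => ?_⟩
  have hfin : {v : List Γ | v.length = n ∧ ∀ p, p <+: v → p ∈ (A.accepts : Set (List Γ))}.Finite :=
    (List.finite_length_eq Γ _).subset (fun v hv => hv.1)
  have hgood : ∀ v : List Γ, (∀ p, p <+: v → p ∈ (A.accepts : Set (List Γ))) →
      Good A v.reverse := by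
    intro v hv
    rw [good_iff, List.reverse_reverse]; exact hv
  have := hfin.to_subtype
  have h1 : {v : List Γ | v.length = n ∧ ∀ p, p <+: v → p ∈ (A.accepts : Set (List Γ))}.ncard ≤
      Nat.card ({E : Shp Γ σ // E.2.length < Nat.card σ} × (Fin (Nat.card σ) → Fin (n + 1))) := by
    rw [← Nat.card_coe_set_eq]
    refine Nat.card_le_card_of_injective (fun v =>
      (⟨forget (enc A v.1.reverse), by
        rw [forget_length]; exact enc_length_lt (hgood v.1 v.2.2)⟩,
       fun j => ⟨cnts A v.1.reverse j, by
        have := cnts_le (A := A) v.1.reverse j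
        rw [List.length_reverse, v.2.1] at this
        omega⟩)) ?_
    rintro ⟨v, hv1, hv2⟩ ⟨v', hv1', hv2'⟩ h
    simp only [Prod.mk.injEq, Subtype.mk.injEq] at h
    obtain ⟨h2, h3⟩ := h
    have h4 : cnts A v.reverse = cnts A v'.reverse := by
      funext j
      by_cases hj : j < Nat.card σ
      · have := congrFun h3 ⟨j, hj⟩
        simpa using this
      · have h5 := enc_length_lt (hgood v hv2)
        have h6 := enc_length_lt (hgood v' hv2')
        unfold cnts
        rw [cnt_of_le, cnt_of_le]
        · simp only [List.length_cons]; omega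
        · simp only [List.length_cons]; omega
    have h5 := shape_inj hT _ _ _ rfl (hgood v hv2) (hgood v' hv2') h2 h4
    have h6 : v = v' := by simpa using congrArg List.reverse h5
    subst h6
    rfl
  refine h1.trans ?_
  rw [Nat.card_prod, Nat.card_fun, Nat.card_fin, Nat.card_fin, pow_add]
  refine Nat.mul_le_mul ?_ (Nat.pow_le_pow_left (by omega) _)
  exact (Nat.lt_pow_self (by omega : 1 < n + 2)).le

/-- every suffix of a reached store content is itself reached -/
theorem suffix_reach {M : PDA α H Γ} {w : List α} {c : PCfg M.Q H Γ} (h : M.Reach w c) :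
    ∀ st, st <:+ c.st → ∃ c', M.Reach w c' ∧ c'.st = st := by
  rw [PDA.reach_iff] at h
  induction h with
  | refl =>
    intro st hst
    have : st = [] := List.suffix_nil.1 hst
    subst this
    exact ⟨_, ⟨0, rfl⟩, rfl⟩
  | @tail b c hb hs ih =>
    intro st hst
    have hc : M.Reach w c := by
      rw [PDA.reach_iff]; exact hb.tail hs
    obtain ⟨t, ht, rfl⟩ := hs
    cases hop : t.2.2 with
    | keep =>
      rw [hop] at hst
      exact ih st hst
    | push g =>
      rw [hop] at hst
      rcases List.suffix_cons_iff.1 hst with h | h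
      · exact ⟨_, hc, by rw [hop]; exact h.symm⟩
      · exact ih st h
    | pop =>
      rw [hop] at hst
      exact ih st (hst.trans (List.tail_suffix _))

theorem good_of_contentsIn {A : DFA Γ σ} {M : PDA α H Γ}
    (hM : M.ContentsIn (A.accepts : Set (List Γ))) (w : List α) (c : PCfg M.Q H Γ)
    (h : M.Reach w c) : Good A c.st := by
  intro st hst
  obtain ⟨c', h1, h2⟩ := suffix_reach h st hst
  rw [← h2]
  exact hM w c' h1

/-- Thick contents: no loss of generality. -/
theorem content_thick [Finite Γ] {R : Set (List Γ)} (h : Thick R) {Δ : Type} [Finite Δ]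
    (M : PDA α H Δ) :
    ∃ M' : PDA α H Γ, (M.Det → M'.Det) ∧ M'.lang = M.lang ∧ M'.ContentsIn R ∧
      (M.OneWay → M'.OneWay) := by
  obtain ⟨u, N, e, he, hN, hR⟩ := exists_code (D := Δ × Bool) h
  obtain ⟨M', h1, h2, h3, h4⟩ := thick_main M u N e he hN R hR
  exact ⟨M', h1, h2, h3, h4⟩

/-- Thin contents: finite automata. -/
theorem content_thin [Finite Γ] [Finite σ] {A : DFA Γ σ} (hT : ThinA A) {k : ℕ}
    (M : PDA α (Fin k) Γ) (hM : M.ContentsIn (A.accepts : Set (List Γ))) :
    ∃ (m : ℕ) (M' : FA α (Fin m)), (M.Det → M'.Det) ∧ M'.lang = M.lang := by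
  obtain ⟨c, h1, h2⟩ := thin_main A hT M (good_of_contentsIn hM)
  obtain ⟨m, ⟨eq⟩⟩ := Finite.exists_equiv_fin (Fin k ⊕ Fin (Nat.card σ) × Fin c)
  exact ⟨m, FA.reindex _ eq, fun h => FA.det_reindex _ _ (h1 h), (FA.lang_reindex _ _).trans h2⟩

/-- a finite automaton as a pushdown automaton with empty contents -/
theorem fa_contents {R : Set (List Γ)} (h0 : [] ∈ R) (M : FA α H) :
    (M.toPDA Γ).ContentsIn R := by
  intro w c hc
  rw [M.empty_toPDA Γ w c hc]
  exact h0

/-- **The dichotomy for store contents.** -/
theorem content_dichotomy [Finite Γ] {R : Language Γ} (hreg : R.IsRegular)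
    (h0 : [] ∈ R) :
    (¬ PolyGrowth (R : Set (List Γ)) → ∀ (α H Δ : Type) [Finite Δ] (M : PDA α H Δ),
      ∃ M' : PDA α H Γ, (M.Det → M'.Det) ∧ M'.lang = M.lang ∧ M'.ContentsIn (R : Set (List Γ)) ∧
        (M.OneWay → M'.OneWay)) ∧
    (PolyGrowth (R : Set (List Γ)) → ∀ (α : Type) (k : ℕ) (M : PDA α (Fin k) Γ),
      M.ContentsIn (R : Set (List Γ)) →
      ∃ (m : ℕ) (M' : FA α (Fin m)), (M.Det → M'.Det) ∧ M'.lang = M.lang) := by
  obtain ⟨σ, _, A, rfl⟩ := hreg
  have hst : A.start ∈ A.accept := h0
  constructor
  · intro hp α H Δ _ M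
    have hth : Thick (A.accepts : Set (List Γ)) := by
      by_contra hcon
      exact hp (polyGrowth_of_thin (thinA_of_not_thick hst hcon))
    exact content_thick hth M
  · intro hp α k M hM
    have hth : ¬ Thick (A.accepts : Set (List Γ)) := fun h => not_polyGrowth_of_thick h hp
    exact content_thin (thinA_of_not_thick hst hth) M hM

end Pool.Agent.V8H47.MH
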