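import Pool.Agent.V8H47.MH.Defs

/-!
# Basic facts on multihead automata: reachability, simulations, renaming the heads
-/

namespace Pool.Agent.V8H47.MH

open Relation

theorem PDA.reach_iff {α H Γ : Type} (M : PDA α H Γ) (w : List α) (c : PCfg M.Q H Γ) :
    M.Reach w c ↔ ReflTransGen (M.Step w) M.start c := by
  constructor
  · rintro ⟨t, h⟩
    induction t generalizing c with
    | zero => have : c = M.start := h; rw [this]
    | succ t ih => obtain ⟨c', h1, h2⟩ := h; exact (ih c' h1).tail h2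
  · intro h
    induction h with
    | refl => exact ⟨0, rfl⟩
    | tail _ h2 ih => obtain ⟨t, ht⟩ := ih; exact ⟨t + 1, _, ht, h2⟩

theorem FA.reach_iff {α H : Type} (M : FA α H) (w : List α) (c : FCfg M.Q H) :
    M.Reach w c ↔ ReflTransGen (M.Step w) M.start c := by
  constructor
  · rintro ⟨t, h⟩
    induction t generalizing c with
    | zero => have : c = M.start := h; rw [this]
    | succ t ih => obtain ⟨c', h1, h2⟩ := h; exact (ih c' h1).tail h2
  · intro h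
    induction h with
    | refl => exact ⟨0, rfl⟩
    | tail _ h2 ih => obtain ⟨t, ht⟩ := ih; exact ⟨t + 1, _, ht, h2⟩

/-- Step by step simulation. -/
theorem simulate {A B : Type*} {r : A → A → Prop} {s : B → B → Prop} (P : A → B → Prop)
    (h1 : ∀ a b a', P a b → r a a' → ∃ b', s b b' ∧ P a' b') {a0 : A} {b0 : B} (h0 : P a0 b0)
    {a : A} (h : ReflTransGen r a0 a) : ∃ b, ReflTransGen s b0 b ∧ P a b := by
  induction h with
  | refl => exact ⟨b0, .refl, h0⟩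
  | tail _ hs ih =>
    obtain ⟨b, hb, hP⟩ := ih
    obtain ⟨b', hb', hP'⟩ := h1 _ _ _ hP hs
    exact ⟨b', hb.tail hb', hP'⟩

/-- Simulation of one step by several steps. -/
theorem simulates {A B : Type*} {r : A → A → Prop} {s : B → B → Prop} (P : A → B → Prop)
    (h1 : ∀ a b a', P a b → r a a' → ∃ b', ReflTransGen s b b' ∧ P a' b') {a0 : A} {b0 : B}
    (h0 : P a0 b0)
    {a : A} (h : ReflTransGen r a0 a) : ∃ b, ReflTransGen s b0 b ∧ P a b := by
  induction h with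
  | refl => exact ⟨b0, .refl, h0⟩
  | tail _ hs ih =>
    obtain ⟨b, hb, hP⟩ := ih
    obtain ⟨b', hb', hP'⟩ := h1 _ _ _ hP hs
    exact ⟨b', hb.trans hb', hP'⟩

theorem PDA.mem_lang {α H Γ : Type} (M : PDA α H Γ) (w : List α) :
    w ∈ M.lang ↔ ∃ c, ReflTransGen (M.Step w) M.start c ∧ c.q ∈ M.acc := by
  unfold PDA.lang
  simp only [M.reach_iff]
  rfl

theorem FA.mem_lang {α H : Type} (M : FA α H) (w : List α) :
    w ∈ M.lang ↔ ∃ c, ReflTransGen (M.Step w) M.start c ∧ c.q ∈ M.acc := by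
  unfold FA.lang
  simp only [M.reach_iff]
  rfl

/-- Renaming the heads. -/
def FA.reindex {α H H' : Type} (M : FA α H) (e : H ≃ H') : FA α H' where
  Q := M.Q
  finQ := M.finQ
  init := M.init
  acc := M.acc
  step q a := {x | ∃ y ∈ M.step q (a ∘ e), x = (y.1, y.2 ∘ e.symm)}

theorem FA.det_reindex {α H H' : Type} (M : FA α H) (e : H ≃ H') (h : M.Det) :
    (M.reindex e).Det := by
  rintro q a x ⟨y, hy, rfl⟩ x' ⟨y', hy', rfl⟩
  rw [h q _ hy hy']

theorem FA.lang_reindex {α H H' : Type} (M : FA α H) (e : H ≃ H') :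
    (M.reindex e).lang = M.lang := by
  ext w
  rw [FA.mem_lang, FA.mem_lang]
  constructor
  · rintro ⟨c, hc, hacc⟩
    obtain ⟨b, hb, hP⟩ := simulate (s := M.Step w)
      (fun (a : FCfg (M.reindex e).Q H') (b : FCfg M.Q H) => b.q = a.q ∧ b.pos = a.pos ∘ e)
      (by
        rintro ⟨q, p⟩ ⟨q', p'⟩ a' ⟨h1, h2⟩ ⟨t, ⟨y, hy, rfl⟩, rfl⟩
        simp only at h1 h2
        subst h1 h2
        refine ⟨⟨y.1, fun h => (y.2 h).move w.length (p (e h))⟩, ⟨y, hy, rfl⟩, rfl, ?_⟩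
        funext h
        simp)
      (b0 := M.start) ⟨rfl, rfl⟩ hc
    exact ⟨b, hb, by rw [hP.1]; exact hacc⟩
  · rintro ⟨c, hc, hacc⟩
    obtain ⟨b, hb, hP⟩ := simulate (s := (M.reindex e).Step w)
      (fun (b : FCfg M.Q H) (a : FCfg (M.reindex e).Q H') => a.q = b.q ∧ a.pos = b.pos ∘ e.symm)
      (by
        rintro ⟨q, p⟩ ⟨q', p'⟩ a' ⟨h1, h2⟩ ⟨t, ht, rfl⟩
        simp only at h1 h2
        subst h1 h2
        refine ⟨⟨t.1, fun h => (t.2 (e.symm h)).move w.length (p (e.symm h))⟩,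
          ⟨(t.1, t.2 ∘ e.symm), ⟨t, ?_, rfl⟩, rfl⟩, rfl, ?_⟩
        · convert ht using 2
          funext h
          simp
        · funext h
          simp)
      (b0 := (M.reindex e).start) ⟨rfl, rfl⟩ hc
    exact ⟨b, hb, by rw [hP.1]; exact hacc⟩

/-- A finite automaton as a pushdown automaton that never uses its store. -/
def FA.toPDA {α H : Type} (Γ : Type) (M : FA α H) : PDA α H Γ where
  Q := M.Q
  finQ := M.finQ
  init := M.init
  acc := M.acc
  step q a _ := {x | ∃ y ∈ M.step q a, x = (y.1, y.2, Op.keep)}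

theorem FA.det_toPDA {α H : Type} (Γ : Type) (M : FA α H) (h : M.Det) : (M.toPDA Γ).Det := by
  rintro q a g x ⟨y, hy, rfl⟩ x' ⟨y', hy', rfl⟩
  rw [h q _ hy hy']

theorem FA.empty_toPDA {α H : Type} (Γ : Type) (M : FA α H) (w : List α)
    (c : PCfg M.Q H Γ) (h : (M.toPDA Γ).Reach w c) : c.st = [] := by
  rw [PDA.reach_iff] at h
  induction h with
  | refl => rfl
  | tail _ hs ih =>
    obtain ⟨t, ⟨y, _, rfl⟩, rfl⟩ := hs
    exact ih

theorem FA.lang_toPDA {α H : Type} (Γ : Type) (M : FA α H) : (M.toPDA Γ).lang = M.lang := by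
  ext w
  rw [PDA.mem_lang, FA.mem_lang]
  constructor
  · rintro ⟨c, hc, hacc⟩
    obtain ⟨b, hb, hP⟩ := simulate (s := M.Step w)
      (fun (a : PCfg (M.toPDA Γ).Q H Γ) (b : FCfg M.Q H) => b.q = a.q ∧ b.pos = a.pos)
      (by
        rintro ⟨q, p, st⟩ ⟨q', p'⟩ a' ⟨h1, h2⟩ ⟨t, ⟨y, hy, rfl⟩, rfl⟩
        simp only at h1 h2
        subst h1 h2
        exact ⟨_, ⟨y, hy, rfl⟩, rfl, rfl⟩)
      (b0 := M.start) ⟨rfl, rfl⟩ hc
    exact ⟨b, hb, by rw [hP.1]; exact hacc⟩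
  · rintro ⟨c, hc, hacc⟩
    obtain ⟨b, hb, hP⟩ := simulate (s := (M.toPDA Γ).Step w)
      (fun (b : FCfg M.Q H) (a : PCfg (M.toPDA Γ).Q H Γ) => a.q = b.q ∧ a.pos = b.pos)
      (by
        rintro ⟨q, p⟩ ⟨q', p', st⟩ a' ⟨h1, h2⟩ ⟨t, ht, rfl⟩
        simp only at h1 h2
        subst h1 h2
        exact ⟨_, ⟨(t.1, t.2, Op.keep), ⟨t, ht, rfl⟩, rfl⟩, rfl, rfl⟩)
      (b0 := (M.toPDA Γ).start) ⟨rfl, rfl⟩ hc
    exact ⟨b, hb, by rw [hP.1]; exact hacc⟩

end Pool.Agent.V8H47.MH
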