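import Mathlib

/-!
# Two-way multihead finite automata and pushdown automata

The input word `w` of length `n` is written between two endmarkers. The positions of the tape are
`0` (left endmarker), `1, …, n` (the letters of `w`) and `n + 1` (right endmarker). A step depends
on the state, the symbols seen by the heads and, for pushdown automata, the top symbol of the
pushdown store (`none` if the store is empty). Each head moves by at most one position (a head on
an endmarker which is told to move off the tape stays where it is), and a symbol may be pushed or
popped (popping from the empty store leaves it empty). The top of the store is the first element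
of the list.
-/

namespace Pool.Agent.V8H47.MH

/-- What a head can see: the left endmarker, a letter, or the right endmarker. -/
inductive Sym (α : Type)
  | left : Sym α
  | letter : α → Sym α
  | right : Sym α

/-- The moves of a head: to the left, none, to the right. -/
inductive Dir
  | L
  | S
  | R

/-- The actions on the pushdown store. -/
inductive Op (Γ : Type)
  | keep : Op Γ
  | push : Γ → Op Γ
  | pop : Op Γ

/-- The symbol at position `i` of the tape with the input word `w` between endmarkers. -/
def symAt {α : Type} (w : List α) : ℕ → Sym α
  | 0 => Sym.left
  | i + 1 => match w[i]? with
    | some a => Sym.letter a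
    | none => Sym.right

/-- The new position of a head at position `p` when the input word has length `n`. -/
def Dir.move (n : ℕ) : Dir → ℕ → ℕ
  | Dir.L, p => p - 1
  | Dir.S, p => p
  | Dir.R, p => min (p + 1) (n + 1)

/-- The new content of the pushdown store. -/
def Op.apply {Γ : Type} : Op Γ → List Γ → List Γ
  | Op.keep, s => s
  | Op.push g, s => g :: s
  | Op.pop, s => s.tail

/-- A two-way (nondeterministic) pushdown automaton with input alphabet `α`, pushdown alphabet
`Γ` and one input head for each element of `H`. -/
structure PDA (α H Γ : Type) where
  /-- the states -/
  Q : Type
  finQ : Finite Q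
  /-- the initial state -/
  init : Q
  /-- the accepting states -/
  acc : Set Q
  /-- the possible actions -/
  step : Q → (H → Sym α) → Option Γ → Set (Q × (H → Dir) × Op Γ)

/-- A two-way (nondeterministic) finite automaton with input alphabet `α` and one input head for
each element of `H`. -/
structure FA (α H : Type) where
  /-- the states -/
  Q : Type
  finQ : Finite Q
  /-- the initial state -/
  init : Q
  /-- the accepting states -/
  acc : Set Q
  /-- the possible actions -/
  step : Q → (H → Sym α) → Set (Q × (H → Dir))

/-- The configurations of a pushdown automaton: state, positions of the heads, content of the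
pushdown store (top symbol first). -/
@[ext] structure PCfg (Q H Γ : Type) where
  q : Q
  pos : H → ℕ
  st : List Γ

/-- The configurations of a finite automaton: state, positions of the heads. -/
@[ext] structure FCfg (Q H : Type) where
  q : Q
  pos : H → ℕ

namespace PDA

variable {α H Γ : Type} (M : PDA α H Γ)

/-- One step of the automaton on the input word `w`. -/
def Step (w : List α) (c c' : PCfg M.Q H Γ) : Prop :=
  ∃ t ∈ M.step c.q (fun h => symAt w (c.pos h)) c.st.head?,
    c' = ⟨t.1, fun h => (t.2.1 h).move w.length (c.pos h), t.2.2.apply c.st⟩

/-- The initial configuration: all heads on the left endmarker, empty store. -/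
def start : PCfg M.Q H Γ := ⟨M.init, fun _ => 0, []⟩

/-- `c` is reached from the initial configuration in exactly `t` steps. -/
def ReachIn (w : List α) : ℕ → PCfg M.Q H Γ → Prop
  | 0, c => c = M.start
  | t + 1, c => ∃ c', ReachIn w t c' ∧ M.Step w c' c

/-- `c` can be reached from the initial configuration. -/
def Reach (w : List α) (c : PCfg M.Q H Γ) : Prop := ∃ t, M.ReachIn w t c

/-- The language accepted by the automaton. -/
def lang : Language α := {w | ∃ c, M.Reach w c ∧ c.q ∈ M.acc}

/-- A deterministic automaton has at most one action in each situation. -/
def Det : Prop := ∀ q a g, (M.step q a g).Subsingleton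

end PDA

namespace FA

variable {α H : Type} (M : FA α H)

/-- One step of the automaton on the input word `w`. -/
def Step (w : List α) (c c' : FCfg M.Q H) : Prop :=
  ∃ t ∈ M.step c.q (fun h => symAt w (c.pos h)),
    c' = ⟨t.1, fun h => (t.2 h).move w.length (c.pos h)⟩

/-- The initial configuration: all heads on the left endmarker. -/
def start : FCfg M.Q H := ⟨M.init, fun _ => 0⟩

/-- `c` is reached from the initial configuration in exactly `t` steps. -/
def ReachIn (w : List α) : ℕ → FCfg M.Q H → Prop
  | 0, c => c = M.start
  | t + 1, c => ∃ c', ReachIn w t c' ∧ M.Step w c' c

/-- `c` can be reached from the initial configuration. -/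
def Reach (w : List α) (c : FCfg M.Q H) : Prop := ∃ t, M.ReachIn w t c

/-- The language accepted by the automaton. -/
def lang : Language α := {w | ∃ c, M.Reach w c ∧ c.q ∈ M.acc}

/-- A deterministic automaton has at most one action in each situation. -/
def Det : Prop := ∀ q a, (M.step q a).Subsingleton

end FA

/-- The position at time `x` of a point that runs through `0, …, r - 1`, then through
`r - 1, …, 0`, then through `0, …, r - 1` again, and so on. -/
def zig (r x : ℕ) : ℕ := if (x / r) % 2 = 0 then x % r else r - 1 - x % r

/-- The languages over `α` accepted by deterministic two-way `k`-head pushdown automata. -/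
def twoDPDA (k : ℕ) (α : Type) : Set (Language α) :=
  {L | ∃ (Γ : Type) (_ : Finite Γ) (M : PDA α (Fin k) Γ), M.Det ∧ M.lang = L}

/-- The languages over `α` accepted by nondeterministic two-way `k`-head pushdown automata. -/
def twoNPDA (k : ℕ) (α : Type) : Set (Language α) :=
  {L | ∃ (Γ : Type) (_ : Finite Γ) (M : PDA α (Fin k) Γ), M.lang = L}

/-- The languages over `α` accepted by deterministic two-way `k`-head finite automata. -/
def twoDFA (k : ℕ) (α : Type) : Set (Language α) :=
  {L | ∃ M : FA α (Fin k), M.Det ∧ M.lang = L}

/-- The languages over `α` accepted by nondeterministic two-way `k`-head finite automata. -/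
def twoNFA (k : ℕ) (α : Type) : Set (Language α) :=
  {L | ∃ M : FA α (Fin k), M.lang = L}

end Pool.Agent.V8H47.MH
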