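import Pool.Agent.V8H47.MH.Block

/-!
# A universal pushdown automaton with one head
-/

namespace Pool.Agent.V8H47.MH

open Relation

/-! ### Deterministic stretches -/

section acc

variable {X : Type*} (r : X → X → Prop) (F : X → Prop)

/-- `F` can be reached in at most `n` steps -/
def AccN : ℕ → X → Prop
  | 0, x => F x
  | n + 1, x => F x ∨ ∃ y, r x y ∧ AccN n y

/-- a step without alternative -/
def DS (x y : X) : Prop := ¬ F x ∧ r x y ∧ ∀ z, r x z → z = y

/-- several steps without alternatives -/
def DT : X → X → Prop := ReflTransGen (DS r F)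

variable {r F}

theorem accN_of_reach {x y : X} (h : ReflTransGen r x y) (hy : F y) : ∃ n, AccN r F n x := by
  induction h using ReflTransGen.head_induction_on with
  | refl => exact ⟨0, hy⟩
  | head hs _ ih => obtain ⟨n, hn⟩ := ih; exact ⟨n + 1, Or.inr ⟨_, hs, hn⟩⟩

theorem DT.reach {x y : X} (h : DT r F x y) : ReflTransGen r x y :=
  ReflTransGen.mono (fun _ _ h => h.2.1) _ _ h

theorem DT.accN {x y : X} (h : DT r F x y) {n : ℕ} (hn : AccN r F n x) :
    ∃ m, m ≤ n ∧ AccN r F m y := by
  unfold DT at h
  induction h using ReflTransGen.head_induction_on generalizing n with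
  | refl => exact ⟨n, le_rfl, hn⟩
  | @head x z hs _ ih =>
    cases n with
    | zero => exact absurd hn hs.1
    | succ n =>
      rcases hn with hn | ⟨z', hz', hn⟩
      · exact absurd hn hs.1
      · rw [hs.2.2 z' hz'] at hn
        obtain ⟨m, hm, h⟩ := ih hn
        exact ⟨m, by omega, h⟩

end acc

/-! ### The universal automaton -/

/-- The letters. -/
inductive UL
  | one | hash | pp | bang | dL | dS | dR | bar | semi | dol

instance : Finite UL := by
  let f : UL → Fin 10 := fun s => match s with
    | .one => 0 | .hash => 1 | .pp => 2 | .bang => 3 | .dL => 4 | .dS => 5 | .dR => 6 | .bar => 7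
    | .semi => 8 | .dol => 9
  refine Finite.of_injective f ?_
  intro a b h
  cases a <;> cases b <;> simp_all [f]

/-- The states. -/
inductive UQ
  | init | find | skip | exec | go | alt | gs | gl | gr | acc

instance : Finite UQ := by
  let f : UQ → Fin 10 := fun s => match s with
    | .init => 0 | .find => 1 | .skip => 2 | .exec => 3 | .go => 4 | .alt => 5 | .gs => 6 | .gl => 7
    | .gr => 8 | .acc => 9
  refine Finite.of_injective f ?_
  intro a b h
  cases a <;> cases b <;> simp_all [f]

/-- The action on a letter, except in the states `find` and `exec`. -/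
def uAct : UQ → UL → Option (UQ × Dir × Op Bool)
  | .skip, .semi => some (.find, Dir.R, Op.keep)
  | .skip, _ => some (.skip, Dir.R, Op.keep)
  | .go, .one => some (.go, Dir.R, Op.push true)
  | .go, .hash => some (.go, Dir.R, Op.push false)
  | .go, .pp => some (.go, Dir.R, Op.pop)
  | .go, .bang => some (.acc, Dir.S, Op.keep)
  | .go, .dL => some (.gl, Dir.S, Op.keep)
  | .go, .dS => some (.gs, Dir.S, Op.keep)
  | .go, .dR => some (.gr, Dir.S, Op.keep)
  | .alt, .bar => some (.exec, Dir.R, Op.keep)
  | .alt, _ => some (.alt, Dir.R, Op.keep)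
  | .gs, .dol => some (.find, Dir.R, Op.keep)
  | .gs, _ => some (.gs, Dir.L, Op.keep)
  | .gl, .dol => some (.gs, Dir.L, Op.keep)
  | .gl, _ => some (.gl, Dir.L, Op.keep)
  | .gr, .dol => some (.find, Dir.R, Op.keep)
  | .gr, _ => some (.gr, Dir.R, Op.keep)
  | _, _ => none

/-- The transition function; `nd`: is the automaton nondeterministic? -/
def uStep (nd : Bool) (q : UQ) (a : Sym UL) (g : Option Bool) : Set (UQ × Dir × Op Bool) :=
  match a with
  | Sym.left => {x | q = .init ∧ x = (.gs, Dir.R, Op.keep)}
  | Sym.right => ∅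
  | Sym.letter l =>
    match q with
    | .find => if g = some true then {(.skip, Dir.S, Op.pop)} else {(.exec, Dir.S, Op.keep)}
    | .exec => {x | l ≠ .semi ∧ (x = (.go, Dir.S, Op.keep) ∨
        (nd = true ∧ x = (.alt, Dir.S, Op.keep)))}
    | q => {x | uAct q l = some x}

/-- The universal automaton. -/
def univ (nd : Bool) : PDA UL (Fin 1) Bool where
  Q := UQ
  finQ := inferInstance
  init := .init
  acc := {.acc}
  step q a g := {x | ∃ y ∈ uStep nd q (a 0) g, x = (y.1, fun _ => y.2.1, y.2.2)}

theorem det_univ : (univ false).Det := by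
  rintro q a g x ⟨y, hy, rfl⟩ x' ⟨y', hy', rfl⟩
  suffices y = y' by rw [this]
  unfold uStep at hy hy'
  cases ha : a 0 with
  | left =>
    rw [ha] at hy hy'
    exact hy.2.trans hy'.2.symm
  | right => rw [ha] at hy; exact absurd hy (Set.notMem_empty _)
  | letter l =>
    rw [ha] at hy hy'
    cases q with
    | find =>
      simp only at hy hy'
      split_ifs at hy hy' <;> exact hy.trans hy'.symm
    | exec =>
      rcases hy with ⟨_, h | ⟨h, _⟩⟩
      · rcases hy' with ⟨_, h' | ⟨h', _⟩⟩
        · exact h.trans h'.symm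
        · exact absurd h' (by simp)
      · exact absurd h (by simp)
    | init => exact Option.some.inj (Eq.trans (Eq.symm hy) hy')
    | skip => exact Option.some.inj (Eq.trans (Eq.symm hy) hy')
    | go => exact Option.some.inj (Eq.trans (Eq.symm hy) hy')
    | alt => exact Option.some.inj (Eq.trans (Eq.symm hy) hy')
    | gs => exact Option.some.inj (Eq.trans (Eq.symm hy) hy')
    | gl => exact Option.some.inj (Eq.trans (Eq.symm hy) hy')
    | gr => exact Option.some.inj (Eq.trans (Eq.symm hy) hy')
    | acc => exact Option.some.inj (Eq.trans (Eq.symm hy) hy')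

/-! ### Runs on a fixed tape -/

section runs

variable (nd : Bool) (T : List UL)

/-- a configuration; `L` is the part of the tape to the left of the head, from the head to the
left -/
def Z (q : UQ) (L : List UL) (st : List Bool) : PCfg (univ nd).Q (Fin 1) Bool :=
  ⟨q, fun _ => L.length + 1, st⟩

/-- acceptance -/
def UF (x : PCfg (univ nd).Q (Fin 1) Bool) : Prop := x.q ∈ (univ nd).acc

theorem symAt_zip {L R : List UL} {a : UL} (hT : T = L.reverse ++ a :: R) :
    symAt T (L.length + 1) = Sym.letter a := by
  subst hT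
  simp [symAt]

/-- the position after a move -/
def zmove : Dir → List UL → UL → ℕ
  | Dir.L, L, _ => L.length
  | Dir.S, L, _ => L.length + 1
  | Dir.R, L, _ => L.length + 2

theorem move_zip {L R : List UL} {a : UL} (hT : T = L.reverse ++ a :: R) (d : Dir) :
    d.move T.length (L.length + 1) = zmove d L a := by
  subst hT
  cases d with
  | L => simp [Dir.move, zmove]
  | S => rfl
  | R => simp [Dir.move, zmove]

theorem step_Z {q : UQ} {L R : List UL} {a : UL} {st : List Bool}
    (hT : T = L.reverse ++ a :: R) (x : PCfg (univ nd).Q (Fin 1) Bool) :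
    (univ nd).Step T (Z nd q L st) x ↔
      ∃ y ∈ uStep nd q (Sym.letter a) st.head?,
        x = ⟨y.1, fun _ => zmove y.2.1 L a, y.2.2.apply st⟩ := by
  constructor
  · rintro ⟨t, ⟨y, hy, rfl⟩, rfl⟩
    simp only [Z, symAt_zip T hT] at hy
    refine ⟨y, hy, ?_⟩
    simp only [Z, move_zip T hT]
  · rintro ⟨y, hy, rfl⟩
    refine ⟨(y.1, fun _ => y.2.1, y.2.2), ⟨y, ?_, rfl⟩, ?_⟩
    · simp only [Z, symAt_zip T hT]; exact hy
    · simp only [Z, move_zip T hT]

theorem ds_Z {q : UQ} {L R : List UL} {a : UL} {st : List Bool}
    (hT : T = L.reverse ++ a :: R) (hq : q ≠ .acc) {y : UQ × Dir × Op Bool}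
    (hy : uStep nd q (Sym.letter a) st.head? = {y}) :
    DS ((univ nd).Step T) (UF nd) (Z nd q L st)
      ⟨y.1, fun _ => zmove y.2.1 L a, y.2.2.apply st⟩ := by
  refine ⟨hq, ?_, ?_⟩
  · rw [step_Z nd T hT]
    exact ⟨y, by rw [hy]; rfl, rfl⟩
  · intro z hz
    rw [step_Z nd T hT] at hz
    obtain ⟨y', hy', rfl⟩ := hz
    rw [hy] at hy'
    rw [Set.mem_singleton_iff.1 hy']

theorem set_some {x : UQ × Dir × Op Bool} : {y | some x = some y} = ({x} : Set _) := by
  ext y
  simp [eq_comm]

theorem dtR {q q' : UQ} {L R : List UL} {a : UL} {st st' : List Bool} {op : Op Bool}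
    (hT : T = L.reverse ++ a :: R) (hq : q ≠ .acc)
    (hy : uStep nd q (Sym.letter a) st.head? = {(q', Dir.R, op)}) (hst : op.apply st = st') :
    DT ((univ nd).Step T) (UF nd) (Z nd q L st) (Z nd q' (a :: L) st') := by
  refine ReflTransGen.single ?_
  have := ds_Z nd T hT hq hy
  simp only [hst] at this
  exact this

theorem dtS {q q' : UQ} {L R : List UL} {a : UL} {st st' : List Bool} {op : Op Bool}
    (hT : T = L.reverse ++ a :: R) (hq : q ≠ .acc)
    (hy : uStep nd q (Sym.letter a) st.head? = {(q', Dir.S, op)}) (hst : op.apply st = st') :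
    DT ((univ nd).Step T) (UF nd) (Z nd q L st) (Z nd q' L st') := by
  refine ReflTransGen.single ?_
  have := ds_Z nd T hT hq hy
  simp only [hst] at this
  exact this

theorem dtL {q q' : UQ} {L R : List UL} {a b : UL} {st st' : List Bool} {op : Op Bool}
    (hT : T = (b :: L).reverse ++ a :: R) (hq : q ≠ .acc)
    (hy : uStep nd q (Sym.letter a) st.head? = {(q', Dir.L, op)}) (hst : op.apply st = st') :
    DT ((univ nd).Step T) (UF nd) (Z nd q (b :: L) st) (Z nd q' L st') := by
  refine ReflTransGen.single ?_
  have := ds_Z nd T hT hq hy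
  simp only [hst] at this
  exact this

theorem dt_trans {x y z : PCfg (univ nd).Q (Fin 1) Bool} (h1 : DT ((univ nd).Step T) (UF nd) x y)
    (h2 : DT ((univ nd).Step T) (UF nd) y z) : DT ((univ nd).Step T) (UF nd) x z :=
  ReflTransGen.trans h1 h2

theorem gs_run (L' : List UL) (st : List Bool) : ∀ (l : List UL) (a : UL) (R : List UL),
    (∀ x ∈ l, x ≠ UL.dol) → a ≠ UL.dol → T = (l ++ UL.dol :: L').reverse ++ a :: R →
    DT ((univ nd).Step T) (UF nd) (Z nd .gs (l ++ UL.dol :: L') st)
      (Z nd .find (UL.dol :: L') st) := by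
  intro l
  induction l with
  | nil =>
    intro a R _ ha hT
    refine dt_trans nd T (dtL nd T (q' := .gs) (op := Op.keep) (st' := st) hT (by simp) ?_ rfl)
      (dtR nd T (R := a :: R) (q' := .find) (op := Op.keep) (st' := st) (by simpa using hT)
        (by simp) ?_ rfl)
    · cases a <;> first | exact absurd rfl ha | exact set_some
    · exact set_some
  | cons x l ih =>
    intro a R hl ha hT
    refine dt_trans nd T (dtL nd T (q' := .gs) (op := Op.keep) (st' := st) hT (by simp) ?_ rfl)
      (ih x (a :: R) (fun y hy => hl y (by simp [hy])) (hl x (by simp)) (by simpa using hT))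
    cases a <;> first | exact absurd rfl ha | exact set_some

theorem gl_run (L' : List UL) (st : List Bool) (l2 : List UL) (x2 : UL)
    (hl2 : ∀ x ∈ l2, x ≠ UL.dol) (hx2 : x2 ≠ UL.dol) : ∀ (l : List UL) (a : UL) (R : List UL),
    (∀ x ∈ l, x ≠ UL.dol) → a ≠ UL.dol →
    T = (l ++ UL.dol :: x2 :: (l2 ++ UL.dol :: L')).reverse ++ a :: R →
    DT ((univ nd).Step T) (UF nd) (Z nd .gl (l ++ UL.dol :: x2 :: (l2 ++ UL.dol :: L')) st)
      (Z nd .find (UL.dol :: L') st) := by
  intro l
  induction l with
  | nil =>
    intro a R _ ha hT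
    refine dt_trans nd T (dtL nd T (q' := .gl) (op := Op.keep) (st' := st) hT (by simp) ?_ rfl)
      (dt_trans nd T (dtL nd T (R := a :: R) (a := UL.dol) (q' := .gs) (op := Op.keep) (st' := st)
        (by simpa using hT) (by simp) ?_ rfl)
        (gs_run nd T L' st l2 x2 (UL.dol :: a :: R) hl2 hx2 (by simpa using hT)))
    · cases a <;> first | exact absurd rfl ha | exact set_some
    · exact set_some
  | cons x l ih =>
    intro a R hl ha hT
    refine dt_trans nd T (dtL nd T (q' := .gl) (op := Op.keep) (st' := st) hT (by simp) ?_ rfl)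
      (ih x (a :: R) (fun y hy => hl y (by simp [hy])) (hl x (by simp)) (by simpa using hT))
    cases a <;> first | exact absurd rfl ha | exact set_some

theorem gr_run (R : List UL) (st : List Bool) : ∀ (s : List UL) (L : List UL),
    (∀ x ∈ s, x ≠ UL.dol) → T = L.reverse ++ (s ++ UL.dol :: R) →
    DT ((univ nd).Step T) (UF nd) (Z nd .gr L st) (Z nd .find (UL.dol :: (s.reverse ++ L)) st) := by
  intro s
  induction s with
  | nil =>
    intro L _ hT
    refine dtR nd T (R := R) (q' := .find) (op := Op.keep) (st' := st) hT (by simp) set_some rfl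
  | cons x s ih =>
    intro L hs hT
    have h1 := ih (x :: L) (fun y hy => hs y (by simp [hy])) (by simpa using hT)
    have e : UL.dol :: ((x :: s).reverse ++ L) = UL.dol :: (s.reverse ++ x :: L) := by simp
    rw [e]
    refine dt_trans nd T (dtR nd T (R := s ++ UL.dol :: R) (q' := .gr) (op := Op.keep)
      (st' := st) hT (by simp) ?_ rfl) h1
    have hx := hs x (by simp)
    cases x <;> first | exact absurd rfl hx | exact set_some

theorem skip_run (R : List UL) (st : List Bool) : ∀ (s : List UL) (L : List UL),
    (∀ x ∈ s, x ≠ UL.semi) → T = L.reverse ++ (s ++ UL.semi :: R) →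
    DT ((univ nd).Step T) (UF nd) (Z nd .skip L st)
      (Z nd .find (UL.semi :: (s.reverse ++ L)) st) := by
  intro s
  induction s with
  | nil =>
    intro L _ hT
    refine dtR nd T (R := R) (q' := .find) (op := Op.keep) (st' := st) hT (by simp) set_some rfl
  | cons x s ih =>
    intro L hs hT
    have h1 := ih (x :: L) (fun y hy => hs y (by simp [hy])) (by simpa using hT)
    have e : UL.semi :: ((x :: s).reverse ++ L) = UL.semi :: (s.reverse ++ x :: L) := by simp
    rw [e]
    refine dt_trans nd T (dtR nd T (R := s ++ UL.semi :: R) (q' := .skip) (op := Op.keep)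
      (st' := st) hT (by simp) ?_ rfl) h1
    have hx := hs x (by simp)
    cases x <;> first | exact absurd rfl hx | exact set_some

theorem alt_run (R : List UL) (st : List Bool) : ∀ (s : List UL) (L : List UL),
    (∀ x ∈ s, x ≠ UL.bar) → T = L.reverse ++ (s ++ UL.bar :: R) →
    DT ((univ nd).Step T) (UF nd) (Z nd .alt L st)
      (Z nd .exec (UL.bar :: (s.reverse ++ L)) st) := by
  intro s
  induction s with
  | nil =>
    intro L _ hT
    refine dtR nd T (R := R) (q' := .exec) (op := Op.keep) (st' := st) hT (by simp) set_some rfl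
  | cons x s ih =>
    intro L hs hT
    have h1 := ih (x :: L) (fun y hy => hs y (by simp [hy])) (by simpa using hT)
    have e : UL.bar :: ((x :: s).reverse ++ L) = UL.bar :: (s.reverse ++ x :: L) := by simp
    rw [e]
    refine dt_trans nd T (dtR nd T (R := s ++ UL.bar :: R) (q' := .alt) (op := Op.keep)
      (st' := st) hT (by simp) ?_ rfl) h1
    have hx := hs x (by simp)
    cases x <;> first | exact absurd rfl hx | exact set_some

/-- letters of a string to be pushed -/
def lt : Bool → UL
  | true => UL.one
  | false => UL.hash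

theorem go_run (R : List UL) : ∀ (s : List Bool) (L : List UL) (st : List Bool),
    T = L.reverse ++ (s.map lt ++ R) →
    DT ((univ nd).Step T) (UF nd) (Z nd .go L st)
      (Z nd .go ((s.map lt).reverse ++ L) (s.reverse ++ st)) := by
  intro s
  induction s with
  | nil => intro L st _; exact .refl
  | cons x s ih =>
    intro L st hT
    have h1 := ih (lt x :: L) (x :: st) (by simpa using hT)
    have e : ((x :: s).map lt).reverse ++ L = (s.map lt).reverse ++ lt x :: L := by simp
    have e2 : (x :: s).reverse ++ st = s.reverse ++ x :: st := by simp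
    rw [e, e2]
    refine dt_trans nd T (dtR nd T (R := s.map lt ++ R) (q' := .go) (op := Op.push x)
      (st' := x :: st) hT (by simp) ?_ rfl) h1
    cases x <;> exact set_some

/-- searching the item -/
theorem find_run (R : List UL) (st : List Bool) : ∀ (its : List (List UL)) (L : List UL),
    (∀ s ∈ its, ∀ x ∈ s, x ≠ UL.semi) →
    T = L.reverse ++ (its.flatMap (fun s => s ++ [UL.semi]) ++ R) →
    DT ((univ nd).Step T) (UF nd) (Z nd .find L (List.replicate its.length true ++ st))
      (Z nd .find ((its.flatMap (fun s => s ++ [UL.semi])).reverse ++ L) st) := by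
  intro its
  induction its with
  | nil => intro L _ _; exact .refl
  | cons s its ih =>
    intro L hs hT
    have h1 := ih (UL.semi :: (s.reverse ++ L)) (fun y hy => hs y (by simp [hy]))
      (by simpa using hT)
    have e : ((s :: its).flatMap (fun s => s ++ [UL.semi])).reverse ++ L =
        (its.flatMap (fun s => s ++ [UL.semi])).reverse ++ UL.semi :: (s.reverse ++ L) := by simp
    rw [e]
    refine dt_trans nd T ?_ (dt_trans nd T (skip_run nd T
      (its.flatMap (fun s => s ++ [UL.semi]) ++ R) (List.replicate its.length true ++ st) s L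
      (hs s (by simp)) (by simpa using hT)) h1)
    have hfirst : ∃ a R', s ++ UL.semi :: (its.flatMap (fun s => s ++ [UL.semi]) ++ R) = a :: R' := by
      cases s with
      | nil => exact ⟨_, _, rfl⟩
      | cons a s => exact ⟨_, _, rfl⟩
    obtain ⟨a, R', ha⟩ := hfirst
    refine dtS nd T (a := a) (R := R') (q' := .skip) (op := Op.pop) ?_ (by simp) ?_ ?_
    · rw [hT, ← ha]; simp
    · simp [uStep, List.replicate_succ]
    · simp [Op.apply, List.replicate_succ]

end runs

end Pool.Agent.V8H47.MH
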