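import Pool.Agent.V8H47.MH.VTape

/-!
# Block coding of a tape
-/

namespace Pool.Agent.V8H47.MH

instance finite_sym {α : Type} [Finite α] : Finite (Sym α) := by
  let f : Sym α → Option (Option α) := fun s => match s with
    | .left => none
    | .right => some none
    | .letter a => some (some a)
  refine Finite.of_injective f ?_
  intro a b h
  cases a <;> cases b <;> simp_all [f]

instance finite_dir : Finite Dir := by
  let f : Dir → Fin 3 := fun s => match s with
    | .L => 0
    | .S => 1
    | .R => 2
  refine Finite.of_injective f ?_
  intro a b h
  cases a <;> cases b <;> simp_all [f]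

instance finite_op {Γ : Type} [Finite Γ] : Finite (Op Γ) := by
  let f : Op Γ → Option (Option Γ) := fun s => match s with
    | .keep => none
    | .pop => some none
    | .push a => some (some a)
  refine Finite.of_injective f ?_
  intro a b h
  cases a <;> cases b <;> simp_all [f]

variable {α β : Type}

theorem getElem?_flatMap_block {X : Type} {b : ℕ} (hb : 0 < b) (g : X → List β)
    (hg : ∀ a, (g a).length = b) : ∀ (l : List X) (t : ℕ),
    (l.flatMap g)[t]? = (l[t / b]?).bind (fun a => (g a)[t % b]?) := by
  intro l
  induction l with
  | nil => intro t; simp
  | cons a l ih =>
    intro t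
    rw [List.flatMap_cons]
    rcases Nat.lt_or_ge t b with h | h
    · rw [List.getElem?_append_left (by rw [hg]; exact h), Nat.div_eq_of_lt h,
        Nat.mod_eq_of_lt h]
      simp
    · rw [List.getElem?_append_right (by rw [hg]; exact h), ih, hg]
      obtain ⟨s, rfl⟩ := Nat.exists_eq_add_of_le h
      rw [Nat.add_sub_cancel_left, Nat.add_div_left _ hb, Nat.add_mod_left]
      simp

theorem length_flatMap_block {X : Type} {b : ℕ} (g : X → List β)
    (hg : ∀ a, (g a).length = b) (l : List X) : (l.flatMap g).length = b * l.length := by
  induction l with
  | nil => simp
  | cons a l ih =>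
    rw [List.flatMap_cons, List.length_append, ih, hg, List.length_cons]; ring

/-- the coded tape -/
def blkTape (g : Sym α → List β) (w : List α) : List β :=
  (List.range (w.length + 2)).flatMap (fun i => g (symAt w i))

section

variable {b : ℕ} (hb : 0 < b) (g : Sym α → List β) (hg : ∀ a, (g a).length = b)

include hg in
theorem length_blkTape (w : List α) : (blkTape g w).length = b * (w.length + 2) := by
  unfold blkTape
  rw [length_flatMap_block _ (fun i => hg _), List.length_range]

include hb in
theorem symAt_blkTape (w : List α) (t : ℕ) (ht : t < b * (w.length + 2)) :
    symAt (blkTape g w) (t + 1) =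
      Sym.letter ((g (symAt w (t / b)))[t % b]'(by rw [hg]; exact Nat.mod_lt _ hb)) := by
  have h1 : t / b < w.length + 2 := Nat.div_lt_of_lt_mul ht
  change (match (blkTape g w)[t]? with
    | some a => Sym.letter a
    | none => Sym.right) = _
  unfold blkTape
  rw [getElem?_flatMap_block hb _ (fun i => hg _)]
  rw [List.getElem?_range h1]
  simp only [Option.bind_some]
  rw [List.getElem?_eq_getElem (by rw [hg]; exact Nat.mod_lt _ hb)]

/-- the movement on the coded tape -/
def blkMv : Option Bool × Fin b → (Fin 1 → Sym α) → Dir → (Option Bool × Fin b) × (Fin 1 → Dir)
  | (none, o), a, Dir.R =>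
      if h : (o : ℕ) + 1 < b then ((none, ⟨o + 1, h⟩), fun _ => Dir.S)
      else match a 0 with
        | Sym.right => ((some true, o), fun _ => Dir.S)
        | _ => ((none, ⟨0, hb⟩), fun _ => Dir.R)
  | (none, o), a, Dir.L =>
      if (o : ℕ) = 0 then match a 0 with
        | Sym.left => ((some false, o), fun _ => Dir.S)
        | _ => ((none, ⟨b - 1, by omega⟩), fun _ => Dir.L)
      else ((none, ⟨o - 1, by omega⟩), fun _ => Dir.S)
  | (some false, _), _, Dir.R => ((none, ⟨0, hb⟩), fun _ => Dir.S)
  | (some true, _), _, Dir.L => ((none, ⟨b - 1, by omega⟩), fun _ => Dir.S)
  | x, _, _ => (x, fun _ => Dir.S)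

/-- representation of the positions of the coded tape -/
def blkRep (w : List α) (p : ℕ) : (Option Bool × Fin b) × (Fin 1 → ℕ) :=
  if p = 0 then ((some false, ⟨0, hb⟩), fun _ => 0)
  else if p ≤ b * (w.length + 2) then
    ((none, ⟨(p - 1) % b, Nat.mod_lt _ hb⟩), fun _ => (p - 1) / b)
  else ((some true, ⟨b - 1, by omega⟩), fun _ => w.length + 1)

theorem blkRep_in (w : List α) (t : ℕ) (ht : t < b * (w.length + 2)) :
    blkRep hb w (t + 1) = ((none, ⟨t % b, Nat.mod_lt _ hb⟩), fun _ => t / b) := by
  unfold blkRep
  rw [if_neg (by omega), if_pos (by omega)]
  simp

theorem blkRep_end (w : List α) :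
    blkRep hb w (b * (w.length + 2) + 1) =
      ((some true, ⟨b - 1, by omega⟩), fun _ => w.length + 1) := by
  unfold blkRep
  rw [if_neg (by omega), if_neg (by omega)]

/-- The coded tape as a virtual tape with one head. -/
def blkVT : VT α β (Fin 1) (blkTape g) where
  D := Option Bool × Fin b
  finD := inferInstance
  d0 := (some false, ⟨0, hb⟩)
  sym d a := match d.1 with
    | none => Sym.letter ((g (a 0))[(d.2 : ℕ)]'(by rw [hg]; exact d.2.2))
    | some false => Sym.left
    | some true => Sym.right
  mv := blkMv hb
  rep := blkRep hb
  rep_zero w := by
    unfold blkRep
    simp
  rep_sym w p hp := by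
    rw [length_blkTape g hg] at hp
    cases p with
    | zero =>
      unfold blkRep
      simp [symAt]
    | succ t =>
      rcases Nat.lt_or_ge t (b * (w.length + 2)) with h | h
      · rw [blkRep_in hb w t h, symAt_blkTape hb g hg w t h]
      · have : t = b * (w.length + 2) := by omega
        subst this
        rw [blkRep_end]
        simp only
        symm
        rw [symAt_eq_right, length_blkTape g hg]
  rep_mv w p d hp := by
    rw [length_blkTape g hg] at hp ⊢
    have hR : 0 < b * (w.length + 2) := Nat.mul_pos hb (by omega)
    cases p with
    | zero =>
      have h0 : blkRep hb w 0 = ((some false, ⟨0, hb⟩), fun _ => 0) := by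
        unfold blkRep; simp
      cases d with
      | L => simp only [Dir.move, h0, blkMv, Nat.zero_sub]
      | S => simp only [Dir.move, h0, blkMv]
      | R =>
        have e1 : Dir.R.move (b * (w.length + 2)) 0 = 0 + 1 := by simp [Dir.move]
        rw [e1, blkRep_in hb w 0 hR, h0]
        simp [blkMv, Dir.move]
    | succ t =>
      rcases Nat.lt_or_ge t (b * (w.length + 2)) with h | h
      · have e0 := blkRep_in hb w t h
        have hdm := Nat.div_add_mod t b
        have hml := Nat.mod_lt t hb
        have hdl : t / b < w.length + 2 := Nat.div_lt_of_lt_mul h
        cases d with
        | S => simp only [Dir.move, e0, blkMv]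
        | R =>
          rw [e0]
          simp only [blkMv]
          by_cases hc : t % b + 1 < b
          · rw [dif_pos hc]
            have h2 : t + 1 < b * (w.length + 2) := by
              have : b * (t / b) + b ≤ b * (w.length + 2) := by
                have := Nat.mul_le_mul_left b (Nat.succ_le_of_lt hdl)
                rw [Nat.mul_succ] at this
                exact this
              omega
            have e1 : Dir.R.move (b * (w.length + 2)) (t + 1) = t + 1 + 1 := by
              simp only [Dir.move]; omega
            rw [e1, blkRep_in hb w (t + 1) h2]
            have h3 : (t + 1) / b = t / b := succ_div_of_ne hb (by omega)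
            have h4 : (t + 1) % b = t % b + 1 := succ_mod_of_ne hb (by omega)
            simp only [h3, h4, Dir.move]
          · rw [dif_neg hc]
            have hm : t % b = b - 1 := by omega
            have h3 : (t + 1) / b = t / b + 1 := succ_div_of_eq hb hm
            have h4 : (t + 1) % b = 0 := succ_mod_of_eq hb hm
            by_cases hl : t / b = w.length + 1
            · have hsym : symAt w (t / b) = Sym.right := by rw [symAt_eq_right]; omega
              have ht : t + 1 = b * (w.length + 2) := by
                have : b * (w.length + 2) = b * (w.length + 1) + b := by ring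
                rw [this, ← hl]; omega
              have e1 : Dir.R.move (b * (w.length + 2)) (t + 1) = b * (w.length + 2) + 1 := by
                simp only [Dir.move]; omega
              rw [e1, blkRep_end, hsym]
              simp only [Dir.move, hl, hm]
            · have hsym : symAt w (t / b) ≠ Sym.right := by
                intro hcon; rw [symAt_eq_right] at hcon; omega
              have h2 : t + 1 < b * (w.length + 2) := by
                have : b * (t / b + 1 + 1) ≤ b * (w.length + 2) :=
                  Nat.mul_le_mul_left b (by omega)
                have e : b * (t / b + 1 + 1) = b * (t / b) + b + b := by ring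
                omega
              have e1 : Dir.R.move (b * (w.length + 2)) (t + 1) = t + 1 + 1 := by
                simp only [Dir.move]; omega
              rw [e1, blkRep_in hb w (t + 1) h2]
              have h5 : min (t / b + 1) (w.length + 1) = t / b + 1 := by omega
              cases hs : symAt w (t / b) with
              | right => exact absurd hs hsym
              | left => simp only [h3, h4, Dir.move, h5]
              | letter a => simp only [h3, h4, Dir.move, h5]
        | L =>
          rw [e0]
          simp only [blkMv]
          by_cases hc : t % b = 0
          · rw [if_pos hc]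
            by_cases hl : t / b = 0
            · have ht : t = 0 := by rw [hl, hc] at hdm; simpa using hdm.symm
              subst ht
              have hsym : symAt w (0 / b) = Sym.left := by simp [symAt]
              have e1 : Dir.L.move (b * (w.length + 2)) (0 + 1) = 0 := by simp [Dir.move]
              rw [e1, hsym]
              unfold blkRep
              simp [Dir.move]
            · have hsym : symAt w (t / b) ≠ Sym.left := by
                intro hcon; rw [symAt_eq_left] at hcon; exact hl hcon
              obtain ⟨s, hs⟩ := Nat.exists_eq_succ_of_ne_zero hl
              have h6 : t = b * s + b := by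
                rw [← hdm, hc, hs]; simp [Nat.mul_succ]
              have e1 : Dir.L.move (b * (w.length + 2)) (t + 1) = (t - 1) + 1 := by
                simp only [Dir.move]; omega
              rw [e1, blkRep_in hb w (t - 1) (by omega)]
              have h7 : t - 1 = b * s + (b - 1) := by omega
              have h8 : (t - 1) / b = s := by
                rw [h7, Nat.mul_add_div hb, Nat.div_eq_of_lt (by omega)]; simp
              have h9 : (t - 1) % b = b - 1 := by
                rw [h7, Nat.mul_add_mod, Nat.mod_eq_of_lt (by omega)]
              cases hs' : symAt w (t / b) with
              | left => exact absurd hs' hsym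
              | right => simp only [h8, h9, Dir.move, hs, Nat.succ_sub_one]
              | letter a => simp only [h8, h9, Dir.move, hs, Nat.succ_sub_one]
          · rw [if_neg hc]
            have e1 : Dir.L.move (b * (w.length + 2)) (t + 1) = (t - 1) + 1 := by
              simp only [Dir.move]; omega
            rw [e1, blkRep_in hb w (t - 1) (by omega)]
            have h7 : t - 1 = b * (t / b) + (t % b - 1) := by omega
            have h10 : t % b - 1 < b := lt_of_le_of_lt (Nat.sub_le _ _) hml
            have h8 : (t - 1) / b = t / b := by
              conv_lhs => rw [h7]
              rw [Nat.mul_add_div hb, Nat.div_eq_of_lt h10, add_zero]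
            have h9 : (t - 1) % b = t % b - 1 := by
              conv_lhs => rw [h7]
              rw [Nat.mul_add_mod, Nat.mod_eq_of_lt h10]
            simp only [h8, h9, Dir.move]
      · have : t = b * (w.length + 2) := by omega
        subst this
        have e0 := blkRep_end hb w
        cases d with
        | S => simp only [Dir.move, e0, blkMv]
        | R =>
          have e1 : Dir.R.move (b * (w.length + 2)) (b * (w.length + 2) + 1)
              = b * (w.length + 2) + 1 := by simp only [Dir.move]; omega
          rw [e1, e0]
          simp only [blkMv, Dir.move]
        | L =>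
          have e1 : Dir.L.move (b * (w.length + 2)) (b * (w.length + 2) + 1)
              = (b * (w.length + 2) - 1) + 1 := by simp only [Dir.move]; omega
          rw [e1, blkRep_in hb w _ (by omega), e0]
          have h7 : b * (w.length + 2) - 1 = b * (w.length + 1) + (b - 1) := by
            have : b * (w.length + 2) = b * (w.length + 1) + b := by ring
            omega
          have h8 : (b * (w.length + 2) - 1) / b = w.length + 1 := by
            rw [h7, Nat.mul_add_div hb, Nat.div_eq_of_lt (by omega), add_zero]
          have h9 : (b * (w.length + 2) - 1) % b = b - 1 := by
            rw [h7, Nat.mul_add_mod, Nat.mod_eq_of_lt (by omega)]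
          simp only [blkMv, Dir.move, h8, h9]

end

end Pool.Agent.V8H47.MH
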