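import Pool.Agent.V8H47.MH.OneWayDefs

/-!
# Restrictions of the sequence of store actions
-/

namespace Pool.Agent.V8H47.MH

/-- The kinds of actions on the pushdown store. -/
inductive Kind
  | keep
  | push
  | pop

/-- The kind of an action. -/
def Op.kind {Γ : Type} : Op Γ → Kind
  | Op.keep => Kind.keep
  | Op.push _ => Kind.push
  | Op.pop => Kind.pop

/-- The weight of a kind: `1` for a push, `-1` for a pop. -/
def Kind.wt : Kind → ℤ
  | Kind.keep => 0
  | Kind.push => 1
  | Kind.pop => -1

/-- The number of pushes minus the number of pops. -/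
def net (v : List Kind) : ℤ := (v.map Kind.wt).sum

/-- `c` is reached on the input `w` by a computation whose sequence of kinds of store actions
is `v`. -/
inductive PDA.ReachBy {α H Γ : Type} (M : PDA α H Γ) (w : List α) :
    List Kind → PCfg M.Q H Γ → Prop
  | start : ReachBy M w [] M.start
  | step {v : List Kind} {c : PCfg M.Q H Γ} {t : M.Q × (H → Dir) × Op Γ} : ReachBy M w v c →
      t ∈ M.step c.q (fun h => symAt w (c.pos h)) c.st.head? →
      ReachBy M w (v ++ [t.2.2.kind])
        ⟨t.1, fun h => (t.2.1 h).move w.length (c.pos h), t.2.2.apply c.st⟩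

/-- For every computation (on any input), the sequence of kinds of store actions belongs
to `C`. -/
def PDA.ActsIn {α H Γ : Type} (M : PDA α H Γ) (C : Set (List Kind)) : Prop :=
  ∀ (w : List α) (v : List Kind) (c : PCfg M.Q H Γ), M.ReachBy w v c → v ∈ C

/-- There are words `p`, `u`, `v`, where `u` contains more pushes than pops and `v` contains more
pops than pushes, such that all prefixes of `p x₁ ⋯ xₘ` with `xᵢ ∈ {u, v}` belong to `C`. -/
def Mixing (C : Set (List Kind)) : Prop :=
  ∃ p u v : List Kind, 0 < net u ∧ net v < 0 ∧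
    ∀ l : List (List Kind), (∀ x ∈ l, x = u ∨ x = v) → ∀ q, q <+: p ++ l.flatten → q ∈ C

/-- The languages accepted by deterministic two-way `k`-head pushdown automata with store actions
in `C`. -/
def twoDPDAActs (C : Set (List Kind)) (k : ℕ) (α : Type) : Set (Language α) :=
  {L | ∃ (Γ : Type) (_ : Finite Γ) (M : PDA α (Fin k) Γ), M.Det ∧ M.ActsIn C ∧ M.lang = L}

/-- The languages accepted by nondeterministic two-way `k`-head pushdown automata with store
actions in `C`. -/
def twoNPDAActs (C : Set (List Kind)) (k : ℕ) (α : Type) : Set (Language α) :=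
  {L | ∃ (Γ : Type) (_ : Finite Γ) (M : PDA α (Fin k) Γ), M.ActsIn C ∧ M.lang = L}

/-- The languages accepted by nondeterministic one-way pushdown automata with store actions
in `C`. -/
def CFLActs (C : Set (List Kind)) (α : Type) : Set (Language α) :=
  {L | ∃ (Γ : Type) (_ : Finite Γ) (M : PDA α (Fin 1) Γ), M.OneWay ∧ M.ActsIn C ∧ M.lang = L}

end Pool.Agent.V8H47.MH
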