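import Pool.Agent.V8H47.MH.Macro

/-!
# Pushdown automata with store actions in a mixing language: the main theorem
-/

namespace Pool.Agent.V8H47.MH

open Relation

variable {α H Γ : Type}

/-- the bound for the length of the list in a state -/
def mBound (P U W : List Kind) : ℕ := P.length + U.length + W.length

theorem finite_ms (Q Γ : Type) [Finite Q] [Finite Γ] (L : ℕ) :
    {x : MS Q Γ | x.rest.length ≤ L}.Finite := by
  have h1 : Finite {l : List Kind // l.length ≤ L} := List.finite_length_le Kind L
  let f : Q × {l : List Kind // l.length ≤ L} × Kind × Option Γ × Option Γ → MS Q Γ :=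
    fun y => ⟨y.1, y.2.1.1, y.2.2.1, y.2.2.2.1, y.2.2.2.2⟩
  refine (Set.finite_range f).subset ?_
  intro x hx
  exact ⟨(x.q, ⟨x.rest, hx⟩, x.e, x.g, x.nw), rfl⟩

theorem nxt_length {Q : Type} (N : ℕ) (x : MS Q Γ) : (nxt N x).1.rest.length ≤ x.rest.length := by
  unfold nxt
  cases h : x.rest with
  | nil => simp [h]
  | cons k r => simp

theorem closed_mStep (M : PDA α H Γ) (P U W : List Kind) (N : ℕ) (x : MS M.Q Γ)
    (hx : x.rest.length ≤ mBound P U W) (a : H → Sym α) (top : Option (Option Γ)) :
    ∀ t ∈ mStep M U W N x a top, t.1.rest.length ≤ mBound P U W := by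
  intro t ht
  unfold mStep at ht
  cases hr : x.rest with
  | nil =>
    rw [hr] at ht
    obtain ⟨t', _, rfl⟩ := ht
    refine (nxt_length N _).trans ?_
    simp only [setup, mBound]
    cases ek top.join t'.2.2 <;> simp only [mword, List.length_append] <;> omega
  | cons k r =>
    rw [hr] at ht
    simp only [Set.mem_singleton_iff] at ht
    subst ht
    exact (nxt_length N _).trans hx

/-- the list of words of a macro -/
def mlist (U W : List Kind) : Kind → List (List Kind)
  | .keep => [U, W]
  | .push => [U]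
  | .pop => [W]

theorem mlist_flatten (U W : List Kind) (e : Kind) : (mlist U W e).flatten = mword U W e := by
  cases e <;> simp [mlist, mword]

theorem mem_mlist {U W : List Kind} {e : Kind} {x : List Kind} (h : x ∈ mlist U W e) :
    x = U ∨ x = W := by
  cases e <;> simp [mlist] at h <;> tauto

theorem exists_by (M : PDA α H Γ) {w : List α} {c : PCfg M.Q H Γ} (h : M.Reach w c) :
    ∃ v, M.ReachBy w v c := by
  obtain ⟨t, ht⟩ := h
  induction t generalizing c with
  | zero =>
    have : c = M.start := ht
    subst this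
    exact ⟨[], .start⟩
  | succ t ih =>
    obtain ⟨c', h1, t', ht', rfl⟩ := ht
    obtain ⟨v, hv⟩ := ih h1
    exact ⟨_, .step hv ht'⟩

/-- the rest of a macro can be run -/
theorem run_rest {M : PDA α H Γ} {U W : List Kind} {N : ℕ} (hN : 0 < N) {w : List α}
    {c : PCfg M.Q H Γ} (r : List Kind) : ∀ (x : MS M.Q Γ) (pos : H → ℕ) (ps : List (Option Γ)),
    (MInv M N c x pos ps ∨ PInv M N c x pos ps) → x.rest = r →
    ∃ x' ps', ReflTransGen (rstep (mStep M U W N) w) ⟨x, pos, ps⟩ ⟨x', pos, ps'⟩ ∧
      x'.rest = [] ∧ MInv M N c x' pos ps' := by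
  induction r with
  | nil =>
    intro x pos ps h hr
    refine ⟨x, ps, .refl, hr, ?_⟩
    rcases h with h | h
    · exact h
    · exact mInv_of_pInv h hr
  | cons k r ih =>
    intro x pos ps h hr
    have hinv : MInv M N c (nxt N x).1 pos ((nxt N x).2.apply ps) ∨
        PInv M N c (nxt N x).1 pos ((nxt N x).2.apply ps) := by
      rcases h with h | h
      · exact Or.inl (mInv_nxt hN h hr)
      · exact Or.inr (pInv_nxt h hr)
    obtain ⟨x', ps', h1, h2, h3⟩ := ih (nxt N x).1 pos ((nxt N x).2.apply ps) hinv
      (by simp only [nxt, hr])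
    refine ⟨x', ps', ReflTransGen.head ?_ h1, h2, h3⟩
    refine ⟨((nxt N x).1, fun _ => Dir.S, (nxt N x).2), ?_, rfl⟩
    unfold mStep
    simp only [hr]
    exact rfl

/-- **Mixing store actions.** Every pushdown automaton is equivalent to one with the same number
of heads and with store actions in the mixing language `C`; determinism and one-way motion are
kept. -/
theorem mix_main [Finite Γ] {C : Set (List Kind)} (hC : Mixing C) (M : PDA α H Γ) :
    ∃ M' : PDA α H (Option Γ), (M.Det → M'.Det) ∧ (M.OneWay → M'.OneWay) ∧ M'.ActsIn C ∧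
      M'.lang = M.lang := by
  obtain ⟨P, U, W, N, hN, hU, hW, hUp, hWp, hP, hCl⟩ := mixing_normal hC
  have := M.finQ
  have hUne : U ≠ [] := by
    rintro rfl
    rw [nnil] at hU
    omega
  have hWne : W ≠ [] := by
    rintro rfl
    rw [nnil] at hW
    omega
  have hwne : ∀ e, mword U W e ≠ [] := by
    intro e
    cases e with
    | keep => simp [mword, hUne]
    | push => exact hUne
    | pop => exact hWne
  set i0 : MS M.Q Γ := ⟨M.init, P, Kind.keep, none, none⟩ with hi0
  have hi : i0 ∈ {x : MS M.Q Γ | x.rest.length ≤ mBound P U W} := by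
    change P.length ≤ mBound P U W
    unfold mBound
    omega
  let M' : PDA α H (Option Γ) := restr {x : MS M.Q Γ | x.rest.length ≤ mBound P U W}
    (finite_ms M.Q Γ _) i0 hi {x | x.q ∈ M.acc} (mStep M U W N)
  -- one step of the simulating automaton
  have hone : ∀ (w : List α) (c : PCfg M.Q H Γ) (x : MS M.Q Γ) (pos : H → ℕ)
      (ps : List (Option Γ)), M.Reach w c → (MInv M N c x pos ps ∨ PInv M N c x pos ps) →
      ∀ t ∈ mStep M U W N x (fun h => symAt w (pos h)) ps.head?,
        (∃ c', M.Reach w c' ∧ (MInv M N c' t.1 (fun h => (t.2.1 h).move w.length (pos h))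
          (t.2.2.apply ps) ∨ PInv M N c' t.1 (fun h => (t.2.1 h).move w.length (pos h))
          (t.2.2.apply ps))) ∧
        ((x.rest = t.2.2.kind :: t.1.rest) ∨
          (x.rest = [] ∧ ∃ e, mword U W e = t.2.2.kind :: t.1.rest)) := by
    intro w c x pos ps hc hinv t ht
    unfold mStep at ht
    cases hr : x.rest with
    | cons k r =>
      rw [hr] at ht
      simp only [Set.mem_singleton_iff] at ht
      subst ht
      refine ⟨⟨c, hc, ?_⟩, Or.inl ?_⟩
      · rcases hinv with h | h
        · exact Or.inl (mInv_nxt hN h hr)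
        · exact Or.inr (pInv_nxt h hr)
      · simp only [nxt, hr, emit_kind]
    | nil =>
      rw [hr] at ht
      have hM : MInv M N c x pos ps := by
        rcases hinv with h | h
        · exact h
        · exact mInv_of_pInv h hr
      obtain ⟨B, hB, rfl⟩ := mInv_main hN hM hr
      obtain ⟨hq, hpos, _⟩ := hM
      subst hpos
      obtain ⟨t', ht', rfl⟩ := ht
      rw [top_main hN hB, Option.join_some, hq] at ht'
      rw [top_main hN hB, Option.join_some]
      have hstep : M.Step w c ⟨t'.1, fun h => (t'.2.1 h).move w.length (c.pos h),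
        t'.2.2.apply c.st⟩ := ⟨t', ht', rfl⟩
      have hset := mInv_setup (w := w) hN hU hW hUp hWp hB (c := c) t'
      obtain ⟨k, r, hkr⟩ : ∃ k r, mword U W (ek c.st.head? t'.2.2) = k :: r := by
        cases h : mword U W (ek c.st.head? t'.2.2) with
        | nil => exact absurd h (hwne _)
        | cons k r => exact ⟨k, r, rfl⟩
      have hreach' : M.Reach w ⟨t'.1, fun h => (t'.2.1 h).move w.length (c.pos h),
          t'.2.2.apply c.st⟩ := by
        obtain ⟨n, hn⟩ := hc
        exact ⟨n + 1, c, hn, hstep⟩
      refine ⟨⟨_, hreach', Or.inl (mInv_nxt hN hset (k := k) (r := r) hkr)⟩,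
        Or.inr ⟨rfl, ek c.st.head? t'.2.2, ?_⟩⟩
      simp only [nxt, setup, hkr, emit_kind]
  have key : ∀ (w : List α) (v : List Kind) (c : PCfg M'.Q H (Option Γ)), M'.ReachBy w v c →
      (∃ c0, M.Reach w c0 ∧ (MInv M N c0 c.q.1 c.pos c.st ∨
      PInv M N c0 c.q.1 c.pos c.st)) ∧
      ∃ l : List (List Kind), (∀ x ∈ l, x = U ∨ x = W) ∧ v ++ c.q.1.rest = P ++ l.flatten := by
    intro w v c hv
    induction hv with
    | start =>
      refine ⟨⟨M.start, ⟨0, rfl⟩, Or.inr ⟨rfl, rfl, rfl, rfl, rfl, rfl, 0, rfl, ?_⟩⟩,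
        [], by simp, ?_⟩
      · change (N : ℤ) ≤ ((0 : ℕ) : ℤ) + net P
        push_cast
        linarith
      · change [] ++ P = P ++ [].flatten
        simp
    | @step v c t _ ht ih =>
      obtain ⟨⟨c0, hc0, hinv⟩, l, hl, hvl⟩ := ih
      have ht' : (t.1.1, t.2) ∈ mStep M U W N c.q.1 (fun h => symAt w (c.pos h)) c.st.head? := ht
      obtain ⟨h1, h2⟩ := hone w c0 c.q.1 c.pos c.st hc0 hinv _ ht'
      refine ⟨h1, ?_⟩
      simp only at h2 ⊢
      rcases h2 with h2 | ⟨h2, e, h3⟩
      · refine ⟨l, hl, ?_⟩
        rw [← hvl, h2]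
        simp
      · refine ⟨l ++ mlist U W e, ?_, ?_⟩
        · intro x hx
          rw [List.mem_append] at hx
          rcases hx with hx | hx
          · exact hl x hx
          · exact mem_mlist hx
        · rw [h2, List.append_nil] at hvl
          rw [List.append_assoc, List.singleton_append, ← h3, hvl, List.flatten_append,
            mlist_flatten, ← List.append_assoc]
  refine ⟨M', fun h => det_restr (det_mStep M U W N h), ?_, ?_, ?_⟩
  · -- one-way
    intro how q a g t ht h
    change (t.1.1, t.2) ∈ mStep M U W N q.1 a g at ht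
    unfold mStep at ht
    cases hr : q.1.rest with
    | nil =>
      rw [hr] at ht
      obtain ⟨t', ht', he⟩ := ht
      have : t.2.1 = t'.2.1 := congrArg (fun z => z.2.1) he
      rw [this]
      exact how _ _ _ t' ht' h
    | cons k r =>
      rw [hr] at ht
      have : t.2.1 = fun _ => Dir.S := congrArg (fun z => z.2.1) ht
      rw [this]
      simp
  · -- the actions
    intro w v c hv
    obtain ⟨_, l, hl, hvl⟩ := key w v c hv
    exact hCl l hl v ⟨_, hvl⟩
  · -- the language
    ext w
    constructor
    · rintro ⟨c, hc, hacc⟩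
      obtain ⟨v, hv⟩ := exists_by M' hc
      obtain ⟨⟨c0, hc0, hinv⟩, _⟩ := key w v c hv
      refine ⟨c0, hc0, ?_⟩
      have hq : c.q.1.q = c0.q := by
        rcases hinv with h | h
        · exact h.1
        · rw [h.1]; exact h.2.1
      rw [← hq]
      exact hacc
    · rintro ⟨c, hc, hacc⟩
      have hrun : ∃ x ps, ReflTransGen (rstep (mStep M U W N) w) ⟨i0, fun _ => 0, []⟩
          ⟨x, c.pos, ps⟩ ∧ x.rest = [] ∧ MInv M N c x c.pos ps := by
        clear hacc
        rw [PDA.reach_iff] at hc
        induction hc with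
        | refl =>
          refine run_rest (W := W) (U := U) hN (c := M.start) P i0 _ _ (Or.inr ?_) rfl
          refine ⟨rfl, rfl, rfl, rfl, rfl, rfl, 0, rfl, ?_⟩
          change (N : ℤ) ≤ ((0 : ℕ) : ℤ) + net P
          push_cast
          linarith
        | @tail c c' hr hs ih =>
          obtain ⟨x, ps, h1, h2, h3⟩ := ih
          obtain ⟨t', ht', rfl⟩ := hs
          obtain ⟨B, hB, rfl⟩ := mInv_main hN h3 h2
          have hset := mInv_setup (w := w) hN hU hW hUp hWp hB (c := c) t'
          obtain ⟨k, r, hkr⟩ : ∃ k r, mword U W (ek c.st.head? t'.2.2) = k :: r := by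
            cases h : mword U W (ek c.st.head? t'.2.2) with
            | nil => exact absurd h (hwne _)
            | cons k r => exact ⟨k, r, rfl⟩
          have hfirst := mInv_nxt hN hset (k := k) (r := r) hkr
          obtain ⟨x', ps', h4, h5, h6⟩ := run_rest (W := W) (U := U) (w := w) hN _ _ _ _
            (Or.inl hfirst) rfl
          refine ⟨x', ps', (h1.tail ?_).trans h4, h5, h6⟩
          refine ⟨((nxt N (setup U W t'.1 t'.2.2 c.st.head?)).1, t'.2.1,
            (nxt N (setup U W t'.1 t'.2.2 c.st.head?)).2), ?_, rfl⟩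
          unfold mStep
          simp only [h2]
          refine ⟨t', ?_, ?_⟩
          · rw [top_main hN hB, Option.join_some, h3.1]
            exact ht'
          · rw [top_main hN hB, Option.join_some]
      obtain ⟨x, ps, h1, _, h3⟩ := hrun
      obtain ⟨hq, hreach⟩ := restr_from (hF := finite_ms M.Q Γ _) (hi := hi)
        (acc := {x | x.q ∈ M.acc}) (fun x hx a top t ht => closed_mStep M P U W N x hx a top t ht) h1
      refine ⟨_, hreach, ?_⟩
      change x.q ∈ M.acc
      rw [h3.1]
      exact hacc

end Pool.Agent.V8H47.MH
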