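import Pool.Agent.V8H47.MH.NonMix
import Pool.Agent.V8H47.MH.Macro2

/-!
# The dichotomy for store actions
-/

namespace Pool.Agent.V8H47.MH

variable {α H Γ : Type}

/-- **The dichotomy for store actions.** -/
theorem action_dichotomy {C : Language Kind} (hreg : C.IsRegular) :
    (Mixing (C : Set (List Kind)) → ∀ (α H Γ : Type) [Finite Γ] (M : PDA α H Γ),
      ∃ M' : PDA α H (Option Γ), (M.Det → M'.Det) ∧ (M.OneWay → M'.OneWay) ∧
        M'.ActsIn (C : Set (List Kind)) ∧ M'.lang = M.lang) ∧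
    (¬ Mixing (C : Set (List Kind)) → ∀ (α Γ : Type) [Finite Γ] (k : ℕ) (M : PDA α (Fin k) Γ),
      M.ActsIn (C : Set (List Kind)) →
      ∃ (m : ℕ) (M' : FA α (Fin m)), M'.lang = M.lang) := by
  constructor
  · intro hC α H Γ _ M
    exact mix_main hC M
  · obtain ⟨σ, _, A, rfl⟩ := hreg
    intro hC α Γ _ k M hM
    obtain ⟨B, _, F, hF⟩ := nonmix_main A hC M hM
    obtain ⟨m, ⟨eq⟩⟩ := Finite.exists_equiv_fin B
    exact ⟨m, FA.reindex _ eq, (FA.lang_reindex _ _).trans hF⟩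

theorem fa_acts {C : Set (List Kind)} (h0 : ∀ n, List.replicate n Kind.keep ∈ C)
    (Γ : Type) (M : FA α H) : (M.toPDA Γ).ActsIn C := by
  intro w v c hv
  have : ∃ n, v = List.replicate n Kind.keep := by
    induction hv with
    | start => exact ⟨0, rfl⟩
    | @step v c t _ ht ih =>
      obtain ⟨n, rfl⟩ := ih
      obtain ⟨y, _, rfl⟩ := ht
      refine ⟨n + 1, ?_⟩
      rw [List.replicate_succ']
      rfl
  obtain ⟨n, rfl⟩ := this
  exact h0 n

end Pool.Agent.V8H47.MH
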