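import Pool.Agent.V8H47.MH.ListM2

/-!
# Flowcharts over registers

The edges of a flowchart carry lists of elementary actions on registers which hold positions of
the input tape. Flowcharts are simulated by multihead finite automata.
-/

namespace Pool.Agent.V8H47.MH

open Relation

/-- elementary actions -/
inductive Prim (α R : Type)
  | mv : ((R → Sym α) → Prop) → (R → Dir) → Prim α R
  | cp : List (R × R) → Prim α R
  | gs : List R → Prim α R
  | eq : List (R × R) → Prim α R

/-- the effect of an elementary action -/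
def Prim.sem {α R : Type} [DecidableEq R] (w : List α) : Prim α R → (R → ℕ) → (R → ℕ) → Prop
  | .mv f d => fun p p' => f (fun r => symAt w (p r)) ∧ p' = fun r => (d r).move w.length (p r)
  | .cp l => fun p p' => p' = runCopies l p
  | .gs l => fun p p' => (∀ r, r ∉ l → p' r = p r) ∧ ∀ r, p' r ≤ w.length + 1
  | .eq l => fun p p' => (∀ x ∈ l, p x.1 = p x.2) ∧ p' = p

/-- the effect of a list of elementary actions -/
def runPrims {α R : Type} [DecidableEq R] (w : List α) : List (Prim α R) → (R → ℕ) → (R → ℕ) → Prop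
  | [] => fun p p' => p' = p
  | a :: l => fun p p' => ∃ p1, a.sem w p p1 ∧ runPrims w l p1 p'

/-- a flowchart -/
structure BM (α R : Type) where
  Q : Type
  finQ : Finite Q
  I : Type
  finI : Finite I
  init : Q
  acc : Set Q
  src : I → Q
  dst : I → Q
  body : I → List (Prim α R)

namespace BM

variable {α R : Type} [DecidableEq R] (M : BM α R)

def Step (w : List α) (c c' : FCfg M.Q R) : Prop :=
  ∃ i, c.q = M.src i ∧ c'.q = M.dst i ∧ runPrims w (M.body i) c.pos c'.pos

def start : FCfg M.Q R := ⟨M.init, fun _ => 0⟩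

def lang : Language α := {w | ∃ c, ReflTransGen (M.Step w) M.start c ∧ c.q ∈ M.acc}

/-- states of the register machine -/
abbrev LQ : Type := M.Q ⊕ (Option (Σ i : M.I, Fin ((M.body i).length + 1)))

open Classical in
/-- the register machine of a flowchart -/
noncomputable def toLM : LM α R where
  Q := M.LQ
  finQ := by
    have := M.finQ
    have := M.finI
    infer_instance
  init := Sum.inl M.init
  acc := {q | ∃ a ∈ M.acc, q = Sum.inl a}
  prog q := match q with
    | Sum.inl q => .act (fun _ => {x | ∃ i, M.src i = q ∧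
        x = (Sum.inr (some ⟨i, ⟨0, Nat.succ_pos _⟩⟩), fun _ => Dir.S)})
    | Sum.inr none => .act (fun _ => ∅)
    | Sum.inr (some ⟨i, j⟩) =>
      if h : (j : ℕ) < (M.body i).length then
        match (M.body i)[(j : ℕ)] with
        | .mv f d => .act (fun a => {x | f a ∧
            x = (Sum.inr (some ⟨i, ⟨j + 1, Nat.succ_lt_succ h⟩⟩), d)})
        | .cp l => .copies l (Sum.inr (some ⟨i, ⟨j + 1, Nat.succ_lt_succ h⟩⟩))
        | .gs l => .guesses l (Sum.inr (some ⟨i, ⟨j + 1, Nat.succ_lt_succ h⟩⟩))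
        | .eq l => .eqs l (Sum.inr (some ⟨i, ⟨j + 1, Nat.succ_lt_succ h⟩⟩)) (Sum.inr none)
      else .act (fun _ => {x | x = (Sum.inl (M.dst i), fun _ => Dir.S)})

theorem runPrims_append (w : List α) (l l' : List (Prim α R)) : ∀ (p p' : R → ℕ),
    runPrims w (l ++ l') p p' ↔ ∃ p1, runPrims w l p p1 ∧ runPrims w l' p1 p' := by
  induction l with
  | nil => intro p p'; simp [runPrims]
  | cons a l ih =>
    intro p p'
    simp only [List.cons_append, runPrims, ih]
    constructor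
    · rintro ⟨p1, h1, p2, h2, h3⟩; exact ⟨p2, ⟨p1, h1, h2⟩, h3⟩
    · rintro ⟨p2, ⟨p1, h1, h2⟩, h3⟩; exact ⟨p1, h1, p2, h2, h3⟩

theorem stay_act (w : List α) (p : R → ℕ) :
    (fun r => (Dir.S : Dir).move w.length (p r)) = p := rfl

/-- the step of the register machine within a body -/
theorem toLM_step (w : List α) (i : M.I) (j : ℕ) (h : j < (M.body i).length)
    (p : R → ℕ) (c : FCfg M.toLM.Q R) :
    M.toLM.Step w ⟨Sum.inr (some ⟨i, ⟨j, by omega⟩⟩), p⟩ c ↔
      (∃ p', ((M.body i)[j]).sem w p p' ∧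
        c = ⟨Sum.inr (some ⟨i, ⟨j + 1, by omega⟩⟩), p'⟩) ∨
      (∃ l, (M.body i)[j] = .eq l ∧ (¬ ∀ x ∈ l, p x.1 = p x.2) ∧ c = ⟨Sum.inr none, p⟩) := by
  unfold LM.Step
  have e : M.toLM.prog (Sum.inr (some ⟨i, ⟨j, by omega⟩⟩)) =
      match (M.body i)[j] with
        | .mv f d => .act (fun a => {x | f a ∧
            x = (Sum.inr (some ⟨i, ⟨j + 1, Nat.succ_lt_succ h⟩⟩), d)})
        | .cp l => .copies l (Sum.inr (some ⟨i, ⟨j + 1, Nat.succ_lt_succ h⟩⟩))
        | .gs l => .guesses l (Sum.inr (some ⟨i, ⟨j + 1, Nat.succ_lt_succ h⟩⟩))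
        | .eq l => .eqs l (Sum.inr (some ⟨i, ⟨j + 1, Nat.succ_lt_succ h⟩⟩)) (Sum.inr none) := by
    change (if h : (j : ℕ) < (M.body i).length then _ else _) = _
    rw [dif_pos h]
    rfl
  rw [show (⟨Sum.inr (some ⟨i, ⟨j, by omega⟩⟩), p⟩ : FCfg M.toLM.Q R).q =
    Sum.inr (some ⟨i, ⟨j, by omega⟩⟩) from rfl, e]
  cases hb : (M.body i)[j] with
  | mv f d =>
    simp only [Prim.sem, reduceCtorEq, false_and, exists_false, or_false]
    constructor
    · rintro ⟨t, ⟨h1, rfl⟩, rfl⟩
      exact ⟨_, ⟨h1, rfl⟩, rfl⟩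
    · rintro ⟨p', ⟨h1, rfl⟩, rfl⟩
      exact ⟨_, ⟨h1, rfl⟩, rfl⟩
  | cp l =>
    simp only [Prim.sem, reduceCtorEq, false_and, exists_false, or_false]
    constructor
    · rintro rfl; exact ⟨_, rfl, rfl⟩
    · rintro ⟨p', rfl, rfl⟩; rfl
  | gs l =>
    simp only [Prim.sem, reduceCtorEq, false_and, exists_false, or_false]
    constructor
    · rintro ⟨h1, h2, h3⟩
      refine ⟨c.pos, ⟨h2, h3⟩, ?_⟩
      obtain ⟨q, pos⟩ := c
      simp only at h1
      subst h1
      rfl
    · rintro ⟨p', ⟨h1, h2⟩, rfl⟩; exact ⟨rfl, h1, h2⟩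
  | eq l =>
    simp only [Prim.sem, Prim.eq.injEq, exists_eq_left']
    constructor
    · rintro (⟨h1, rfl⟩ | ⟨h1, rfl⟩)
      · exact Or.inl ⟨p, ⟨h1, rfl⟩, rfl⟩
      · exact Or.inr ⟨h1, rfl⟩
    · rintro (⟨p', ⟨h1, rfl⟩, rfl⟩ | ⟨h1, rfl⟩)
      · exact Or.inl ⟨h1, rfl⟩
      · exact Or.inr ⟨h1, rfl⟩

theorem toLM_step_inl (w : List α) (q : M.Q) (p : R → ℕ) (c : FCfg M.toLM.Q R) :
    M.toLM.Step w ⟨Sum.inl q, p⟩ c ↔
      ∃ i, M.src i = q ∧ c = ⟨Sum.inr (some ⟨i, ⟨0, Nat.succ_pos _⟩⟩), p⟩ := by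
  constructor
  · rintro ⟨t, ⟨i, h1, rfl⟩, rfl⟩
    exact ⟨i, h1, rfl⟩
  · rintro ⟨i, h1, rfl⟩
    exact ⟨_, ⟨i, h1, rfl⟩, rfl⟩

theorem toLM_step_none (w : List α) (p : R → ℕ) (c : FCfg M.toLM.Q R) :
    ¬ M.toLM.Step w ⟨Sum.inr none, p⟩ c := by
  rintro ⟨t, ht, _⟩
  exact ht

theorem toLM_step_last (w : List α) (i : M.I) (p : R → ℕ) (c : FCfg M.toLM.Q R) :
    M.toLM.Step w ⟨Sum.inr (some ⟨i, ⟨(M.body i).length, Nat.lt_succ_self _⟩⟩), p⟩ c ↔
      c = ⟨Sum.inl (M.dst i), p⟩ := by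
  have e : M.toLM.prog (Sum.inr (some ⟨i, ⟨(M.body i).length, Nat.lt_succ_self _⟩⟩)) =
      .act (fun _ => {x | x = (Sum.inl (M.dst i), fun _ => Dir.S)}) := by
    change (if h : ((M.body i).length : ℕ) < (M.body i).length then _ else _) = _
    rw [dif_neg (lt_irrefl _)]
    rfl
  unfold LM.Step
  rw [show (⟨Sum.inr (some ⟨i, ⟨(M.body i).length, Nat.lt_succ_self _⟩⟩), p⟩ :
    FCfg M.toLM.Q R).q = Sum.inr (some ⟨i, ⟨(M.body i).length, Nat.lt_succ_self _⟩⟩) from rfl, e]
  constructor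
  · rintro ⟨t, rfl, rfl⟩; rfl
  · rintro rfl; exact ⟨_, rfl, rfl⟩

theorem runPrims_le (w : List α) : ∀ (l : List (Prim α R)) (p p' : R → ℕ),
    runPrims w l p p' → (∀ r, p r ≤ w.length + 1) → ∀ r, p' r ≤ w.length + 1 := by
  intro l
  induction l with
  | nil => rintro p p' rfl h; exact h
  | cons a l ih =>
    rintro p p' ⟨p1, h1, h2⟩ h
    refine ih p1 p' h2 ?_
    cases a with
    | mv f d =>
      obtain ⟨_, rfl⟩ := h1
      intro r
      have := h r
      simp only
      cases d r <;> simp only [Dir.move] <;> omega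
    | cp l => cases h1; exact runCopies_le l _ h
    | gs l => exact h1.2
    | eq l => obtain ⟨_, rfl⟩ := h1; exact h

/-- the body can be run -/
theorem run_body (w : List α) (i : M.I) : ∀ (m j : ℕ) (hj : j + m = (M.body i).length)
    (p p' : R → ℕ), runPrims w ((M.body i).drop j) p p' →
    ReflTransGen (M.toLM.Step w) ⟨Sum.inr (some ⟨i, ⟨j, by omega⟩⟩), p⟩
      ⟨Sum.inr (some ⟨i, ⟨(M.body i).length, Nat.lt_succ_self _⟩⟩), p'⟩ := by
  intro m
  induction m with
  | zero =>
    intro j hj p p' h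
    have hj' : j = (M.body i).length := by omega
    subst hj'
    rw [List.drop_length] at h
    cases h
    exact .refl
  | succ m ih =>
    intro j hj p p' h
    have hlt : j < (M.body i).length := by omega
    rw [List.drop_eq_getElem_cons hlt] at h
    obtain ⟨p1, h1, h2⟩ := h
    refine ReflTransGen.head ?_ (ih (j + 1) (by omega) p1 p' h2)
    exact (M.toLM_step w i j hlt p _).2 (Or.inl ⟨p1, h1, rfl⟩)

theorem lang_toLM : M.toLM.lang = M.lang := by
  ext w
  constructor
  · rintro ⟨y, hy, a, ha, hya⟩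
    have hinv : ∃ c, ReflTransGen (M.Step w) M.start c ∧
        ((y.q = Sum.inl c.q ∧ y.pos = c.pos) ∨ y.q = Sum.inr none ∨
          ∃ i, ∃ j, ∃ hj : j < (M.body i).length + 1, y.q = Sum.inr (some ⟨i, ⟨j, hj⟩⟩) ∧
            c.q = M.src i ∧ runPrims w ((M.body i).take j) c.pos y.pos) := by
      clear ha hya
      induction hy with
      | refl => exact ⟨M.start, .refl, Or.inl ⟨rfl, rfl⟩⟩
      | @tail y z _ hs ih =>
        obtain ⟨c, h1, h2⟩ := ih
        obtain ⟨yq, ypos⟩ := y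
        rcases h2 with ⟨h2, h3⟩ | h2 | ⟨i, j, hj, h2, h3, h4⟩
        · simp only at h2 h3
          subst h2 h3
          rw [toLM_step_inl] at hs
          obtain ⟨i, h4, rfl⟩ := hs
          refine ⟨c, h1, Or.inr (Or.inr ⟨i, 0, Nat.succ_pos _, rfl, h4.symm, ?_⟩)⟩
          rw [List.take_zero]
          rfl
        · simp only at h2
          subst h2
          exact absurd hs (M.toLM_step_none w _ _)
        · simp only at h2 h4
          subst h2
          by_cases hlt : j < (M.body i).length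
          · rw [M.toLM_step w i j hlt] at hs
            rcases hs with ⟨p', h5, rfl⟩ | ⟨l, _, _, rfl⟩
            · refine ⟨c, h1, Or.inr (Or.inr ⟨i, j + 1, by omega, rfl, h3, ?_⟩)⟩
              rw [List.take_succ_eq_append_getElem hlt, runPrims_append]
              exact ⟨_, h4, p', h5, rfl⟩
            · exact ⟨c, h1, Or.inr (Or.inl rfl)⟩
          · have hj' : j = (M.body i).length := by omega
            subst hj'
            rw [M.toLM_step_last w i] at hs
            subst hs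
            rw [List.take_length] at h4
            exact ⟨⟨M.dst i, ypos⟩, h1.tail ⟨i, h3, rfl, h4⟩, Or.inl ⟨rfl, rfl⟩⟩
    obtain ⟨c, h1, h2⟩ := hinv
    refine ⟨c, h1, ?_⟩
    rcases h2 with ⟨h2, _⟩ | h2 | ⟨i, j, hj, h2, _, _⟩
    · rw [hya] at h2
      rw [← Sum.inl.inj h2]; exact ha
    · rw [hya] at h2; exact absurd h2 (by simp)
    · rw [hya] at h2; exact absurd h2 (by simp)
  · rintro ⟨c, hc, hacc⟩
    have key : ∀ c, ReflTransGen (M.Step w) M.start c →
        ReflTransGen (M.toLM.Step w) M.toLM.start ⟨Sum.inl c.q, c.pos⟩ := by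
      intro c hc
      induction hc with
      | refl => exact .refl
      | @tail c c' _ hs ih =>
        obtain ⟨i, h1, h2, h3⟩ := hs
        refine (ih.tail ((M.toLM_step_inl w _ _ _).2 ⟨i, h1.symm, rfl⟩)).trans ?_
        refine (M.run_body w i (M.body i).length 0 (by omega) c.pos c'.pos
          (by rw [List.drop_zero]; exact h3)).tail ?_
        rw [M.toLM_step_last w i, h2]
    exact ⟨_, key c hc, c.q, hacc, rfl⟩

end BM

/-- **Flowcharts are simulated by multihead finite automata.** -/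
theorem bm_to_fa {α R : Type} [DecidableEq R] [Finite R] (M : BM α R) :
    ∃ F : FA α (Option R), F.lang = M.lang := by
  obtain ⟨F, _, hF⟩ := lm_to_fa M.toLM
  exact ⟨F, hF.trans M.lang_toLM⟩

end Pool.Agent.V8H47.MH
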