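import Pool.Agent.V8H47.MH.Univ

/-!
# Every pushdown automaton with one head is simulated by the universal one on a coded tape
-/

namespace Pool.Agent.V8H47.MH

open Relation

variable {α Γ : Type}

/-- Numberings of the states and of the pushdown symbols. -/
structure Cod (M : PDA α (Fin 1) Γ) where
  nQ : ℕ
  G : ℕ
  ix : M.Q ≃ Fin nQ
  cd : Option Γ ≃ Fin G
  ix0 : (ix M.init : ℕ) = 0
  cd0 : (cd none : ℕ) = 0

theorem exists_equiv_zero {X : Type} [Finite X] (x : X) :
    ∃ (n : ℕ) (e : X ≃ Fin n), (e x : ℕ) = 0 := by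
  obtain ⟨n, ⟨e⟩⟩ := Finite.exists_equiv_fin X
  have hn : 0 < n := (e x).pos
  refine ⟨n, e.trans (Equiv.swap (e x) ⟨0, hn⟩), ?_⟩
  simp

theorem exists_cod [Finite Γ] (M : PDA α (Fin 1) Γ) : Nonempty (Cod M) := by
  have := M.finQ
  obtain ⟨n, e, h⟩ := exists_equiv_zero M.init
  obtain ⟨n', e', h'⟩ := exists_equiv_zero (none : Option Γ)
  exact ⟨⟨n, n', e, e', h, h'⟩⟩

section code

variable [Finite Γ] {M : PDA α (Fin 1) Γ} (K : Cod M)

theorem finite_step (M : PDA α (Fin 1) Γ) (q : M.Q) (a : Sym α) (g : Option Γ) :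
    (M.step q (fun _ => a) g).Finite := by
  have := M.finQ
  exact Set.toFinite _

/-- the actions in a situation -/
noncomputable def acts (M : PDA α (Fin 1) Γ) (a : Sym α) (q : M.Q) (g : Option Γ) :
    List (M.Q × (Fin 1 → Dir) × Op Γ) := (finite_step M q a g).toFinset.toList

theorem mem_acts {a : Sym α} {q : M.Q} {g : Option Γ} {t : M.Q × (Fin 1 → Dir) × Op Γ} :
    t ∈ acts M a q g ↔ t ∈ M.step q (fun _ => a) g := by
  simp [acts]

theorem acts_length (h : M.Det) (a : Sym α) (q : M.Q) (g : Option Γ) :
    (acts M a q g).length ≤ 1 := by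
  unfold acts
  rw [Finset.length_toList, Finset.card_le_one]
  intro x hx y hy
  simp only [Set.Finite.mem_toFinset] at hx hy
  exact h _ _ _ hx hy

namespace Cod

/-- the number of a pair -/
def idx (q : M.Q) (g : Option Γ) : ℕ := (K.ix q : ℕ) * K.G + K.cd g

/-- the letter for a direction -/
def dlet : Sym α → Dir → UL
  | Sym.left, Dir.L => UL.dS
  | _, Dir.L => UL.dL
  | _, Dir.S => UL.dS
  | Sym.right, Dir.R => UL.dS
  | _, Dir.R => UL.dR

/-- the string to be pushed -/
def str (g : Option Γ) (q' : M.Q) : Op Γ → List Bool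
  | Op.keep => List.replicate (K.idx q' g) true
  | Op.push g' => List.replicate (K.cd g) true ++ false :: List.replicate (K.idx q' (some g')) true
  | Op.pop => match g with
    | none => List.replicate (K.idx q' none) true
    | some _ => List.replicate (K.ix q' * K.G) true

/-- the letter for popping -/
def ppre (g : Option Γ) : Op Γ → List UL
  | Op.pop => match g with
    | none => []
    | some _ => [UL.pp]
  | _ => []

/-- the code of an action -/
def act (a : Sym α) (g : Option Γ) (t : M.Q × (Fin 1 → Dir) × Op Γ) : List UL :=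
  ppre g t.2.2 ++ ((K.str g t.1 t.2.2).map lt ++ [dlet a (t.2.1 0)])

open Classical in
/-- the item for a pair, without the separator -/
noncomputable def item (a : Sym α) (q : M.Q) (g : Option Γ) : List UL :=
  if q ∈ M.acc then [UL.bang] else (acts M a q g).flatMap (fun t => K.act a g t ++ [UL.bar])

open Classical in
noncomputable def item' (a : Sym α) (j : ℕ) : List UL :=
  if h : j / K.G < K.nQ ∧ j % K.G < K.G then
    K.item a (K.ix.symm ⟨j / K.G, h.1⟩) (K.cd.symm ⟨j % K.G, h.2⟩) else []

noncomputable def its (a : Sym α) : List (List UL) :=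
  (List.range (K.nQ * K.G)).map (K.item' a)

noncomputable def body (a : Sym α) : List UL := (K.its a).flatMap (fun s => s ++ [UL.semi])

/-- the block of a symbol, of length `b` -/
noncomputable def blk (b : ℕ) (a : Sym α) : List UL :=
  UL.dol :: (K.body a ++ List.replicate (b - 1 - (K.body a).length) UL.semi)

/-- good letters -/
def good (x : UL) : Prop := x ≠ UL.semi ∧ x ≠ UL.bar ∧ x ≠ UL.dol

theorem good_lt (x : Bool) : good (lt x) := by cases x <;> simp [good, lt]

theorem good_dlet (a : Sym α) (d : Dir) : good (dlet a d) := by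
  cases a <;> cases d <;> simp [good, dlet]

theorem good_act (a : Sym α) (g : Option Γ) (t : M.Q × (Fin 1 → Dir) × Op Γ) :
    ∀ x ∈ K.act a g t, good x := by
  intro x hx
  unfold act at hx
  simp only [List.mem_append, List.mem_map, List.mem_singleton] at hx
  rcases hx with hx | ⟨y, _, rfl⟩ | rfl
  · unfold ppre at hx
    split at hx
    · split at hx
      · simp at hx
      · simp at hx; subst hx; simp [good]
    · simp at hx
  · exact good_lt y
  · exact good_dlet a _

theorem item_letters (a : Sym α) (q : M.Q) (g : Option Γ) :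
    ∀ x ∈ K.item a q g, x ≠ UL.semi ∧ x ≠ UL.dol := by
  intro x hx
  unfold item at hx
  split_ifs at hx
  · simp at hx; subst hx; simp
  · rw [List.mem_flatMap] at hx
    obtain ⟨t, _, hx⟩ := hx
    rw [List.mem_append] at hx
    rcases hx with hx | hx
    · exact ⟨(K.good_act a g t x hx).1, (K.good_act a g t x hx).2.2⟩
    · simp at hx; subst hx; simp

theorem item'_letters (a : Sym α) (j : ℕ) : ∀ x ∈ K.item' a j, x ≠ UL.semi ∧ x ≠ UL.dol := by
  intro x hx
  unfold item' at hx
  split_ifs at hx
  · exact K.item_letters _ _ _ x hx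
  · simp at hx

theorem body_letters (a : Sym α) : ∀ x ∈ K.body a, x ≠ UL.dol := by
  intro x hx
  unfold body its at hx
  rw [List.mem_flatMap] at hx
  obtain ⟨s, hs, hx⟩ := hx
  rw [List.mem_map] at hs
  obtain ⟨j, _, rfl⟩ := hs
  rw [List.mem_append] at hx
  rcases hx with hx | hx
  · exact (K.item'_letters a j x hx).2
  · simp at hx; subst hx; simp

theorem G_pos : 0 < K.G := (K.cd none).pos

theorem nQ_pos : 0 < K.nQ := (K.ix M.init).pos

theorem idx_lt (q : M.Q) (g : Option Γ) : K.idx q g < K.nQ * K.G := by
  unfold idx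
  have h1 := (K.ix q).2
  have h2 := (K.cd g).2
  have h3 : ((K.ix q : ℕ) + 1) * K.G ≤ K.nQ * K.G := Nat.mul_le_mul_right _ h1
  rw [Nat.add_mul, one_mul] at h3
  omega

theorem item'_idx (a : Sym α) (q : M.Q) (g : Option Γ) :
    K.item' a (K.idx q g) = K.item a q g := by
  have h1 : K.idx q g / K.G = K.ix q := by
    unfold idx
    rw [mul_comm, Nat.mul_add_div K.G_pos, Nat.div_eq_of_lt (K.cd g).2, add_zero]
  have h2 : K.idx q g % K.G = K.cd g := by
    unfold idx
    rw [mul_comm, Nat.mul_add_mod, Nat.mod_eq_of_lt (K.cd g).2]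
  unfold item'
  have h3 : K.idx q g / K.G < K.nQ ∧ K.idx q g % K.G < K.G := by
    rw [h1, h2]; exact ⟨(K.ix q).2, (K.cd g).2⟩
  rw [dif_pos h3]
  simp only [h1, h2, Fin.eta, Equiv.symm_apply_apply]

/-- splitting the list of items -/
theorem its_split (a : Sym α) (q : M.Q) (g : Option Γ) :
    ∃ I1 I2, K.its a = I1 ++ K.item a q g :: I2 ∧ I1.length = K.idx q g := by
  have h := K.idx_lt q g
  obtain ⟨d, hd⟩ := Nat.exists_eq_add_of_lt h
  refine ⟨(List.range (K.idx q g)).map (K.item' a),
    ((List.range d).map (fun x => K.idx q g + 1 + x)).map (K.item' a), ?_, by simp⟩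
  unfold its
  have hd' : K.nQ * K.G = (K.idx q g + 1) + d := by omega
  rw [hd', List.range_add, List.range_succ, List.map_append, List.map_append, List.append_assoc]
  simp [item'_idx]

theorem body_ne_nil (a : Sym α) : K.body a ≠ [] := by
  obtain ⟨I1, I2, h, _⟩ := K.its_split a M.init none
  unfold body
  rw [h]
  simp

theorem length_blk {b : ℕ} (hb : ∀ a : Sym α, (K.body a).length + 1 ≤ b) (a : Sym α) :
    (K.blk b a).length = b := by
  have := hb a
  simp only [blk, List.length_cons, List.length_append, List.length_replicate]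
  omega

/-! ### The store -/

/-- the store below the top code -/
def bst : List Γ → List Bool
  | [] => []
  | _ :: st => false :: (List.replicate (K.cd st.head?) true ++ bst st)

/-- the store of the universal automaton -/
def ust (q : M.Q) (st : List Γ) : List Bool :=
  List.replicate (K.idx q st.head?) true ++ K.bst st

theorem bst_head (st : List Γ) : (K.bst st).head? ≠ some true := by
  cases st <;> simp [bst]

/-- the effect of the code of an action on the store -/
theorem str_effect (q' : M.Q) (st : List Γ) (op : Op Γ) :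
    (K.str st.head? q' op).reverse ++
      (if ppre st.head? op = [] then K.bst st else (K.bst st).tail) =
    K.ust q' (op.apply st) := by
  cases op with
  | keep => simp [str, ppre, ust, Op.apply]
  | push g' => simp [str, ppre, ust, Op.apply, bst]
  | pop =>
    cases st with
    | nil => simp [str, ppre, ust, Op.apply, bst]
    | cons g st =>
      simp only [str, ppre, ust, Op.apply, bst, List.head?_cons, List.reverse_replicate,
        List.tail_cons, List.cons_ne_nil, if_false]
      rw [← List.append_assoc, ← List.replicate_add]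
      rfl

/-! ### The tape -/

section tape

variable (b : ℕ) (w : List α)

/-- the blocks before position `i` -/
noncomputable def pre (i : ℕ) : List UL := (List.range i).flatMap (fun j => K.blk b (symAt w j))

theorem pre_succ (i : ℕ) : K.pre b w (i + 1) = K.pre b w i ++ K.blk b (symAt w i) := by
  simp [pre, List.range_succ, List.flatMap_append]

theorem pre_split (i : ℕ) : ∀ N, i < N →
    ∃ S, K.pre b w N = K.pre b w i ++ (K.blk b (symAt w i) ++ S) ∧
      (i + 1 < N → ∃ S', S = UL.dol :: S') := by
  intro N
  induction N with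
  | zero => intro h; omega
  | succ N ih =>
    intro h
    rw [K.pre_succ]
    rcases Nat.lt_succ_iff_lt_or_eq.1 h with h | h
    · obtain ⟨S, hS, hS'⟩ := ih h
      rw [hS]
      refine ⟨S ++ K.blk b (symAt w N), by simp, fun _ => ?_⟩
      by_cases h2 : i + 1 < N
      · obtain ⟨S', rfl⟩ := hS' h2
        exact ⟨S' ++ K.blk b (symAt w N), by simp⟩
      · have h3 : N = i + 1 := by omega
        subst h3
        rw [K.pre_succ] at hS
        have h4 := List.append_cancel_left hS
        have h5 : S = [] := by
          have := congrArg List.length h4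
          simp only [List.length_append] at this
          exact List.eq_nil_of_length_eq_zero (by omega)
        subst h5
        exact ⟨_, rfl⟩
    · subst h
      exact ⟨[], by simp, fun h => absurd h (by omega)⟩

theorem tape_eq : blkTape (K.blk b) w = K.pre b w (w.length + 2) := rfl

variable (nd : Bool)

/-- representing configurations -/
noncomputable def urep (c : PCfg M.Q (Fin 1) Γ) : PCfg (univ nd).Q (Fin 1) Bool :=
  Z nd .find (UL.dol :: (K.pre b w (c.pos 0)).reverse) (K.ust c.q c.st)

/-- the movement to the next block -/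
theorem move_run (hb : ∀ a : Sym α, (K.body a).length + 1 ≤ b) (i : ℕ) (hi : i ≤ w.length + 1)
    (d : Dir) (st : List Bool) (l : List UL) (hl : ∀ x ∈ l, x ≠ UL.dol) (r : List UL)
    (hblk : K.blk b (symAt w i) = (l ++ [UL.dol]).reverse ++ dlet (symAt w i) d :: r) :
    DT ((univ nd).Step (blkTape (K.blk b) w)) (UF nd)
      (Z nd .go (l ++ UL.dol :: (K.pre b w i).reverse) st)
      (Z nd .find (UL.dol :: (K.pre b w (d.move w.length i)).reverse) st) := by
  obtain ⟨S, hS, hS'⟩ := K.pre_split b w i (w.length + 2) (by omega)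
  have hT : blkTape (K.blk b) w =
      (l ++ UL.dol :: (K.pre b w i).reverse).reverse ++ dlet (symAt w i) d :: (r ++ S) := by
    rw [K.tape_eq, hS, hblk]; simp
  have hgd := good_dlet (symAt w i) d
  have hstay : dlet (symAt w i) d = UL.dS →
      DT ((univ nd).Step (blkTape (K.blk b) w)) (UF nd)
      (Z nd .go (l ++ UL.dol :: (K.pre b w i).reverse) st)
      (Z nd .find (UL.dol :: (K.pre b w i).reverse) st) := by
    intro hd
    refine dt_trans nd _ (dtS nd _ hT (q' := .gs) (op := Op.keep) (st' := st) (by simp) ?_ rfl)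
      (gs_run nd _ _ st l (dlet (symAt w i) d) (r ++ S) hl hgd.2.2 hT)
    rw [hd]; exact set_some
  cases d with
  | S =>
    have hd : dlet (symAt w i) Dir.S = UL.dS := by cases symAt w i <;> rfl
    exact hstay hd
  | L =>
    by_cases h0 : i = 0
    · subst h0
      exact hstay rfl
    · have hd : dlet (symAt w i) Dir.L = UL.dL := by
        cases hs : symAt w i with
        | left => rw [symAt_eq_left] at hs; exact absurd hs h0
        | right => rfl
        | letter a => rfl
      obtain ⟨j, rfl⟩ := Nat.exists_eq_succ_of_ne_zero h0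
      have e1 : Dir.L.move w.length j.succ = j := by simp [Dir.move]
      rw [e1]
      -- the preceding block
      have hbody : K.body (symAt w j) ++
          List.replicate (b - 1 - (K.body (symAt w j)).length) UL.semi ≠ [] := by
        simp [K.body_ne_nil]
      have hlet : ∀ x ∈ (K.body (symAt w j) ++
          List.replicate (b - 1 - (K.body (symAt w j)).length) UL.semi).reverse, x ≠ UL.dol := by
        intro x hx
        rw [List.mem_reverse, List.mem_append] at hx
        rcases hx with hx | hx
        · exact K.body_letters _ x hx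
        · rw [List.eq_of_mem_replicate hx]; simp
      obtain ⟨x2, l2, h2⟩ : ∃ x2 l2, (K.body (symAt w j) ++
          List.replicate (b - 1 - (K.body (symAt w j)).length) UL.semi).reverse = x2 :: l2 := by
        cases h : (K.body (symAt w j) ++
          List.replicate (b - 1 - (K.body (symAt w j)).length) UL.semi).reverse with
        | nil => exact absurd (List.reverse_eq_nil_iff.1 h) hbody
        | cons x l => exact ⟨x, l, rfl⟩
      have h3 : (K.pre b w (j + 1)).reverse = x2 :: (l2 ++ UL.dol :: (K.pre b w j).reverse) := by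
        rw [K.pre_succ, List.reverse_append, blk, List.reverse_cons, h2]; simp
      simp only [Nat.succ_eq_add_one] at hT hd hgd ⊢
      rw [h2] at hlet
      rw [h3] at hT ⊢
      refine dt_trans nd _ (dtS nd _ hT (q' := .gl) (op := Op.keep) (st' := st) (by simp) ?_ rfl)
        (gl_run nd _ _ st l2 x2 (fun y hy => hlet y (by simp [hy])) (hlet x2 (by simp)) l
          (dlet (symAt w (j + 1)) Dir.L) (r ++ S) hl hgd.2.2 hT)
      rw [hd]; exact set_some
  | R =>
    by_cases h0 : i = w.length + 1
    · subst h0
      have hs : symAt w (w.length + 1) = Sym.right := symAt_right w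
      have e1 : Dir.R.move w.length (w.length + 1) = w.length + 1 := by simp [Dir.move]
      rw [e1]
      refine hstay ?_
      rw [hs]; rfl
    · have hd : dlet (symAt w i) Dir.R = UL.dR := by
        cases hs : symAt w i with
        | right => rw [symAt_eq_right] at hs; omega
        | left => rfl
        | letter a => rfl
      have e1 : Dir.R.move w.length i = i + 1 := by simp only [Dir.move]; omega
      rw [e1]
      obtain ⟨S', rfl⟩ := hS' (by omega)
      have hr : ∀ x ∈ dlet (symAt w i) Dir.R :: r, x ≠ UL.dol := by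
        intro x hx
        rcases List.mem_cons.1 hx with rfl | hx
        · exact hgd.2.2
        · have h4 : x ∈ K.body (symAt w i) ++
              List.replicate (b - 1 - (K.body (symAt w i)).length) UL.semi := by
            have h5 : UL.dol :: (K.body (symAt w i) ++
              List.replicate (b - 1 - (K.body (symAt w i)).length) UL.semi) =
              UL.dol :: (l.reverse ++ dlet (symAt w i) Dir.R :: r) := by
              rw [← blk, hblk]; simp
            rw [List.cons.injEq] at h5
            rw [h5.2]; simp [hx]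
          rw [List.mem_append] at h4
          rcases h4 with h4 | h4
          · exact K.body_letters _ x h4
          · rw [List.eq_of_mem_replicate h4]; simp
      have h6 := gr_run nd (blkTape (K.blk b) w) S' st (dlet (symAt w i) Dir.R :: r)
        (l ++ UL.dol :: (K.pre b w i).reverse) hr (by rw [hT]; simp)
      have e2 : (dlet (symAt w i) Dir.R :: r).reverse ++ (l ++ UL.dol :: (K.pre b w i).reverse) =
          (K.pre b w (i + 1)).reverse := by
        rw [K.pre_succ, hblk]; simp
      rw [e2] at h6
      refine dt_trans nd _ (dtS nd _ hT (q' := .gr) (op := Op.keep) (st' := st) (by simp) ?_ rfl) h6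
      rw [hd]; exact set_some

/-- the execution of an action -/
theorem act_run (hb : ∀ a : Sym α, (K.body a).length + 1 ≤ b) (c : PCfg M.Q (Fin 1) Γ)
    (hi : c.pos 0 ≤ w.length + 1) (t : M.Q × (Fin 1 → Dir) × Op Γ) (l r : List UL)
    (hl : ∀ x ∈ l, x ≠ UL.dol)
    (hblk : K.blk b (symAt w (c.pos 0)) = (l ++ [UL.dol]).reverse ++
      (K.act (symAt w (c.pos 0)) c.st.head? t ++ r)) :
    DT ((univ nd).Step (blkTape (K.blk b) w)) (UF nd)
      (Z nd .go (l ++ UL.dol :: (K.pre b w (c.pos 0)).reverse) (K.bst c.st))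
      (K.urep b w nd ⟨t.1, fun h => (t.2.1 h).move w.length (c.pos h), t.2.2.apply c.st⟩) := by
  set a := symAt w (c.pos 0) with ha
  set P := UL.dol :: (K.pre b w (c.pos 0)).reverse with hP
  obtain ⟨S, hS, hS'⟩ := K.pre_split b w (c.pos 0) (w.length + 2) (by omega)
  have hT : blkTape (K.blk b) w = (l ++ P).reverse ++
      (ppre c.st.head? t.2.2 ++ ((K.str c.st.head? t.1 t.2.2).map lt ++
        (dlet a (t.2.1 0) :: (r ++ S)))) := by
    rw [K.tape_eq, hS, ← ha, hblk, hP, act]; simp
  -- the letter for popping
  have h1 : DT ((univ nd).Step (blkTape (K.blk b) w)) (UF nd)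
      (Z nd .go (l ++ P) (K.bst c.st))
      (Z nd .go ((ppre c.st.head? t.2.2).reverse ++ (l ++ P))
        (if ppre c.st.head? t.2.2 = [] then K.bst c.st else (K.bst c.st).tail)) := by
    by_cases h : ppre c.st.head? t.2.2 = []
    · rw [if_pos h, h]
      exact ReflTransGen.refl
    · have h' : ppre c.st.head? t.2.2 = [UL.pp] := by
        revert h
        unfold ppre
        split
        · split <;> simp
        · simp
      rw [if_neg h, h']
      rw [h'] at hT
      exact dtR nd _ hT (q' := .go) (op := Op.pop) (by simp) set_some rfl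
  -- the string
  have h2 := go_run nd (blkTape (K.blk b) w) (dlet a (t.2.1 0) :: (r ++ S))
    (K.str c.st.head? t.1 t.2.2) ((ppre c.st.head? t.2.2).reverse ++ (l ++ P))
    (if ppre c.st.head? t.2.2 = [] then K.bst c.st else (K.bst c.st).tail)
    (by rw [hT]; simp)
  rw [K.str_effect] at h2
  -- the movement
  have h3 := K.move_run b w nd hb (c.pos 0) hi (t.2.1 0) (K.ust t.1 (t.2.2.apply c.st))
    (((K.str c.st.head? t.1 t.2.2).map lt).reverse ++ ((ppre c.st.head? t.2.2).reverse ++ l))
    (by
      intro x hx
      rw [List.mem_append, List.mem_append] at hx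
      rcases hx with hx | hx | hx
      · rw [List.mem_reverse, List.mem_map] at hx
        obtain ⟨y, _, rfl⟩ := hx
        exact (good_lt y).2.2
      · have h4 : x ∈ K.act a c.st.head? t := by
          unfold act
          rw [List.mem_append]
          exact Or.inl (List.mem_reverse.1 hx)
        exact (K.good_act _ _ _ x h4).2.2
      · exact hl x hx) r (by rw [← ha, hblk, act]; simp)
  have e : ((K.str c.st.head? t.1 t.2.2).map lt).reverse ++
      ((ppre c.st.head? t.2.2).reverse ++ l) ++ UL.dol :: (K.pre b w (c.pos 0)).reverse =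
      ((K.str c.st.head? t.1 t.2.2).map lt).reverse ++
        ((ppre c.st.head? t.2.2).reverse ++ (l ++ P)) := by
    rw [hP]; simp
  rw [e] at h3
  exact dt_trans nd _ h1 (dt_trans nd _ h2 h3)

/-- the next configuration -/
def nxt (w : List α) (c : PCfg M.Q (Fin 1) Γ) (t : M.Q × (Fin 1 → Dir) × Op Γ) :
    PCfg M.Q (Fin 1) Γ :=
  ⟨t.1, fun h => (t.2.1 h).move w.length (c.pos h), t.2.2.apply c.st⟩

theorem act_ne_nil (a : Sym α) (g : Option Γ) (t : M.Q × (Fin 1 → Dir) × Op Γ) :
    ∃ x s, K.act a g t = x :: s := by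
  unfold act
  cases h : ppre g t.2.2 with
  | cons x s => exact ⟨_, _, rfl⟩
  | nil =>
    cases h : (K.str g t.1 t.2.2).map lt with
    | cons x s => exact ⟨_, _, rfl⟩
    | nil => exact ⟨_, _, rfl⟩

/-- the steps in the state `exec` -/
theorem step_exec {T : List UL} {L R : List UL} {a : UL} {st : List Bool}
    (hT : T = L.reverse ++ a :: R) (ha : a ≠ UL.semi) (x : PCfg (univ nd).Q (Fin 1) Bool) :
    (univ nd).Step T (Z nd .exec L st) x ↔
      (x = Z nd .go L st ∨ (nd = true ∧ x = Z nd .alt L st)) := by
  rw [step_Z nd T hT]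
  constructor
  · rintro ⟨y, ⟨_, rfl | ⟨h, rfl⟩⟩, rfl⟩
    · exact Or.inl rfl
    · exact Or.inr ⟨h, rfl⟩
  · rintro (rfl | ⟨h, rfl⟩)
    · exact ⟨_, ⟨ha, Or.inl rfl⟩, rfl⟩
    · exact ⟨_, ⟨ha, Or.inr ⟨h, rfl⟩⟩, rfl⟩

section exec

variable (hb : ∀ a : Sym α, (K.body a).length + 1 ≤ b) (c : PCfg M.Q (Fin 1) Γ)
  (hi : c.pos 0 ≤ w.length + 1)

include hb hi in
theorem exec_acc : ∀ (ts : List (M.Q × (Fin 1 → Dir) × Op Γ)) (l r : List UL) (n : ℕ),
    (∀ x ∈ l, x ≠ UL.dol) →
    K.blk b (symAt w (c.pos 0)) = (l ++ [UL.dol]).reverse ++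
      (ts.flatMap (fun t => K.act (symAt w (c.pos 0)) c.st.head? t ++ [UL.bar]) ++ UL.semi :: r) →
    AccN ((univ nd).Step (blkTape (K.blk b) w)) (UF nd) n
      (Z nd .exec (l ++ UL.dol :: (K.pre b w (c.pos 0)).reverse) (K.bst c.st)) →
    ∃ t ∈ ts, ∃ m, m < n ∧ AccN ((univ nd).Step (blkTape (K.blk b) w)) (UF nd) m
      (K.urep b w nd (nxt w c t)) := by
  intro ts
  induction ts with
  | nil =>
    intro l r n hl hblk hacc
    exfalso
    obtain ⟨S, hS, hS'⟩ := K.pre_split b w (c.pos 0) (w.length + 2) (by omega)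
    have hT : blkTape (K.blk b) w =
        (l ++ UL.dol :: (K.pre b w (c.pos 0)).reverse).reverse ++ UL.semi :: (r ++ S) := by
      rw [K.tape_eq, hS, hblk]; simp
    cases n with
    | zero => exact absurd hacc (by intro h; cases h)
    | succ n =>
      rcases hacc with hacc | ⟨y, hy, _⟩
      · cases hacc
      · rw [step_Z nd _ hT] at hy
        obtain ⟨y, ⟨h1, _⟩, _⟩ := hy
        exact h1 rfl
  | cons t ts ih =>
    intro l r n hl hblk hacc
    obtain ⟨S, hS, hS'⟩ := K.pre_split b w (c.pos 0) (w.length + 2) (by omega)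
    obtain ⟨x0, s0, hx0⟩ := K.act_ne_nil (symAt w (c.pos 0)) c.st.head? t
    have hgood := K.good_act (symAt w (c.pos 0)) c.st.head? t
    have hT : blkTape (K.blk b) w =
        (l ++ UL.dol :: (K.pre b w (c.pos 0)).reverse).reverse ++ x0 :: (s0 ++ (UL.bar ::
          (ts.flatMap (fun t => K.act (symAt w (c.pos 0)) c.st.head? t ++ [UL.bar]) ++
            UL.semi :: r) ++ S)) := by
      rw [K.tape_eq, hS, hblk]; simp [hx0]
    cases n with
    | zero => exact absurd hacc (by intro h; cases h)
    | succ n =>
      rcases hacc with hacc | ⟨y, hy, hacc⟩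
      · cases hacc
      · rw [step_exec nd hT (hgood x0 (by rw [hx0]; simp)).1] at hy
        rcases hy with rfl | ⟨hnd, rfl⟩
        · have h1 := K.act_run b w nd hb c hi t l
            (UL.bar :: (ts.flatMap (fun t => K.act (symAt w (c.pos 0)) c.st.head? t ++ [UL.bar]) ++
            UL.semi :: r)) hl (by rw [hblk]; simp)
          obtain ⟨m, hm, h2⟩ := h1.accN hacc
          exact ⟨t, by simp, m, by omega, h2⟩
        · have h1 := alt_run nd (blkTape (K.blk b) w)
            ((ts.flatMap (fun t => K.act (symAt w (c.pos 0)) c.st.head? t ++ [UL.bar]) ++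
            UL.semi :: r) ++ S) (K.bst c.st) (K.act (symAt w (c.pos 0)) c.st.head? t)
            (l ++ UL.dol :: (K.pre b w (c.pos 0)).reverse) (fun x hx => (hgood x hx).2.1)
            (by rw [hT, hx0]; simp)
          obtain ⟨m, hm, h2⟩ := h1.accN hacc
          have e : UL.bar :: ((K.act (symAt w (c.pos 0)) c.st.head? t).reverse ++
              (l ++ UL.dol :: (K.pre b w (c.pos 0)).reverse)) =
              (UL.bar :: ((K.act (symAt w (c.pos 0)) c.st.head? t).reverse ++ l)) ++
                UL.dol :: (K.pre b w (c.pos 0)).reverse := by simp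
          rw [e] at h2
          obtain ⟨t', ht', m', hm', h3⟩ := ih _ r m (by
            intro x hx
            rcases List.mem_cons.1 hx with rfl | hx
            · simp
            · rw [List.mem_append] at hx
              rcases hx with hx | hx
              · exact (hgood x (List.mem_reverse.1 hx)).2.2
              · exact hl x hx) (by rw [hblk]; simp) h2
          exact ⟨t', by simp [ht'], m', by omega, h3⟩

include hb hi in
theorem exec_reach : ∀ (ts : List (M.Q × (Fin 1 → Dir) × Op Γ)) (l r : List UL),
    (nd = true ∨ ts.length ≤ 1) →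
    (∀ x ∈ l, x ≠ UL.dol) →
    K.blk b (symAt w (c.pos 0)) = (l ++ [UL.dol]).reverse ++
      (ts.flatMap (fun t => K.act (symAt w (c.pos 0)) c.st.head? t ++ [UL.bar]) ++ UL.semi :: r) →
    ∀ t ∈ ts, ReflTransGen ((univ nd).Step (blkTape (K.blk b) w))
      (Z nd .exec (l ++ UL.dol :: (K.pre b w (c.pos 0)).reverse) (K.bst c.st))
      (K.urep b w nd (nxt w c t)) := by
  intro ts
  induction ts with
  | nil => intro l r _ _ _ t ht; simp at ht
  | cons t ts ih =>
    intro l r hnd hl hblk t' ht'
    obtain ⟨S, hS, hS'⟩ := K.pre_split b w (c.pos 0) (w.length + 2) (by omega)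
    obtain ⟨x0, s0, hx0⟩ := K.act_ne_nil (symAt w (c.pos 0)) c.st.head? t
    have hgood := K.good_act (symAt w (c.pos 0)) c.st.head? t
    have hT : blkTape (K.blk b) w =
        (l ++ UL.dol :: (K.pre b w (c.pos 0)).reverse).reverse ++ x0 :: (s0 ++ (UL.bar ::
          (ts.flatMap (fun t => K.act (symAt w (c.pos 0)) c.st.head? t ++ [UL.bar]) ++
            UL.semi :: r) ++ S)) := by
      rw [K.tape_eq, hS, hblk]; simp [hx0]
    have hstep := step_exec nd hT (hgood x0 (by rw [hx0]; simp)).1 (st := K.bst c.st)
    rcases List.mem_cons.1 ht' with rfl | ht'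
    · have h1 := K.act_run b w nd hb c hi t' l
            (UL.bar :: (ts.flatMap (fun t => K.act (symAt w (c.pos 0)) c.st.head? t ++ [UL.bar]) ++
            UL.semi :: r)) hl (by rw [hblk]; simp)
      exact ReflTransGen.head ((hstep _).2 (Or.inl rfl)) h1.reach
    · have hnd' : nd = true := by
        rcases hnd with h | h
        · exact h
        · have := List.length_pos_of_mem ht'
          simp only [List.length_cons] at h
          omega
      have h1 := alt_run nd (blkTape (K.blk b) w)
            ((ts.flatMap (fun t => K.act (symAt w (c.pos 0)) c.st.head? t ++ [UL.bar]) ++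
            UL.semi :: r) ++ S) (K.bst c.st) (K.act (symAt w (c.pos 0)) c.st.head? t)
            (l ++ UL.dol :: (K.pre b w (c.pos 0)).reverse) (fun x hx => (hgood x hx).2.1)
            (by rw [hT, hx0]; simp)
      have e : UL.bar :: ((K.act (symAt w (c.pos 0)) c.st.head? t).reverse ++
              (l ++ UL.dol :: (K.pre b w (c.pos 0)).reverse)) =
              (UL.bar :: ((K.act (symAt w (c.pos 0)) c.st.head? t).reverse ++ l)) ++
                UL.dol :: (K.pre b w (c.pos 0)).reverse := by simp
      rw [e] at h1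
      have h2 := ih (UL.bar :: ((K.act (symAt w (c.pos 0)) c.st.head? t).reverse ++ l)) r
          (Or.inl hnd') (by
            intro x hx
            rcases List.mem_cons.1 hx with rfl | hx
            · simp
            · rw [List.mem_append] at hx
              rcases hx with hx | hx
              · exact (hgood x (List.mem_reverse.1 hx)).2.2
              · exact hl x hx) (by rw [hblk]; simp) t' ht'
      exact ReflTransGen.head ((hstep _).2 (Or.inr ⟨hnd', rfl⟩)) (h1.reach.trans h2)

include hb hi in
/-- the search for the item -/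
theorem search : ∃ l r, (∀ x ∈ l, x ≠ UL.dol) ∧
    K.blk b (symAt w (c.pos 0)) = (l ++ [UL.dol]).reverse ++
      (K.item (symAt w (c.pos 0)) c.q c.st.head? ++ UL.semi :: r) ∧
    DT ((univ nd).Step (blkTape (K.blk b) w)) (UF nd) (K.urep b w nd c)
      (Z nd .exec (l ++ UL.dol :: (K.pre b w (c.pos 0)).reverse) (K.bst c.st)) := by
  set a := symAt w (c.pos 0) with ha
  obtain ⟨I1, I2, h1, h2⟩ := K.its_split a c.q c.st.head?
  obtain ⟨S, hS, hS'⟩ := K.pre_split b w (c.pos 0) (w.length + 2) (by omega)
  have hblk : K.blk b a = ((I1.flatMap (fun s => s ++ [UL.semi])).reverse ++ [UL.dol]).reverse ++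
      (K.item a c.q c.st.head? ++ UL.semi :: (I2.flatMap (fun s => s ++ [UL.semi]) ++
        List.replicate (b - 1 - (K.body a).length) UL.semi)) := by
    conv_lhs => rw [blk]
    generalize (b - 1 - (K.body a).length) = z
    rw [body, h1]
    simp
  refine ⟨(I1.flatMap (fun s => s ++ [UL.semi])).reverse,
    I2.flatMap (fun s => s ++ [UL.semi]) ++
        List.replicate (b - 1 - (K.body a).length) UL.semi, ?_, hblk, ?_⟩
  · intro x hx
    rw [List.mem_reverse] at hx
    refine K.body_letters a x ?_
    rw [body, h1, List.flatMap_append, List.mem_append]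
    exact Or.inl hx
  · have hT : blkTape (K.blk b) w = (UL.dol :: (K.pre b w (c.pos 0)).reverse).reverse ++
        (I1.flatMap (fun s => s ++ [UL.semi]) ++ (K.item a c.q c.st.head? ++ UL.semi ::
          (I2.flatMap (fun s => s ++ [UL.semi]) ++
          List.replicate (b - 1 - (K.body a).length) UL.semi ++ S))) := by
      rw [K.tape_eq, hS, ← ha, hblk]; simp
    have h3 := find_run nd (blkTape (K.blk b) w) _ (K.bst c.st) I1 _ (by
      intro s hs x hx
      have : s ∈ K.its a := by rw [h1]; simp [hs]
      unfold its at this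
      rw [List.mem_map] at this
      obtain ⟨j, _, rfl⟩ := this
      exact (K.item'_letters a j x hx).1) hT
    rw [h2] at h3
    refine dt_trans nd _ h3 ?_
    obtain ⟨x, R, hx⟩ : ∃ x R, K.item a c.q c.st.head? ++ UL.semi ::
          (I2.flatMap (fun s => s ++ [UL.semi]) ++
          List.replicate (b - 1 - (K.body a).length) UL.semi ++ S) = x :: R := by
      cases K.item a c.q c.st.head? with
      | nil => exact ⟨_, _, rfl⟩
      | cons x s => exact ⟨_, _, rfl⟩
    rw [hx] at hT
    refine dtS nd _ (a := x) (R := R) (q' := .exec) (op := Op.keep) ?_ (by simp) ?_ rfl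
    · rw [hT]; simp
    · simp only [uStep, K.bst_head, if_false]

end exec

/-- accepting configurations are represented by configurations from which acceptance is
possible -/
theorem urep_acc (hb : ∀ a : Sym α, (K.body a).length + 1 ≤ b) (c : PCfg M.Q (Fin 1) Γ)
    (hi : c.pos 0 ≤ w.length + 1) (hacc : c.q ∈ M.acc) :
    ∃ y, ReflTransGen ((univ nd).Step (blkTape (K.blk b) w)) (K.urep b w nd c) y ∧ UF nd y := by
  obtain ⟨l, r, hl, hblk, hdt⟩ := K.search b w nd hb c hi
  obtain ⟨S, hS, hS'⟩ := K.pre_split b w (c.pos 0) (w.length + 2) (by omega)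
  have hitem : K.item (symAt w (c.pos 0)) c.q c.st.head? = [UL.bang] := by
    unfold item; rw [if_pos hacc]
  rw [hitem] at hblk
  have hT : blkTape (K.blk b) w =
        (l ++ UL.dol :: (K.pre b w (c.pos 0)).reverse).reverse ++ UL.bang :: (UL.semi :: r ++ S) := by
    rw [K.tape_eq, hS, hblk]; simp
  have h1 := (step_exec nd hT (by simp) (Z nd .go (l ++ UL.dol :: (K.pre b w (c.pos 0)).reverse)
    (K.bst c.st)) (st := K.bst c.st)).2 (Or.inl rfl)
  have h2 := dtS nd _ hT (q := .go) (q' := .acc) (st := K.bst c.st) (op := Op.keep) (by simp)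
    set_some rfl
  exact ⟨_, (hdt.reach.tail h1).trans h2.reach, rfl⟩

theorem urep_step (hb : ∀ a : Sym α, (K.body a).length + 1 ≤ b) (hnd : nd = true ∨ M.Det)
    (c c' : PCfg M.Q (Fin 1) Γ)
    (hi : c.pos 0 ≤ w.length + 1) (hacc : c.q ∉ M.acc) (hs : M.Step w c c') :
    ReflTransGen ((univ nd).Step (blkTape (K.blk b) w)) (K.urep b w nd c) (K.urep b w nd c') := by
  obtain ⟨l, r, hl, hblk, hdt⟩ := K.search b w nd hb c hi
  unfold item at hblk
  rw [if_neg hacc] at hblk
  obtain ⟨t, ht, rfl⟩ := hs
  have hfun : (fun h : Fin 1 => symAt w (c.pos h)) = fun _ => symAt w (c.pos 0) := by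
    funext h; rw [Subsingleton.elim h 0]
  rw [hfun] at ht
  refine hdt.reach.trans (K.exec_reach b w nd hb c hi _ l r ?_ hl hblk t (mem_acts.2 ht))
  rcases hnd with h | h
  · exact Or.inl h
  · exact Or.inr (acts_length h _ _ _)

theorem urep_accN (hb : ∀ a : Sym α, (K.body a).length + 1 ≤ b)
    (c : PCfg M.Q (Fin 1) Γ) (hi : c.pos 0 ≤ w.length + 1) (hacc : c.q ∉ M.acc) {n : ℕ}
    (hn : AccN ((univ nd).Step (blkTape (K.blk b) w)) (UF nd) n (K.urep b w nd c)) :
    ∃ c', M.Step w c c' ∧ ∃ m, m < n ∧
      AccN ((univ nd).Step (blkTape (K.blk b) w)) (UF nd) m (K.urep b w nd c') := by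
  obtain ⟨l, r, hl, hblk, hdt⟩ := K.search b w nd hb c hi
  unfold item at hblk
  rw [if_neg hacc] at hblk
  obtain ⟨m, hm, h1⟩ := hdt.accN hn
  obtain ⟨t, ht, m', hm', h2⟩ := K.exec_acc b w nd hb c hi _ l r m hl hblk h1
  have hfun : (fun h : Fin 1 => symAt w (c.pos h)) = fun _ => symAt w (c.pos 0) := by
    funext h; rw [Subsingleton.elim h 0]
  refine ⟨nxt w c t, ⟨t, ?_, rfl⟩, m', by omega, h2⟩
  rw [hfun]
  exact mem_acts.1 ht

theorem start_run : DT ((univ nd).Step (blkTape (K.blk b) w)) (UF nd) (univ nd).start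
    (K.urep b w nd M.start) := by
  obtain ⟨S, hS, hS'⟩ := K.pre_split b w 0 (w.length + 2) (by omega)
  have hpre0 : K.pre b w 0 = [] := by simp [pre]
  have hidx : K.idx M.init none = 0 := by simp [idx, K.ix0, K.cd0]
  have hrep : K.urep b w nd M.start = Z nd .find (UL.dol :: []) [] := by
    simp [urep, PDA.start, hpre0, ust, hidx, bst]
  have hT : blkTape (K.blk b) w = ([] : List UL).reverse ++ UL.dol :: (K.body (symAt w 0) ++
      List.replicate (b - 1 - (K.body (symAt w 0)).length) UL.semi ++ S) := by
    rw [K.tape_eq, hS, hpre0, blk]; simp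
  rw [hrep]
  have h1 : DS ((univ nd).Step (blkTape (K.blk b) w)) (UF nd) (univ nd).start (Z nd .gs [] []) := by
    have hlen : 0 < (blkTape (K.blk b) w).length := by rw [hT]; simp
    have key : (⟨UQ.gs, fun _ => Dir.R.move (blkTape (K.blk b) w).length 0, Op.keep.apply []⟩ :
        PCfg (univ nd).Q (Fin 1) Bool) = Z nd .gs [] [] := by
      unfold Z
      simp only [PCfg.mk.injEq, true_and]
      refine ⟨?_, rfl⟩
      funext _
      simp [Dir.move]
    refine ⟨(by intro h; cases h), ?_, ?_⟩
    · exact ⟨(.gs, fun _ => Dir.R, Op.keep), ⟨(.gs, Dir.R, Op.keep), ⟨rfl, rfl⟩, rfl⟩, key.symm⟩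
    · rintro z ⟨t, ⟨y, ⟨_, rfl⟩, rfl⟩, rfl⟩
      exact key
  exact ReflTransGen.head h1 (dtR nd _ hT (q' := .find) (op := Op.keep) (by simp) set_some rfl)

/-- **Universality.** -/
theorem univ_spec (hb : ∀ a : Sym α, (K.body a).length + 1 ≤ b) (hnd : nd = true ∨ M.Det) :
    blkTape (K.blk b) w ∈ (univ nd).lang ↔ w ∈ M.lang := by
  rw [PDA.mem_lang, PDA.mem_lang]
  have hpos : ∀ c c', M.Step w c c' → c.pos 0 ≤ w.length + 1 → c'.pos 0 ≤ w.length + 1 := by
    rintro c c' ⟨t, _, rfl⟩ h
    exact move_le _ h
  constructor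
  · rintro ⟨y, hy, hacc⟩
    obtain ⟨n, hn⟩ := accN_of_reach (F := UF nd) hy hacc
    obtain ⟨m, _, hm⟩ := (K.start_run b w nd).accN hn
    have key : ∀ m c, c.pos 0 ≤ w.length + 1 →
        AccN ((univ nd).Step (blkTape (K.blk b) w)) (UF nd) m (K.urep b w nd c) →
        ∃ c', ReflTransGen (M.Step w) c c' ∧ c'.q ∈ M.acc := by
      intro m
      induction m using Nat.strong_induction_on with
      | _ m ih =>
        intro c hc hm
        by_cases h : c.q ∈ M.acc
        · exact ⟨c, .refl, h⟩
        · obtain ⟨c', hs, m', hm', h2⟩ := K.urep_accN b w nd hb c hc h hm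
          obtain ⟨c'', h3, h4⟩ := ih m' hm' c' (hpos c c' hs hc) h2
          exact ⟨c'', ReflTransGen.head hs h3, h4⟩
    exact key m M.start (Nat.zero_le _) hm
  · rintro ⟨c, hc, hacc⟩
    have key : ∀ c, ReflTransGen (M.Step w) M.start c → c.pos 0 ≤ w.length + 1 := by
      intro c hc
      induction hc with
      | refl => exact Nat.zero_le _
      | tail _ hs ih => exact hpos _ _ hs ih
    -- the first accepting configuration
    have key2 : ∀ c, ReflTransGen (M.Step w) M.start c →
        (∃ y, ReflTransGen ((univ nd).Step (blkTape (K.blk b) w)) (univ nd).start y ∧ UF nd y) ∨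
        ReflTransGen ((univ nd).Step (blkTape (K.blk b) w)) (univ nd).start (K.urep b w nd c) := by
      intro c hc
      induction hc with
      | refl => exact Or.inr (K.start_run b w nd).reach
      | @tail c c' hcc hs ih =>
        rcases ih with ih | ih
        · exact Or.inl ih
        · by_cases h : c.q ∈ M.acc
          · obtain ⟨y, hy, hF⟩ := K.urep_acc b w nd hb c (key c hcc) h
            exact Or.inl ⟨y, ih.trans hy, hF⟩
          · exact Or.inr (ih.trans (K.urep_step b w nd hb hnd c c' (key c hcc) h hs))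
    rcases key2 c hc with ⟨y, hy, hF⟩ | h
    · exact ⟨y, hy, hF⟩
    · obtain ⟨y, hy, hF⟩ := K.urep_acc b w nd hb c (key c hc) hacc
      exact ⟨y, h.trans hy, hF⟩

end tape

end Cod

end code

end Pool.Agent.V8H47.MH
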