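import Pool.Agent.V8H47.MH.Defs

/-!
# Restrictions of the content of the pushdown store
-/

namespace Pool.Agent.V8H47.MH

/-- In every configuration that the automaton reaches (on any input), the content of the store,
read from the bottom to the top, belongs to `R`. -/
def PDA.ContentsIn {α H Γ : Type} (M : PDA α H Γ) (R : Set (List Γ)) : Prop :=
  ∀ (w : List α) (c : PCfg M.Q H Γ), M.Reach w c → c.st.reverse ∈ R

/-- The number of words of length `n` all of whose prefixes belong to `R` is at most
`(n + 2) ^ c`, for a constant `c`. -/
def PolyGrowth {Γ : Type} (R : Set (List Γ)) : Prop :=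
  ∃ c : ℕ, ∀ n : ℕ, {v : List Γ | v.length = n ∧ ∀ p, p <+: v → p ∈ R}.ncard ≤ (n + 2) ^ c

/-- The languages accepted by deterministic two-way `k`-head pushdown automata with pushdown
alphabet `Γ` and contents of the store in `R`. -/
def twoDPDAIn {Γ : Type} (R : Set (List Γ)) (k : ℕ) (α : Type) : Set (Language α) :=
  {L | ∃ M : PDA α (Fin k) Γ, M.Det ∧ M.ContentsIn R ∧ M.lang = L}

/-- The languages accepted by nondeterministic two-way `k`-head pushdown automata with pushdown
alphabet `Γ` and contents of the store in `R`. -/
def twoNPDAIn {Γ : Type} (R : Set (List Γ)) (k : ℕ) (α : Type) : Set (Language α) :=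
  {L | ∃ M : PDA α (Fin k) Γ, M.ContentsIn R ∧ M.lang = L}

end Pool.Agent.V8H47.MH
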