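import Pool.Agent.V8H47.MH.SM
import Pool.Agent.V8H47.MH.Basic

/-!
# Multihead finite automata with polynomially bounded counters
-/

namespace Pool.Agent.V8H47.MH

open Relation

/-- Multihead automata with counters indexed by `J`. -/
structure CM (α H J : Type) where
  Q : Type
  finQ : Finite Q
  init : Q
  acc : Set Q
  step : Q → (H → Sym α) → (J → Prop) → Set (Q × (H → Dir) × (J → Dir))

structure CCfg (Q H J : Type) where
  q : Q
  pos : H → ℕ
  cnt : J → ℕ

/-- counter actions -/
def Dir.cmove : Dir → ℕ → ℕ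
  | Dir.L, p => p - 1
  | Dir.S, p => p
  | Dir.R, p => p + 1

namespace CM

variable {α H J : Type} (M : CM α H J)

/-- a step, with all the counters remaining below `N` -/
def Step (N : ℕ) (w : List α) (c c' : CCfg M.Q H J) : Prop :=
  ∃ t ∈ M.step c.q (fun h => symAt w (c.pos h)) (fun j => c.cnt j = 0),
    (∀ j, t.2.2 j = Dir.R → c.cnt j + 1 < N) ∧
    c' = ⟨t.1, fun h => (t.2.1 h).move w.length (c.pos h), fun j => (t.2.2 j).cmove (c.cnt j)⟩

def start : CCfg M.Q H J := ⟨M.init, fun _ => 0, fun _ => 0⟩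

def Det : Prop := ∀ q a z, (M.step q a z).Subsingleton

end CM

/-- the digits of a number below `r ^ c` are all zero only for zero -/
theorem tup_eq_zero {c r v : ℕ} (hr : 0 < r) (hv : v < r ^ c)
    (h : ∀ i : Fin c, tup c r v i = 0) : v = 0 := by
  induction c generalizing v with
  | zero => simpa using hv
  | succ c ih =>
    have h1 : v / r ^ c < r := by
      apply Nat.div_lt_of_lt_mul
      rw [← pow_succ]; exact hv
    have h2 := h (Fin.last c)
    have h3 : zig r (v / r ^ c) = v / r ^ c := by
      unfold zig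
      rw [Nat.div_eq_of_lt h1, Nat.mod_eq_of_lt h1]; simp
    have h4 : v / r ^ c = 0 := by
      have : tup (c + 1) r v (Fin.last c) = zig r (v / r ^ c) := by simp [tup]
      rw [this, h3] at h2; exact h2
    have h5 : v < r ^ c := by
      rcases Nat.div_eq_zero_iff.1 h4 with h | h
      · exact absurd h (Nat.pow_pos hr).ne'
      · exact h
    refine ih h5 ?_
    intro i
    have := h i.castSucc
    simpa [tup] using this

theorem tup_zero (c r : ℕ) (i : Fin c) : tup c r 0 i = 0 := by
  simp [tup, zig]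

theorem dirs_zero (c r : ℕ) : dirs c r 0 = fun _ => true := by
  funext i; simp [dirs, zdir]

theorem mirror_eq_top {r c v : ℕ} (hv : v < r ^ c) :
    mirror r c v = r ^ c + (r ^ c - 1 - v) := by
  unfold mirror
  rw [Nat.div_eq_of_lt hv, Nat.mod_eq_of_lt hv]; simp

theorem tup_mirror {r c v : ℕ} (hr : 0 < r) (i : Fin c) :
    tup c r (mirror r c v) i = tup c r v i ∧ dirs c r (mirror r c v) i = !dirs c r v i :=
  zig_mirror_low hr i.2

/-- one step backwards -/
theorem sched_back {α : Type} (w : List α) (c v : ℕ) (hv : v + 1 < (w.length + 2) ^ c) (i : Fin c) :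
    (schedMove (fun j => !dirs c (w.length + 2) (v + 1) j) (syms w c (v + 1)) i).move w.length
      (tup c (w.length + 2) (v + 1) i) = tup c (w.length + 2) v i ∧
    (!schedDir (fun j => !dirs c (w.length + 2) (v + 1) j) (syms w c (v + 1)) i)
      = dirs c (w.length + 2) v i := by
  have hr : 0 < w.length + 2 := by omega
  set r := w.length + 2 with hrdef
  have e1 : (fun j => !dirs c r (v + 1) j) = dirs c r (mirror r c (v + 1)) := by
    funext j; rw [(tup_mirror hr j).2]
  have e2 : syms w c (v + 1) = syms w c (mirror r c (v + 1)) := by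
    funext j
    unfold syms
    rw [← hrdef, (tup_mirror hr j).1]
  have e3 : tup c r (v + 1) i = tup c r (mirror r c (v + 1)) i := by rw [(tup_mirror hr i).1]
  have e4 : mirror r c (v + 1) + 1 = mirror r c v := by
    rw [mirror_eq_top hv, mirror_eq_top (by omega : v < r ^ c)]; omega
  rw [e1, e2, e3]
  have h := sched_step w c (mirror r c (v + 1)) i
  rw [← hrdef] at h
  rw [h.1, h.2, e4, (tup_mirror hr i).1, (tup_mirror hr i).2]
  simp

theorem atEnd_all_iff {α : Type} (w : List α) (c v : ℕ) (hv : v < (w.length + 2) ^ c) :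
    (∀ i : Fin c, atEnd (dirs c (w.length + 2) v i) (syms w c v i)) ↔
      v + 1 = (w.length + 2) ^ c := by
  have h := all_lt_iff w c v c le_rfl
  rw [Nat.mod_eq_of_lt hv] at h
  constructor
  · intro h1
    have := h.1 (fun j _ => h1 j)
    omega
  · intro h1 i
    exact h.2 (by omega) i i.2

theorem zero_iff {α : Type} (w : List α) (c v : ℕ) (hv : v < (w.length + 2) ^ c) :
    (∀ i : Fin c, syms w c v i = Sym.left) ↔ v = 0 := by
  constructor
  · intro h
    exact tup_eq_zero (by omega) hv (fun i => symAt_eq_left.1 (h i))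
  · rintro rfl i
    exact symAt_eq_left.2 (tup_zero _ _ _)

namespace CM

variable {α H J : Type} (M : CM α H J)

open Classical in
/-- the new directions of the heads of a counter -/
noncomputable def newDir {c : ℕ} (m : Dir) (D : Fin c → Bool) (a : Fin c → Sym α) : Fin c → Bool :=
  match m with
  | Dir.L => if (∀ i, a i = Sym.left) then D else fun i => !schedDir (fun j => !D j) a i
  | Dir.S => D
  | Dir.R => schedDir D a

open Classical in
/-- the moves of the heads of a counter -/
noncomputable def newMove {c : ℕ} (m : Dir) (D : Fin c → Bool) (a : Fin c → Sym α) : Fin c → Dir :=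
  match m with
  | Dir.L => if (∀ i, a i = Sym.left) then fun _ => Dir.S else schedMove (fun j => !D j) a
  | Dir.S => fun _ => Dir.S
  | Dir.R => schedMove D a

theorem newDir_spec (w : List α) (c v : ℕ) (m : Dir) (hv : v < (w.length + 2) ^ c)
    (hm : m = Dir.R → v + 1 < (w.length + 2) ^ c) :
    newDir m (dirs c (w.length + 2) v) (syms w c v) = dirs c (w.length + 2) (m.cmove v) := by
  cases m with
  | L =>
    unfold newDir
    simp only [zero_iff w c v hv, Dir.cmove]
    cases v with
    | zero => simp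
    | succ v =>
      simp only [Nat.add_eq_zero_iff, one_ne_zero, and_false, if_false]
      funext i
      exact (sched_back w c v hv i).2
  | S => rfl
  | R =>
    funext i
    exact (sched_step w c v i).2

theorem newMove_spec (w : List α) (c v : ℕ) (m : Dir) (hv : v < (w.length + 2) ^ c)
    (hm : m = Dir.R → v + 1 < (w.length + 2) ^ c) (i : Fin c) :
    (newMove m (dirs c (w.length + 2) v) (syms w c v) i).move w.length
      (tup c (w.length + 2) v i) = tup c (w.length + 2) (m.cmove v) i := by
  cases m with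
  | L =>
    unfold newMove
    simp only [zero_iff w c v hv, Dir.cmove]
    cases v with
    | zero => simp [Dir.move]
    | succ v =>
      simp only [Nat.add_eq_zero_iff, one_ne_zero, and_false, if_false]
      exact (sched_back w c v hv i).1
  | S => rfl
  | R => exact (sched_step w c v i).1

/-- The finite automaton which simulates the counters by `c` heads each. -/
noncomputable def toFA [Finite J] (c : ℕ) : FA α (H ⊕ J × Fin c) where
  Q := M.Q × (J → Fin c → Bool)
  finQ := by have := M.finQ; infer_instance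
  init := (M.init, fun _ _ => true)
  acc := {q | q.1 ∈ M.acc}
  step q a := {x | ∃ t ∈ M.step q.1 (fun h => a (Sum.inl h))
      (fun j => ∀ i, a (Sum.inr (j, i)) = Sym.left),
    (∀ j, t.2.2 j = Dir.R → ¬ ∀ i, atEnd (q.2 j i) (a (Sum.inr (j, i)))) ∧
    x = ((t.1, fun j => newDir (t.2.2 j) (q.2 j) (fun i => a (Sum.inr (j, i)))),
      Sum.elim t.2.1 (fun z => newMove (t.2.2 z.1) (q.2 z.1) (fun i => a (Sum.inr (z.1, i))) z.2))}

theorem det_toFA [Finite J] (c : ℕ) (h : M.Det) : (M.toFA c).Det := by
  rintro q a x ⟨t, ht, -, rfl⟩ x' ⟨t', ht', -, rfl⟩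
  rw [h _ _ _ ht ht']

/-- The configuration of the finite automaton which represents a counter configuration. -/
def enc [Finite J] (c : ℕ) (w : List α) (x : CCfg M.Q H J) : FCfg (M.toFA c).Q (H ⊕ J × Fin c) :=
  ⟨(x.q, fun j => dirs c (w.length + 2) (x.cnt j)),
    Sum.elim x.pos (fun z => tup c (w.length + 2) (x.cnt z.1) z.2)⟩

theorem step_enc [Finite J] (c : ℕ) (w : List α) (x : CCfg M.Q H J)
    (hx : ∀ j, x.cnt j < (w.length + 2) ^ c) (y : FCfg (M.toFA c).Q (H ⊕ J × Fin c)) :
    (M.toFA c).Step w (M.enc c w x) y ↔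
      ∃ x', M.Step ((w.length + 2) ^ c) w x x' ∧ y = M.enc c w x' := by
  have e1 : (fun j => ∀ i, symAt w ((M.enc c w x).pos (Sum.inr (j, i))) = Sym.left) =
      (fun j => x.cnt j = 0) := by
    funext j
    exact propext (zero_iff w c _ (hx j))
  have e2 : ∀ j, (∀ i, atEnd ((M.enc c w x).q.2 j i) (symAt w ((M.enc c w x).pos (Sum.inr (j, i)))))
      ↔ x.cnt j + 1 = (w.length + 2) ^ c := fun j => atEnd_all_iff w c _ (hx j)
  have key : ∀ t : M.Q × (H → Dir) × (J → Dir),
      (∀ j, t.2.2 j = Dir.R → x.cnt j + 1 < (w.length + 2) ^ c) →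
      (⟨(t.1, fun j => newDir (t.2.2 j) ((M.enc c w x).q.2 j)
          (fun i => symAt w ((M.enc c w x).pos (Sum.inr (j, i))))),
        fun h => (Sum.elim t.2.1 (fun z : J × Fin c => newMove (t.2.2 z.1) ((M.enc c w x).q.2 z.1)
          (fun i => symAt w ((M.enc c w x).pos (Sum.inr (z.1, i)))) z.2) h : Dir).move w.length
          ((M.enc c w x).pos h)⟩ : FCfg (M.toFA c).Q (H ⊕ J × Fin c)) =
      M.enc c w ⟨t.1, fun h => (t.2.1 h).move w.length (x.pos h),
        fun j => (t.2.2 j).cmove (x.cnt j)⟩ := by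
    intro t ht
    unfold enc
    simp only [FCfg.mk.injEq]
    constructor
    · refine congrArg (Prod.mk t.1) ?_
      funext j
      exact newDir_spec w c (x.cnt j) (t.2.2 j) (hx j) (ht j)
    · funext h
      cases h with
      | inl h => rfl
      | inr z => exact newMove_spec w c (x.cnt z.1) (t.2.2 z.1) (hx z.1) (ht z.1) z.2
  constructor
  · rintro ⟨u, ⟨t, ht, hR, rfl⟩, rfl⟩
    have hR' : ∀ j, t.2.2 j = Dir.R → x.cnt j + 1 < (w.length + 2) ^ c := by
      intro j hj
      have h1 := hR j hj
      rw [e2 j] at h1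
      have := hx j
      omega
    rw [e1] at ht
    exact ⟨_, ⟨t, ht, hR', rfl⟩, key t hR'⟩
  · rintro ⟨x', ⟨t, ht, hR, rfl⟩, rfl⟩
    refine ⟨_, ⟨t, ?_, ?_, rfl⟩, (key t hR).symm⟩
    · rw [e1]; exact ht
    · intro j hj h1
      have := (e2 j).1 h1
      have := hR j hj
      omega

theorem step_bound {N : ℕ} {w : List α} {x x' : CCfg M.Q H J} (h : M.Step N w x x')
    (hx : ∀ j, x.cnt j < N) (j : J) : x'.cnt j < N := by
  obtain ⟨t, _, hR, rfl⟩ := h
  have h1 := hx j
  have h2 := hR j
  simp only
  cases ht : t.2.2 j with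
  | L => simp only [Dir.cmove]; omega
  | S => exact h1
  | R => exact h2 ht

/-- The language of the simulating finite automaton. -/
theorem mem_lang_toFA [Finite J] (c : ℕ) (w : List α) :
    w ∈ (M.toFA c).lang ↔
      ∃ x, ReflTransGen (M.Step ((w.length + 2) ^ c) w) M.start x ∧ x.q ∈ M.acc := by
  have h0 : ∀ j : J, (M.start : CCfg M.Q H J).cnt j < (w.length + 2) ^ c :=
    fun j => Nat.pow_pos (by omega)
  have hs : (M.toFA c).start = M.enc c w M.start := by
    unfold enc FA.start start
    simp only [FCfg.mk.injEq]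
    constructor
    · change (M.init, fun _ _ => true) = _
      simp only [dirs_zero]
    · funext h
      cases h with
      | inl h => rfl
      | inr z => exact (tup_zero _ _ _).symm
  rw [FA.mem_lang]
  constructor
  · rintro ⟨y, hy, hacc⟩
    obtain ⟨x, hx, hP⟩ := simulate (s := M.Step ((w.length + 2) ^ c) w)
      (fun (y : FCfg (M.toFA c).Q (H ⊕ J × Fin c)) (x : CCfg M.Q H J) =>
        y = M.enc c w x ∧ ∀ j, x.cnt j < (w.length + 2) ^ c)
      (by
        rintro y x y' ⟨rfl, hx⟩ hs
        obtain ⟨x', h1, h2⟩ := (M.step_enc c w x hx y').1 hs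
        exact ⟨x', h1, h2, M.step_bound h1 hx⟩)
      (b0 := M.start) ⟨hs, h0⟩ hy
    refine ⟨x, hx, ?_⟩
    rw [hP.1] at hacc
    exact hacc
  · rintro ⟨x, hx, hacc⟩
    obtain ⟨y, hy, hP⟩ := simulate (s := (M.toFA c).Step w)
      (fun (x : CCfg M.Q H J) (y : FCfg (M.toFA c).Q (H ⊕ J × Fin c)) =>
        y = M.enc c w x ∧ ∀ j, x.cnt j < (w.length + 2) ^ c)
      (by
        rintro x y x' ⟨rfl, hx⟩ hs
        exact ⟨_, (M.step_enc c w x hx _).2 ⟨x', hs, rfl⟩, rfl, M.step_bound hs hx⟩)
      (b0 := (M.toFA c).start) ⟨hs, h0⟩ hx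
    refine ⟨y, hy, ?_⟩
    rw [hP.1]
    exact hacc

end CM

end Pool.Agent.V8H47.MH
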