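import Pool.Agent.V8H47.MH.SM
import Pool.Agent.V8H47.MH.Basic

/-!
# Register machines with bounded registers

The registers hold positions of the input tape. Instructions: act as a finite automaton, copy
registers, guess registers, compare registers. They are simulated by multihead finite automata.
-/

namespace Pool.Agent.V8H47.MH

open Relation

/-- instructions -/
inductive LInstr (α R Q : Type)
  | act : ((R → Sym α) → Set (Q × (R → Dir))) → LInstr α R Q
  | copies : List (R × R) → Q → LInstr α R Q
  | guesses : List R → Q → LInstr α R Q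
  | eqs : List (R × R) → Q → Q → LInstr α R Q

/-- register machines -/
structure LM (α R : Type) where
  Q : Type
  finQ : Finite Q
  init : Q
  acc : Set Q
  prog : Q → LInstr α R Q

/-- the effect of a list of copies -/
def runCopies {R : Type} [DecidableEq R] (l : List (R × R)) (p : R → ℕ) : R → ℕ :=
  l.foldl (fun p x => Function.update p x.1 (p x.2)) p

namespace LM

variable {α R : Type} [DecidableEq R] (M : LM α R)

/-- one step -/
def Step (w : List α) (c c' : FCfg M.Q R) : Prop :=
  match M.prog c.q with
  | .act f => ∃ t ∈ f (fun r => symAt w (c.pos r)),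
      c' = ⟨t.1, fun r => (t.2 r).move w.length (c.pos r)⟩
  | .copies l q' => c' = ⟨q', runCopies l c.pos⟩
  | .guesses l q' => c'.q = q' ∧ (∀ r, r ∉ l → c'.pos r = c.pos r) ∧ ∀ r, c'.pos r ≤ w.length + 1
  | .eqs l qy qn => ((∀ x ∈ l, c.pos x.1 = c.pos x.2) ∧ c' = ⟨qy, c.pos⟩) ∨
      ((¬ ∀ x ∈ l, c.pos x.1 = c.pos x.2) ∧ c' = ⟨qn, c.pos⟩)

def start : FCfg M.Q R := ⟨M.init, fun _ => 0⟩

/-- acceptance -/
def lang : Language α := {w | ∃ c, ReflTransGen (M.Step w) M.start c ∧ c.q ∈ M.acc}

/-- no nondeterminism -/
def Det : Prop := ∀ q, match M.prog q with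
  | .act f => ∀ a, (f a).Subsingleton
  | .copies _ _ => True
  | .guesses _ _ => False
  | .eqs _ _ _ => True

end LM

theorem runCopies_le {R : Type} [DecidableEq R] {n : ℕ} (l : List (R × R)) : ∀ (p : R → ℕ),
    (∀ r, p r ≤ n) → ∀ r, runCopies l p r ≤ n := by
  induction l with
  | nil => intro p hp r; exact hp r
  | cons x l ih =>
    intro p hp r
    refine ih _ ?_ r
    intro r'
    change Function.update p x.1 (p x.2) r' ≤ n
    by_cases h : r' = x.1
    · subst h; rw [Function.update_self]; exact hp _
    · rw [Function.update_of_ne h]; exact hp _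

theorem LM.step_le {α R : Type} [DecidableEq R] (M : LM α R) {w : List α} {c c' : FCfg M.Q R}
    (h : M.Step w c c') (hc : ∀ r, c.pos r ≤ w.length + 1) : ∀ r, c'.pos r ≤ w.length + 1 := by
  unfold LM.Step at h
  cases hp : M.prog c.q with
  | act f =>
    rw [hp] at h
    obtain ⟨t, _, rfl⟩ := h
    intro r
    have := hc r
    simp only
    cases t.2 r <;> simp only [Dir.move] <;> omega
  | copies l q' =>
    rw [hp] at h
    simp only at h
    subst h
    exact runCopies_le l _ hc
  | guesses l q' =>
    rw [hp] at h
    exact h.2.2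
  | eqs l qy qn =>
    rw [hp] at h
    rcases h with ⟨_, rfl⟩ | ⟨_, rfl⟩ <;> exact hc

/-! ### The simulating finite automaton -/

/-- phases -/
inductive Ph
  | main | c1 | c2 | c3 | g1 | e1 | e2 (b : Bool)

instance : Finite Ph := by
  let f : Ph → Fin 8 := fun s => match s with
    | .main => 0 | .c1 => 1 | .c2 => 2 | .c3 => 3 | .g1 => 4 | .e1 => 5 | .e2 true => 6
    | .e2 false => 7
  refine Finite.of_injective f ?_
  intro a b h
  cases a with
  | e2 x => cases b with
    | e2 y => cases x <;> cases y <;> simp_all [f]
    | _ => cases x <;> simp_all [f]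
  | _ => cases b with
    | e2 y => cases y <;> simp_all [f]
    | _ => simp_all [f]

section fa

variable {α R : Type} [DecidableEq R]

/-- moves of one, two or three heads -/
def mv1 (r : Option R) (d : Dir) : Option R → Dir := Function.update (fun _ => Dir.S) r d

def mv2 (r : Option R) (d : Dir) (r' : Option R) (d' : Dir) : Option R → Dir :=
  Function.update (mv1 r d) r' d'

def mv3 (r : Option R) (d : Dir) (r' : Option R) (d' : Dir) (r'' : Option R) (d'' : Dir) :
    Option R → Dir := Function.update (mv2 r d r' d') r'' d''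

def stay : Option R → Dir := fun _ => Dir.S

variable (M : LM α R)

open Classical in
/-- the step of the simulating automaton; `i` is the place in the list of the instruction -/
noncomputable def faStep (q : M.Q) (i : ℕ) (ph : Ph) (a : Option R → Sym α) :
    Set ((M.Q × ℕ × Ph) × (Option R → Dir)) :=
  match M.prog q, ph with
  | .act f, .main => {x | ∃ t ∈ f (fun r => a (some r)),
      x = ((t.1, 0, .main), fun r => r.elim Dir.S t.2)}
  | .copies l q', .main => match l[i]? with
    | none => {((q', 0, .main), stay)}
    | some x => if x.1 = x.2 then {((q, i + 1, .main), stay)} else {((q, i, .c1), stay)}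
  | .copies l _, .c1 => match l[i]? with
    | none => ∅
    | some x => if a (some x.1) = Sym.left then {((q, i, .c2), stay)}
        else {((q, i, .c1), mv1 (some x.1) Dir.L)}
  | .copies l _, .c2 => match l[i]? with
    | none => ∅
    | some x => if a (some x.2) = Sym.left then {((q, i, .c3), stay)}
        else {((q, i, .c2), mv3 (some x.2) Dir.L (some x.1) Dir.R none Dir.R)}
  | .copies l _, .c3 => match l[i]? with
    | none => ∅
    | some x => if a none = Sym.left then {((q, i + 1, .main), stay)}
        else {((q, i, .c3), mv2 none Dir.L (some x.2) Dir.R)}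
  | .guesses l q', .main => match l[i]? with
    | none => {((q', 0, .main), stay)}
    | some _ => {((q, i, .g1), stay)}
  | .guesses l _, .g1 => match l[i]? with
    | none => ∅
    | some r => {((q, i, .g1), mv1 (some r) Dir.L), ((q, i, .g1), mv1 (some r) Dir.R),
        ((q, i + 1, .main), stay)}
  | .eqs l qy _, .main => match l[i]? with
    | none => {((qy, 0, .main), stay)}
    | some x => if x.1 = x.2 then {((q, i + 1, .main), stay)} else {((q, i, .e1), stay)}
  | .eqs l _ _, .e1 => match l[i]? with
    | none => ∅
    | some x => if a (some x.1) = Sym.left ∨ a (some x.2) = Sym.left then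
          {((q, i, .e2 (decide (a (some x.1) = Sym.left ∧ a (some x.2) = Sym.left))), stay)}
        else {((q, i, .e1), mv3 (some x.1) Dir.L (some x.2) Dir.L none Dir.R)}
  | .eqs l _ qn, .e2 b => match l[i]? with
    | none => ∅
    | some x => if a none = Sym.left then
          (if b = true then {((q, i + 1, .main), stay)} else {((qn, 0, .main), stay)})
        else {((q, i, .e2 b), mv3 none Dir.L (some x.1) Dir.R (some x.2) Dir.R)}
  | _, _ => ∅

/-- the length of the list of an instruction -/
def LInstr.len {α R Q : Type} : LInstr α R Q → ℕ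
  | .act _ => 0
  | .copies l _ => l.length
  | .guesses l _ => l.length
  | .eqs l _ _ => l.length

theorem exists_len_bound : ∃ B, ∀ q, (M.prog q).len ≤ B := by
  have := M.finQ
  obtain ⟨B, hB⟩ := (Set.finite_range (fun q => (M.prog q).len)).bddAbove
  exact ⟨B, fun q => hB ⟨q, rfl⟩⟩


/-! ### Restriction to finitely many states -/

end fa

section frestr

variable {α H Q : Type}

/-- steps of a transition function -/
def frstep (step : Q → (H → Sym α) → Set (Q × (H → Dir))) (w : List α)
    (c c' : FCfg Q H) : Prop :=
  ∃ t ∈ step c.q (fun h => symAt w (c.pos h)),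
    c' = ⟨t.1, fun h => (t.2 h).move w.length (c.pos h)⟩

/-- restriction to a finite set of states -/
def frestr (F : Set Q) (hF : F.Finite) (init : Q) (hi : init ∈ F) (acc : Set Q)
    (step : Q → (H → Sym α) → Set (Q × (H → Dir))) : FA α H where
  Q := F
  finQ := hF
  init := ⟨init, hi⟩
  acc := {q | q.1 ∈ acc}
  step q a := {x | (x.1.1, x.2) ∈ step q.1 a}

variable {F : Set Q} {hF : F.Finite} {init : Q} {hi : init ∈ F} {acc : Set Q}
  {step : Q → (H → Sym α) → Set (Q × (H → Dir))}

theorem det_frestr (h : ∀ q a, (step q a).Subsingleton) :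
    (frestr F hF init hi acc step).Det := by
  rintro q a ⟨⟨x1, hx⟩, x2⟩ h1 ⟨⟨y1, hy⟩, y2⟩ h2
  have := h q.1 a h1 h2
  simp only [Prod.mk.injEq] at this
  obtain ⟨rfl, rfl⟩ := this
  rfl

theorem lang_frestr (hcl : ∀ q ∈ F, ∀ a, ∀ t ∈ step q a, t.1 ∈ F) (w : List α) :
    w ∈ (frestr F hF init hi acc step).lang ↔
      ∃ c, ReflTransGen (frstep step w) ⟨init, fun _ => 0⟩ c ∧ c.q ∈ acc := by
  rw [FA.mem_lang]
  constructor
  · rintro ⟨c, hc, hacc⟩
    obtain ⟨b, hb, hP⟩ := simulate (s := frstep step w)
      (fun (c : FCfg (frestr F hF init hi acc step).Q H) (b : FCfg Q H) => b = ⟨c.q.1, c.pos⟩)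
      (by
        rintro c b c' rfl ⟨t, ht, rfl⟩
        exact ⟨_, ⟨(t.1.1, t.2), ht, rfl⟩, rfl⟩)
      (b0 := ⟨init, fun _ => 0⟩) rfl hc
    refine ⟨b, hb, ?_⟩
    rw [hP]; exact hacc
  · rintro ⟨c, hc, hacc⟩
    obtain ⟨b, hb, hP⟩ := simulate (s := (frestr F hF init hi acc step).Step w)
      (fun (b : FCfg Q H) (c : FCfg (frestr F hF init hi acc step).Q H) =>
        b = ⟨c.q.1, c.pos⟩)
      (by
        rintro b c b' rfl ⟨t, ht, rfl⟩
        exact ⟨_, ⟨(⟨t.1, hcl _ c.q.2 _ t ht⟩, t.2), ht, rfl⟩, rfl⟩)
      (b0 := (frestr F hF init hi acc step).start) rfl hc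
    refine ⟨b, hb, ?_⟩
    change b.q.1 ∈ acc
    have : c.q = b.q.1 := by rw [hP]
    rw [← this]; exact hacc

end frestr

section fa2

variable {α R : Type} [DecidableEq R] (M : LM α R)

/-- the step on raw states -/
noncomputable def fStep (s : M.Q × ℕ × Ph) (a : Option R → Sym α) :
    Set ((M.Q × ℕ × Ph) × (Option R → Dir)) := faStep M s.1 s.2.1 s.2.2 a

theorem det_fStep (h : M.Det) (s : M.Q × ℕ × Ph) (a : Option R → Sym α) :
    (fStep M s a).Subsingleton := by
  obtain ⟨q, i, ph⟩ := s
  have hd := h q
  unfold fStep faStep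
  cases hp : M.prog q with
  | act f =>
    rw [hp] at hd
    cases ph <;> simp only [Set.subsingleton_empty]
    rintro _ ⟨t, ht, rfl⟩ _ ⟨t', ht', rfl⟩
    rw [hd _ ht ht']
  | copies l q' =>
    cases ph <;> simp only [Set.subsingleton_empty]
    all_goals
      cases l[(i : ℕ)]? with
      | none => simp
      | some x => simp only; split_ifs <;> simp
  | guesses l q' => rw [hp] at hd; exact absurd hd id
  | eqs l qy qn =>
    cases ph <;> simp only [Set.subsingleton_empty]
    all_goals
      cases l[(i : ℕ)]? with
      | none => simp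
      | some x => simp only; split_ifs <;> simp

theorem getElem?_lt {X : Type} {l : List X} {i : ℕ} {x : X} (h : l[i]? = some x) :
    i < l.length := (List.getElem?_eq_some_iff.1 h).1

theorem closed_fStep {B : ℕ} (hB : ∀ q, (M.prog q).len ≤ B) (s : M.Q × ℕ × Ph) (hs : s.2.1 ≤ B)
    (a : Option R → Sym α) : ∀ t ∈ fStep M s a, t.1.2.1 ≤ B := by
  obtain ⟨q, i, ph⟩ := s
  intro t ht
  have hq := hB q
  simp only at hs
  unfold fStep faStep at ht
  simp only at ht
  cases hp : M.prog q with
  | act f =>
    rw [hp] at ht
    cases ph <;> simp only [Set.mem_empty_iff_false] at ht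
    obtain ⟨t, _, rfl⟩ := ht
    exact Nat.zero_le _
  | copies l q' =>
    rw [hp] at ht hq
    cases ph <;> simp only [Set.mem_empty_iff_false] at ht
    all_goals
      cases hx : l[(i : ℕ)]? with
      | none => rw [hx] at ht; simp at ht; try (subst ht; simp)
      | some x =>
        have := getElem?_lt hx
        simp only [LInstr.len] at hq
        rw [hx] at ht; simp only at ht; split_ifs at ht <;>
          (rw [Set.mem_singleton_iff] at ht; subst ht; simp only; omega)
  | guesses l q' =>
    rw [hp] at ht hq
    cases ph <;> simp only [Set.mem_empty_iff_false] at ht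
    all_goals
      cases hx : l[(i : ℕ)]? with
      | none => rw [hx] at ht; simp at ht; try (subst ht; simp)
      | some x =>
        have := getElem?_lt hx
        simp only [LInstr.len] at hq
        rw [hx] at ht; simp at ht
        first
          | (subst ht; simp only; omega)
          | (rcases ht with rfl | rfl | rfl <;> simp only <;> omega)
  | eqs l qy qn =>
    rw [hp] at ht hq
    cases ph <;> simp only [Set.mem_empty_iff_false] at ht
    all_goals
      cases hx : l[(i : ℕ)]? with
      | none => rw [hx] at ht; simp at ht; try (subst ht; simp)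
      | some x =>
        have := getElem?_lt hx
        simp only [LInstr.len] at hq
        rw [hx] at ht; simp only at ht; split_ifs at ht <;>
          (rw [Set.mem_singleton_iff] at ht; subst ht; simp only; omega)

end fa2

end Pool.Agent.V8H47.MH
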