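import Pool.Agent.V8H47.MH.ListM

/-!
# Register machines are simulated by multihead finite automata: correctness
-/

namespace Pool.Agent.V8H47.MH

open Relation

variable {α R : Type} [DecidableEq R]

/-- positions of the heads: registers, and the auxiliary head at the left end -/
def ext (p : R → ℕ) : Option R → ℕ := fun r => r.elim 0 p

@[simp] theorem ext_none (p : R → ℕ) : ext p none = 0 := rfl

@[simp] theorem ext_some (p : R → ℕ) (r : R) : ext p (some r) = p r := rfl

theorem eq_ext {p : R → ℕ} {pos : Option R → ℕ} (h0 : pos none = 0)
    (h : ∀ r, pos (some r) = p r) : pos = ext p := by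
  funext r
  cases r with
  | none => exact h0
  | some r => exact h r

theorem runCopies_succ (l : List (R × R)) (p : R → ℕ) {i : ℕ} {x : R × R} (h : l[i]? = some x) :
    runCopies (l.take (i + 1)) p =
      Function.update (runCopies (l.take i) p) x.1 (runCopies (l.take i) p x.2) := by
  unfold runCopies
  rw [List.take_succ, h]
  simp

theorem runCopies_all (l : List (R × R)) (p : R → ℕ) {i : ℕ} (h : l[i]? = none) :
    runCopies (l.take i) p = runCopies l p := by
  rw [List.take_of_length_le (List.getElem?_eq_none_iff.1 h)]

theorem mem_take_succ {X : Type} {l : List X} {i : ℕ} {x y : X} (h : l[i]? = some x) :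
    y ∈ l.take (i + 1) ↔ y ∈ l.take i ∨ y = x := by
  rw [List.take_succ, h]; simp

/-- The invariant of the phases. -/
def phInv {Q : Type} (n : ℕ) : LInstr α R Q → (R → ℕ) → ℕ → Ph → (Option R → ℕ) → Prop
  | .act _, p, i, .main, pos => i = 0 ∧ pos = ext p
  | .copies l _, p, i, .main, pos => pos = ext (runCopies (l.take i) p)
  | .copies l _, p, i, .c1, pos => ∃ x, l[i]? = some x ∧ x.1 ≠ x.2 ∧ pos none = 0 ∧
      ∀ r, r ≠ x.1 → pos (some r) = runCopies (l.take i) p r
  | .copies l _, p, i, .c2, pos => ∃ x, l[i]? = some x ∧ x.1 ≠ x.2 ∧
      (∀ r, r ≠ x.1 → r ≠ x.2 → pos (some r) = runCopies (l.take i) p r) ∧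
      pos (some x.2) + pos none = runCopies (l.take i) p x.2 ∧ pos (some x.1) = pos none
  | .copies l _, p, i, .c3, pos => ∃ x, l[i]? = some x ∧ x.1 ≠ x.2 ∧
      (∀ r, r ≠ x.1 → r ≠ x.2 → pos (some r) = runCopies (l.take i) p r) ∧
      pos (some x.2) + pos none = runCopies (l.take i) p x.2 ∧
      pos (some x.1) = runCopies (l.take i) p x.2
  | .guesses l _, p, i, .main, pos => pos none = 0 ∧
      (∀ r, r ∉ l.take i → pos (some r) = p r) ∧ ∀ r, pos (some r) ≤ n + 1
  | .guesses l _, p, i, .g1, pos => ∃ x, l[i]? = some x ∧ pos none = 0 ∧
      (∀ r, r ∉ l.take i → r ≠ x → pos (some r) = p r) ∧ ∀ r, pos (some r) ≤ n + 1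
  | .eqs l _ _, p, i, .main, pos => pos = ext p ∧ ∀ x ∈ l.take i, p x.1 = p x.2
  | .eqs l _ _, p, i, .e1, pos => ∃ x, l[i]? = some x ∧ x.1 ≠ x.2 ∧
      (∀ x ∈ l.take i, p x.1 = p x.2) ∧
      (∀ r, r ≠ x.1 → r ≠ x.2 → pos (some r) = p r) ∧
      pos (some x.1) + pos none = p x.1 ∧ pos (some x.2) + pos none = p x.2
  | .eqs l _ _, p, i, .e2 b, pos => ∃ x, l[i]? = some x ∧ x.1 ≠ x.2 ∧
      (∀ x ∈ l.take i, p x.1 = p x.2) ∧
      (∀ r, r ≠ x.1 → r ≠ x.2 → pos (some r) = p r) ∧
      pos (some x.1) + pos none = p x.1 ∧ pos (some x.2) + pos none = p x.2 ∧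
      (b = true ↔ p x.1 = p x.2)
  | _, _, _, _, _ => False

theorem phInv_main {Q : Type} {n : ℕ} (ins : LInstr α R Q) {p : R → ℕ} (hp : ∀ r, p r ≤ n + 1) :
    phInv n ins p 0 .main (ext p) := by
  cases ins with
  | act f => exact ⟨rfl, rfl⟩
  | copies l q' => simp [phInv, runCopies]
  | guesses l q' => exact ⟨rfl, fun r _ => rfl, hp⟩
  | eqs l qy qn => exact ⟨rfl, by simp⟩

omit [DecidableEq R] in
theorem stay_move {n : ℕ} (pos : Option R → ℕ) :
    (fun h => (stay h : Dir).move n (pos h)) = pos := rfl

omit [DecidableEq R] in
theorem stay_mv {n v : ℕ} (h : Option R) : (stay h : Dir).move n v = v := rfl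

/-- One step preserves the invariant, or completes the step of the register machine. -/
theorem phInv_step (M : LM α R) (w : List α) (c : FCfg M.Q R)
    (hc : ∀ r, c.pos r ≤ w.length + 1) (i : ℕ) (ph : Ph) (pos : Option R → ℕ)
    (hinv : phInv w.length (M.prog c.q) c.pos i ph pos)
    (t : (M.Q × ℕ × Ph) × (Option R → Dir))
    (ht : t ∈ faStep M c.q i ph (fun h => symAt w (pos h))) :
    (t.1.1 = c.q ∧ phInv w.length (M.prog c.q) c.pos t.1.2.1 t.1.2.2
      (fun h => (t.2 h).move w.length (pos h))) ∨
    (∃ c', M.Step w c c' ∧ t.1 = (c'.q, 0, Ph.main) ∧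
      (fun h => (t.2 h).move w.length (pos h)) = ext c'.pos) := by
  unfold faStep at ht
  unfold LM.Step
  cases hp : M.prog c.q with
  | act f =>
    rw [hp] at ht hinv
    cases ph <;> simp only [Set.mem_empty_iff_false] at ht
    obtain ⟨t, ht, rfl⟩ := ht
    obtain ⟨_, rfl⟩ := hinv
    refine Or.inr ⟨_, ⟨t, ht, rfl⟩, rfl, ?_⟩
    exact eq_ext rfl (fun r => rfl)
  | copies l q' =>
    rw [hp] at ht hinv
    cases ph <;> simp only [Set.mem_empty_iff_false] at ht
    · -- main
      simp only [phInv] at hinv
      subst hinv
      cases hx : l[i]? with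
      | none =>
        rw [hx] at ht
        simp only [Set.mem_singleton_iff] at ht
        subst ht
        exact Or.inr ⟨_, rfl, rfl, by rw [stay_move, runCopies_all l _ hx]⟩
      | some x =>
        rw [hx] at ht
        simp only at ht
        split_ifs at ht with h1 <;> rw [Set.mem_singleton_iff] at ht <;> subst ht
        · refine Or.inl ⟨rfl, ?_⟩
          simp only [phInv, stay_mv]
          rw [runCopies_succ l _ hx, ← h1, Function.update_eq_self]
        · refine Or.inl ⟨rfl, ?_⟩
          simp only [phInv, stay_mv]
          exact ⟨x, hx, h1, rfl, fun r _ => rfl⟩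
    · -- c1
      obtain ⟨x, hx, hne, h0, h1⟩ := hinv
      rw [hx] at ht
      simp only at ht
      split_ifs at ht with h2 <;> rw [Set.mem_singleton_iff] at ht <;> subst ht
      · rw [symAt_eq_left] at h2
        refine Or.inl ⟨rfl, ?_⟩
        simp only [phInv, stay_mv]
        refine ⟨x, hx, hne, fun r hr _ => h1 r hr, ?_, ?_⟩
        · rw [h0, add_zero, h1 x.2 (Ne.symm hne)]
        · rw [h2, h0]
      · refine Or.inl ⟨rfl, ?_⟩
        simp only [phInv]
        refine ⟨x, hx, hne, ?_, fun r hr => ?_⟩
        · simp [mv1, Function.update_apply, Dir.move, h0]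
        · simp [mv1, Function.update_apply, Dir.move, hr, h1 r hr]
    · -- c2
      obtain ⟨x, hx, hne, h0, h1, h2⟩ := hinv
      rw [hx] at ht
      simp only at ht
      split_ifs at ht with h3 <;> rw [Set.mem_singleton_iff] at ht <;> subst ht
      · rw [symAt_eq_left] at h3
        refine Or.inl ⟨rfl, ?_⟩
        simp only [phInv, stay_mv]
        refine ⟨x, hx, hne, h0, h1, ?_⟩
        rw [h2, ← h1, h3, zero_add]
      · rw [symAt_eq_left] at h3
        have hb := runCopies_le (l.take i) c.pos hc x.2
        refine Or.inl ⟨rfl, ?_⟩
        simp only [phInv]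
        refine ⟨x, hx, hne, fun r hr hr' => ?_, ?_, ?_⟩
        · simp [mv3, mv2, mv1, Function.update_apply, Dir.move, hr, hr', h0 r hr hr']
        · simp only [mv3, mv2, mv1, Function.update_apply, Dir.move, reduceCtorEq, if_false,
            Option.some.injEq, (Ne.symm hne), if_true]
          omega
        · simp only [mv3, mv2, mv1, Function.update_apply, Dir.move, reduceCtorEq, if_false,
            if_true]
          omega
    · -- c3
      obtain ⟨x, hx, hne, h0, h1, h2⟩ := hinv
      rw [hx] at ht
      simp only at ht
      split_ifs at ht with h3 <;> rw [Set.mem_singleton_iff] at ht <;> subst ht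
      · rw [symAt_eq_left] at h3
        refine Or.inl ⟨rfl, ?_⟩
        simp only [phInv, stay_mv]
        rw [runCopies_succ l _ hx]
        refine eq_ext h3 (fun r => ?_)
        by_cases hr : r = x.1
        · rw [hr, Function.update_self, h2]
        · rw [Function.update_of_ne hr]
          by_cases hr' : r = x.2
          · rw [hr']; omega
          · exact h0 r hr hr'
      · rw [symAt_eq_left] at h3
        have hb := runCopies_le (l.take i) c.pos hc x.2
        refine Or.inl ⟨rfl, ?_⟩
        simp only [phInv]
        refine ⟨x, hx, hne, fun r hr hr' => ?_, ?_, ?_⟩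
        · simp [mv2, mv1, Function.update_apply, Dir.move, hr', h0 r hr hr']
        · simp only [mv2, mv1, Function.update_apply, Dir.move, reduceCtorEq, if_false, if_true]
          omega
        · simp only [mv2, mv1, Function.update_apply, Dir.move, reduceCtorEq, if_false,
            Option.some.injEq, hne]
          exact h2
  | guesses l q' =>
    rw [hp] at ht hinv
    cases ph <;> simp only [Set.mem_empty_iff_false] at ht
    · -- main
      obtain ⟨h0, h1, h2⟩ := hinv
      cases hx : l[i]? with
      | none =>
        rw [hx] at ht
        simp only [Set.mem_singleton_iff] at ht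
        subst ht
        refine Or.inr ⟨⟨q', fun r => pos (some r)⟩, ⟨rfl, fun r hr => ?_, h2⟩, rfl, ?_⟩
        · refine h1 r ?_
          rw [List.take_of_length_le (List.getElem?_eq_none_iff.1 hx)]; exact hr
        · rw [stay_move]; exact eq_ext h0 (fun r => rfl)
      | some x =>
        rw [hx] at ht
        simp only [Set.mem_singleton_iff] at ht
        subst ht
        refine Or.inl ⟨rfl, ?_⟩
        simp only [phInv, stay_mv]
        exact ⟨x, hx, h0, fun r hr _ => h1 r hr, h2⟩
    · -- g1
      obtain ⟨x, hx, h0, h1, h2⟩ := hinv
      rw [hx] at ht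
      simp only [Set.mem_insert_iff, Set.mem_singleton_iff] at ht
      rcases ht with rfl | rfl | rfl
      · refine Or.inl ⟨rfl, ?_⟩
        simp only [phInv]
        refine ⟨x, hx, ?_, fun r hr hr' => ?_, fun r => ?_⟩
        · simp [mv1, Function.update_apply, Dir.move, h0]
        · simp [mv1, Function.update_apply, Dir.move, hr', h1 r hr hr']
        · have := h2 r
          by_cases hr : r = x
          · subst hr; simp [mv1, Function.update_apply, Dir.move]; omega
          · simp [mv1, Function.update_apply, Dir.move, hr, this]
      · refine Or.inl ⟨rfl, ?_⟩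
        simp only [phInv]
        refine ⟨x, hx, ?_, fun r hr hr' => ?_, fun r => ?_⟩
        · simp [mv1, Function.update_apply, Dir.move, h0]
        · simp [mv1, Function.update_apply, Dir.move, hr', h1 r hr hr']
        · have := h2 r
          by_cases hr : r = x
          · subst hr; simp [mv1, Function.update_apply, Dir.move]
          · simp [mv1, Function.update_apply, Dir.move, hr, this]
      · refine Or.inl ⟨rfl, ?_⟩
        simp only [phInv, stay_mv]
        refine ⟨h0, fun r hr => ?_, h2⟩
        rw [mem_take_succ hx, not_or] at hr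
        exact h1 r hr.1 hr.2
  | eqs l qy qn =>
    rw [hp] at ht hinv
    cases ph <;> simp only [Set.mem_empty_iff_false] at ht
    · -- main
      obtain ⟨rfl, h1⟩ := hinv
      cases hx : l[i]? with
      | none =>
        rw [hx] at ht
        simp only [Set.mem_singleton_iff] at ht
        subst ht
        rw [List.take_of_length_le (List.getElem?_eq_none_iff.1 hx)] at h1
        exact Or.inr ⟨_, Or.inl ⟨h1, rfl⟩, rfl, stay_move _⟩
      | some x =>
        rw [hx] at ht
        simp only at ht
        split_ifs at ht with h2 <;> rw [Set.mem_singleton_iff] at ht <;> subst ht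
        · refine Or.inl ⟨rfl, ?_⟩
          simp only [phInv, stay_mv]
          refine ⟨trivial, fun y hy => ?_⟩
          rw [mem_take_succ hx] at hy
          rcases hy with hy | rfl
          · exact h1 y hy
          · rw [h2]
        · refine Or.inl ⟨rfl, ?_⟩
          simp only [phInv, stay_mv]
          exact ⟨x, hx, h2, h1, fun r _ _ => rfl, by simp, by simp⟩
    · -- e1
      obtain ⟨x, hx, hne, h1, h2, h3, h4⟩ := hinv
      rw [hx] at ht
      simp only at ht
      split_ifs at ht with h5 <;> rw [Set.mem_singleton_iff] at ht <;> subst ht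
      · refine Or.inl ⟨rfl, ?_⟩
        simp only [phInv, stay_mv]
        refine ⟨x, hx, hne, h1, h2, h3, h4, ?_⟩
        rw [symAt_eq_left, symAt_eq_left] at h5
        simp only [decide_eq_true_eq, symAt_eq_left]
        omega
      · rw [symAt_eq_left, symAt_eq_left] at h5
        have hb := hc x.1
        refine Or.inl ⟨rfl, ?_⟩
        simp only [phInv]
        refine ⟨x, hx, hne, h1, fun r hr hr' => ?_, ?_, ?_⟩
        · simp [mv3, mv2, mv1, Function.update_apply, Dir.move, hr, hr', h2 r hr hr']
        · simp only [mv3, mv2, mv1, Function.update_apply, Dir.move, reduceCtorEq, if_false,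
            Option.some.injEq, hne, if_true]
          omega
        · simp only [mv3, mv2, mv1, Function.update_apply, Dir.move, reduceCtorEq, if_false,
            if_true]
          omega
    · -- e2
      rename_i b
      obtain ⟨x, hx, hne, h1, h2, h3, h4, h5⟩ := hinv
      rw [hx] at ht
      simp only at ht
      split_ifs at ht with h6 h7 <;> rw [Set.mem_singleton_iff] at ht <;> subst ht
      · rw [symAt_eq_left] at h6
        refine Or.inl ⟨rfl, ?_⟩
        simp only [phInv, stay_mv]
        refine ⟨eq_ext h6 (fun r => ?_), fun y hy => ?_⟩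
        · by_cases hr : r = x.1
          · rw [hr]; omega
          · by_cases hr' : r = x.2
            · rw [hr']; omega
            · exact h2 r hr hr'
        · rw [mem_take_succ hx] at hy
          rcases hy with hy | rfl
          · exact h1 y hy
          · exact h5.1 h7
      · rw [symAt_eq_left] at h6
        refine Or.inr ⟨_, Or.inr ⟨?_, rfl⟩, rfl, ?_⟩
        · intro hall
          exact h7 (h5.2 (hall x (List.mem_of_getElem? hx)))
        · rw [stay_move]
          refine eq_ext h6 (fun r => ?_)
          simp only
          by_cases hr : r = x.1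
          · rw [hr]; omega
          · by_cases hr' : r = x.2
            · rw [hr']; omega
            · exact h2 r hr hr'
      · rw [symAt_eq_left] at h6
        have hb := hc x.1
        have hb' := hc x.2
        refine Or.inl ⟨rfl, ?_⟩
        simp only [phInv]
        refine ⟨x, hx, hne, h1, fun r hr hr' => ?_, ?_, ?_, h5⟩
        · simp [mv3, mv2, mv1, Function.update_apply, Dir.move, hr, hr', h2 r hr hr']
        · simp only [mv3, mv2, mv1, Function.update_apply, Dir.move, reduceCtorEq, if_false,
            Option.some.injEq, hne, if_true]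
          omega
        · simp only [mv3, mv2, mv1, Function.update_apply, Dir.move, reduceCtorEq, if_false,
            if_true]
          omega

/-! ### Completeness: the gadgets terminate -/

section complete

variable (M : LM α R) (w : List α)

/-- configurations of the simulating automaton -/
def mk (q : M.Q) (i : ℕ) (ph : Ph) (pos : Option R → ℕ) : FCfg (M.Q × ℕ × Ph) (Option R) :=
  ⟨(q, i, ph), pos⟩

abbrev FR := ReflTransGen (frstep (fStep M) w)

theorem fr_step {q q' : M.Q} {i i' : ℕ} {ph ph' : Ph} {pos : Option R → ℕ}
    {d : Option R → Dir}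
    (h : ((q', i', ph'), d) ∈ faStep M q i ph (fun h => symAt w (pos h))) :
    FR M w (mk M q i ph pos) (mk M q' i' ph' (fun h => (d h).move w.length (pos h))) :=
  ReflTransGen.single ⟨((q', i', ph'), d), h, rfl⟩

theorem run_c1 {q q' : M.Q} {l : List (R × R)} (hp : M.prog q = .copies l q') {i : ℕ} {x : R × R}
    (hx : l[i]? = some x) : ∀ (v : ℕ) (pos : Option R → ℕ), pos (some x.1) = v →
    FR M w (mk M q i .c1 pos) (mk M q i .c2 (Function.update pos (some x.1) 0)) := by
  intro v
  induction v with
  | zero =>
    intro pos hv
    have := fr_step M w (q := q) (i := i) (ph := .c1) (pos := pos) (q' := q) (i' := i) (ph' := .c2)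
      (d := stay) (by simp [faStep, hp, hx, hv, symAt_zero])
    rw [stay_move] at this
    rwa [Function.update_eq_self_iff.2 hv.symm]
  | succ v ih =>
    intro pos hv
    have h1 := fr_step M w (q := q) (i := i) (ph := .c1) (pos := pos) (q' := q) (i' := i)
      (ph' := .c1) (d := mv1 (some x.1) Dir.L)
      (by
        have : symAt w (pos (some x.1)) ≠ Sym.left := by rw [Ne, symAt_eq_left]; omega
        simp [faStep, hp, hx, this])
    refine h1.trans ?_
    have e : (fun h => (mv1 (some x.1) Dir.L h).move w.length (pos h)) =
        Function.update pos (some x.1) v := by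
      funext h
      by_cases hh : h = some x.1
      · subst hh; simp [mv1, Dir.move, hv]
      · simp [mv1, Function.update_of_ne hh, Dir.move]
    rw [e]
    have h2 := ih (Function.update pos (some x.1) v) (by simp)
    simpa using h2

theorem run_c2 {q q' : M.Q} {l : List (R × R)} (hp : M.prog q = .copies l q') {i : ℕ} {x : R × R}
    (hx : l[i]? = some x) (hne : x.1 ≠ x.2) : ∀ (v : ℕ) (pos : Option R → ℕ),
    pos (some x.2) = v → pos (some x.1) = pos none → pos (some x.2) + pos none ≤ w.length + 1 →
    FR M w (mk M q i .c2 pos) (mk M q i .c3 (Function.update (Function.update (Function.update pos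
      (some x.2) 0) (some x.1) (pos (some x.2) + pos none)) none (pos (some x.2) + pos none))) := by
  intro v
  induction v with
  | zero =>
    intro pos hv h1 h2
    have := fr_step M w (q := q) (i := i) (ph := .c2) (pos := pos) (q' := q) (i' := i) (ph' := .c3)
      (d := stay) (by simp [faStep, hp, hx, hv, symAt_zero])
    rw [stay_move] at this
    convert this using 2
    funext h
    rcases h with _ | h
    · simp [hv]
    · by_cases ha : h = x.1
      · subst ha; simp [hv, h1]
      · by_cases hb : h = x.2
        · subst hb; simp [hv, Ne.symm hne]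
        · simp [Function.update_of_ne, ha, hb]
  | succ v ih =>
    intro pos hv h1 h2
    have hs := fr_step M w (q := q) (i := i) (ph := .c2) (pos := pos) (q' := q) (i' := i)
      (ph' := .c2) (d := mv3 (some x.2) Dir.L (some x.1) Dir.R none Dir.R)
      (by
        have : symAt w (pos (some x.2)) ≠ Sym.left := by rw [Ne, symAt_eq_left]; omega
        simp [faStep, hp, hx, this])
    refine hs.trans ?_
    set pos' : Option R → ℕ := fun h => (mv3 (some x.2) Dir.L (some x.1) Dir.R none Dir.R h).move
      w.length (pos h) with hpos'
    have e1 : pos' (some x.2) = v := by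
      simp [hpos', mv3, mv2, mv1, Function.update_apply, Dir.move, Ne.symm hne, hv]
    have e2 : pos' (some x.1) = pos (some x.1) + 1 := by
      simp only [hpos', mv3, mv2, mv1, Function.update_apply, Dir.move, reduceCtorEq, if_false,
            if_true]
      omega
    have e3 : pos' none = pos none + 1 := by
      simp only [hpos', mv3, mv2, mv1, Function.update_apply, Dir.move, if_true]
      omega
    have h3 := ih pos' e1 (by rw [e2, e3, h1]) (by rw [e1, e3]; omega)
    convert h3 using 2
    funext h
    rcases h with _ | h
    · simp [e1, e3, hv]; ring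
    · by_cases ha : h = x.1
      · subst ha; simp [e1, e3, hv]; ring
      · by_cases hb : h = x.2
        · subst hb; simp [Ne.symm hne]
        · simp [hpos', mv3, mv2, mv1, Function.update_apply, Dir.move, ha, hb]

theorem run_c3 {q q' : M.Q} {l : List (R × R)} (hp : M.prog q = .copies l q') {i : ℕ} {x : R × R}
    (hx : l[i]? = some x) : ∀ (v : ℕ) (pos : Option R → ℕ),
    pos none = v → pos (some x.2) + pos none ≤ w.length + 1 →
    FR M w (mk M q i .c3 pos) (mk M q (i + 1) .main (Function.update (Function.update pos
      (some x.2) (pos (some x.2) + pos none)) none 0)) := by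
  intro v
  induction v with
  | zero =>
    intro pos hv h2
    have := fr_step M w (q := q) (i := i) (ph := .c3) (pos := pos) (q' := q) (i' := i + 1)
      (ph' := .main) (d := stay) (by simp [faStep, hp, hx, hv, symAt_zero])
    rw [stay_move] at this
    convert this using 2
    funext h
    rcases h with _ | h
    · simp [hv]
    · by_cases hb : h = x.2
      · subst hb; simp [hv]
      · simp [Function.update_of_ne, hb]
  | succ v ih =>
    intro pos hv h2
    have hs := fr_step M w (q := q) (i := i) (ph := .c3) (pos := pos) (q' := q) (i' := i)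
      (ph' := .c3) (d := mv2 none Dir.L (some x.2) Dir.R)
      (by
        have : symAt w (pos none) ≠ Sym.left := by rw [Ne, symAt_eq_left]; omega
        simp [faStep, hp, hx, this])
    refine hs.trans ?_
    set pos' : Option R → ℕ := fun h => (mv2 none Dir.L (some x.2) Dir.R h).move
      w.length (pos h) with hpos'
    have e1 : pos' none = v := by
      simp [hpos', mv2, mv1, Function.update_apply, Dir.move, hv]
    have e2 : pos' (some x.2) = pos (some x.2) + 1 := by
      simp only [hpos', mv2, mv1, Function.update_apply, Dir.move, if_true]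
      omega
    have h3 := ih pos' e1 (by rw [e1, e2]; omega)
    convert h3 using 2
    funext h
    rcases h with _ | h
    · simp
    · by_cases hb : h = x.2
      · subst hb; simp [e1, e2, hv]; ring
      · simp [hpos', mv2, mv1, Function.update_apply, Dir.move, hb]

theorem run_copies {q q' : M.Q} {l : List (R × R)} (hp : M.prog q = .copies l q') (p : R → ℕ)
    (hb : ∀ r, p r ≤ w.length + 1) : ∀ i, i ≤ l.length →
    FR M w (mk M q 0 .main (ext p)) (mk M q i .main (ext (runCopies (l.take i) p))) := by
  intro i
  induction i with
  | zero => intro _; exact .refl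
  | succ i ih =>
    intro hi
    refine (ih (by omega)).trans ?_
    obtain ⟨x, hx⟩ : ∃ x, l[i]? = some x := ⟨_, List.getElem?_eq_getElem (by omega)⟩
    rw [runCopies_succ l _ hx]
    set P := runCopies (l.take i) p with hP
    have hPb : ∀ r, P r ≤ w.length + 1 := runCopies_le _ _ hb
    by_cases hne : x.1 = x.2
    · have := fr_step M w (q := q) (i := i) (ph := .main) (pos := ext P) (q' := q) (i' := i + 1)
        (ph' := .main) (d := stay) (by simp [faStep, hp, hx, hne])
      rw [stay_move] at this
      rw [← hne, Function.update_eq_self]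
      exact this
    · have h0 := fr_step M w (q := q) (i := i) (ph := .main) (pos := ext P) (q' := q) (i' := i)
        (ph' := .c1) (d := stay) (by simp [faStep, hp, hx, hne])
      rw [stay_move] at h0
      have h1 := run_c1 M w hp hx _ (ext P) rfl
      set pos1 := Function.update (ext P) (some x.1) 0 with hpos1
      have e1 : pos1 (some x.2) = P x.2 := by
        rw [hpos1, Function.update_of_ne (by simpa using Ne.symm hne)]; rfl
      have e2 : pos1 none = 0 := by
        rw [hpos1, Function.update_of_ne (by simp)]; rfl
      have h2 := run_c2 M w hp hx hne _ pos1 rfl (by rw [e2, hpos1, Function.update_self])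
        (by rw [e1, e2]; exact hPb _)
      rw [e1, e2, add_zero] at h2
      set pos2 := Function.update (Function.update (Function.update pos1
        (some x.2) 0) (some x.1) (P x.2)) none (P x.2) with hpos2
      have e3 : pos2 none = P x.2 := by rw [hpos2, Function.update_self]
      have e4 : pos2 (some x.2) = 0 := by
        have hne' : x.2 ≠ x.1 := fun h => hne h.symm
        rw [hpos2, Function.update_of_ne (by simp), Function.update_of_ne (by simpa using hne'),
          Function.update_self]
      have h3 := run_c3 M w hp hx _ pos2 rfl (by rw [e3, e4, zero_add]; exact hPb _)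
      rw [e3, e4, zero_add] at h3
      refine h0.trans (h1.trans (h2.trans ?_))
      convert h3 using 2
      symm
      have hne' : x.2 ≠ x.1 := fun h => hne h.symm
      refine eq_ext (by simp) (fun r => ?_)
      by_cases ha : r = x.2
      · subst ha
        rw [Function.update_of_ne hne']
        simp
      · by_cases hb' : r = x.1
        · subst hb'
          simp [hpos2, hpos1, ha]
        · simp [hpos2, hpos1, ha, hb', Function.update_of_ne]

theorem run_g1 {q q' : M.Q} {l : List R} (hp : M.prog q = .guesses l q') {i : ℕ} {x : R}
    (hx : l[i]? = some x) (v : ℕ) (hv : v ≤ w.length + 1) (pos : Option R → ℕ) :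
    FR M w (mk M q i .g1 pos) (mk M q i .g1 (Function.update pos (some x) v)) := by
  have hdown : ∀ (u : ℕ) (pos : Option R → ℕ), pos (some x) = u →
      FR M w (mk M q i .g1 pos) (mk M q i .g1 (Function.update pos (some x) 0)) := by
    intro u
    induction u with
    | zero =>
      intro pos hu
      rw [Function.update_eq_self_iff.2 hu.symm]
    | succ u ih =>
      intro pos hu
      have h1 := fr_step M w (q := q) (i := i) (ph := .g1) (pos := pos) (q' := q) (i' := i)
        (ph' := .g1) (d := mv1 (some x) Dir.L) (by simp [faStep, hp, hx])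
      refine h1.trans ?_
      have e : (fun h => (mv1 (some x) Dir.L h).move w.length (pos h)) =
          Function.update pos (some x) u := by
        funext h
        by_cases hh : h = some x
        · subst hh; simp [mv1, Dir.move, hu]
        · simp [mv1, Function.update_of_ne hh, Dir.move]
      rw [e]
      have h2 := ih (Function.update pos (some x) u) (by simp)
      simpa using h2
  refine (hdown _ pos rfl).trans ?_
  induction v with
  | zero => exact ReflTransGen.refl
  | succ v ih =>
    refine (ih (by omega)).trans ?_
    have h1 := fr_step M w (q := q) (i := i) (ph := .g1) (pos := Function.update pos (some x) v)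
      (q' := q) (i' := i) (ph' := .g1) (d := mv1 (some x) Dir.R) (by simp [faStep, hp, hx])
    convert h1 using 2
    funext h
    by_cases hh : h = some x
    · subst hh; simp only [mv1, Function.update_self, Dir.move]; omega
    · simp [mv1, Function.update_of_ne hh, Dir.move]

theorem run_guesses {q q' : M.Q} {l : List R} (hp : M.prog q = .guesses l q') (p p' : R → ℕ)
    (hp' : ∀ r, p' r ≤ w.length + 1) : ∀ i, i ≤ l.length →
    FR M w (mk M q 0 .main (ext p))
      (mk M q i .main (ext (fun r => if r ∈ l.take i then p' r else p r))) := by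
  intro i
  induction i with
  | zero => intro _; simp; exact ReflTransGen.refl
  | succ i ih =>
    intro hi
    refine (ih (by omega)).trans ?_
    obtain ⟨x, hx⟩ : ∃ x, l[i]? = some x := ⟨_, List.getElem?_eq_getElem (by omega)⟩
    set P : R → ℕ := fun r => if r ∈ l.take i then p' r else p r with hP
    have h0 := fr_step M w (q := q) (i := i) (ph := .main) (pos := ext P) (q' := q) (i' := i)
        (ph' := .g1) (d := stay) (by simp [faStep, hp, hx])
    rw [stay_move] at h0
    have h1 := run_g1 M w hp hx (p' x) (hp' x) (ext P)
    have h2 := fr_step M w (q := q) (i := i) (ph := .g1)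
        (pos := Function.update (ext P) (some x) (p' x)) (q' := q) (i' := i + 1)
        (ph' := .main) (d := stay) (by simp [faStep, hp, hx])
    rw [stay_move] at h2
    refine h0.trans (h1.trans ?_)
    convert h2 using 2
    symm
    refine eq_ext ?_ (fun r => ?_)
    · rw [Function.update_of_ne (by simp)]; rfl
    · by_cases hr : r = x
      · subst hr
        rw [Function.update_self, if_pos ((mem_take_succ hx).2 (Or.inr rfl))]
      · rw [Function.update_of_ne (by simpa using hr), ext_some, hP]
        simp only [mem_take_succ hx, hr, or_false]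

theorem run_e1 {q qy qn : M.Q} {l : List (R × R)} (hp : M.prog q = .eqs l qy qn) {i : ℕ}
    {x : R × R} (hx : l[i]? = some x) (hne : x.1 ≠ x.2) : ∀ (v : ℕ) (pos : Option R → ℕ),
    pos (some x.1) = v → pos (some x.1) + pos none ≤ w.length + 1 →
    ∃ pos', FR M w (mk M q i .e1 pos)
      (mk M q i (.e2 (decide (pos (some x.1) = pos (some x.2)))) pos') ∧
      (∀ r, r ≠ x.1 → r ≠ x.2 → pos' (some r) = pos (some r)) ∧
      pos' (some x.1) + pos' none = pos (some x.1) + pos none ∧
      pos' (some x.2) + pos' none = pos (some x.2) + pos none := by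
  intro v
  induction v with
  | zero =>
    intro pos hv h1
    refine ⟨pos, ?_, fun r _ _ => rfl, rfl, rfl⟩
    have := fr_step M w (q := q) (i := i) (ph := .e1) (pos := pos) (q' := q) (i' := i)
      (ph' := .e2 (decide (pos (some x.1) = pos (some x.2)))) (d := stay) (by
        have e2 : symAt w (pos (some x.1)) = Sym.left := by rw [symAt_eq_left]; exact hv
        have e : (pos (some x.1) = pos (some x.2)) ↔ (symAt w (pos (some x.2)) = Sym.left) := by
          rw [symAt_eq_left, hv]; exact eq_comm
        simp only [faStep, hp, hx, e2, true_or, if_true, Set.mem_singleton_iff, true_and,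
          Prod.mk.injEq, Ph.e2.injEq, and_true, decide_eq_decide]
        exact e)
    rw [stay_move] at this
    exact this
  | succ v ih =>
    intro pos hv h1
    by_cases h0 : pos (some x.2) = 0
    · refine ⟨pos, ?_, fun r _ _ => rfl, rfl, rfl⟩
      have := fr_step M w (q := q) (i := i) (ph := .e1) (pos := pos) (q' := q) (i' := i)
        (ph' := .e2 (decide (pos (some x.1) = pos (some x.2)))) (d := stay) (by
          have e2 : symAt w (pos (some x.2)) = Sym.left := by rw [symAt_eq_left]; exact h0
          have e3 : ¬ symAt w (pos (some x.1)) = Sym.left := by rw [symAt_eq_left]; omega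
          have e4 : ¬ pos (some x.1) = pos (some x.2) := by omega
          simp [faStep, hp, hx, e2, e3, e4])
      rw [stay_move] at this
      exact this
    · have hs := fr_step M w (q := q) (i := i) (ph := .e1) (pos := pos) (q' := q) (i' := i)
        (ph' := .e1) (d := mv3 (some x.1) Dir.L (some x.2) Dir.L none Dir.R)
        (by
          have e2 : ¬ symAt w (pos (some x.2)) = Sym.left := by rw [symAt_eq_left]; exact h0
          have e3 : ¬ symAt w (pos (some x.1)) = Sym.left := by rw [symAt_eq_left]; omega
          simp [faStep, hp, hx, e2, e3])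
      set pos1 : Option R → ℕ := fun h => (mv3 (some x.1) Dir.L (some x.2) Dir.L none Dir.R h).move
        w.length (pos h) with hpos1
      have e1 : pos1 (some x.1) = pos (some x.1) - 1 := by
        simp [hpos1, mv3, mv2, mv1, Function.update_apply, Dir.move, hne]
      have e2 : pos1 (some x.2) = pos (some x.2) - 1 := by
        simp [hpos1, mv3, mv2, mv1, Function.update_apply, Dir.move]
      have e3 : pos1 none = pos none + 1 := by
        simp only [hpos1, mv3, mv2, mv1, Function.update_apply, Dir.move, if_true]
        omega
      obtain ⟨pos', h2, h3, h4, h5⟩ := ih pos1 (by omega) (by omega)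
      have e4 : decide (pos1 (some x.1) = pos1 (some x.2)) =
          decide (pos (some x.1) = pos (some x.2)) := by
        rw [decide_eq_decide, e1, e2]; omega
      rw [e4] at h2
      refine ⟨pos', hs.trans h2, fun r hr hr' => ?_, by omega, by omega⟩
      rw [h3 r hr hr']
      simp [hpos1, mv3, mv2, mv1, Function.update_apply, Dir.move, hr, hr']

theorem run_e2 {q qy qn : M.Q} {l : List (R × R)} (hp : M.prog q = .eqs l qy qn) {i : ℕ}
    {x : R × R} (hx : l[i]? = some x) (hne : x.1 ≠ x.2) (b : Bool) :
    ∀ (v : ℕ) (pos : Option R → ℕ),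
    pos none = v → pos (some x.1) + pos none ≤ w.length + 1 →
    pos (some x.2) + pos none ≤ w.length + 1 →
    FR M w (mk M q i (.e2 b) pos)
      (mk M (if b = true then q else qn) (if b = true then i + 1 else 0) .main
        (Function.update (Function.update (Function.update pos
        (some x.1) (pos (some x.1) + pos none)) (some x.2) (pos (some x.2) + pos none)) none 0)) := by
  intro v
  induction v with
  | zero =>
    intro pos hv _ _
    have := fr_step M w (q := q) (i := i) (ph := .e2 b) (pos := pos)
      (q' := if b = true then q else qn) (i' := if b = true then i + 1 else 0)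
      (ph' := .main) (d := stay) (by
        cases b <;> simp [faStep, hp, hx, hv, symAt_zero])
    rw [stay_move] at this
    convert this using 2
    funext h
    rcases h with _ | h
    · simp [hv]
    · by_cases ha : h = x.1
      · subst ha; simp [hv, hne]
      · by_cases hb : h = x.2
        · subst hb; simp [hv]
        · simp [Function.update_of_ne, ha, hb]
  | succ v ih =>
    intro pos hv h1 h2
    have hs := fr_step M w (q := q) (i := i) (ph := .e2 b) (pos := pos) (q' := q) (i' := i)
      (ph' := .e2 b) (d := mv3 none Dir.L (some x.1) Dir.R (some x.2) Dir.R)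
      (by
        have : symAt w (pos none) ≠ Sym.left := by rw [Ne, symAt_eq_left]; omega
        simp [faStep, hp, hx, this])
    refine hs.trans ?_
    set pos' : Option R → ℕ := fun h => (mv3 none Dir.L (some x.1) Dir.R (some x.2) Dir.R h).move
      w.length (pos h) with hpos'
    have e1 : pos' none = v := by
      simp [hpos', mv3, mv2, mv1, Function.update_apply, Dir.move, hv]
    have e2 : pos' (some x.1) = pos (some x.1) + 1 := by
      simp only [hpos', mv3, mv2, mv1, Function.update_apply, Dir.move, Option.some.injEq, hne,
        if_false, if_true]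
      omega
    have e3 : pos' (some x.2) = pos (some x.2) + 1 := by
      simp only [hpos', mv3, mv2, mv1, Function.update_apply, Dir.move, if_true]
      omega
    have h3 := ih pos' e1 (by omega) (by omega)
    convert h3 using 2
    funext h
    rcases h with _ | h
    · simp
    · by_cases ha : h = x.1
      · subst ha; simp [e1, e2, hv, hne]; ring
      · by_cases hb : h = x.2
        · subst hb; simp [e1, e3, hv]; ring
        · simp [hpos', mv3, mv2, mv1, Function.update_apply, Dir.move, ha, hb]

theorem run_eq_one {q qy qn : M.Q} {l : List (R × R)} (hp : M.prog q = .eqs l qy qn) (p : R → ℕ)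
    (hb : ∀ r, p r ≤ w.length + 1) {i : ℕ} {x : R × R} (hx : l[i]? = some x) :
    FR M w (mk M q i .main (ext p))
      (mk M (if p x.1 = p x.2 then q else qn) (if p x.1 = p x.2 then i + 1 else 0) .main
        (ext p)) := by
  by_cases hne : x.1 = x.2
  · have := fr_step M w (q := q) (i := i) (ph := .main) (pos := ext p) (q' := q) (i' := i + 1)
        (ph' := .main) (d := stay) (by simp [faStep, hp, hx, hne])
    rw [stay_move] at this
    simpa [hne] using this
  · have h0 := fr_step M w (q := q) (i := i) (ph := .main) (pos := ext p) (q' := q) (i' := i)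
        (ph' := .e1) (d := stay) (by simp [faStep, hp, hx, hne])
    rw [stay_move] at h0
    obtain ⟨pos', h1, h2, h3, h4⟩ := run_e1 M w hp hx hne _ (ext p) rfl (by simpa using hb x.1)
    simp only [ext_some, ext_none, add_zero] at h1 h3 h4
    have h5 := run_e2 M w hp hx hne (decide (p x.1 = p x.2)) _ pos' rfl
      (by rw [h3]; exact hb _) (by rw [h4]; exact hb _)
    simp only [decide_eq_true_eq] at h5
    have e : Function.update (Function.update (Function.update pos'
        (some x.1) (pos' (some x.1) + pos' none)) (some x.2) (pos' (some x.2) + pos' none)) none 0 =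
        ext p := by
      refine eq_ext (by simp) (fun r => ?_)
      by_cases ha : r = x.1
      · subst ha; simp [hne, h3]
      · by_cases hb' : r = x.2
        · subst hb'; simp [h4]
        · simp [Function.update_of_ne, ha, hb', h2 r ha hb']
    rw [e] at h5
    exact h0.trans (h1.trans h5)

/-- a step of the register machine is simulated -/
theorem lm_step_run (c c' : FCfg M.Q R) (hc : ∀ r, c.pos r ≤ w.length + 1)
    (h : M.Step w c c') :
    FR M w (mk M c.q 0 .main (ext c.pos)) (mk M c'.q 0 .main (ext c'.pos)) := by
  have hc' := M.step_le h hc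
  unfold LM.Step at h
  cases hp : M.prog c.q with
  | act f =>
    rw [hp] at h
    obtain ⟨t, ht, rfl⟩ := h
    have := fr_step M w (q := c.q) (i := 0) (ph := .main) (pos := ext c.pos) (q' := t.1) (i' := 0)
      (ph' := .main) (d := fun r => r.elim Dir.S t.2) (by
        simp only [faStep, hp]
        exact ⟨t, ht, rfl⟩)
    convert this using 2
    symm
    exact eq_ext rfl (fun r => rfl)
  | copies l q' =>
    rw [hp] at h
    simp only at h
    subst h
    have h1 := run_copies M w hp c.pos hc l.length le_rfl
    rw [List.take_length] at h1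
    refine h1.trans ?_
    have h2 := fr_step M w (q := c.q) (i := l.length) (ph := .main)
      (pos := ext (runCopies l c.pos)) (q' := q') (i' := 0)
      (ph' := .main) (d := stay) (by simp [faStep, hp])
    exact h2
  | guesses l q' =>
    rw [hp] at h
    obtain ⟨rfl, h1, h2⟩ := h
    have h3 := run_guesses M w hp c.pos c'.pos h2 l.length le_rfl
    rw [List.take_length] at h3
    have e : (fun r => if r ∈ l then c'.pos r else c.pos r) = c'.pos := by
      funext r
      by_cases hr : r ∈ l
      · rw [if_pos hr]
      · rw [if_neg hr, h1 r hr]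
    rw [e] at h3
    refine h3.trans ?_
    exact fr_step M w (q := c.q) (i := l.length) (ph := .main)
      (pos := ext c'.pos) (q' := c'.q) (i' := 0)
      (ph' := .main) (d := stay) (by simp [faStep, hp])
  | eqs l qy qn =>
    rw [hp] at h
    have key : ∀ i, i ≤ l.length → (∀ x : R × R, x ∈ l.take i → c.pos x.1 = c.pos x.2) →
        FR M w (mk M c.q 0 .main (ext c.pos)) (mk M c.q i .main (ext c.pos)) := by
      intro i
      induction i with
      | zero => intro _ _; exact .refl
      | succ i ih =>
        intro hi hall
        obtain ⟨x, hx⟩ : ∃ x, l[i]? = some x := ⟨_, List.getElem?_eq_getElem (by omega)⟩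
        have h1 := ih (by omega) (fun y hy => hall y ((mem_take_succ hx).2 (Or.inl hy)))
        have h2 := run_eq_one M w hp c.pos hc hx
        have h3 := hall x ((mem_take_succ hx).2 (Or.inr rfl))
        rw [if_pos h3, if_pos h3] at h2
        exact h1.trans h2
    rcases h with ⟨hall, rfl⟩ | ⟨hnall, rfl⟩
    · have h1 := key l.length le_rfl (by rw [List.take_length]; exact hall)
      refine h1.trans ?_
      exact fr_step M w (q := c.q) (i := l.length) (ph := .main)
        (pos := ext c.pos) (q' := qy) (i' := 0)
        (ph' := .main) (d := stay) (by simp [faStep, hp])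
    · -- the first pair which is not equal
      have hex : ∃ i : ℕ, ∃ x : R × R, l[i]? = some x ∧ c.pos x.1 ≠ c.pos x.2 := by
        push Not at hnall
        obtain ⟨x, hx, hne⟩ := hnall
        obtain ⟨i, hi⟩ := List.mem_iff_getElem?.1 hx
        exact ⟨i, x, hi, hne⟩
      classical
      obtain ⟨x, hx, hne⟩ := Nat.find_spec hex
      have hmin : ∀ y : R × R, y ∈ l.take (Nat.find hex) → c.pos y.1 = c.pos y.2 := by
        intro y hy
        by_contra hcon
        obtain ⟨j, hj⟩ := List.mem_iff_getElem?.1 hy
        have hjlt := getElem?_lt hj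
        rw [List.length_take] at hjlt
        have hj' : l[j]? = some y := by
          rw [List.getElem?_take] at hj
          split_ifs at hj with h
          exact hj
        exact Nat.find_min hex (by omega) ⟨y, hj', hcon⟩
      have h1 := key (Nat.find hex) (getElem?_lt hx).le hmin
      have h2 := run_eq_one M w hp c.pos hc hx
      rw [if_neg hne, if_neg hne] at h2
      exact h1.trans h2

end complete

/-- **Register machines are simulated by multihead finite automata.** -/
theorem lm_to_fa [Finite R] (M : LM α R) :
    ∃ F : FA α (Option R), (M.Det → F.Det) ∧ F.lang = M.lang := by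
  obtain ⟨B, hB⟩ := exists_len_bound M
  have := M.finQ
  have hfin : {s : M.Q × ℕ × Ph | s.2.1 ≤ B}.Finite := by
    have : {s : M.Q × ℕ × Ph | s.2.1 ≤ B} ⊆
        Set.range (fun s : M.Q × Fin (B + 1) × Ph => (s.1, (s.2.1 : ℕ), s.2.2)) := by
      rintro ⟨q, i, ph⟩ hs
      exact ⟨(q, ⟨i, Nat.lt_succ_of_le hs⟩, ph), rfl⟩
    exact (Set.finite_range _).subset this
  refine ⟨frestr {s : M.Q × ℕ × Ph | s.2.1 ≤ B} hfin (M.init, 0, .main) (Nat.zero_le _)
    {s | s.1 ∈ M.acc ∧ s.2.1 = 0 ∧ s.2.2 = .main} (fStep M),
    fun h => det_frestr (det_fStep M h), ?_⟩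
  ext w
  rw [lang_frestr (F := {s : M.Q × ℕ × Ph | s.2.1 ≤ B})
    (fun s hs a t ht => closed_fStep M hB s hs a t ht)]
  have hs0 : (⟨(M.init, 0, Ph.main), fun _ => 0⟩ : FCfg (M.Q × ℕ × Ph) (Option R)) =
      mk M M.start.q 0 .main (ext M.start.pos) := by
    unfold mk
    simp only [FCfg.mk.injEq]
    exact ⟨rfl, eq_ext rfl (fun r => rfl)⟩
  constructor
  · rintro ⟨y, hy, hacc, hi, hph⟩
    have hinv : ∃ c, ReflTransGen (M.Step w) M.start c ∧ (∀ r, c.pos r ≤ w.length + 1) ∧
        c.q = y.q.1 ∧ phInv w.length (M.prog c.q) c.pos y.q.2.1 y.q.2.2 y.pos := by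
      clear hacc hi hph
      induction hy with
      | refl =>
        rw [hs0]
        exact ⟨M.start, .refl, fun _ => Nat.zero_le _, rfl, phInv_main _ (fun _ => Nat.zero_le _)⟩
      | @tail y z _ hs ih =>
        obtain ⟨c, h1, h2, h3, h4⟩ := ih
        obtain ⟨t, ht, rfl⟩ := hs
        unfold fStep at ht
        rw [← h3] at ht
        rcases phInv_step M w c h2 _ _ _ h4 t ht with ⟨h5, h6⟩ | ⟨c', h5, h6, h7⟩
        · exact ⟨c, h1, h2, h5.symm, h6⟩
        · have h8 := M.step_le h5 h2
          refine ⟨c', h1.tail h5, h8, by rw [h6], ?_⟩
          simp only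
          rw [h7, h6]
          exact phInv_main _ h8
    obtain ⟨c, h1, _, h3, _⟩ := hinv
    exact ⟨c, h1, by rw [h3]; exact hacc⟩
  · rintro ⟨c, hc, hacc⟩
    have key : ∀ c, ReflTransGen (M.Step w) M.start c → (∀ r, c.pos r ≤ w.length + 1) ∧
        FR M w (mk M M.start.q 0 .main (ext M.start.pos)) (mk M c.q 0 .main (ext c.pos)) := by
      intro c hc
      induction hc with
      | refl => exact ⟨fun _ => Nat.zero_le _, .refl⟩
      | @tail c c' _ hs ih =>
        exact ⟨M.step_le hs ih.1, ih.2.trans (lm_step_run M w c c' ih.1 hs)⟩
    refine ⟨mk M c.q 0 .main (ext c.pos), ?_, ?_⟩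
    · rw [hs0]; exact (key c hc).2
    · exact ⟨hacc, rfl, rfl⟩

end Pool.Agent.V8H47.MH
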