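import Pool.Agent.V8H47.MH.MixNorm
import Pool.Agent.V8H47.MH.ThickSim

/-!
# Pushdown automata with store actions in a mixing language
-/

namespace Pool.Agent.V8H47.MH

open Relation

/-! ### Stores given by functions -/

section stk

variable {Γ : Type}

/-- the list of the first `h` values, the last one first -/
def stk (f : ℕ → Option Γ) : ℕ → List (Option Γ)
  | 0 => []
  | h + 1 => f h :: stk f h

theorem stk_congr {f g : ℕ → Option Γ} {h : ℕ} (hfg : ∀ i, i < h → f i = g i) :
    stk f h = stk g h := by
  induction h with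
  | zero => rfl
  | succ h ih =>
    rw [stk, stk, hfg h (by omega), ih (fun i hi => hfg i (by omega))]

/-- the cell at height `i`: the base has height `B`, each symbol is written `N` times -/
def cell (N B : ℕ) (σ : List Γ) (i : ℕ) : Option Γ :=
  if i < B then none else σ.reverse[(i - B) / N]?

theorem cell_nil {N B i : ℕ} : cell N B ([] : List Γ) i = none := by
  unfold cell; simp

theorem head_getElem {σ : List Γ} (h : σ ≠ []) : σ.reverse[σ.length - 1]? = σ.head? := by
  cases σ with
  | nil => exact absurd rfl h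
  | cons a σ =>
    rw [List.reverse_cons, List.length_cons, Nat.add_sub_cancel, List.getElem?_append_right
      (by simp)]
    simp

theorem cell_below {N B i : ℕ} (hN : 0 < N) {nw : Option Γ} {σ : List Γ} (hB : N ≤ B)
    (h1 : B + N * σ.length ≤ i + N) (h2 : i < B + N * σ.length) :
    cell N B (nw.toList ++ σ) i = σ.head? := by
  unfold cell
  by_cases hs : σ = []
  · subst hs
    rw [if_pos (by simpa using h2)]
    rfl
  · have hl : 0 < σ.length := List.length_pos_iff.2 hs
    obtain ⟨n, hn⟩ : ∃ n, σ.length = n + 1 := ⟨σ.length - 1, by omega⟩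
    rw [hn] at h1 h2
    have hiB : B ≤ i := by
      rw [Nat.mul_succ] at h1
      omega
    rw [if_neg (by omega)]
    have hd : (i - B) / N = n := by
      rw [Nat.div_eq_iff (by omega)]
      rw [Nat.mul_succ] at h1 h2
      rw [Nat.mul_comm n N]
      omega
    rw [hd, List.reverse_append, List.getElem?_append_left (by simp [hn])]
    have := head_getElem hs
    rw [hn] at this
    simpa using this

theorem cell_mid {N B i : ℕ} (hN : 0 < N) {nw : Option Γ} {σ : List Γ}
    (h1 : B + N * σ.length ≤ i) (h2 : i < B + N * σ.length + N) :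
    cell N B (nw.toList ++ σ) i = nw := by
  unfold cell
  have hiB : B ≤ i := by omega
  rw [if_neg (by omega)]
  have hd : (i - B) / N = σ.length := by
    rw [Nat.div_eq_iff (by omega)]
    rw [Nat.mul_comm σ.length N]
    omega
  rw [hd, List.reverse_append, List.getElem?_append_right (by simp)]
  simp only [List.length_reverse, Nat.sub_self]
  cases nw <;> simp

theorem cell_above {N B i : ℕ} (hN : 0 < N) {nw : Option Γ} {σ : List Γ}
    (h1 : B + N * σ.length + N ≤ i) :
    cell N B (nw.toList ++ σ) i = none := by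
  unfold cell
  have hiB : B ≤ i := by omega
  rw [if_neg (by omega), List.getElem?_eq_none_iff]
  have hd : σ.length + 1 ≤ (i - B) / N := by
    rw [Nat.le_div_iff_mul_le hN, Nat.add_mul, Nat.mul_comm σ.length N]
    omega
  simp only [List.length_reverse, List.length_append]
  have : nw.toList.length ≤ 1 := by cases nw <;> simp
  omega

theorem cell_tail {N B : ℕ} (hN : 0 < N) {γ : Γ} {σ : List Γ} {i : ℕ}
    (hi : i < B + N * σ.length) : cell N B (γ :: σ) i = cell N B σ i := by
  unfold cell
  by_cases hB : i < B
  · rw [if_pos hB, if_pos hB]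
  · rw [if_neg hB, if_neg hB, List.reverse_cons, List.getElem?_append_left]
    rw [List.length_reverse, Nat.div_lt_iff_lt_mul hN, Nat.mul_comm]
    omega

end stk

/-! ### The simulating automaton -/

instance finite_kind : Finite Kind := by
  let f : Kind → Fin 3 := fun k => match k with
    | .keep => 0 | .push => 1 | .pop => 2
  refine Finite.of_injective f ?_
  intro a b h
  cases a <;> cases b <;> simp_all [f]

/-- states: state, remaining actions, kind of the simulated action, symbol on the top before
the simulated action, new symbol -/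
structure MS (Q Γ : Type) where
  q : Q
  rest : List Kind
  e : Kind
  g : Option Γ
  nw : Option Γ

/-- the change of the height -/
def fh (N : ℕ) : Kind → ℤ
  | .keep => 0
  | .push => N
  | .pop => -N

/-- the next action, at relative height `t` -/
def emit {Γ : Type} (N : ℕ) (t : ℤ) (g nw : Option Γ) : Kind → Op (Option Γ)
  | .keep => Op.keep
  | .pop => Op.pop
  | .push => Op.push (if t < 0 then g else if t < N then nw else none)

theorem emit_kind {Γ : Type} (N : ℕ) (t : ℤ) (g nw : Option Γ) (k : Kind) :
    (emit N t g nw k).kind = k := by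
  cases k <;> rfl

/-- one action of a macro -/
def nxt {Q Γ : Type} (N : ℕ) (x : MS Q Γ) : MS Q Γ × Op (Option Γ) :=
  match x.rest with
  | [] => (x, Op.keep)
  | k :: r => (⟨x.q, r, x.e, x.g, x.nw⟩, emit N (fh N x.e - net (k :: r)) x.g x.nw k)

def ek {Γ : Type} : Option Γ → Op Γ → Kind
  | _, .keep => .keep
  | _, .push _ => .push
  | none, .pop => .keep
  | some _, .pop => .pop

def nwOf {Γ : Type} : Op Γ → Option Γ
  | .push γ => some γ
  | _ => none

/-- the word of a macro -/
def mword (U W : List Kind) : Kind → List Kind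
  | .keep => U ++ W
  | .push => U
  | .pop => W

/-- the state at the beginning of a macro -/
def setup {Q Γ : Type} (U W : List Kind) (q : Q) (op : Op Γ) (s : Option Γ) : MS Q Γ :=
  ⟨q, mword U W (ek s op), ek s op, s, nwOf op⟩

section auto

variable {α H Γ : Type} (M : PDA α H Γ) (P U W : List Kind) (N : ℕ)

/-- the transition function -/
def mStep (x : MS M.Q Γ) (a : H → Sym α) (top : Option (Option Γ)) :
    Set (MS M.Q Γ × (H → Dir) × Op (Option Γ)) :=
  match x.rest with
  | [] => {y | ∃ t ∈ M.step x.q a top.join,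
      y = ((nxt N (setup U W t.1 t.2.2 top.join)).1, t.2.1,
        (nxt N (setup U W t.1 t.2.2 top.join)).2)}
  | _ :: _ => {((nxt N x).1, fun _ => Dir.S, (nxt N x).2)}

theorem det_mStep (h : M.Det) (x : MS M.Q Γ) (a : H → Sym α) (top : Option (Option Γ)) :
    (mStep M U W N x a top).Subsingleton := by
  unfold mStep
  cases x.rest with
  | nil =>
    rintro _ ⟨t, ht, rfl⟩ _ ⟨t', ht', rfl⟩
    rw [h _ _ _ ht ht']
  | cons k r => exact Set.subsingleton_singleton

/-- the content of the simulated store after the simulated action -/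
def FinSt (e : Kind) (nw : Option Γ) (σ0 σ : List Γ) : Prop :=
  match e with
  | .keep => nw = none ∧ σ = σ0
  | .push => ∃ γ, nw = some γ ∧ σ = γ :: σ0
  | .pop => nw = none ∧ ∃ γ, σ0 = γ :: σ

/-- the invariant within macros -/
def MInv (c : PCfg M.Q H Γ) (x : MS M.Q Γ) (pos : H → ℕ) (ps : List (Option Γ)) : Prop :=
  x.q = c.q ∧ pos = c.pos ∧ ∃ (σ0 : List Γ) (B h : ℕ), N ≤ B ∧ x.g = σ0.head? ∧
    FinSt x.e x.nw σ0 c.st ∧ (h : ℤ) = B + N * σ0.length + fh N x.e - net x.rest ∧
    ps = stk (cell N B (x.nw.toList ++ σ0)) h ∧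
    ∀ q, q <+: x.rest → -(N : ℤ) ≤ fh N x.e - net x.rest + net q

/-- the invariant in the first phase -/
def PInv (c : PCfg M.Q H Γ) (x : MS M.Q Γ) (pos : H → ℕ) (ps : List (Option Γ)) : Prop :=
  c = M.start ∧ x.q = M.init ∧ x.e = Kind.keep ∧ x.g = none ∧ x.nw = none ∧ pos = (fun _ => 0) ∧
    ∃ h : ℕ, ps = stk (fun _ => none) h ∧ (N : ℤ) ≤ h + net x.rest

variable {M N}

theorem nnil : net [] = 0 := rfl

theorem pInv_nxt {c : PCfg M.Q H Γ} {x : MS M.Q Γ} {pos : H → ℕ} {ps : List (Option Γ)}
    (h : PInv M N c x pos ps) {k : Kind} {r : List Kind} (hr : x.rest = k :: r) :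
    PInv M N c (nxt N x).1 pos ((nxt N x).2.apply ps) := by
  obtain ⟨q, rest, e, g, nw⟩ := x
  obtain ⟨h1, h2, h3, h4, h5, h6, n, h7, h8⟩ := h
  simp only at hr h2 h3 h4 h5 h8
  subst hr h3 h4 h5 h7
  refine ⟨h1, h2, rfl, rfl, rfl, h6, ?_⟩
  cases k with
  | keep =>
    refine ⟨n, rfl, ?_⟩
    rw [nt_cons] at h8
    simpa [Kind.wt, nxt] using h8
  | push =>
    refine ⟨n + 1, ?_, ?_⟩
    · simp only [nxt, emit, Op.apply, stk]
      simp
    · rw [nt_cons] at h8
      simp only [Kind.wt] at h8
      simp only [nxt]
      push_cast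
      linarith
  | pop =>
    rw [nt_cons] at h8
    simp only [Kind.wt] at h8
    cases n with
    | zero =>
      refine ⟨0, rfl, ?_⟩
      simp only [nxt]
      push_cast at h8 ⊢
      linarith
    | succ n =>
      refine ⟨n, rfl, ?_⟩
      simp only [nxt]
      push_cast at h8
      linarith

theorem mInv_nxt (hN : 0 < N) {c : PCfg M.Q H Γ} {x : MS M.Q Γ} {pos : H → ℕ}
    {ps : List (Option Γ)} (h : MInv M N c x pos ps) {k : Kind} {r : List Kind}
    (hr : x.rest = k :: r) : MInv M N c (nxt N x).1 pos ((nxt N x).2.apply ps) := by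
  obtain ⟨q, rest, e, g, nw⟩ := x
  obtain ⟨h1, h2, σ0, B, n, h3, h4, h5, h6, h7, h8⟩ := h
  simp only at hr h1 h4 h5 h6 h7 h8
  subst hr h4 h7
  have hpre : ∀ q, q <+: r → -(N : ℤ) ≤ fh N e - net r + net q := by
    intro q hq
    have := h8 (k :: q) (List.cons_prefix_cons.2 ⟨rfl, hq⟩)
    rw [nt_cons, nt_cons] at this
    linarith
  have hge0 : (0 : ℤ) ≤ N * σ0.length := by positivity
  have hge : (B : ℤ) ≤ B + N * σ0.length := by linarith
  have h80 := h8 [] List.nil_prefix
  rw [nnil, add_zero] at h80
  have h81 := h8 [k] (List.cons_prefix_cons.2 ⟨rfl, List.nil_prefix⟩)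
  have hnk : net [k] = k.wt := by rw [nt_cons, nnil, add_zero]
  rw [hnk] at h81
  have hcons := nt_cons k r
  have hBN : (N : ℤ) ≤ B := by exact_mod_cast h3
  cases k with
  | keep =>
    refine ⟨h1, h2, σ0, B, n, h3, rfl, h5, ?_, rfl, hpre⟩
    simp only [Kind.wt] at hcons
    simp only [nxt]
    linarith
  | push =>
    refine ⟨h1, h2, σ0, B, n + 1, h3, rfl, h5, ?_, ?_, hpre⟩
    · simp only [Kind.wt] at hcons
      simp only [nxt]
      push_cast
      linarith
    · simp only [nxt, emit, Op.apply, stk]
      congr 1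
      set t : ℤ := fh N e - net (Kind.push :: r) with ht
      have hn : (n : ℤ) = B + N * σ0.length + t := by rw [h6]; ring
      by_cases ht0 : t < 0
      · rw [if_pos ht0]
        refine (cell_below hN h3 ?_ ?_).symm
        · have : (B : ℤ) + N * σ0.length ≤ n + N := by linarith
          exact_mod_cast this
        · have : (n : ℤ) < B + N * σ0.length := by linarith
          exact_mod_cast this
      · rw [if_neg ht0]
        by_cases ht1 : t < N
        · rw [if_pos ht1]
          refine (cell_mid hN ?_ ?_).symm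
          · have : (B : ℤ) + N * σ0.length ≤ n := by linarith
            exact_mod_cast this
          · have : (n : ℤ) < B + N * σ0.length + N := by linarith
            exact_mod_cast this
        · rw [if_neg ht1]
          refine (cell_above hN ?_).symm
          have : (B : ℤ) + N * σ0.length + N ≤ n := by linarith
          exact_mod_cast this
  | pop =>
    simp only [Kind.wt] at hcons h81
    obtain ⟨n', rfl⟩ : ∃ n', n = n' + 1 := by
      refine ⟨n - 1, ?_⟩
      have : (1 : ℤ) ≤ n := by linarith
      omega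
    refine ⟨h1, h2, σ0, B, n', h3, rfl, h5, ?_, ?_, hpre⟩
    · simp only [nxt]
      push_cast at h6
      linarith
    · simp only [nxt, emit, Op.apply, stk, List.tail_cons]

/-- At the end of the first phase the other invariant holds. -/
theorem mInv_of_pInv {c : PCfg M.Q H Γ} {x : MS M.Q Γ} {pos : H → ℕ} {ps : List (Option Γ)}
    (h : PInv M N c x pos ps) (hr : x.rest = []) : MInv M N c x pos ps := by
  obtain ⟨q, rest, e, g, nw⟩ := x
  obtain ⟨rfl, h2, h3, h4, h5, h6, n, h7, h8⟩ := h
  simp only at hr h2 h3 h4 h5 h8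
  subst hr h2 h3 h4 h5 h7 h6
  rw [nnil, add_zero] at h8
  refine ⟨rfl, rfl, [], n, n, by exact_mod_cast h8, rfl, ⟨rfl, rfl⟩, ?_, ?_, ?_⟩
  · simp [fh, net]
  · refine stk_congr (fun i _ => ?_)
    simp [cell_nil]
  · intro q hq
    rw [List.prefix_nil.1 hq]
    simp [fh, net]

/-- the top of the store between two macros, and the invariant for the next macro -/
theorem mInv_main {c : PCfg M.Q H Γ} {x : MS M.Q Γ} {pos : H → ℕ} {ps : List (Option Γ)}
    (hN : 0 < N) (h : MInv M N c x pos ps) (hr : x.rest = []) :
    ∃ B : ℕ, N ≤ B ∧ ps = stk (cell N B c.st) (B + N * c.st.length) := by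
  obtain ⟨q, rest, e, g, nw⟩ := x
  obtain ⟨h1, h2, σ0, B, n, h3, h4, h5, h6, h7, h8⟩ := h
  simp only at hr h1 h4 h5 h6 h7 h8
  subst hr h4 h7
  rw [nnil, sub_zero] at h6
  refine ⟨B, h3, ?_⟩
  cases e with
  | keep =>
    obtain ⟨rfl, h9⟩ := h5
    rw [h9]
    have : n = B + N * σ0.length := by
      simp only [fh, add_zero] at h6
      exact_mod_cast h6
    rw [this]
    rfl
  | push =>
    obtain ⟨γ, rfl, h9⟩ := h5
    rw [h9]
    have : n = B + N * (γ :: σ0).length := by
      simp only [fh] at h6
      rw [List.length_cons, Nat.mul_succ]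
      have : (n : ℤ) = B + (N * σ0.length + N) := by linarith
      exact_mod_cast this
    rw [this]
    rfl
  | pop =>
    obtain ⟨rfl, γ, rfl⟩ := h5
    have : n = B + N * c.st.length := by
      simp only [fh, List.length_cons] at h6
      push_cast at h6
      have : (n : ℤ) = B + N * c.st.length := by linarith
      exact_mod_cast this
    rw [this]
    refine stk_congr (fun i hi => ?_)
    simp only [Option.toList_none, List.nil_append]
    exact cell_tail hN hi

theorem stk_head {f : ℕ → Option Γ} {n : ℕ} (hn : 0 < n) : (stk f n).head? = some (f (n - 1)) := by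
  cases n with
  | zero => omega
  | succ n => rfl

theorem top_main {B : ℕ} {σ : List Γ} (hN : 0 < N) (hB : N ≤ B) :
    (stk (cell N B σ) (B + N * σ.length)).head? = some σ.head? := by
  rw [stk_head (by omega)]
  congr 1
  have := cell_below (i := B + N * σ.length - 1) (nw := none) (σ := σ) hN hB (by omega) (by omega)
  simpa using this

variable {U W}

/-- the invariant at the beginning of a macro -/
theorem mInv_setup (hN : 0 < N) (hU : net U = N) (hW : net W = -N)
    (hUp : ∀ q, q <+: U → -(N : ℤ) ≤ net q) (hWp : ∀ q, q <+: W → -(N : ℤ) ≤ net q)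
    {w : List α} {B : ℕ} (hB : N ≤ B) {c : PCfg M.Q H Γ} (t : M.Q × (H → Dir) × Op Γ) :
    MInv M N ⟨t.1, fun h => (t.2.1 h).move w.length (c.pos h), t.2.2.apply c.st⟩
      (setup U W t.1 t.2.2 c.st.head?) (fun h => (t.2.1 h).move w.length (c.pos h))
      (stk (cell N B c.st) (B + N * c.st.length)) := by
  have hfin : ∀ e, fh N e = net (mword U W e) := by
    intro e
    cases e with
    | keep => simp [fh, mword, nt_append, hU, hW]
    | push => simp [fh, mword, hU]
    | pop => simp [fh, mword, hW]
  have hpre : ∀ e q, q <+: mword U W e → -(N : ℤ) ≤ net q := by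
    intro e q hq
    cases e with
    | keep =>
      rcases prefix_append_cases hq with h1 | ⟨q', rfl, h2⟩
      · exact hUp q h1
      · rw [nt_append, hU]
        have := hWp q' h2
        have : (0 : ℤ) ≤ N := by positivity
        linarith
    | push => exact hUp q hq
    | pop => exact hWp q hq
  refine ⟨rfl, rfl, c.st, B, B + N * c.st.length, hB, rfl, ?_, ?_, ?_, ?_⟩
  · simp only [setup]
    cases t.2.2 with
    | keep => exact ⟨rfl, rfl⟩
    | push γ => exact ⟨γ, rfl, rfl⟩
    | pop =>
      cases c.st with
      | nil => exact ⟨rfl, rfl⟩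
      | cons γ σ => exact ⟨rfl, γ, rfl⟩
  · simp only [setup, hfin]
    push_cast
    ring
  · refine stk_congr (fun i hi => ?_)
    simp only [setup]
    cases nwOf t.2.2 with
    | none => rfl
    | some γ => exact (cell_tail hN hi).symm
  · intro q hq
    simp only [setup] at hq ⊢
    rw [hfin, sub_self, zero_add]
    exact hpre _ q hq

end auto

end Pool.Agent.V8H47.MH
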