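import Pool.Agent.V8H47.MH.ActDefs

/-!
# A normal form for mixing languages of store actions
-/

namespace Pool.Agent.V8H47.MH

theorem nt_append (u v : List Kind) : net (u ++ v) = net u + net v := by
  simp [net]

theorem nt_cons (a : Kind) (v : List Kind) : net (a :: v) = a.wt + net v := by
  simp [net]

theorem nt_pow (v : List Kind) (n : ℕ) : net (List.replicate n v).flatten = n * net v := by
  induction n with
  | zero => simp [net]
  | succ n ih => rw [List.replicate_succ, List.flatten_cons, nt_append, ih]; push_cast; ring

theorem neg_length_le_net (v : List Kind) : -(v.length : ℤ) ≤ net v := by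
  induction v with
  | nil => simp [net]
  | cons a v ih =>
    rw [nt_cons, List.length_cons]
    push_cast
    have : -1 ≤ a.wt := by cases a <;> simp [Kind.wt]
    linarith

theorem net_le_length (v : List Kind) : net v ≤ (v.length : ℤ) := by
  induction v with
  | nil => simp [net]
  | cons a v ih =>
    rw [nt_cons, List.length_cons]
    push_cast
    have : a.wt ≤ 1 := by cases a <;> simp [Kind.wt]
    linarith

theorem prefix_append_cases {X : Type} {q y : List X} : ∀ {x : List X}, q <+: x ++ y →
    q <+: x ∨ ∃ q', q = x ++ q' ∧ q' <+: y := by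
  induction q with
  | nil => intro x _; exact Or.inl List.nil_prefix
  | cons a q ih =>
    intro x h
    cases x with
    | nil => exact Or.inr ⟨a :: q, rfl, h⟩
    | cons b x =>
      rw [List.cons_append] at h
      obtain ⟨rfl, h2⟩ := List.cons_prefix_cons.1 h
      rcases ih h2 with h3 | ⟨q', rfl, h4⟩
      · exact Or.inl (List.cons_prefix_cons.2 ⟨rfl, h3⟩)
      · exact Or.inr ⟨q', rfl, h4⟩

theorem exists_min_prefix (v : List Kind) :
    ∃ v1 v2, v = v1 ++ v2 ∧ ∀ q, q <+: v → net v1 ≤ net q := by
  induction v with
  | nil =>
    refine ⟨[], [], rfl, fun q hq => ?_⟩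
    rw [List.prefix_nil.1 hq]
  | cons a v ih =>
    obtain ⟨v1, v2, rfl, h⟩ := ih
    by_cases ha : a.wt + net v1 ≤ 0
    · refine ⟨a :: v1, v2, rfl, fun q hq => ?_⟩
      cases q with
      | nil => rw [nt_cons]; exact ha
      | cons b q =>
        obtain ⟨rfl, h2⟩ := List.cons_prefix_cons.1 hq
        have := h q h2
        rw [nt_cons, nt_cons]; linarith
    · refine ⟨[], a :: (v1 ++ v2), rfl, fun q hq => ?_⟩
      cases q with
      | nil => exact le_rfl
      | cons b q =>
        obtain ⟨rfl, h2⟩ := List.cons_prefix_cons.1 hq
        have := h q h2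
        rw [nt_cons]
        have e : net [] = 0 := rfl
        rw [e]; linarith

theorem pow_prefix_le {R : List Kind} {b : ℤ} (hb : 0 ≤ b) (hR : net R = -b)
    (h : ∀ q, q <+: R → -b ≤ net q) (k : ℕ) : ∀ q, q <+: (List.replicate k R).flatten →
    -(k * b) ≤ net q := by
  induction k with
  | zero =>
    intro q hq
    rw [List.prefix_nil.1 hq]
    simp [net]
  | succ k ih =>
    intro q hq
    rw [List.replicate_succ, List.flatten_cons] at hq
    rcases prefix_append_cases hq with h1 | ⟨q', rfl, h2⟩
    · have h3 := h q h1
      have h4 : 0 ≤ (k : ℤ) * b := by positivity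
      push_cast
      nlinarith
    · have := ih q' h2
      rw [nt_append, hR]
      push_cast
      linarith

theorem pow_prefix_up {u : List Kind} (hu : 0 < net u) (m : ℕ) :
    ∀ q, q <+: (List.replicate m u).flatten → -(u.length : ℤ) ≤ net q := by
  induction m with
  | zero =>
    intro q hq
    rw [List.prefix_nil.1 hq]
    simp [net]
  | succ m ih =>
    intro q hq
    rw [List.replicate_succ, List.flatten_cons] at hq
    rcases prefix_append_cases hq with h1 | ⟨q', rfl, h2⟩
    · have h3 := neg_length_le_net q
      have h4 := h1.length_le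
      have h5 : (q.length : ℤ) ≤ u.length := by exact_mod_cast h4
      linarith
    · have := ih q' h2
      rw [nt_append]
      linarith

theorem rotate_pow (v1 v2 : List Kind) (k : ℕ) :
    v1 ++ (List.replicate k (v2 ++ v1)).flatten = (List.replicate k (v1 ++ v2)).flatten ++ v1 := by
  induction k with
  | zero => simp
  | succ k ih =>
    rw [List.replicate_succ, List.flatten_cons, List.replicate_succ, List.flatten_cons,
      List.append_assoc (v1 ++ v2), ← ih]
    simp [List.append_assoc]

/-- A normal form. -/
theorem mixing_normal {C : Set (List Kind)} (h : Mixing C) :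
    ∃ (P U W : List Kind) (N : ℕ), 0 < N ∧ net U = N ∧ net W = -N ∧
      (∀ q, q <+: U → -(N : ℤ) ≤ net q) ∧ (∀ q, q <+: W → -(N : ℤ) ≤ net q) ∧
      (N : ℤ) ≤ net P ∧
      ∀ l : List (List Kind), (∀ x ∈ l, x = U ∨ x = W) → ∀ q, q <+: P ++ l.flatten → q ∈ C := by
  obtain ⟨p, u, v, hu, hv, hC⟩ := h
  obtain ⟨v1, v2, hv12, hmin⟩ := exists_min_prefix v
  obtain ⟨a, ha⟩ : ∃ a : ℕ, net u = a := ⟨(net u).toNat, (Int.toNat_of_nonneg hu.le).symm⟩
  obtain ⟨b, hb⟩ : ∃ b : ℕ, net v = -b := ⟨(-net v).toNat, by
    rw [Int.toNat_of_nonneg (by linarith)]; ring⟩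
  have ha0 : 0 < a := by rw [ha] at hu; exact_mod_cast hu
  have hb0 : 0 < b := by rw [hb] at hv; omega
  have hul : 0 < u.length := by
    rcases u with _ | ⟨x, u⟩
    · simp [net] at hu
    · simp
  have hnv : net v1 + net v2 = -b := by rw [← nt_append, ← hv12, hb]
  have hv2 : 0 ≤ net v2 := by
    have := hmin v List.prefix_rfl
    rw [hb] at this
    linarith
  set j := u.length + v.length + 1 with hj
  obtain ⟨k, hk⟩ : ∃ k, a * j = k + 1 := ⟨a * j - 1, by
    have : 0 < a * j := Nat.mul_pos ha0 (by omega)
    omega⟩
  set m := b * j with hm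
  set N := k * b with hN
  have hjk : j ≤ k + 1 := by rw [← hk]; exact Nat.le_mul_of_pos_left _ ha0
  have hkN : k ≤ N := Nat.le_mul_of_pos_right _ hb0
  have hR : net (v2 ++ v1) = -(b : ℤ) := by rw [nt_append]; linarith
  have hRp : ∀ q, q <+: v2 ++ v1 → -(b : ℤ) ≤ net q := by
    intro q hq
    rcases prefix_append_cases hq with h1 | ⟨q', rfl, h2⟩
    · have h3 := hmin (v1 ++ q) (by rw [hv12]; exact (List.prefix_append_right_inj _).2 h1)
      rw [nt_append] at h3
      have : (0 : ℤ) ≤ b := by positivity
      linarith
    · have h3 := hmin q' (by rw [hv12]; exact h2.trans (List.prefix_append _ _))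
      rw [nt_append]; linarith
  have hma : (m : ℤ) * a - b = N := by
    have h1 : (a : ℤ) * j = k + 1 := by exact_mod_cast hk
    have h2 : (m : ℤ) = b * j := by rw [hm]; push_cast; ring
    have h3 : (N : ℤ) = k * b := by rw [hN]; push_cast; ring
    rw [h2, h3]
    linear_combination (b : ℤ) * h1
  have hvl1 : v1.length ≤ v.length := by rw [hv12, List.length_append]; omega
  have hnv1 : -(v.length : ℤ) ≤ net v1 := by
    have h3 := neg_length_le_net v1
    have : (v1.length : ℤ) ≤ v.length := by exact_mod_cast hvl1
    linarith
  set U := v2 ++ ((List.replicate m u).flatten ++ v1) with hU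
  set W := (List.replicate k (v2 ++ v1)).flatten with hW
  set Bn := N + p.length + v.length with hBn
  refine ⟨p ++ ((List.replicate Bn u).flatten ++ v1), U, W, N, by omega, ?_, ?_, ?_, ?_, ?_, ?_⟩
  · rw [hU, nt_append, nt_append, nt_pow, ha]
    linarith
  · rw [hW, nt_pow, hR, hN]; push_cast; ring
  · intro q hq
    rcases prefix_append_cases hq with h1 | ⟨q', rfl, h2⟩
    · have h3 := hmin (v1 ++ q) (by rw [hv12]; exact (List.prefix_append_right_inj _).2 h1)
      rw [nt_append] at h3
      have : (0 : ℤ) ≤ N := by positivity
      linarith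
    · rw [nt_append]
      rcases prefix_append_cases h2 with h3 | ⟨q'', rfl, h4⟩
      · have h5 := pow_prefix_up hu m q' h3
        have : (u.length : ℤ) ≤ N := by
          have : u.length ≤ N := by omega
          exact_mod_cast this
        linarith
      · rw [nt_append, nt_pow, ha]
        have h5 := neg_length_le_net q''
        have h6 : (q''.length : ℤ) ≤ v.length := by
          have := h4.length_le
          have : q''.length ≤ v.length := by omega
          exact_mod_cast this
        have h7 : (v.length : ℤ) ≤ N := by
          have : v.length ≤ N := by omega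
          exact_mod_cast this
        have h8 : (0 : ℤ) ≤ m * a := by positivity
        linarith
  · intro q hq
    have := pow_prefix_le (b := (b : ℤ)) (by positivity) hR hRp k q hq
    have h3 : (N : ℤ) = k * b := by rw [hN]; push_cast; ring
    rw [h3]; exact this
  · rw [nt_append, nt_append, nt_pow, ha]
    have h5 := neg_length_le_net p
    have h6 : (Bn : ℤ) ≤ Bn * a := by
      have : Bn ≤ Bn * a := Nat.le_mul_of_pos_right _ ha0
      exact_mod_cast this
    have h7 : (Bn : ℤ) = N + p.length + v.length := by rw [hBn]; push_cast; ring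
    linarith
  · intro l hl q hq
    have hex : ∃ l' : List (List Kind), (∀ x ∈ l', x = u ∨ x = v) ∧
        v1 ++ (l.flatten ++ v2) = l'.flatten := by
      clear hq
      induction l with
      | nil => exact ⟨[v], by simp, by simp [hv12]⟩
      | cons x l ih =>
        obtain ⟨l', h1, h2⟩ := ih (fun y hy => hl y (by simp [hy]))
        rcases hl x (by simp) with rfl | rfl
        · refine ⟨v :: (List.replicate m u ++ l'), ?_, ?_⟩
          · intro y hy
            simp only [List.mem_cons, List.mem_append, List.mem_replicate] at hy
            rcases hy with rfl | ⟨_, rfl⟩ | hy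
            · exact Or.inr rfl
            · exact Or.inl rfl
            · exact h1 y hy
          · rw [List.flatten_cons, List.flatten_cons, List.flatten_append, ← h2, hU]
            conv_rhs => rw [hv12]
            simp only [List.append_assoc]
        · refine ⟨List.replicate k v ++ l', ?_, ?_⟩
          · intro y hy
            simp only [List.mem_append, List.mem_replicate] at hy
            rcases hy with ⟨_, rfl⟩ | hy
            · exact Or.inr rfl
            · exact h1 y hy
          · rw [List.flatten_cons, List.flatten_append, ← h2, hW, List.append_assoc,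
              ← List.append_assoc v1, rotate_pow, ← hv12]
            simp only [List.append_assoc]
    obtain ⟨l', h1, h2⟩ := hex
    refine hC (List.replicate Bn u ++ l') ?_ q ?_
    · intro y hy
      simp only [List.mem_append, List.mem_replicate] at hy
      rcases hy with ⟨_, rfl⟩ | hy
      · exact Or.inl rfl
      · exact h1 y hy
    · refine hq.trans ?_
      rw [List.flatten_append, ← h2]
      refine ⟨v2, ?_⟩
      simp only [List.append_assoc]

end Pool.Agent.V8H47.MH
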