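import Pool.Agent.V8H47.MH.Oblig2

/-!
# The machine with a bounded list of obligations: completeness
-/

namespace Pool.Agent.V8H47.MH

open Relation

variable {α H Γ : Type} [DecidableEq H] [Fintype H] {M : PDA α H Γ} {D : ℕ} {w : List α}

omit [DecidableEq H] [Fintype H] in
theorem bounded_update {f : Blk D → H → ℕ} {b : Blk D} {v : H → ℕ}
    (hf : ∀ b h, f b h ≤ w.length + 1) (hv : ∀ h, v h ≤ w.length + 1) :
    ∀ c h, Function.update f b v c h ≤ w.length + 1 := by
  intro c h
  by_cases hc : c = b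
  · subst hc; rw [Function.update_self]; exact hv h
  · rw [Function.update_of_ne hc]; exact hf c h

theorem mv_le {n p : ℕ} (d : Dir) (hp : p ≤ n + 1) : d.move n p ≤ n + 1 := by
  cases d <;> simp only [Dir.move] <;> omega

omit [DecidableEq H] [Fintype H] in
theorem fin_le (x : H → Fin (w.length + 2)) (h : H) : (x h : ℕ) ≤ w.length + 1 := by
  have := (x h).2
  omega

/-- an ordinary step -/
theorem stepK {g : Option Γ} {t : Option M.Q} {r : List (Tag Γ M.Q)} {f : Blk D → H → ℕ}
    {op : Op Γ} {x z : M.Q × (H → Fin (w.length + 2))}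
    (hE : (pds M w).E op g x z) (hok : okOp g t op) (hf : ∀ b h, f b h ≤ w.length + 1)
    (hlen : r.length + 1 ≤ D + 1) (hx : ∀ h, f (xl D r.length) h = x.2 h) :
    ∃ f' : Blk D → H → ℕ, (∀ b h, f' b h ≤ w.length + 1) ∧ (∀ h, f' (xl D r.length) h = z.2 h) ∧
      (∀ i, f' (yl D i) = f (yl D i)) ∧
      (∀ i, i < r.length → f' (xl D i) = f (xl D i)) ∧
      ROb M D w ((g, x.1, t) :: r, f) ((newTop g op, z.1, t) :: r, f') := by
  obtain ⟨⟨q', d, op'⟩, hs, rfl, hz1, hz2⟩ := hE
  simp only at hs hz1 hz2 hok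
  have hxs : (fun h => symAt w (f (xl D r.length) h)) = fun h => symAt w (x.2 h : ℕ) := by
    funext h; rw [hx h]
  refine ⟨Function.update f (xl D r.length) (fun h => (d h).move w.length (f (xl D r.length) h)),
    bounded_update hf (fun h => mv_le _ (hf _ _)), fun h => ?_, fun i => ?_, fun i hi => ?_,
    ?_, ?_, .inl (q', d, op'), ?_, ?_⟩
  · rw [Function.update_self, hz2 h, hx h]
  · rw [Function.update_of_ne yl_ne_xl]
  · rw [Function.update_of_ne (xl_ne (by omega) (by omega) (by omega))]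
  · simpa using hlen
  · simpa using hlen
  · simp only [oEdge]
    rw [hz1]
  · simp only [oEdge, runPrims_cons', runPrims_nil', sem_bMv]
    exact ⟨_, ⟨⟨hok, by rw [hxs]; exact hs⟩, rfl⟩, rfl⟩

/-- the inner run is verified first -/
theorem stepA {g : Option Γ} {t : Option M.Q} {r : List (Tag Γ M.Q)} {f : Blk D → H → ℕ}
    {γ : Γ} {x u v z : M.Q × (H → Fin (w.length + 2))}
    (hE1 : (pds M w).E (Op.push γ) g x u) (hE2 : (pds M w).E Op.pop (some γ) v z)
    (hf : ∀ b h, f b h ≤ w.length + 1)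
    (hlen : r.length + 2 ≤ D + 1) (hx : ∀ h, f (xl D r.length) h = x.2 h) :
    ∃ f' : Blk D → H → ℕ, (∀ b h, f' b h ≤ w.length + 1) ∧ (∀ h, f' (xl D (r.length + 1)) h = u.2 h) ∧
      (∀ h, f' (yl D (r.length + 1)) h = v.2 h) ∧ (∀ h, f' (xl D r.length) h = z.2 h) ∧
      f' (yl D r.length) = f (yl D r.length) ∧
      (∀ i, i < r.length → f' (xl D i) = f (xl D i) ∧ f' (yl D i) = f (yl D i)) ∧
      ROb M D w ((g, x.1, t) :: r, f) ((some γ, u.1, some v.1) :: (g, z.1, t) :: r, f') := by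
  obtain ⟨⟨q1, d1, op1⟩, hs1, ho1, hu1, hu2⟩ := hE1
  obtain ⟨⟨q3, d3, op3⟩, hs3, ho3, hz1, hz2⟩ := hE2
  simp only at hs1 ho1 hu1 hu2 hs3 ho3 hz1 hz2
  subst ho1 ho3
  have n1 : xl D (r.length + 1) ≠ xl D r.length := xl_ne (by omega) (by omega) (by omega)
  have n2 : yl D r.length ≠ yl D (r.length + 1) := yl_ne (by omega) (by omega) (by omega)
  have n3 : ∀ i j, xl D i ≠ yl D j := fun i j => xl_ne_yl
  have n4 : ∀ i j, yl D i ≠ xl D j := fun i j => yl_ne_xl
  obtain ⟨f1, hf1⟩ : ∃ f1, f1 = Function.update f (xl D (r.length + 1)) (f (xl D r.length)) :=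
    ⟨_, rfl⟩
  obtain ⟨f2, hf2⟩ : ∃ f2, f2 = Function.update f1 (xl D (r.length + 1))
    (fun h => (d1 h).move w.length (f1 (xl D (r.length + 1)) h)) := ⟨_, rfl⟩
  obtain ⟨f3, hf3⟩ : ∃ f3, f3 = Function.update f2 (yl D (r.length + 1))
    (fun h => (v.2 h : ℕ)) := ⟨_, rfl⟩
  obtain ⟨f4, hf4⟩ : ∃ f4, f4 = Function.update f3 (xl D r.length)
    (f3 (yl D (r.length + 1))) := ⟨_, rfl⟩
  obtain ⟨f5, hf5⟩ : ∃ f5, f5 = Function.update f4 (xl D r.length)
    (fun h => (d3 h).move w.length (f4 (xl D r.length) h)) := ⟨_, rfl⟩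
  have c1 : ∀ b h, f1 b h ≤ w.length + 1 := by rw [hf1]; exact bounded_update hf (hf _)
  have c2 : ∀ b h, f2 b h ≤ w.length + 1 := by
    rw [hf2]; exact bounded_update c1 (fun h => mv_le _ (c1 _ _))
  have c3 : ∀ b h, f3 b h ≤ w.length + 1 := by
    rw [hf3]; exact bounded_update c2 (fun h => fin_le _ _)
  have c4 : ∀ b h, f4 b h ≤ w.length + 1 := by rw [hf4]; exact bounded_update c3 (c3 _)
  have c5 : ∀ b h, f5 b h ≤ w.length + 1 := by
    rw [hf5]; exact bounded_update c4 (fun h => mv_le _ (c4 _ _))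
  have e1 : f1 (xl D (r.length + 1)) = f (xl D r.length) := by rw [hf1, Function.update_self]
  have e2 : f5 (xl D (r.length + 1)) =
      fun h => (d1 h).move w.length (f1 (xl D (r.length + 1)) h) := by
    rw [hf5, Function.update_of_ne n1, hf4, Function.update_of_ne n1, hf3,
      Function.update_of_ne (n3 _ _), hf2, Function.update_self]
  have e3 : f5 (yl D (r.length + 1)) = fun h => (v.2 h : ℕ) := by
    rw [hf5, Function.update_of_ne (n4 _ _), hf4, Function.update_of_ne (n4 _ _), hf3,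
      Function.update_self]
  have e4 : f4 (xl D r.length) = fun h => (v.2 h : ℕ) := by
    rw [hf4, Function.update_self, hf3, Function.update_self]
  have e5 : f5 (xl D r.length) = fun h => (d3 h).move w.length (f4 (xl D r.length) h) := by
    rw [hf5, Function.update_self]
  have e6 : f5 (yl D r.length) = f (yl D r.length) := by
    rw [hf5, Function.update_of_ne (n4 _ _), hf4, Function.update_of_ne (n4 _ _), hf3,
      Function.update_of_ne n2, hf2, Function.update_of_ne (n4 _ _), hf1,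
      Function.update_of_ne (n4 _ _)]
  have e7 : ∀ i, i < r.length → f5 (xl D i) = f (xl D i) ∧ f5 (yl D i) = f (yl D i) := by
    intro i hi
    have m1 : xl D i ≠ xl D (r.length + 1) := xl_ne (by omega) (by omega) (by omega)
    have m2 : xl D i ≠ xl D r.length := xl_ne (by omega) (by omega) (by omega)
    have m3 : yl D i ≠ yl D (r.length + 1) := yl_ne (by omega) (by omega) (by omega)
    constructor
    · rw [hf5, Function.update_of_ne m2, hf4, Function.update_of_ne m2, hf3,
        Function.update_of_ne (n3 _ _), hf2, Function.update_of_ne m1, hf1,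
        Function.update_of_ne m1]
    · rw [hf5, Function.update_of_ne (n4 _ _), hf4, Function.update_of_ne (n4 _ _), hf3,
        Function.update_of_ne m3, hf2, Function.update_of_ne (n4 _ _), hf1,
        Function.update_of_ne (n4 _ _)]
  have hxs : (fun h => symAt w (f1 (xl D (r.length + 1)) h)) =
      fun h => symAt w (x.2 h : ℕ) := by
    funext h; rw [e1, hx h]
  have hvs : (fun h => symAt w (f4 (xl D r.length) h)) = fun h => symAt w (v.2 h : ℕ) := by
    rw [e4]
  refine ⟨f5, c5, fun h => ?_, fun h => ?_, fun h => ?_, e6, e7, ?_, ?_,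
    .inr (.inl (false, (q1, d1), γ, v.1, (q3, d3))), ?_, ?_⟩
  · rw [e2, e1, hu2 h, ← hx h]
  · rw [e3]
  · rw [e5, e4, hz2 h]
  · simp only [List.length_cons]; omega
  · simp only [List.length_cons]; omega
  · simp only [oEdge]
    rw [hu1, hz1]
  · simp only [oEdge, runPrims_cons', runPrims_nil', sem_bMv, sem_bCopy, sem_bGuess]
    exact ⟨f1, hf1, f2, ⟨by rw [hxs]; exact hs1, hf2⟩, f3, ⟨⟨_, hf3⟩, c3⟩, f4, hf4, f5,
      ⟨by rw [hvs]; exact hs3, hf5⟩, rfl⟩

/-- the outer run is verified first -/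
theorem stepB {g : Option Γ} {qy : M.Q} {r : List (Tag Γ M.Q)} {f : Blk D → H → ℕ}
    {γ : Γ} {x u v z : M.Q × (H → Fin (w.length + 2))}
    (hE1 : (pds M w).E (Op.push γ) g x u) (hE2 : (pds M w).E Op.pop (some γ) v z)
    (hf : ∀ b h, f b h ≤ w.length + 1)
    (hlen : r.length + 2 ≤ D + 1) (hx : ∀ h, f (xl D r.length) h = x.2 h) :
    ∃ f' : Blk D → H → ℕ, (∀ b h, f' b h ≤ w.length + 1) ∧ (∀ h, f' (xl D r.length) h = u.2 h) ∧
      (∀ h, f' (yl D r.length) h = v.2 h) ∧ (∀ h, f' (xl D (r.length + 1)) h = z.2 h) ∧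
      f' (yl D (r.length + 1)) = f (yl D r.length) ∧
      (∀ i, i < r.length → f' (xl D i) = f (xl D i) ∧ f' (yl D i) = f (yl D i)) ∧
      ROb M D w ((g, x.1, some qy) :: r, f)
        ((g, z.1, some qy) :: (some γ, u.1, some v.1) :: r, f') := by
  obtain ⟨⟨q1, d1, op1⟩, hs1, ho1, hu1, hu2⟩ := hE1
  obtain ⟨⟨q3, d3, op3⟩, hs3, ho3, hz1, hz2⟩ := hE2
  simp only at hs1 ho1 hu1 hu2 hs3 ho3 hz1 hz2
  subst ho1 ho3
  have n1 : xl D (r.length + 1) ≠ xl D r.length := xl_ne (by omega) (by omega) (by omega)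
  have n1' : xl D r.length ≠ xl D (r.length + 1) := Ne.symm n1
  have n2 : yl D r.length ≠ yl D (r.length + 1) := yl_ne (by omega) (by omega) (by omega)
  have n2' : yl D (r.length + 1) ≠ yl D r.length := Ne.symm n2
  have n3 : ∀ i j, xl D i ≠ yl D j := fun i j => xl_ne_yl
  have n4 : ∀ i j, yl D i ≠ xl D j := fun i j => yl_ne_xl
  obtain ⟨f1, hf1⟩ : ∃ f1, f1 = Function.update f (yl D (r.length + 1)) (f (yl D r.length)) :=
    ⟨_, rfl⟩
  obtain ⟨f2, hf2⟩ : ∃ f2, f2 = Function.update f1 (xl D r.length)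
    (fun h => (d1 h).move w.length (f1 (xl D r.length) h)) := ⟨_, rfl⟩
  obtain ⟨f3, hf3⟩ : ∃ f3, f3 = Function.update f2 (yl D r.length)
    (fun h => (v.2 h : ℕ)) := ⟨_, rfl⟩
  obtain ⟨f4, hf4⟩ : ∃ f4, f4 = Function.update f3 (xl D (r.length + 1))
    (f3 (yl D r.length)) := ⟨_, rfl⟩
  obtain ⟨f5, hf5⟩ : ∃ f5, f5 = Function.update f4 (xl D (r.length + 1))
    (fun h => (d3 h).move w.length (f4 (xl D (r.length + 1)) h)) := ⟨_, rfl⟩
  have c1 : ∀ b h, f1 b h ≤ w.length + 1 := by rw [hf1]; exact bounded_update hf (hf _)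
  have c2 : ∀ b h, f2 b h ≤ w.length + 1 := by
    rw [hf2]; exact bounded_update c1 (fun h => mv_le _ (c1 _ _))
  have c3 : ∀ b h, f3 b h ≤ w.length + 1 := by
    rw [hf3]; exact bounded_update c2 (fun h => fin_le _ _)
  have c4 : ∀ b h, f4 b h ≤ w.length + 1 := by rw [hf4]; exact bounded_update c3 (c3 _)
  have c5 : ∀ b h, f5 b h ≤ w.length + 1 := by
    rw [hf5]; exact bounded_update c4 (fun h => mv_le _ (c4 _ _))
  have e1 : f1 (xl D r.length) = f (xl D r.length) := by
    rw [hf1, Function.update_of_ne (n3 _ _)]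
  have e2 : f5 (xl D r.length) =
      fun h => (d1 h).move w.length (f1 (xl D r.length) h) := by
    rw [hf5, Function.update_of_ne n1', hf4, Function.update_of_ne n1', hf3,
      Function.update_of_ne (n3 _ _), hf2, Function.update_self]
  have e3 : f5 (yl D r.length) = fun h => (v.2 h : ℕ) := by
    rw [hf5, Function.update_of_ne (n4 _ _), hf4, Function.update_of_ne (n4 _ _), hf3,
      Function.update_self]
  have e4 : f4 (xl D (r.length + 1)) = fun h => (v.2 h : ℕ) := by
    rw [hf4, Function.update_self, hf3, Function.update_self]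
  have e5 : f5 (xl D (r.length + 1)) =
      fun h => (d3 h).move w.length (f4 (xl D (r.length + 1)) h) := by
    rw [hf5, Function.update_self]
  have e6 : f5 (yl D (r.length + 1)) = f (yl D r.length) := by
    rw [hf5, Function.update_of_ne (n4 _ _), hf4, Function.update_of_ne (n4 _ _), hf3,
      Function.update_of_ne n2', hf2, Function.update_of_ne (n4 _ _), hf1,
      Function.update_self]
  have e7 : ∀ i, i < r.length → f5 (xl D i) = f (xl D i) ∧ f5 (yl D i) = f (yl D i) := by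
    intro i hi
    have m1 : xl D i ≠ xl D (r.length + 1) := xl_ne (by omega) (by omega) (by omega)
    have m2 : xl D i ≠ xl D r.length := xl_ne (by omega) (by omega) (by omega)
    have m3 : yl D i ≠ yl D (r.length + 1) := yl_ne (by omega) (by omega) (by omega)
    have m4 : yl D i ≠ yl D r.length := yl_ne (by omega) (by omega) (by omega)
    constructor
    · rw [hf5, Function.update_of_ne m1, hf4, Function.update_of_ne m1, hf3,
        Function.update_of_ne (n3 _ _), hf2, Function.update_of_ne m2, hf1,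
        Function.update_of_ne (n3 _ _)]
    · rw [hf5, Function.update_of_ne (n4 _ _), hf4, Function.update_of_ne (n4 _ _), hf3,
        Function.update_of_ne m4, hf2, Function.update_of_ne (n4 _ _), hf1,
        Function.update_of_ne m3]
  have hxs : (fun h => symAt w (f1 (xl D r.length) h)) =
      fun h => symAt w (x.2 h : ℕ) := by
    funext h; rw [e1, hx h]
  have hvs : (fun h => symAt w (f4 (xl D (r.length + 1)) h)) =
      fun h => symAt w (v.2 h : ℕ) := by
    rw [e4]
  refine ⟨f5, c5, fun h => ?_, fun h => ?_, fun h => ?_, e6, e7, ?_, ?_,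
    .inr (.inl (true, (q1, d1), γ, v.1, (q3, d3))), ?_, ?_⟩
  · rw [e2, e1, hu2 h, ← hx h]
  · rw [e3]
  · rw [e5, e4, hz2 h]
  · simp only [List.length_cons]; omega
  · simp only [List.length_cons]; omega
  · simp only [oEdge]
    rw [hu1, hz1]
  · simp only [oEdge, runPrims_cons', runPrims_nil', sem_bMv, sem_bCopy, sem_bGuess]
    exact ⟨f1, hf1, f2, ⟨by rw [hxs]; exact hs1, hf2⟩, f3, ⟨⟨_, hf3⟩, c3⟩, f4, hf4, f5,
      ⟨by rw [hvs]; exact hs3, hf5⟩, rfl⟩

/-- Verifiable balanced runs are verified by the machine. -/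
theorem ver_run {Dv : ℕ} {γ : Γ} {x y : M.Q × (H → Fin (w.length + 2))}
    (h : (pds M w).Ver Dv γ x y) : ∀ (r : List (Tag Γ M.Q)) (f : Blk D → H → ℕ),
    (∀ b h, f b h ≤ w.length + 1) → r.length + Dv ≤ D + 1 →
    (∀ h, f (xl D r.length) h = x.2 h) → (∀ h, f (yl D r.length) h = y.2 h) →
    ∃ f' : Blk D → H → ℕ, (∀ b h, f' b h ≤ w.length + 1) ∧
      (∀ i, i < r.length → f' (xl D i) = f (xl D i) ∧ f' (yl D i) = f (yl D i)) ∧
      ReflTransGen (ROb M D w) ((some γ, x.1, some y.1) :: r, f) (r, f') := by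
  induction h with
  | refl Dv γ x =>
    intro r f hf hlen hx hy
    refine ⟨f, hf, fun i _ => ⟨rfl, rfl⟩, ReflTransGen.single ⟨?_, ?_, .inr (.inr ()), ?_, ?_⟩⟩
    · simp only [List.length_cons]; omega
    · simp only; omega
    · simp only [oEdge]
    · simp only [oEdge, runPrims_cons', runPrims_nil', sem_bIf, sem_bEq]
      refine ⟨f, ⟨trivial, rfl⟩, f, ⟨?_, rfl⟩, rfl⟩
      funext h
      rw [hx h, hy h]
  | keep hE hv ih =>
    intro r f hf hlen hx hy
    have hpos := hv.pos
    obtain ⟨f1, h1, h2, h3, h4, h5⟩ := stepK (t := some _) (D := D) hE trivial hf (by omega) hx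
    obtain ⟨f2, h6, h7, h8⟩ := ih r f1 h1 hlen h2 (by rw [h3]; exact hy)
    refine ⟨f2, h6, fun i hi => ⟨?_, ?_⟩, ReflTransGen.head h5 h8⟩
    · rw [(h7 i hi).1, h4 i hi]
    · rw [(h7 i hi).2, h3]
  | exA hE1 hv1 hE2 hv2 ih1 ih2 =>
    intro r f hf hlen hx hy
    have hpos := hv1.pos
    obtain ⟨f1, h1, h2, h3, h4, h5, h6, h7⟩ := stepA (t := some _) (D := D) hE1 hE2 hf (by omega) hx
    obtain ⟨f2, h8, h9, h10⟩ := ih1 (_ :: r) f1 h1
      (by simp only [List.length_cons]; omega) h2 h3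
    have h11 := h9 r.length (by simp)
    obtain ⟨f3, h12, h13, h14⟩ := ih2 r f2 h8 hlen (by rw [h11.1]; exact h4)
      (by rw [h11.2, h5]; exact hy)
    refine ⟨f3, h12, fun i hi => ⟨?_, ?_⟩, (ReflTransGen.head h7 h10).trans h14⟩
    · rw [(h13 i hi).1, (h9 i (by simp only [List.length_cons]; omega)).1, (h6 i hi).1]
    · rw [(h13 i hi).2, (h9 i (by simp only [List.length_cons]; omega)).2, (h6 i hi).2]
  | exB hE1 hv1 hE2 hv2 ih1 ih2 =>
    intro r f hf hlen hx hy
    have hpos := hv2.pos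
    obtain ⟨f1, h1, h2, h3, h4, h5, h6, h7⟩ := stepB (D := D) (qy := _) hE1 hE2 hf (by omega) hx
    obtain ⟨f2, h8, h9, h10⟩ := ih2 (_ :: r) f1 h1
      (by simp only [List.length_cons]; omega) h4 (by
        intro h
        simp only [List.length_cons]
        rw [h5]; exact hy h)
    have h11 := h9 r.length (by simp)
    obtain ⟨f3, h12, h13, h14⟩ := ih1 r f2 h8 hlen (by rw [h11.1]; exact h2)
      (by rw [h11.2]; exact h3)
    refine ⟨f3, h12, fun i hi => ⟨?_, ?_⟩, (ReflTransGen.head h7 h10).trans h14⟩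
    · rw [(h13 i hi).1, (h9 i (by simp only [List.length_cons]; omega)).1, (h6 i hi).1]
    · rw [(h13 i hi).2, (h9 i (by simp only [List.length_cons]; omega)).2, (h6 i hi).2]

theorem verT_run {g : Option Γ} {x : M.Q × (H → Fin (w.length + 2))}
    (h : (pds M w).VerT D {v | v.1 ∈ M.acc} g x) : ∀ (f : Blk D → H → ℕ),
    (∀ b h, f b h ≤ w.length + 1) → (∀ h, f (xl D 0) h = x.2 h) →
    ∃ g' q' f', ReflTransGen (ROb M D w) ([(g, x.1, none)], f) ([(g', q', none)], f') ∧
      q' ∈ M.acc := by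
  induction h with
  | @acc g x hx =>
    intro f hf hxf
    exact ⟨g, x.1, f, .refl, hx⟩
  | @keep g x z hK _ ih =>
    intro f hf hxf
    rcases hK with hE | ⟨rfl, hE⟩
    · obtain ⟨f1, h1, h2, h3, h4, h5⟩ := stepK (t := none) (D := D) (r := []) hE trivial hf
        (by simp) hxf
      obtain ⟨g', q', f', h6, h7⟩ := ih f1 h1 h2
      exact ⟨g', q', f', ReflTransGen.head h5 h6, h7⟩
    · obtain ⟨f1, h1, h2, h3, h4, h5⟩ := stepK (t := none) (D := D) (r := []) hE rfl hf
        (by simp) hxf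
      obtain ⟨g', q', f', h6, h7⟩ := ih f1 h1 h2
      exact ⟨g', q', f', ReflTransGen.head h5 h6, h7⟩
  | @push g γ x z hE _ ih =>
    intro f hf hxf
    obtain ⟨f1, h1, h2, h3, h4, h5⟩ := stepK (t := none) (D := D) (r := []) hE rfl hf
      (by simp) hxf
    obtain ⟨g', q', f', h6, h7⟩ := ih f1 h1 h2
    exact ⟨g', q', f', ReflTransGen.head h5 h6, h7⟩
  | @ex g γ x u v z hE1 hv hE2 _ ih =>
    intro f hf hxf
    have hpos := hv.pos
    obtain ⟨f1, h1, h2, h3, h4, h5, h6, h7⟩ := stepA (t := none) (D := D) (r := []) hE1 hE2 hf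
      (by simp only [List.length_nil]; omega) hxf
    obtain ⟨f2, h8, h9, h10⟩ := ver_run hv [(g, z.1, none)] f1 h1
      (by simp only [List.length_cons, List.length_nil]; omega) h2 h3
    have h11 := h9 0 (by simp)
    obtain ⟨g', q', f', h12, h13⟩ := ih f2 h8 (by rw [h11.1]; exact h4)
    exact ⟨g', q', f', (ReflTransGen.head h7 h10).trans h12, h13⟩

/-- **Bounded lists of obligations.** If every accepting run can be verified with boundedly many
obligations, the pushdown automaton is equivalent to a nondeterministic multihead automaton. -/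
theorem oblig_main [Finite Γ] (M : PDA α H Γ) (D : ℕ)
    (hV : ∀ w ∈ M.lang, (pds M w).VerT D {v | v.1 ∈ M.acc} none (M.init, fun _ => 0)) :
    ∃ F : FA α (Option (Blk D × H)), F.lang = M.lang := by
  obtain ⟨F, hF⟩ := bm_to_fa (obBM M D)
  refine ⟨F, hF.trans ?_⟩
  ext w
  rw [lang_obBM]
  constructor
  · rintro ⟨g, q, f, hr, hq⟩
    have := M.finQ
    have hb : ∀ c, ReflTransGen (ROb M D w) ([(none, M.init, none)], fun _ _ => 0) c →
        ∀ b h, c.2 b h ≤ w.length + 1 := by
      intro c hc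
      induction hc with
      | refl => intro b h; exact Nat.zero_le _
      | tail _ hs ih =>
        obtain ⟨_, _, e, _, h4⟩ := hs
        intro b h
        exact BM.runPrims_le w _ _ _ h4 (fun r => ih r.1 r.2) (b, h)
    have key : ∀ c, ReflTransGen (ROb M D w) ([(none, M.init, none)], fun _ _ => 0) c →
        VL M w c.2 c.1 → VL M w (fun _ _ => 0 : Blk D → H → ℕ) [(none, M.init, none)] := by
      intro c hc
      induction hc with
      | refl => exact id
      | tail h1 hs ih =>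
        obtain ⟨h2, h3, e, h4, h5⟩ := hs
        intro hV
        refine ih (edge_sound (hb _ h1) h2 ?_ h5 ?_)
        · rw [h4]; exact h3
        · rw [h4]; exact hV
    have h1 := key _ hr (by
      refine ⟨⟨0, _, ?_, (pds M w).balI_refl _ _⟩, trivial⟩
      exact hq)
    obtain ⟨⟨h', h1⟩, _⟩ := h1
    obtain ⟨y, hy, st', hst'⟩ := (pds M w).accR_sound {v | v.1 ∈ M.acc} _ _ _ _ h1 [] rfl le_rfl
    obtain ⟨c, hc, hP⟩ := simulate (s := M.Step w)
      (fun (v : (M.Q × (H → Fin (w.length + 2))) × List Γ) (c : PCfg M.Q H Γ) =>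
        c = ⟨v.1.1, fun h => v.1.2 h, v.2⟩)
      (by
        rintro ⟨v, st⟩ c ⟨v', st'⟩ rfl hs
        exact ⟨_, step_of_pds hs.1, rfl⟩)
      (b0 := M.start) (by
        simp only [PDA.start, PCfg.mk.injEq, true_and, and_true]
        funext h
        simp [vx]) hst'
    rw [M.mem_lang]
    refine ⟨c, hc, ?_⟩
    rw [hP]
    exact hy
  · intro hw
    obtain ⟨g', q', f', h1, h2⟩ := verT_run (hV w hw) (fun _ _ => 0) (fun _ _ => Nat.zero_le _)
      (fun h => rfl)
    exact ⟨g', q', f', h1, h2⟩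

end Pool.Agent.V8H47.MH
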