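import Pool.Agent.V8H47.MH.ActDefs
import Pool.Agent.V8H47.MH.Oblig3

/-!
# Store actions which do not mix
-/

namespace Pool.Agent.V8H47.MH

open Relation

theorem net_nil : net [] = 0 := rfl

theorem net_append (u v : List Kind) : net (u ++ v) = net u + net v := by
  simp [net]

theorem net_cons (a : Kind) (v : List Kind) : net (a :: v) = a.wt + net v := by
  simp [net]

section graph

variable {σ : Type} {A : DFA Kind σ}

theorem Pth.evalFrom {s t : σ} {v : List Kind} (h : Pth A s v t) : A.evalFrom s v = t := by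
  induction h with
  | nil => rfl
  | cons _ _ ih => simpa [DFA.evalFrom] using ih

theorem Pth.split {t : σ} {v : List Kind} (u : List Kind) : ∀ {s : σ}, Pth A s (u ++ v) t →
    Pth A s u (A.evalFrom s u) ∧ Pth A (A.evalFrom s u) v t := by
  induction u with
  | nil => intro s h; exact ⟨.nil _, h⟩
  | cons a u ih =>
    intro s h
    cases h with
    | cons h1 h2 =>
      obtain ⟨h3, h4⟩ := ih h2
      exact ⟨.cons h1 h3, h4⟩

theorem Pth.conn {s t : σ} {v : List Kind} (h : Pth A s v t) : conn A s t := by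
  induction h with
  | nil => exact .refl
  | cons h _ ih => exact ReflTransGen.trans (conn_step h) ih

theorem Pth.pow {s : σ} {v : List Kind} (h : Pth A s v s) (n : ℕ) :
    Pth A s (List.replicate n v).flatten s := by
  induction n with
  | zero => exact .nil _
  | succ n ih => rw [List.replicate_succ, List.flatten_cons]; exact h.append ih

theorem net_pow (v : List Kind) (n : ℕ) : net (List.replicate n v).flatten = n * net v := by
  induction n with
  | zero => simp [net]
  | succ n ih => rw [List.replicate_succ, List.flatten_cons, net_append, ih]; push_cast; ring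

/-- a path of large weight contains a loop of positive weight -/
theorem loop_of_weight [Finite σ] (f : Kind → ℤ) (hf : ∀ k, f k ≤ 1) : ∀ (n : ℕ) {s t : σ}
    (p : List Kind), p.length = n → Pth A s p t → (Nat.card σ : ℤ) ≤ (p.map f).sum →
    ∃ a l, conn A s a ∧ conn A a t ∧ Pth A a l a ∧ 0 < (l.map f).sum := by
  intro n
  induction n using Nat.strong_induction_on with
  | _ n ih =>
    intro s t p hp h hw
    have hle : ∀ l : List Kind, (l.map f).sum ≤ l.length := by
      intro l
      induction l with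
      | nil => simp
      | cons a l ihl =>
        have := hf a
        simp only [List.map_cons, List.sum_cons, List.length_cons]
        push_cast
        linarith
    have := Fintype.ofFinite σ
    have hlen : Fintype.card σ ≤ p.length := by
      rw [← Nat.card_eq_fintype_card]
      have := hle p
      omega
    obtain ⟨q, a, b, c, h1, _, h3, h4, h5, h6⟩ := A.evalFrom_split hlen h.evalFrom
    subst h1
    rw [List.append_assoc] at h
    obtain ⟨h7, h8⟩ := Pth.split a h
    rw [h4] at h7 h8
    obtain ⟨h9, h10⟩ := Pth.split b h8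
    rw [h5] at h9 h10
    by_cases hb : 0 < (b.map f).sum
    · exact ⟨q, b, h7.conn, h10.conn, h9, hb⟩
    · have hbl : 0 < b.length := List.length_pos_iff.2 h3
      simp only [List.length_append] at hp
      refine ih (a ++ c).length (by simp only [List.length_append]; omega) (a ++ c) rfl
        (h7.append h10) ?_
      simp only [List.map_append, List.sum_append] at hw ⊢
      linarith

/-- no state has both a loop of positive weight and a loop of negative weight -/
def NoMix (A : DFA Kind σ) : Prop := ∀ s, conn A A.start s → ∀ u v, Pth A s u s → Pth A s v s →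
  0 < net u → ¬ net v < 0

theorem noMix_of_not_mixing (h0 : A.start ∈ A.accept) (h : ¬ Mixing (A.accepts : Set (List Kind))) :
    NoMix A := by
  intro s hs u v hu hv hnu hnv
  apply h
  obtain ⟨p, hp⟩ := exists_pth hs
  refine ⟨p, u, v, hnu, hnv, fun l hl q hq => ?_⟩
  have h3 : Pth A s l.flatten s := by
    clear hq
    induction l with
    | nil => exact .nil _
    | cons x l ih =>
      rw [List.flatten_cons]
      have hx : Pth A s x s := by
        rcases hl x (by simp) with rfl | rfl
        · exact hu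
        · exact hv
      exact hx.append (ih (fun v' hv' => hl v' (by simp [hv'])))
  exact (hp.append h3).prefix_mem h0 q hq

theorem sum_neg_wt (q : List Kind) : (q.map (fun k => - Kind.wt k)).sum = - net q := by
  induction q with
  | nil => simp [net]
  | cons a q ih =>
    rw [List.map_cons, List.sum_cons, ih, net_cons]; ring

/-- paths within a component, of total weight zero, do not go high -/
theorem height_lt [Finite σ] (hN : NoMix A) {s m t : σ} {p q : List Kind}
    (hs : conn A A.start s) (h1 : Pth A s p m) (h2 : Pth A m q t) (h3 : conn A t s)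
    (hn : net p + net q = 0) : net p < Nat.card σ := by
  by_contra hcon
  push Not at hcon
  obtain ⟨a, l, ha1, ha2, ha3, ha4⟩ := loop_of_weight (A := A) Kind.wt
    (by intro k; cases k <;> simp [Kind.wt]) p.length p rfl h1 hcon
  obtain ⟨b, l', hb1, hb2, hb3, hb4⟩ := loop_of_weight (A := A) (fun k => - Kind.wt k)
    (by intro k; cases k <;> simp [Kind.wt]) q.length q rfl h2 (by
      rw [sum_neg_wt]; linarith)
  rw [sum_neg_wt] at hb4
  have hab : conn A a b := ReflTransGen.trans ha2 hb1
  have hba : conn A b a := ReflTransGen.trans (ReflTransGen.trans hb2 h3) ha1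
  obtain ⟨x, hx⟩ := exists_pth hab
  obtain ⟨y, hy⟩ := exists_pth hba
  set n := (net x).toNat + (net y).toNat + 1 with hn'
  refine hN a (ReflTransGen.trans hs ha1) l (x ++ ((List.replicate n l').flatten ++ y)) ha3
    (hx.append ((hb3.pow n).append hy)) ha4 ?_
  rw [net_append, net_append, net_pow]
  have h5 : net x ≤ (net x).toNat := Int.self_le_toNat _
  have h6 : net y ≤ (net y).toNat := Int.self_le_toNat _
  have h7 : (n : ℤ) * net l' ≤ - n := by nlinarith
  have h8 : (n : ℤ) = (net x).toNat + (net y).toNat + 1 := by rw [hn']; push_cast; ring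
  linarith

theorem rk_mono [Finite σ] {s t : σ} (h : conn A s t) : rk A t ≤ rk A s :=
  Set.ncard_le_ncard (fun _ hr => ReflTransGen.trans h hr) (Set.toFinite _)

theorem conn_of_rk [Finite σ] {s t : σ} (h : conn A s t) (hr : rk A s ≤ rk A t) : conn A t s := by
  have h1 : {r | conn A t r} ⊆ {r | conn A s r} := fun _ hr => ReflTransGen.trans h hr
  have h2 : {r | conn A t r} = {r | conn A s r} :=
    Set.eq_of_subset_of_ncard_le h1 hr (Set.toFinite _)
  have h3 : s ∈ {r | conn A s r} := show conn A s s from .refl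
  rw [← h2] at h3
  exact h3

end graph

/-! ### Balanced runs with their sequences of actions -/

section runs

variable {V Γ : Type}

/-- balanced runs with their sequences of actions -/
inductive BW (P : PDS V Γ) : Γ → V → List Kind → V → Prop
  | refl (γ : Γ) (x : V) : BW P γ x [] x
  | keep {γ : Γ} {x z y : V} {v : List Kind} : P.E Op.keep (some γ) x z → BW P γ z v y →
      BW P γ x (Kind.keep :: v) y
  | exc {γ γ' : Γ} {x x' y' z y : V} {v1 v2 : List Kind} : P.E (Op.push γ') (some γ) x x' →
      BW P γ' x' v1 y' → P.E Op.pop (some γ') y' z → BW P γ z v2 y →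
      BW P γ x (Kind.push :: (v1 ++ Kind.pop :: v2)) y

variable {P : PDS V Γ}

theorem bw_of_bal (h : ℕ) : ∀ (γ : Γ) (x y : V), P.Bal h (some γ) x y → ∃ v, BW P γ x v y := by
  induction h with
  | zero =>
    intro γ x y hb
    change ReflTransGen (P.K (some γ)) x y at hb
    induction hb using ReflTransGen.head_induction_on with
    | refl => exact ⟨[], .refl _ _⟩
    | head hs _ ih =>
      obtain ⟨v, hv⟩ := ih
      rcases hs with hs | ⟨hg, _⟩
      · exact ⟨_, .keep hs hv⟩
      · exact absurd hg (by simp)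
  | succ h ih =>
    intro γ x y hb
    change ReflTransGen (P.Ex (P.Bal h) (some γ)) x y at hb
    induction hb using ReflTransGen.head_induction_on with
    | refl => exact ⟨[], .refl _ _⟩
    | head hs _ ih2 =>
      obtain ⟨v, hv⟩ := ih2
      rcases hs with (hs | ⟨hg, _⟩) | ⟨γ', x', y', h1, h2, h3⟩
      · exact ⟨_, .keep hs hv⟩
      · exact absurd hg (by simp)
      · obtain ⟨v1, hv1⟩ := ih γ' x' y' h2
        exact ⟨_, .exc h1 hv1 h3 hv⟩

theorem BW.net_eq {γ : Γ} {x y : V} {v : List Kind} (h : BW P γ x v y) : net v = 0 := by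
  induction h with
  | refl => rfl
  | keep _ _ ih => rw [net_cons, ih]; rfl
  | exc _ _ _ _ ih1 ih2 =>
    rw [net_cons, net_append, net_cons, ih1, ih2]; simp [Kind.wt]

/-- runs of small height can be verified with few obligations -/
theorem BW.ver {γ : Γ} {x y : V} {v : List Kind} (h : BW P γ x v y) : ∀ N : ℕ,
    (∀ q, q <+: v → net q ≤ N) → P.Ver (N + 1) γ x y := by
  induction h with
  | refl γ x => intro N _; exact .refl _ _ _
  | keep hE _ ih =>
    intro N hN
    refine .keep hE (ih N (fun q hq => ?_))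
    have := hN (Kind.keep :: q) (List.cons_prefix_cons.2 ⟨rfl, hq⟩)
    rw [net_cons] at this
    simpa [Kind.wt] using this
  | @exc γ γ' x x' y' z y v1 v2 h1 hv1 h3 hv2 ih1 ih2 =>
    intro N hN
    have h4 := hN [Kind.push] (List.cons_prefix_cons.2 ⟨rfl, List.nil_prefix⟩)
    rw [net_cons, net_nil] at h4
    simp only [Kind.wt] at h4
    obtain ⟨N', rfl⟩ : ∃ N', N = N' + 1 := ⟨N - 1, by omega⟩
    refine .exA h1 (ih1 N' (fun q hq => ?_)) h3 (ih2 (N' + 1) (fun q hq => ?_))
    · have := hN (Kind.push :: q)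
        (List.cons_prefix_cons.2 ⟨rfl, hq.trans (List.prefix_append _ _)⟩)
      rw [net_cons] at this
      simp only [Kind.wt] at this
      push_cast at this
      linarith
    · have := hN (Kind.push :: (v1 ++ Kind.pop :: q))
        (List.cons_prefix_cons.2 ⟨rfl, (List.prefix_append_right_inj _).2
          (List.cons_prefix_cons.2 ⟨rfl, hq⟩)⟩)
      rw [net_cons, net_append, net_cons, hv1.net_eq] at this
      simp only [Kind.wt] at this
      linarith

/-- the product of a pushdown system with a control automaton -/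
def cprod {σ : Type} (A : DFA Kind σ) (P : PDS V Γ) : PDS (σ × V) Γ where
  E op g x y := conn A A.start x.1 ∧ y.1 = A.step x.1 op.kind ∧ y.1 ∈ A.accept ∧
    P.E op g x.2 y.2

variable {σ : Type} {A : DFA Kind σ}

theorem bw_pth {γ : Γ} {x y : σ × V} {v : List Kind} (h : BW (cprod A P) γ x v y) :
    Pth A x.1 v y.1 := by
  induction h with
  | refl => exact .nil _
  | keep hE _ ih =>
    obtain ⟨_, h2, h3, _⟩ := hE
    rw [h2] at h3 ih
    exact .cons h3 ih
  | exc h1 _ h3 _ ih1 ih2 =>
    obtain ⟨_, a2, a3, _⟩ := h1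
    obtain ⟨_, b2, b3, _⟩ := h3
    rw [a2] at a3 ih1
    rw [b2] at b3 ih2
    exact .cons a3 (ih1.append (.cons b3 ih2))

theorem main_ver [Finite σ] (hN : NoMix A) {γ : Γ} {x y : σ × V} {v : List Kind}
    (h : BW (cprod A P) γ x v y) :
    (cprod A P).Ver (Nat.card σ + 1 + (rk A x.1 - rk A y.1)) γ x y := by
  -- the case of one component
  have hflat : ∀ {γ : Γ} {x y : σ × V} {v : List Kind}, BW (cprod A P) γ x v y →
      conn A A.start x.1 → rk A x.1 ≤ rk A y.1 →
      (cprod A P).Ver (Nat.card σ + 1 + (rk A x.1 - rk A y.1)) γ x y := by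
    intro γ x y v h hs hr
    have hp := bw_pth h
    have hback := conn_of_rk hp.conn hr
    refine (h.ver (Nat.card σ) (fun q hq => ?_)).mono_le (by omega)
    obtain ⟨q', rfl⟩ := hq
    obtain ⟨h1, h2⟩ := Pth.split q hp
    have := height_lt hN hs h1 h2 hback (by rw [← net_append]; exact h.net_eq)
    omega
  induction h with
  | refl γ x => exact (PDS.Ver.refl 0 γ x).mono_le (by omega)
  | @keep γ x z y v hE hv ih =>
    by_cases hr : rk A x.1 ≤ rk A y.1
    · exact hflat (.keep hE hv) hE.1 hr
    · refine .keep hE (ih.mono_le ?_)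
      have : rk A z.1 ≤ rk A x.1 := by
        have h3 := hE.2.2.1
        rw [hE.2.1] at h3 ⊢
        exact rk_mono (conn_step h3)
      omega
  | @exc γ γ' x x' y' z y v1 v2 h1 hv1 h3 hv2 ih1 ih2 =>
    by_cases hr : rk A x.1 ≤ rk A y.1
    · exact hflat (.exc h1 hv1 h3 hv2) h1.1 hr
    · have r1 : rk A x'.1 ≤ rk A x.1 := by
        have h4 := h1.2.2.1
        rw [h1.2.1] at h4 ⊢
        exact rk_mono (conn_step h4)
      have r2 : rk A y'.1 ≤ rk A x'.1 := rk_mono (bw_pth hv1).conn
      have r3 : rk A z.1 ≤ rk A y'.1 := by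
        have h4 := h3.2.2.1
        rw [h3.2.1] at h4 ⊢
        exact rk_mono (conn_step h4)
      have r4 : rk A y.1 ≤ rk A z.1 := rk_mono (bw_pth hv2).conn
      obtain ⟨d, hd⟩ : ∃ d, rk A x.1 - rk A y.1 = d + 1 := ⟨rk A x.1 - rk A y.1 - 1, by omega⟩
      rw [hd]
      by_cases hd1 : rk A x'.1 - rk A y'.1 ≤ d
      · exact .exA (D := Nat.card σ + 1 + d) h1 (ih1.mono_le (by omega)) h3
          (ih2.mono_le (by omega))
      · exact .exB (D := Nat.card σ + 1 + d) h1 (ih1.mono_le (by omega)) h3
          (ih2.mono_le (by omega))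

theorem ver_of_balI [Finite σ] (hN : NoMix A) {γ : Γ} {x y : σ × V}
    (h : (cprod A P).BalI (some γ) x y) : (cprod A P).Ver (2 * Nat.card σ + 1) γ x y := by
  obtain ⟨h', hb⟩ := h
  obtain ⟨v, hv⟩ := bw_of_bal h' γ x y hb
  refine (main_ver hN hv).mono_le ?_
  have := rk_le (A := A) x.1
  omega

theorem verT_of_balI {D : ℕ} {S : Set V}
    (hD : ∀ (γ : Γ) (x y : V), P.BalI (some γ) x y → P.Ver D γ x y) {g : Option Γ} {x y : V}
    (h : P.BalI g x y) (hy : P.VerT D S g y) : P.VerT D S g x := by
  obtain ⟨h', hb⟩ := h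
  cases h' with
  | zero =>
    change ReflTransGen (P.K g) x y at hb
    induction hb using ReflTransGen.head_induction_on with
    | refl => exact hy
    | head hs _ ih => exact .keep hs ih
  | succ h' =>
    change ReflTransGen (P.Ex (P.Bal h') g) x y at hb
    induction hb using ReflTransGen.head_induction_on with
    | refl => exact hy
    | head hs _ ih =>
      rcases hs with hs | ⟨γ, x', y', h1, h2, h3⟩
      · exact .keep hs ih
      · exact .ex h1 (hD _ _ _ ⟨h', h2⟩) h3 ih

theorem verT_of_accR {D : ℕ} {S : Set V}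
    (hD : ∀ (γ : Γ) (x y : V), P.BalI (some γ) x y → P.Ver D γ x y) (h : ℕ) :
    ∀ (g : Option Γ) (x : V), P.AccR S h g x → P.VerT D S g x := by
  induction h with
  | zero => rintro g x ⟨y, hy, hb⟩; exact verT_of_balI hD hb (.acc hy)
  | succ h ih =>
    rintro g x ⟨y, hb, hy⟩
    refine verT_of_balI hD hb ?_
    rcases hy with hy | ⟨γ, z, h1, h2⟩
    · exact .acc hy
    · exact .push h1 (ih _ _ h2)

theorem ver_map {V' : Type} {P' : PDS V' Γ} (f : V → V')
    (hf : ∀ op g x y, P.E op g x y → P'.E op g (f x) (f y)) {D : ℕ} {γ : Γ} {x y : V}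
    (h : P.Ver D γ x y) : P'.Ver D γ (f x) (f y) := by
  induction h with
  | refl D γ x => exact .refl _ _ _
  | keep h1 _ ih => exact .keep (hf _ _ _ _ h1) ih
  | exA h1 _ h3 _ ih1 ih2 => exact .exA (hf _ _ _ _ h1) ih1 (hf _ _ _ _ h3) ih2
  | exB h1 _ h3 _ ih1 ih2 => exact .exB (hf _ _ _ _ h1) ih1 (hf _ _ _ _ h3) ih2

theorem verT_map {V' : Type} {P' : PDS V' Γ} (f : V → V')
    (hf : ∀ op g x y, P.E op g x y → P'.E op g (f x) (f y)) {D : ℕ} {S : Set V} {S' : Set V'}
    (hS : ∀ x ∈ S, f x ∈ S') {g : Option Γ} {x : V}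
    (h : P.VerT D S g x) : P'.VerT D S' g (f x) := by
  induction h with
  | acc h => exact .acc (hS _ h)
  | keep h1 _ ih =>
    refine .keep ?_ ih
    rcases h1 with h1 | ⟨h1, h2⟩
    · exact Or.inl (hf _ _ _ _ h1)
    · exact Or.inr ⟨h1, hf _ _ _ _ h2⟩
  | push h1 _ ih => exact .push (hf _ _ _ _ h1) ih
  | ex h1 h2 h3 _ ih => exact .ex (hf _ _ _ _ h1) (ver_map f hf h2) (hf _ _ _ _ h3) ih

end runs

/-! ### Pushdown automata with actions that do not mix -/

section main

variable {α H Γ σ : Type}

theorem exists_reachBy (M : PDA α H Γ) {w : List α} {c : PCfg M.Q H Γ} (h : M.Reach w c) :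
    ∃ v, M.ReachBy w v c := by
  obtain ⟨t, ht⟩ := h
  induction t generalizing c with
  | zero =>
    have : c = M.start := ht
    subst this
    exact ⟨[], .start⟩
  | succ t ih =>
    obtain ⟨c', h1, t', ht', rfl⟩ := ht
    obtain ⟨v, hv⟩ := ih h1
    exact ⟨_, .step hv ht'⟩

theorem cprod_run {A : DFA Kind σ} (M : PDA α H Γ) (hM : M.ActsIn (A.accepts : Set (List Kind)))
    {w : List α} {v : List Kind} {c : PCfg M.Q H Γ} (h : M.ReachBy w v c) :
    conn A A.start (A.eval v) ∧ ∃ x : M.Q × (H → Fin (w.length + 2)),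
      c = ⟨x.1, fun h => x.2 h, c.st⟩ ∧
      ReflTransGen (cprod A (pds M w)).Step ((A.start, (M.init, fun _ => 0)), [])
        ((A.eval v, x), c.st) := by
  induction h with
  | start => exact ⟨.refl, (M.init, fun _ => 0), rfl, .refl⟩
  | @step v c t hr ht ih =>
    obtain ⟨h1, x, h2, h3⟩ := ih
    have hmem : A.eval (v ++ [t.2.2.kind]) ∈ A.accept := hM w _ _ (.step hr ht)
    rw [DFA.eval_append_singleton] at hmem ⊢
    refine ⟨ReflTransGen.trans h1 (conn_step hmem), ?_⟩
    obtain ⟨q, pos, st⟩ := c
    simp only [PCfg.mk.injEq, and_true] at h2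
    obtain ⟨rfl, rfl⟩ := h2
    refine ⟨(t.1, fun h => ⟨(t.2.1 h).move w.length (x.2 h), move_lt _ (x.2 h).2⟩), rfl,
      h3.tail ⟨t.2.2, ⟨h1, rfl, hmem, t, ht, rfl, rfl, fun h => rfl⟩, rfl⟩⟩

/-- **Store actions that do not mix.** -/
theorem nonmix_main [Fintype H] [DecidableEq H] [Finite Γ] [Finite σ] (A : DFA Kind σ)
    (hN : ¬ Mixing (A.accepts : Set (List Kind))) (M : PDA α H Γ)
    (hM : M.ActsIn (A.accepts : Set (List Kind))) :
    ∃ (B : Type) (_ : Finite B) (F : FA α B), F.lang = M.lang := by
  have h0 : A.start ∈ A.accept := hM [] _ _ .start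
  have hNM := noMix_of_not_mixing h0 hN
  obtain ⟨F, hF⟩ := oblig_main M (2 * Nat.card σ + 1) (by
    intro w hw
    obtain ⟨c, hc, hacc⟩ := hw
    obtain ⟨v, hv⟩ := exists_reachBy M hc
    obtain ⟨_, x, h2, h3⟩ := cprod_run M hM hv
    have h4 := (cprod A (pds M w)).canAcc_of_reach {y | y.2.1 ∈ M.acc} h3 (by
      change x.1 ∈ M.acc
      have : c.q = x.1 := by rw [h2]
      rw [← this]; exact hacc)
    obtain ⟨h', h4⟩ := h4
    have h5 := verT_of_accR (fun γ x y h => ver_of_balI hNM h) h' _ _ h4
    exact verT_map (P := cprod A (pds M w)) (P' := pds M w) (S' := {v | v.1 ∈ M.acc}) Prod.snd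
      (fun op g x y h => h.2.2.2) (fun x (hx : x.2.1 ∈ M.acc) => hx) h5)
  exact ⟨_, inferInstance, F, hF⟩

end main

end Pool.Agent.V8H47.MH
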