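import Pool.Agent.V8H47.MH.BM
import Pool.Agent.V8H47.MH.ThinSim
import Pool.Agent.V8H47.MH.Block

/-!
# Verifying balanced runs with a bounded list of obligations
-/

namespace Pool.Agent.V8H47.MH

open Relation

namespace PDS

variable {V Γ : Type} (P : PDS V Γ)

/-- balanced runs above the symbol `γ` which can be verified with at most `D` obligations at any
time -/
inductive Ver : ℕ → Γ → V → V → Prop
  | refl (D : ℕ) (γ : Γ) (x : V) : Ver (D + 1) γ x x
  | keep {D : ℕ} {γ : Γ} {x z y : V} : P.E Op.keep (some γ) x z → Ver D γ z y → Ver D γ x y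
  | exA {D : ℕ} {γ γ' : Γ} {x u v z y : V} : P.E (Op.push γ') (some γ) x u → Ver D γ' u v →
      P.E Op.pop (some γ') v z → Ver (D + 1) γ z y → Ver (D + 1) γ x y
  | exB {D : ℕ} {γ γ' : Γ} {x u v z y : V} : P.E (Op.push γ') (some γ) x u →
      Ver (D + 1) γ' u v → P.E Op.pop (some γ') v z → Ver D γ z y → Ver (D + 1) γ x y

variable {P}

theorem Ver.pos {D : ℕ} {γ : Γ} {x y : V} (h : P.Ver D γ x y) : 0 < D := by
  induction h with
  | refl => omega
  | keep _ _ ih => exact ih
  | exA => omega
  | exB => omega

theorem Ver.mono {D : ℕ} {γ : Γ} {x y : V} (h : P.Ver D γ x y) : P.Ver (D + 1) γ x y := by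
  induction h with
  | refl D γ x => exact .refl _ _ _
  | keep h1 _ ih => exact .keep h1 ih
  | exA h1 _ h3 _ ih1 ih2 => exact .exA h1 ih1 h3 ih2
  | exB h1 _ h3 _ ih1 ih2 => exact .exB h1 ih1 h3 ih2

theorem Ver.mono_le {D D' : ℕ} (hle : D ≤ D') {γ : Γ} {x y : V} (h : P.Ver D γ x y) :
    P.Ver D' γ x y := by
  induction hle with
  | refl => exact h
  | step _ ih => exact ih.mono

theorem Ver.balI {D : ℕ} {γ : Γ} {x y : V} (h : P.Ver D γ x y) : P.BalI (some γ) x y := by
  induction h with
  | refl D γ x => exact P.balI_refl _ _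
  | keep h1 _ ih => exact P.balI_trans (P.balI_keep (Or.inl h1)) ih
  | exA h1 _ h3 _ ih1 ih2 => exact P.balI_trans (P.balI_ex h1 ih1 h3) ih2
  | exB h1 _ h3 _ ih1 ih2 => exact P.balI_trans (P.balI_ex h1 ih1 h3) ih2

variable (P)

/-- accepting runs which can be verified with at most `D` obligations besides the main one -/
inductive VerT (D : ℕ) (A : Set V) : Option Γ → V → Prop
  | acc {g : Option Γ} {x : V} : x ∈ A → VerT D A g x
  | keep {g : Option Γ} {x z : V} : P.K g x z → VerT D A g z → VerT D A g x
  | push {g : Option Γ} {γ : Γ} {x z : V} : P.E (Op.push γ) g x z → VerT D A (some γ) z →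
      VerT D A g x
  | ex {g : Option Γ} {γ : Γ} {x u v z : V} : P.E (Op.push γ) g x u → P.Ver D γ u v →
      P.E Op.pop (some γ) v z → VerT D A g z → VerT D A g x

end PDS

/-! ### Blocks of registers -/

section blocks

variable {α B H : Type} [DecidableEq B] [DecidableEq H] [Fintype H]

/-- all heads -/
noncomputable def hs (H : Type) [Fintype H] : List H := (Finset.univ : Finset H).toList

theorem mem_hs (h : H) : h ∈ hs H := by simp [hs]

noncomputable def bCopy (a b : B) : Prim α (B × H) :=
  .cp ((hs H).map (fun h => ((a, h), (b, h))))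

noncomputable def bGuess (a : B) : Prim α (B × H) := .gs ((hs H).map (fun h => (a, h)))

noncomputable def bEq (a b : B) : Prim α (B × H) :=
  .eq ((hs H).map (fun h => ((a, h), (b, h))))

def bMv (a : B) (f : (H → Sym α) → Prop) (d : H → Dir) : Prim α (B × H) :=
  .mv (fun s => f (fun h => s (a, h))) (fun r => if r.1 = a then d r.2 else Dir.S)

def bIf (c : Prop) : Prim α (B × H) := .mv (fun _ => c) (fun _ => Dir.S)

variable {w : List α} {f f' : B → H → ℕ}

theorem runCopies_blk (a b : B) (L : List H) : ∀ (p : B × H → ℕ) (r : B × H),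
    runCopies (L.map (fun h => ((a, h), (b, h)))) p r =
      if r.1 = a ∧ r.2 ∈ L then p (b, r.2) else p r := by
  induction L with
  | nil => intro p r; simp [runCopies]
  | cons h L ih =>
    intro p r
    have e : runCopies ((h :: L).map (fun h => ((a, h), (b, h)))) p r =
        runCopies (L.map (fun h => ((a, h), (b, h)))) (Function.update p (a, h) (p (b, h))) r := rfl
    rw [e, ih]
    obtain ⟨c, k⟩ := r
    simp only [List.mem_cons, Function.update_apply, Prod.mk.injEq]
    by_cases h1 : c = a
    · subst h1
      by_cases h2 : k = h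
      · subst h2
        simp
      · simp [h2]
    · simp [h1]

theorem curry_ext {p : B × H → ℕ} (h : ∀ r, p r = f r.1 r.2) : p = Function.uncurry f := by
  funext r; rw [h r]; rfl

theorem sem_bCopy (a b : B) :
    (bCopy a b : Prim α (B × H)).sem w (Function.uncurry f) (Function.uncurry f') ↔
      f' = Function.update f a (f b) := by
  unfold bCopy Prim.sem
  simp only
  constructor
  · intro h
    funext c k
    have := congrFun h (c, k)
    rw [runCopies_blk] at this
    simp only [Function.uncurry_apply_pair, mem_hs, and_true] at this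
    rw [this, Function.update_apply]
    by_cases h1 : c = a
    · simp [h1]
    · simp [h1]
  · rintro rfl
    funext ⟨c, k⟩
    rw [runCopies_blk]
    simp only [Function.uncurry_apply_pair, mem_hs, and_true]
    by_cases h1 : c = a
    · simp [h1]
    · simp [h1]

theorem sem_bMv (a : B) (P : (H → Sym α) → Prop) (d : H → Dir) :
    (bMv a P d : Prim α (B × H)).sem w (Function.uncurry f) (Function.uncurry f') ↔
      P (fun h => symAt w (f a h)) ∧
        f' = Function.update f a (fun h => (d h).move w.length (f a h)) := by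
  unfold bMv Prim.sem
  simp only [Function.uncurry_apply_pair]
  refine and_congr Iff.rfl ?_
  constructor
  · intro h
    funext c k
    have := congrFun h (c, k)
    simp only [Function.uncurry_apply_pair] at this
    rw [this, Function.update_apply]
    by_cases h1 : c = a
    · simp [h1]
    · simp [h1, Dir.move]
  · rintro rfl
    funext ⟨c, k⟩
    simp only [Function.uncurry_apply_pair]
    by_cases h1 : c = a
    · simp [h1]
    · simp [h1, Dir.move]

theorem sem_bGuess (a : B) :
    (bGuess a : Prim α (B × H)).sem w (Function.uncurry f) (Function.uncurry f') ↔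
      (∃ v, f' = Function.update f a v) ∧ ∀ b h, f' b h ≤ w.length + 1 := by
  unfold bGuess Prim.sem
  simp only [List.mem_map, not_exists, not_and]
  refine and_congr ?_ ⟨fun h b k => h (b, k), fun h r => h r.1 r.2⟩
  constructor
  · intro h
    refine ⟨f' a, ?_⟩
    funext c k
    by_cases h1 : c = a
    · subst h1; simp
    · rw [Function.update_of_ne h1]
      exact h (c, k) (fun k' _ he => h1 (congrArg Prod.fst he).symm)
  · rintro ⟨v, rfl⟩ ⟨c, k⟩ h
    have h1 : c ≠ a := by
      rintro rfl
      exact h k (mem_hs k) rfl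
    simp [h1]

theorem sem_bEq (a b : B) :
    (bEq a b : Prim α (B × H)).sem w (Function.uncurry f) (Function.uncurry f') ↔
      f a = f b ∧ f' = f := by
  unfold bEq Prim.sem
  simp only [List.mem_map]
  constructor
  · rintro ⟨h1, h2⟩
    refine ⟨?_, ?_⟩
    · funext k
      exact h1 _ ⟨k, mem_hs k, rfl⟩
    · funext c k
      exact congrFun h2 (c, k)
  · rintro ⟨h1, rfl⟩
    refine ⟨?_, rfl⟩
    rintro x ⟨k, _, rfl⟩
    exact congrFun h1 k

omit [DecidableEq B] [DecidableEq H] [Fintype H] in
theorem sem_bIf [DecidableEq (B × H)] (c : Prop) :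
    (bIf c : Prim α (B × H)).sem w (Function.uncurry f) (Function.uncurry f') ↔ c ∧ f' = f := by
  unfold bIf Prim.sem
  simp only
  refine and_congr Iff.rfl ?_
  constructor
  · intro h
    funext a k
    exact congrFun h (a, k)
  · rintro rfl
    rfl

theorem runPrims_nil' [DecidableEq (B × H)] :
    runPrims w ([] : List (Prim α (B × H))) (Function.uncurry f) (Function.uncurry f') ↔
      f' = f := by
  constructor
  · intro h
    funext a k
    exact congrFun h (a, k)
  · rintro rfl; rfl

theorem runPrims_cons' [DecidableEq (B × H)] (a : Prim α (B × H)) (l : List (Prim α (B × H))) :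
    runPrims w (a :: l) (Function.uncurry f) (Function.uncurry f') ↔
      ∃ f1, a.sem w (Function.uncurry f) (Function.uncurry f1) ∧
        runPrims w l (Function.uncurry f1) (Function.uncurry f') := by
  constructor
  · rintro ⟨p, h1, h2⟩
    refine ⟨Function.curry p, ?_, ?_⟩
    · rw [Function.uncurry_curry]; exact h1
    · rw [Function.uncurry_curry]; exact h2
  · rintro ⟨f1, h1, h2⟩; exact ⟨_, h1, h2⟩

end blocks

end Pool.Agent.V8H47.MH
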