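import Pool.Agent.V8H47.MH.Oblig

/-!
# The machine with a bounded list of obligations
-/

namespace Pool.Agent.V8H47.MH

open Relation

variable {α H Γ : Type}

/-- tags of obligations: top symbol, state, target state (`none`: acceptance) -/
abbrev Tag (Γ Q : Type) := Option Γ × Q × Option Q

/-- choices of the machine -/
abbrev ED (Q H Γ : Type) :=
  (Q × (H → Dir) × Op Γ) ⊕ ((Bool × (Q × (H → Dir)) × Γ × Q × (Q × (H → Dir))) ⊕ Unit)

/-- names of blocks of registers -/
abbrev Blk (D : ℕ) := Fin (D + 1) × Bool

def lv (D i : ℕ) : Fin (D + 1) := Fin.ofNat (D + 1) i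

def xl (D i : ℕ) : Blk D := (lv D i, false)

def yl (D i : ℕ) : Blk D := (lv D i, true)

theorem lv_inj {D i j : ℕ} (hi : i ≤ D) (hj : j ≤ D) (h : lv D i = lv D j) : i = j := by
  have h1 := congrArg Fin.val h
  simp only [lv, Fin.val_ofNat] at h1
  rw [Nat.mod_eq_of_lt (by omega), Nat.mod_eq_of_lt (by omega)] at h1
  exact h1

theorem xl_ne {D i j : ℕ} (hi : i ≤ D) (hj : j ≤ D) (h : i ≠ j) : xl D i ≠ xl D j :=
  fun he => h (lv_inj hi hj (congrArg Prod.fst he))

theorem yl_ne {D i j : ℕ} (hi : i ≤ D) (hj : j ≤ D) (h : i ≠ j) : yl D i ≠ yl D j :=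
  fun he => h (lv_inj hi hj (congrArg Prod.fst he))

theorem xl_ne_yl {D i j : ℕ} : xl D i ≠ yl D j := fun he => by
  have := congrArg Prod.snd he
  simp [xl, yl] at this

theorem yl_ne_xl {D i j : ℕ} : yl D i ≠ xl D j := fun he => xl_ne_yl he.symm

def newTop : Option Γ → Op Γ → Option Γ
  | g, .keep => g
  | g, .pop => g
  | _, .push γ => some γ

def okOp {Q : Type} (g : Option Γ) (t : Option Q) : Op Γ → Prop
  | .keep => True
  | .pop => g = none
  | .push _ => t = none

section machine

variable [DecidableEq H] [Fintype H] (M : PDA α H Γ) (D : ℕ)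

/-- the edges of the flowchart -/
noncomputable def oEdge : List (Tag Γ M.Q) → ED M.Q H Γ →
    List (Tag Γ M.Q) × List (Prim α (Blk D × H))
  | (g, q, t) :: r, .inl (q', d, op) => ((newTop g op, q', t) :: r,
      [bMv (xl D r.length) (fun s => okOp g t op ∧ (q', d, op) ∈ M.step q s g) d])
  | (g, q, t) :: r, .inr (.inl (false, (q1, d1), γ, q2, (q3, d3))) =>
      ((some γ, q1, some q2) :: (g, q3, t) :: r,
      [bCopy (xl D (r.length + 1)) (xl D r.length),
       bMv (xl D (r.length + 1)) (fun s => (q1, d1, Op.push γ) ∈ M.step q s g) d1,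
       bGuess (yl D (r.length + 1)),
       bCopy (xl D r.length) (yl D (r.length + 1)),
       bMv (xl D r.length) (fun s => (q3, d3, Op.pop) ∈ M.step q2 s (some γ)) d3])
  | (g, q, some qy) :: r, .inr (.inl (true, (q1, d1), γ, q2, (q3, d3))) =>
      ((g, q3, some qy) :: (some γ, q1, some q2) :: r,
      [bCopy (yl D (r.length + 1)) (yl D r.length),
       bMv (xl D r.length) (fun s => (q1, d1, Op.push γ) ∈ M.step q s g) d1,
       bGuess (yl D r.length),
       bCopy (xl D (r.length + 1)) (yl D r.length),
       bMv (xl D (r.length + 1)) (fun s => (q3, d3, Op.pop) ∈ M.step q2 s (some γ)) d3])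
  | (_, q, some qy) :: r, .inr (.inr ()) =>
      (r, [bIf (q = qy), bEq (xl D r.length) (yl D r.length)])
  | _, _ => ([], [bIf False])

theorem finite_lists (T : Type) [Finite T] (n : ℕ) : Finite {l : List T // l.length ≤ n} :=
  List.finite_length_le T n

/-- the machine as a flowchart -/
noncomputable def obBM [Finite Γ] : BM α (Blk D × H) where
  Q := {l : List (Tag Γ M.Q) // l.length ≤ D + 1}
  finQ := by
    have := M.finQ
    exact finite_lists _ _
  I := {x : List (Tag Γ M.Q) × ED M.Q H Γ // x.1.length ≤ D + 1 ∧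
    (oEdge M D x.1 x.2).1.length ≤ D + 1}
  finI := by
    have := M.finQ
    have h1 := finite_lists (Tag Γ M.Q) (D + 1)
    let f : {x : List (Tag Γ M.Q) × ED M.Q H Γ // x.1.length ≤ D + 1 ∧
      (oEdge M D x.1 x.2).1.length ≤ D + 1} → {l : List (Tag Γ M.Q) // l.length ≤ D + 1} ×
        ED M.Q H Γ := fun x => (⟨x.1.1, x.2.1⟩, x.1.2)
    refine Finite.of_injective f ?_
    rintro ⟨⟨a, b⟩, h⟩ ⟨⟨a', b'⟩, h'⟩ he
    simp only [f, Prod.mk.injEq, Subtype.mk.injEq] at he
    obtain ⟨rfl, rfl⟩ := he
    rfl
  init := ⟨[(none, M.init, none)], by simp⟩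
  acc := {l | ∃ g q, l.1 = [(g, q, none)] ∧ q ∈ M.acc}
  src x := ⟨x.1.1, x.2.1⟩
  dst x := ⟨(oEdge M D x.1.1 x.1.2).1, x.2.2⟩
  body x := (oEdge M D x.1.1 x.1.2).2

/-- the steps of the machine -/
def ROb (w : List α) (c c' : List (Tag Γ M.Q) × (Blk D → H → ℕ)) : Prop :=
  c.1.length ≤ D + 1 ∧ c'.1.length ≤ D + 1 ∧ ∃ e, (oEdge M D c.1 e).1 = c'.1 ∧
    runPrims w (oEdge M D c.1 e).2 (Function.uncurry c.2) (Function.uncurry c'.2)

theorem lang_obBM [Finite Γ] (w : List α) : w ∈ (obBM M D).lang ↔
    ∃ g q f, ReflTransGen (ROb M D w) ([(none, M.init, none)], fun _ _ => 0) ([(g, q, none)], f) ∧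
      q ∈ M.acc := by
  constructor
  · rintro ⟨c, hc, g, q, hcq, hq⟩
    obtain ⟨b, hb, hP⟩ := simulate (s := ROb M D w)
      (fun (c : FCfg (obBM M D).Q (Blk D × H)) (b : List (Tag Γ M.Q) × (Blk D → H → ℕ)) =>
        b = (c.q.1, Function.curry c.pos))
      (by
        rintro c b c' rfl ⟨i, h1, h2, h3⟩
        refine ⟨_, ⟨c.q.2, c'.q.2, i.1.2, ?_, ?_⟩, rfl⟩
        · simp only
          rw [h1, h2]
          rfl
        · simp only [Function.uncurry_curry]
          rw [h1]
          exact h3)
      (b0 := ([(none, M.init, none)], fun _ _ => 0)) rfl hc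
    subst hP
    exact ⟨g, q, _, by rw [← hcq]; exact hb, hq⟩
  · rintro ⟨g, q, f, hc, hq⟩
    obtain ⟨b, hb, hP⟩ := simulate (s := (obBM M D).Step w)
      (fun (c : List (Tag Γ M.Q) × (Blk D → H → ℕ)) (b : FCfg (obBM M D).Q (Blk D × H)) =>
        b.q.1 = c.1 ∧ b.pos = Function.uncurry c.2)
      (by
        rintro ⟨l, f⟩ b ⟨l', f'⟩ ⟨h1, h2⟩ ⟨h3, h4, e, h5, h6⟩
        obtain ⟨⟨lb, hlb⟩, pb⟩ := b
        simp only at h1 h2 h3 h4 h5 h6
        subst h1 h2 h5
        exact ⟨⟨⟨(oEdge M D lb e).1, h4⟩, Function.uncurry f'⟩,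
          ⟨⟨(lb, e), h3, h4⟩, rfl, rfl, h6⟩, rfl, rfl⟩)
      (b0 := (obBM M D).start) ⟨rfl, rfl⟩ hc
    exact ⟨b, hb, g, q, hP.1, hq⟩

variable {M D}

/-- the positions in a block -/
def vx (w : List α) (f : Blk D → H → ℕ) (b : Blk D) : H → Fin (w.length + 2) :=
  fun h => Fin.ofNat (w.length + 2) (f b h)

omit [DecidableEq H] [Fintype H] in
theorem vx_val {w : List α} {f : Blk D → H → ℕ} {b : Blk D} {h : H}
    (hb : f b h ≤ w.length + 1) : ((vx w f b h : Fin (w.length + 2)) : ℕ) = f b h := by
  simp only [vx, Fin.val_ofNat]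
  exact Nat.mod_eq_of_lt (by omega)

variable (M) in
/-- all obligations hold -/
def VL (w : List α) (f : Blk D → H → ℕ) : List (Tag Γ M.Q) → Prop
  | [] => True
  | (g, q, none) :: l =>
    (∃ h, (pds M w).AccR {v | v.1 ∈ M.acc} h g (q, vx w f (xl D l.length))) ∧ VL w f l
  | (g, q, some qy) :: l =>
    (pds M w).BalI g (q, vx w f (xl D l.length)) (qy, vx w f (yl D l.length)) ∧ VL w f l

omit [DecidableEq H] [Fintype H] in
theorem vx_congr {w : List α} {f f' : Blk D → H → ℕ} {b b' : Blk D} (h : f b = f' b') :
    vx w f b = vx w f' b' := by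
  unfold vx; rw [h]

omit [DecidableEq H] [Fintype H] in
theorem VL_congr {w : List α} {f f' : Blk D → H → ℕ} : ∀ (l : List (Tag Γ M.Q)),
    (∀ i, i < l.length → f (xl D i) = f' (xl D i) ∧ f (yl D i) = f' (yl D i)) →
    VL M w f l → VL M w f' l := by
  intro l
  induction l with
  | nil => intro _ _; trivial
  | cons a l ih =>
    obtain ⟨g, q, t⟩ := a
    intro h hV
    have hl := h l.length (by simp)
    cases t with
    | none =>
      obtain ⟨h1, h2⟩ := hV
      refine ⟨?_, ih (fun i hi => h i (by simp only [List.length_cons]; omega)) h2⟩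
      rw [← vx_congr hl.1]; exact h1
    | some qy =>
      obtain ⟨h1, h2⟩ := hV
      refine ⟨?_, ih (fun i hi => h i (by simp only [List.length_cons]; omega)) h2⟩
      rw [← vx_congr hl.1, ← vx_congr hl.2]; exact h1

omit [DecidableEq H] [Fintype H] in
theorem pds_E {q q' : M.Q} {g : Option Γ} {d : H → Dir} {op : Op Γ} {w : List α}
    {f f' : Blk D → H → ℕ} {b b' : Blk D} (hb : ∀ h, f b h ≤ w.length + 1)
    (hs : (q', d, op) ∈ M.step q (fun h => symAt w (f b h)) g)
    (hf' : f' b' = fun h => (d h).move w.length (f b h)) :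
    (pds M w).E op g (q, vx w f b) (q', vx w f' b') := by
  refine ⟨(q', d, op), ?_, rfl, rfl, fun h => ?_⟩
  · simp only
    have : (fun h => symAt w (vx w f b h : ℕ)) = (fun h => symAt w (f b h)) := by
      funext h
      rw [vx_val (hb h)]
    rw [this]
    exact hs
  · have h1 : f' b' h ≤ w.length + 1 := by
      rw [hf']
      have := hb h
      simp only
      cases d h <;> simp only [Dir.move] <;> omega
    rw [vx_val h1, vx_val (hb h), hf']

theorem BalI_of_E_exc {w : List α} {g : Option Γ} {γ : Γ} {x u v z : M.Q × (H → Fin (w.length + 2))}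
    (h1 : (pds M w).E (Op.push γ) g x u) (h2 : (pds M w).BalI (some γ) u v)
    (h3 : (pds M w).E Op.pop (some γ) v z) : (pds M w).BalI g x z :=
  (pds M w).balI_ex h1 h2 h3

/-- Steps of the machine preserve validity of the obligations, read backwards. -/
theorem edge_sound {w : List α} {l : List (Tag Γ M.Q)} {e : ED M.Q H Γ} {f f' : Blk D → H → ℕ}
    (hf : ∀ b h, f b h ≤ w.length + 1) (hl : l.length ≤ D + 1)
    (hl' : (oEdge M D l e).1.length ≤ D + 1)
    (hr : runPrims w (oEdge M D l e).2 (Function.uncurry f) (Function.uncurry f'))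
    (hV : VL M w f' (oEdge M D l e).1) : VL M w f l := by
  rcases l with _ | ⟨⟨g, q, t⟩, r⟩
  · trivial
  simp only [List.length_cons] at hl
  rcases e with ⟨q', d, op⟩ | ⟨b, ⟨q1, d1⟩, γ, q2, ⟨q3, d3⟩⟩ | e
  · -- an ordinary step
    simp only [oEdge, runPrims_cons', runPrims_nil', sem_bMv] at hr hV
    obtain ⟨f1, ⟨⟨hok, hs⟩, rfl⟩, rfl⟩ := hr
    have hE := pds_E (D := D) (f' := Function.update f (xl D r.length)
      (fun h => (d h).move w.length (f (xl D r.length) h))) (b' := xl D r.length)
      (hf (xl D r.length)) hs (by rw [Function.update_self])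
    have hrest : VL M w (Function.update f (xl D r.length)
      (fun h => (d h).move w.length (f (xl D r.length) h))) r → VL M w f r := by
      refine VL_congr r (fun i hi => ⟨?_, ?_⟩)
      · rw [Function.update_of_ne (xl_ne (by omega) (by omega) (by omega))]
      · rw [Function.update_of_ne yl_ne_xl]
    cases t with
    | none =>
      obtain ⟨h1, h2⟩ := hV
      refine ⟨?_, hrest h2⟩
      cases op with
      | keep => exact (pds M w).accR_of_balI _ ((pds M w).balI_keep (Or.inl hE)) h1
      | pop =>
        have hg : g = none := hok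
        subst hg
        exact (pds M w).accR_of_balI _ ((pds M w).balI_keep (Or.inr ⟨rfl, hE⟩)) h1
      | push γ =>
        obtain ⟨h', h1⟩ := h1
        exact ⟨h' + 1, _, (pds M w).balI_refl _ _, Or.inr ⟨γ, _, hE, h1⟩⟩
    | some qy =>
      obtain ⟨h1, h2⟩ := hV
      refine ⟨?_, hrest h2⟩
      have hy : vx w (Function.update f (xl D r.length)
        (fun h => (d h).move w.length (f (xl D r.length) h))) (yl D r.length) =
          vx w f (yl D r.length) := vx_congr (by rw [Function.update_of_ne yl_ne_xl])
      rw [hy] at h1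
      cases op with
      | keep => exact (pds M w).balI_trans ((pds M w).balI_keep (Or.inl hE)) h1
      | pop =>
        have hg : g = none := hok
        subst hg
        exact (pds M w).balI_trans ((pds M w).balI_keep (Or.inr ⟨rfl, hE⟩)) h1
      | push γ => exact absurd hok (by simp [okOp])
  · cases b with
    | false =>
      simp only [oEdge, List.length_cons] at hl'
      simp only [oEdge, runPrims_cons', runPrims_nil', sem_bMv, sem_bCopy, sem_bGuess] at hr hV
      obtain ⟨f1, hf1, f2, ⟨hs1, hf2⟩, f3, ⟨⟨v, hf3⟩, hb3⟩, f4, hf4, f5, ⟨hs5, hf5⟩, rfl⟩ := hr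
      have n1 : xl D (r.length + 1) ≠ xl D r.length := xl_ne (by omega) (by omega) (by omega)
      have n2 : yl D r.length ≠ yl D (r.length + 1) := yl_ne (by omega) (by omega) (by omega)
      have n3 : ∀ i j, xl D i ≠ yl D j := fun i j => xl_ne_yl
      have n4 : ∀ i j, yl D i ≠ xl D j := fun i j => yl_ne_xl
      have e1 : f1 (xl D (r.length + 1)) = f (xl D r.length) := by rw [hf1, Function.update_self]
      have e2 : f' (xl D (r.length + 1)) =
          fun h => (d1 h).move w.length (f1 (xl D (r.length + 1)) h) := by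
        rw [hf5, Function.update_of_ne n1, hf4, Function.update_of_ne n1, hf3,
          Function.update_of_ne (n3 _ _), hf2, Function.update_self]
      have e3 : f' (yl D (r.length + 1)) = v := by
        rw [hf5, Function.update_of_ne (n4 _ _), hf4, Function.update_of_ne (n4 _ _), hf3,
          Function.update_self]
      have e4 : f4 (xl D r.length) = v := by
        rw [hf4, Function.update_self, hf3, Function.update_self]
      have e5 : f' (xl D r.length) = fun h => (d3 h).move w.length (f4 (xl D r.length) h) := by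
        rw [hf5, Function.update_self]
      have e6 : f' (yl D r.length) = f (yl D r.length) := by
        rw [hf5, Function.update_of_ne (n4 _ _), hf4, Function.update_of_ne (n4 _ _), hf3,
          Function.update_of_ne n2, hf2, Function.update_of_ne (n4 _ _), hf1,
          Function.update_of_ne (n4 _ _)]
      have e7 : ∀ i, i < r.length → f' (xl D i) = f (xl D i) ∧ f' (yl D i) = f (yl D i) := by
        intro i hi
        have m1 : xl D i ≠ xl D (r.length + 1) := xl_ne (by omega) (by omega) (by omega)
        have m2 : xl D i ≠ xl D r.length := xl_ne (by omega) (by omega) (by omega)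
        have m3 : yl D i ≠ yl D (r.length + 1) := yl_ne (by omega) (by omega) (by omega)
        constructor
        · rw [hf5, Function.update_of_ne m2, hf4, Function.update_of_ne m2, hf3,
            Function.update_of_ne (n3 _ _), hf2, Function.update_of_ne m1, hf1,
            Function.update_of_ne m1]
        · rw [hf5, Function.update_of_ne (n4 _ _), hf4, Function.update_of_ne (n4 _ _), hf3,
            Function.update_of_ne m3, hf2, Function.update_of_ne (n4 _ _), hf1,
            Function.update_of_ne (n4 _ _)]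
      have b1 : ∀ h, f1 (xl D (r.length + 1)) h ≤ w.length + 1 := by
        rw [e1]; exact hf _
      have b4 : ∀ h, f4 (xl D r.length) h ≤ w.length + 1 := by
        intro h
        rw [e4]
        have := hb3 (yl D (r.length + 1)) h
        rwa [hf3, Function.update_self] at this
      have E1 := pds_E (b' := xl D (r.length + 1)) b1 hs1 e2
      have E2 := pds_E (b' := xl D r.length) b4 hs5 e5
      rw [vx_congr (b := xl D (r.length + 1)) (b' := xl D r.length) (f := f1) (f' := f) e1] at E1
      rw [vx_congr (b := xl D r.length) (b' := yl D (r.length + 1)) (f := f4) (f' := f')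
        (e4.trans e3.symm)] at E2
      cases t with
      | none =>
        obtain ⟨h1, h2, h3⟩ := hV
        exact ⟨(pds M w).accR_of_balI _ ((pds M w).balI_ex E1 h1 E2) h2,
          VL_congr r e7 h3⟩
      | some qy =>
        obtain ⟨h1, h2, h3⟩ := hV
        rw [vx_congr (b := yl D r.length) (b' := yl D r.length) (f := f') (f' := f) e6] at h2
        exact ⟨(pds M w).balI_trans ((pds M w).balI_ex E1 h1 E2) h2, VL_congr r e7 h3⟩
    | true =>
      cases t with
      | none =>
        simp only [oEdge, runPrims_cons', sem_bIf] at hr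
        obtain ⟨_, ⟨hF, _⟩, _⟩ := hr
        exact hF.elim
      | some qy =>
        simp only [oEdge, List.length_cons] at hl'
        simp only [oEdge, runPrims_cons', runPrims_nil', sem_bMv, sem_bCopy, sem_bGuess] at hr hV
        obtain ⟨f1, hf1, f2, ⟨hs1, hf2⟩, f3, ⟨⟨v, hf3⟩, hb3⟩, f4, hf4, f5, ⟨hs5, hf5⟩, rfl⟩ := hr
        have n1 : xl D (r.length + 1) ≠ xl D r.length := xl_ne (by omega) (by omega) (by omega)
        have n1' : xl D r.length ≠ xl D (r.length + 1) := Ne.symm n1
        have n2 : yl D r.length ≠ yl D (r.length + 1) := yl_ne (by omega) (by omega) (by omega)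
        have n2' : yl D (r.length + 1) ≠ yl D r.length := Ne.symm n2
        have n3 : ∀ i j, xl D i ≠ yl D j := fun i j => xl_ne_yl
        have n4 : ∀ i j, yl D i ≠ xl D j := fun i j => yl_ne_xl
        have e1 : f1 (xl D r.length) = f (xl D r.length) := by
          rw [hf1, Function.update_of_ne (n3 _ _)]
        have e2 : f' (xl D r.length) =
            fun h => (d1 h).move w.length (f1 (xl D r.length) h) := by
          rw [hf5, Function.update_of_ne n1', hf4, Function.update_of_ne n1', hf3,
            Function.update_of_ne (n3 _ _), hf2, Function.update_self]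
        have e3 : f' (yl D r.length) = v := by
          rw [hf5, Function.update_of_ne (n4 _ _), hf4, Function.update_of_ne (n4 _ _), hf3,
            Function.update_self]
        have e4 : f4 (xl D (r.length + 1)) = v := by
          rw [hf4, Function.update_self, hf3, Function.update_self]
        have e5 : f' (xl D (r.length + 1)) =
            fun h => (d3 h).move w.length (f4 (xl D (r.length + 1)) h) := by
          rw [hf5, Function.update_self]
        have e6 : f' (yl D (r.length + 1)) = f (yl D r.length) := by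
          rw [hf5, Function.update_of_ne (n4 _ _), hf4, Function.update_of_ne (n4 _ _), hf3,
            Function.update_of_ne n2', hf2, Function.update_of_ne (n4 _ _), hf1,
            Function.update_self]
        have e7 : ∀ i, i < r.length → f' (xl D i) = f (xl D i) ∧ f' (yl D i) = f (yl D i) := by
          intro i hi
          have m1 : xl D i ≠ xl D (r.length + 1) := xl_ne (by omega) (by omega) (by omega)
          have m2 : xl D i ≠ xl D r.length := xl_ne (by omega) (by omega) (by omega)
          have m3 : yl D i ≠ yl D (r.length + 1) := yl_ne (by omega) (by omega) (by omega)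
          have m4 : yl D i ≠ yl D r.length := yl_ne (by omega) (by omega) (by omega)
          constructor
          · rw [hf5, Function.update_of_ne m1, hf4, Function.update_of_ne m1, hf3,
              Function.update_of_ne (n3 _ _), hf2, Function.update_of_ne m2, hf1,
              Function.update_of_ne (n3 _ _)]
          · rw [hf5, Function.update_of_ne (n4 _ _), hf4, Function.update_of_ne (n4 _ _), hf3,
              Function.update_of_ne m4, hf2, Function.update_of_ne (n4 _ _), hf1,
              Function.update_of_ne m3]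
        have b1 : ∀ h, f1 (xl D r.length) h ≤ w.length + 1 := by
          rw [e1]; exact hf _
        have b4 : ∀ h, f4 (xl D (r.length + 1)) h ≤ w.length + 1 := by
          intro h
          rw [e4]
          have := hb3 (yl D r.length) h
          rwa [hf3, Function.update_self] at this
        have E1 := pds_E (b' := xl D r.length) b1 hs1 e2
        have E2 := pds_E (b' := xl D (r.length + 1)) b4 hs5 e5
        rw [vx_congr (b := xl D r.length) (b' := xl D r.length) (f := f1) (f' := f) e1] at E1
        rw [vx_congr (b := xl D (r.length + 1)) (b' := yl D r.length) (f := f4) (f' := f')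
          (e4.trans e3.symm)] at E2
        obtain ⟨h1, h2, h3⟩ := hV
        simp only [List.length_cons] at h1 h2
        rw [vx_congr (b := yl D (r.length + 1)) (b' := yl D r.length) (f := f') (f' := f) e6] at h1
        exact ⟨(pds M w).balI_trans ((pds M w).balI_ex E1 h2 E2) h1, VL_congr r e7 h3⟩
  · cases t with
    | none =>
      simp only [oEdge, runPrims_cons', sem_bIf] at hr
      obtain ⟨_, ⟨hF, _⟩, _⟩ := hr
      exact hF.elim
    | some qy =>
      simp only [oEdge, runPrims_cons', runPrims_nil', sem_bIf, sem_bEq] at hr hV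
      obtain ⟨f1, ⟨rfl, rfl⟩, f2, ⟨h1, rfl⟩, rfl⟩ := hr
      refine ⟨?_, hV⟩
      rw [vx_congr (w := w) h1]
      exact (pds M w).balI_refl _ _

end machine

end Pool.Agent.V8H47.MH
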