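import Pool.Agent.V8H47.MH.SM

/-!
# Every multihead pushdown automaton is realised by a schedule machine
-/

namespace Pool.Agent.V8H47.MH

variable {α : Type} {k : ℕ} {Γ : Type}

theorem mirror_top (r t : ℕ) (hr : 0 < r) :
    tup k r (mirror r k t) = tup k r t ∧ dirs k r (mirror r k t) = fun i => !dirs k r t i := by
  constructor
  · funext i; exact (zig_mirror_low hr i.2).1
  · funext i; exact (zig_mirror_low hr i.2).2

theorem mirror_level (r t : ℕ) (hr : 0 < r) (j : Fin k) (hne : (t / r ^ (j : ℕ)) % r ≠ r - 1) :
    ∀ i, tup k r (mirror r j t) i =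
      if i = j then (if dirs k r t j then tup k r t j + 1 else tup k r t j - 1)
      else tup k r t i := by
  intro i
  by_cases h : i = j
  · subst h
    simp only [if_true]
    have e : mirror r i t / r ^ (i : ℕ) = t / r ^ (i : ℕ) + 1 := by
      rw [mirror_div_high hr le_rfl]; simp
    unfold tup
    rw [e]
    cases hd : dirs k r t i with
    | true => simp only [if_true]; exact zig_succ_of_ne_up hr hne hd
    | false => simp only [Bool.false_eq_true, if_false]; exact zig_succ_of_ne_down hr hne hd
  · simp only [h, if_false]
    rcases lt_or_gt_of_ne h with hlt | hgt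
    · exact (zig_mirror_low hr (show (i : ℕ) < j from hlt)).1
    · unfold tup
      rw [mirror_high hr (show (j : ℕ) < i from hgt) hne]

/-- Which direction is wanted, if a head that sees `a` is told to make the move `m`? -/
def want : Dir → Sym α → Option Bool
  | Dir.S, _ => none
  | Dir.L, Sym.left => none
  | Dir.L, _ => some false
  | Dir.R, Sym.right => none
  | Dir.R, _ => some true

/-- states of the schedule machine of a pushdown automaton -/
inductive MS (Q : Type) (k : ℕ)
  | main : Q → MS Q k
  | mv : Q → (Fin k → Dir) → Fin (k + 1) → MS Q k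

instance : Finite Dir := by
  let f : Dir → Fin 3 := fun d => match d with
    | Dir.L => 0
    | Dir.S => 1
    | Dir.R => 2
  refine Finite.of_injective f ?_
  intro a b h
  cases a <;> cases b <;> simp_all [f]

theorem finite_MS (Q : Type) [Finite Q] (k : ℕ) : Finite (MS Q k) := by
  let f : MS Q k → Q ⊕ (Q × (Fin k → Dir) × Fin (k + 1)) := fun c => match c with
    | .main s => Sum.inl s
    | .mv q m j => Sum.inr (q, m, j)
  refine Finite.of_injective f ?_
  intro a b h
  cases a <;> cases b <;> simp_all [f]

/-- transitions in the moving phase -/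
def mvAct (Q : Type) (q : Q) (m : Fin k → Dir) (j : Fin (k + 1)) (a : Fin k → Sym α)
    (d : Fin k → Bool) : MS Q k × Act k Γ :=
  if h : (j : ℕ) < k then
    match want (m ⟨j, h⟩) (a ⟨j, h⟩) with
    | none => (MS.mv q m ⟨j + 1, by omega⟩, Act.mir (Fin.last k))
    | some b => if d ⟨j, h⟩ = b then (MS.mv q m ⟨j + 1, by omega⟩, Act.mir j)
        else (MS.mv q m j, Act.mir (Fin.last k))
  else (MS.main q, Act.mir (Fin.last k))

/-- The transitions of the schedule machine of a pushdown automaton. -/
def PDA.mAct (M : PDA α (Fin k) Γ) (s : MS M.Q k) (a : Fin k → Sym α) (d : Fin k → Bool)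
    (g : Option Γ) : Set (MS M.Q k × Act k Γ) :=
  match s with
    | .main q => {x | ∃ y ∈ M.step q a g, x = (MS.mv y.1 y.2.1 0, Act.op y.2.2)}
    | .mv q m j => {mvAct M.Q q m j a d}

/-- The schedule machine of a pushdown automaton. -/
def PDA.toSM (M : PDA α (Fin k) Γ) : SM α k Γ where
  S := MS M.Q k
  finS := by
    have := M.finQ
    exact finite_MS M.Q k
  init := MS.main M.init
  acc := {s | ∃ q ∈ M.acc, s = MS.main q}
  act := M.mAct

theorem PDA.det_mAct (M : PDA α (Fin k) Γ) (h : M.Det) (s : MS M.Q k) (a : Fin k → Sym α)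
    (d : Fin k → Bool) (g : Option Γ) : (M.mAct s a d g).Subsingleton := by
  cases s with
  | main q =>
    rintro x ⟨y, hy, rfl⟩ x' ⟨y', hy', rfl⟩
    rw [h q a g hy hy']
  | mv q m j => exact Set.subsingleton_singleton

theorem PDA.det_toSM (M : PDA α (Fin k) Γ) (h : M.Det) : M.toSM.Det := M.det_mAct h

/-- Reachability in the schedule machine. -/
def PDA.MReach (M : PDA α (Fin k) Γ) (w : List α) (s : MS M.Q k) (t : ℕ) (σ : List Γ) : Prop :=
  M.toSM.Reach w s t σ

theorem PDA.MReach.mir {M : PDA α (Fin k) Γ} {w : List α} {s s' : MS M.Q k} {t : ℕ} {σ : List Γ}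
    {j : Fin (k + 1)} (h : M.MReach w s t σ)
    (h' : (s', Act.mir j) ∈ M.mAct s (syms w k t) (dirs k (w.length + 2) t) σ.head?) :
    M.MReach w s' (mirror (w.length + 2) j t) σ := SM.Reach.mir h h'

theorem PDA.MReach.op {M : PDA α (Fin k) Γ} {w : List α} {s s' : MS M.Q k} {t : ℕ} {σ : List Γ}
    {o : Op Γ} (h : M.MReach w s t σ)
    (h' : (s', Act.op o) ∈ M.mAct s (syms w k t) (dirs k (w.length + 2) t) σ.head?) :
    M.MReach w s' (mirror (w.length + 2) k t) (o.apply σ) := SM.Reach.op h h'

/-- Invariant of the schedule machine. -/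
def PDA.SInv (M : PDA α (Fin k) Γ) (w : List α) (t : ℕ) (σ : List Γ) : MS M.Q k → Prop
  | .main q => M.Reach w ⟨q, tup k (w.length + 2) t, σ⟩
  | .mv q m j => ∃ p : Fin k → ℕ, M.Reach w ⟨q, fun i => (m i).move w.length (p i), σ⟩ ∧
      ∀ i, tup k (w.length + 2) t i = if (i : ℕ) < j then (m i).move w.length (p i) else p i

theorem want_none (w : List α) {m : Dir} {p : ℕ} (hp : p < w.length + 2)
    (h : want m (symAt w p) = none) : m.move w.length p = p := by
  cases m with
  | S => rfl
  | L =>
    cases hs : symAt w p with
    | left => rw [symAt_eq_left] at hs; subst hs; rfl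
    | letter a => rw [hs] at h; simp [want] at h
    | right => rw [hs] at h; simp [want] at h
  | R =>
    cases hs : symAt w p with
    | left => rw [hs] at h; simp [want] at h
    | letter a => rw [hs] at h; simp [want] at h
    | right =>
      rw [symAt_eq_right] at hs
      simp only [Dir.move]; omega

theorem want_some (w : List α) {m : Dir} {p : ℕ} {b : Bool} (hp : p < w.length + 2)
    (h : want m (symAt w p) = some b) :
    ¬ atEnd b (symAt w p) ∧ m.move w.length p = if b then p + 1 else p - 1 := by
  cases m with
  | S => simp [want] at h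
  | L =>
    cases hs : symAt w p with
    | left => rw [hs] at h; simp [want] at h
    | letter a => rw [hs] at h; simp only [want, Option.some.injEq] at h; subst h; simp [atEnd, Dir.move]
    | right => rw [hs] at h; simp only [want, Option.some.injEq] at h; subst h; simp [atEnd, Dir.move]
  | R =>
    have hr : symAt w p ≠ Sym.right → p < w.length + 1 := by
      intro h1; by_contra h2; exact h1 (symAt_eq_right.2 (by omega))
    cases hs : symAt w p with
    | left =>
      have := hr (by rw [hs]; simp)
      rw [hs] at h; simp only [want, Option.some.injEq] at h; subst h; simp only [atEnd, Dir.move]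
      simp; omega
    | letter a =>
      have := hr (by rw [hs]; simp)
      rw [hs] at h; simp only [want, Option.some.injEq] at h; subst h; simp only [atEnd, Dir.move]
      simp; omega
    | right => rw [hs] at h; simp [want] at h

theorem PDA.reach_step {H : Type} (M : PDA α H Γ) {w : List α} {c c' : PCfg M.Q H Γ} (h : M.Reach w c)
    (hs : M.Step w c c') : M.Reach w c' := by
  obtain ⟨t, ht⟩ := h
  exact ⟨t + 1, c, ht, hs⟩

theorem PDA.sinv_start (M : PDA α (Fin k) Γ) (w : List α) : M.SInv w 0 [] (MS.main M.init) := by
  change M.Reach w _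
  refine ⟨0, ?_⟩
  change _ = M.start
  unfold PDA.start
  congr 1
  funext i; simp [tup, SM.zig_zero]

theorem PDA.sinv_mir (M : PDA α (Fin k) Γ) (w : List α) {s s' : MS M.Q k} {t : ℕ} {σ : List Γ}
    {j : Fin (k + 1)} (ih : M.SInv w t σ s)
    (hact : (s', Act.mir j) ∈ M.mAct s (syms w k t) (dirs k (w.length + 2) t) σ.head?) :
    M.SInv w (mirror (w.length + 2) j t) σ s' := by
  have hr : 0 < w.length + 2 := by omega
  have htop := fun t => mirror_top (k := k) (w.length + 2) t hr
  have hlt : ∀ t (i : Fin k), tup k (w.length + 2) t i < w.length + 2 := fun t i => zig_lt hr _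
  cases s with
  | main q =>
    obtain ⟨y, _, hy⟩ := hact
    simp at hy
  | mv q m i =>
    obtain ⟨p, hR, hp⟩ := ih
    have hact' : (s', Act.mir j) = mvAct M.Q q m i (syms w k t) (dirs k (w.length + 2) t) := hact
    unfold mvAct at hact'
    by_cases h : (i : ℕ) < k
    · simp only [h, dif_pos] at hact'
      have hpi : tup k (w.length + 2) t ⟨i, h⟩ = p ⟨i, h⟩ := by
        rw [hp]; simp
      have hlti := hlt t ⟨i, h⟩
      cases hw : want (m ⟨i, h⟩) (syms w k t ⟨i, h⟩) with
      | none =>
        rw [hw] at hact'
        simp only [Prod.mk.injEq, Act.mir.injEq] at hact'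
        obtain ⟨rfl, rfl⟩ := hact'
        have hmv := want_none w hlti hw
        refine ⟨p, hR, fun l => ?_⟩
        simp only [Fin.val_last]
        rw [(htop t).1, hp]
        by_cases hl : (l : ℕ) < i
        · have : (l : ℕ) < i + 1 := by omega
          simp [hl, this]
        · by_cases hl2 : (l : ℕ) = i
          · have : l = ⟨i, h⟩ := Fin.ext hl2
            subst this
            rw [hpi] at hmv
            simp [hmv]
          · have : ¬ (l : ℕ) < i + 1 := by omega
            simp [hl, this]
      | some b =>
        rw [hw] at hact'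
        have hmv := want_some w hlti hw
        simp only at hact'
        by_cases hb : dirs k (w.length + 2) t ⟨i, h⟩ = b
        · simp only [hb, if_true] at hact'
          simp only [Prod.mk.injEq, Act.mir.injEq] at hact'
          obtain ⟨rfl, rfl⟩ := hact'
          refine ⟨p, hR, fun l => ?_⟩
          have hne : (t / (w.length + 2) ^ (((⟨j, h⟩ : Fin k)) : ℕ)) % (w.length + 2) ≠
              w.length + 2 - 1 := by
            have h1 := (atEnd_syms w k t ⟨j, h⟩).not.1
            rw [hb] at h1
            have h2 := h1 hmv.1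
            simpa using h2
          have hml := mirror_level (k := k) (w.length + 2) t hr ⟨j, h⟩ hne l
          simp only at hml ⊢
          rw [hml]
          by_cases hl2 : l = ⟨j, h⟩
          · subst hl2
            simp only [if_true, hb]
            rw [hpi] at hmv
            rw [hpi]
            have : (j : ℕ) < j + 1 := by omega
            simp only [this, if_true]
            exact hmv.2.symm
          · simp only [hl2, if_false]
            rw [hp]
            have hl3 : (l : ℕ) ≠ j := fun h' => hl2 (Fin.ext h')
            by_cases hl : (l : ℕ) < j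
            · have : (l : ℕ) < j + 1 := by omega
              simp [hl, this]
            · have : ¬ (l : ℕ) < j + 1 := by omega
              simp [hl, this]
        · simp only [hb, if_false] at hact'
          simp only [Prod.mk.injEq, Act.mir.injEq] at hact'
          obtain ⟨rfl, rfl⟩ := hact'
          refine ⟨p, hR, fun l => ?_⟩
          simp only [Fin.val_last]
          rw [(htop t).1, hp]
    · simp only [h, dif_neg, not_false_eq_true] at hact'
      simp only [Prod.mk.injEq, Act.mir.injEq] at hact'
      obtain ⟨rfl, rfl⟩ := hact'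
      change M.Reach w _
      simp only [Fin.val_last]
      rw [(htop t).1]
      have : tup k (w.length + 2) t = fun i => (m i).move w.length (p i) := by
        funext l
        rw [hp]
        have : (l : ℕ) < i := by omega
        simp [this]
      rw [this]; exact hR

theorem PDA.sinv_op (M : PDA α (Fin k) Γ) (w : List α) {s s' : MS M.Q k} {t : ℕ} {σ : List Γ}
    {o : Op Γ} (ih : M.SInv w t σ s)
    (hact : (s', Act.op o) ∈ M.mAct s (syms w k t) (dirs k (w.length + 2) t) σ.head?) :
    M.SInv w (mirror (w.length + 2) k t) (o.apply σ) s' := by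
  have hr : 0 < w.length + 2 := by omega
  have htop := fun t => mirror_top (k := k) (w.length + 2) t hr
  cases s with
  | main q =>
    obtain ⟨y, hy, he⟩ := hact
    simp only [Prod.mk.injEq, Act.op.injEq] at he
    obtain ⟨rfl, rfl⟩ := he
    refine ⟨tup k (w.length + 2) t, ?_, fun l => ?_⟩
    · exact M.reach_step ih ⟨y, hy, rfl⟩
    · rw [(htop t).1]; simp
  | mv q m i =>
    exfalso
    have hact' : (s', Act.op o) = mvAct M.Q q m i (syms w k t) (dirs k (w.length + 2) t) := hact
    unfold mvAct at hact'
    split_ifs at hact' with h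
    · cases hw : want (m ⟨i, h⟩) (syms w k t ⟨i, h⟩) with
      | none => rw [hw] at hact'; simp at hact'
      | some b =>
        rw [hw] at hact'
        simp only at hact'
        split_ifs at hact' <;> simp at hact'
    · simp at hact'

theorem PDA.sinv (M : PDA α (Fin k) Γ) (w : List α) {s : M.toSM.S} {t : ℕ} {σ : List Γ}
    (h : M.toSM.Reach w s t σ) : M.SInv w t σ s := by
  induction h with
  | start => exact M.sinv_start w
  | mir _ hact ih => exact M.sinv_mir w ih hact
  | op _ hact ih => exact M.sinv_op w ih hact

/-- the moving phase can be carried out -/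
theorem PDA.run_mv (M : PDA α (Fin k) Γ) (w : List α) (q : M.Q) (m : Fin k → Dir) (p : Fin k → ℕ)
    (σ : List Γ) (i : ℕ) (hi : i ≤ k) {t : ℕ}
    (h : M.MReach w (MS.mv q m ⟨i, by omega⟩) t σ)
    (hp : ∀ l : Fin k, tup k (w.length + 2) t l = if (l : ℕ) < i then (m l).move w.length (p l) else p l) :
    ∃ t', M.MReach w (MS.main q) t' σ ∧
      tup k (w.length + 2) t' = fun l => (m l).move w.length (p l) := by
  have hr : 0 < w.length + 2 := by omega
  have htop := fun t => mirror_top (k := k) (w.length + 2) t hr
  have hlt : ∀ t (i : Fin k), tup k (w.length + 2) t i < w.length + 2 := fun t i => zig_lt hr _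
  obtain ⟨e, he⟩ := Nat.exists_eq_add_of_le hi
  induction e generalizing i t with
  | zero =>
    have hik : ¬ (i < k) := by omega
    have := PDA.MReach.mir (j := Fin.last k) (s' := MS.main q) h (by
      change _ = mvAct M.Q q m _ _ _
      unfold mvAct
      simp [hik])
    refine ⟨_, this, ?_⟩
    simp only [Fin.val_last]
    rw [(htop t).1]
    funext l
    rw [hp]
    have : (l : ℕ) < i := by omega
    simp [this]
  | succ e ih =>
    have hik : i < k := by omega
    have hpi : tup k (w.length + 2) t ⟨i, hik⟩ = p ⟨i, hik⟩ := by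
      rw [hp]; simp
    have hlti := hlt t ⟨i, hik⟩
    cases hw : want (m ⟨i, hik⟩) (syms w k t ⟨i, hik⟩) with
    | none =>
      have hmv := want_none w hlti hw
      have := PDA.MReach.mir (j := Fin.last k) (s' := MS.mv q m ⟨i + 1, by omega⟩) h (by
        change _ = mvAct M.Q q m _ _ _
        unfold mvAct
        simp [hik, hw])
      refine ih (i + 1) (by omega) this (fun l => ?_) (by omega)
      simp only [Fin.val_last]
      rw [(htop t).1, hp]
      by_cases hl : (l : ℕ) < i
      · have : (l : ℕ) < i + 1 := by omega
        simp [hl, this]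
      · by_cases hl2 : (l : ℕ) = i
        · have : l = ⟨i, hik⟩ := Fin.ext hl2
          subst this
          rw [hpi] at hmv
          simp [hmv]
        · have : ¬ (l : ℕ) < i + 1 := by omega
          simp [hl, this]
    | some b =>
      have hmv := want_some w hlti hw
      -- once the direction is right
      have key : ∀ t₁, M.MReach w (MS.mv q m ⟨i, by omega⟩) t₁ σ →
          tup k (w.length + 2) t₁ = tup k (w.length + 2) t →
          dirs k (w.length + 2) t₁ ⟨i, hik⟩ = b →
          ∃ t', M.MReach w (MS.main q) t' σ ∧
            tup k (w.length + 2) t' = fun l => (m l).move w.length (p l) := by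
        intro t₁ h₁ ht₁ hb
        have hsy : syms w k t₁ = syms w k t := by
          funext l; unfold syms; rw [ht₁]
        have := PDA.MReach.mir (j := ⟨i, by omega⟩) (s' := MS.mv q m ⟨i + 1, by omega⟩) h₁ (by
          change _ = mvAct M.Q q m _ _ _
          unfold mvAct
          simp [hik, hsy, hw, hb])
        have hne : (t₁ / (w.length + 2) ^ (((⟨i, hik⟩ : Fin k)) : ℕ)) % (w.length + 2) ≠
            w.length + 2 - 1 := by
          have h1 := (atEnd_syms w k t₁ ⟨i, hik⟩).not.1
          rw [hb, hsy] at h1
          have h2 := h1 hmv.1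
          simpa using h2
        refine ih (i + 1) (by omega) this (fun l => ?_) (by omega)
        have hml := mirror_level (k := k) (w.length + 2) t₁ hr ⟨i, hik⟩ hne l
        simp only at hml ⊢
        rw [hml]
        by_cases hl2 : l = ⟨i, hik⟩
        · subst hl2
          simp only [if_true, hb, ht₁]
          rw [hpi] at hmv
          rw [hpi]
          have : (i : ℕ) < i + 1 := by omega
          simp only [this, if_true]
          exact hmv.2.symm
        · simp only [hl2, if_false]
          rw [ht₁, hp]
          have hl3 : (l : ℕ) ≠ i := fun h' => hl2 (Fin.ext h')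
          by_cases hl : (l : ℕ) < i
          · have : (l : ℕ) < i + 1 := by omega
            simp [hl, this]
          · have : ¬ (l : ℕ) < i + 1 := by omega
            simp [hl, this]
      by_cases hb : dirs k (w.length + 2) t ⟨i, hik⟩ = b
      · exact key t h rfl hb
      · have := PDA.MReach.mir (j := Fin.last k) (s' := MS.mv q m ⟨i, by omega⟩) h (by
          change _ = mvAct M.Q q m _ _ _
          unfold mvAct
          simp [hik, hw, hb])
        refine key _ this ?_ ?_
        · simp only [Fin.val_last]; exact (htop t).1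
        · simp only [Fin.val_last]
          rw [(htop t).2]
          cases h1 : dirs k (w.length + 2) t ⟨i, hik⟩ <;> cases b <;> simp_all

theorem PDA.reach_toSM (M : PDA α (Fin k) Γ) (w : List α) (n : ℕ) (c : PCfg M.Q (Fin k) Γ)
    (h : M.ReachIn w n c) :
    ∃ t, M.MReach w (MS.main c.q) t c.st ∧ tup k (w.length + 2) t = c.pos := by
  have hr : 0 < w.length + 2 := by omega
  induction n generalizing c with
  | zero =>
    have : c = M.start := h
    subst this
    refine ⟨0, SM.Reach.start, ?_⟩
    funext i; simp [tup, SM.zig_zero, PDA.start]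
  | succ n ih =>
    obtain ⟨c', h', y, hy, rfl⟩ := h
    obtain ⟨t, hR, ht⟩ := ih c' h'
    have hsy : syms w k t = fun h => symAt w (c'.pos h) := by
      funext l; unfold syms; rw [ht]
    have := PDA.MReach.op (o := y.2.2) (s' := MS.mv y.1 y.2.1 0) hR (by
      change _ ∈ {x | ∃ y ∈ M.step c'.q (syms w k t) c'.st.head?, x = (MS.mv y.1 y.2.1 0, Act.op y.2.2)}
      rw [hsy]
      exact ⟨y, hy, rfl⟩)
    obtain ⟨t', h1, h2⟩ := M.run_mv w y.1 y.2.1 c'.pos (y.2.2.apply c'.st) 0 (by omega) this (by
      intro l
      rw [(mirror_top (k := k) (w.length + 2) t hr).1, ht]; simp)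
    exact ⟨t', h1, h2⟩

theorem PDA.lang_toSM (M : PDA α (Fin k) Γ) : M.toSM.lang = M.lang := by
  ext w
  constructor
  · rintro ⟨s, t, σ, hR, q, hq, rfl⟩
    exact ⟨_, M.sinv w hR, hq⟩
  · rintro ⟨c, ⟨n, hn⟩, hq⟩
    obtain ⟨t, h1, -⟩ := M.reach_toSM w n c hn
    exact ⟨_, t, _, h1, c.q, hq, rfl⟩

/-- **Oblivious heads.** Every `k`-head pushdown automaton can be replaced by one whose heads move
according to the universal schedule. -/
theorem PDA.oblivious (M : PDA α (Fin k) Γ) :
    ∃ M' : PDA α (Fin k) (Option Γ), (M.Det → M'.Det) ∧ M'.lang = M.lang ∧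
      ∀ (w : List α) (t : ℕ) (c : PCfg M'.Q (Fin k) (Option Γ)), M'.ReachIn w t c →
        ∀ i : Fin k, c.pos i = zig (w.length + 2) (t / (w.length + 2) ^ (i : ℕ)) :=
  ⟨M.toSM.toPDA, fun h => M.toSM.det_toPDA (M.det_toSM h), by rw [SM.lang_toPDA, PDA.lang_toSM],
    fun w t c h i => M.toSM.sched_toPDA w t c h i⟩

end Pool.Agent.V8H47.MH
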