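import Pool.Agent.V8H47.MH.Counter

/-!
# Virtual tapes

A finite automaton that works on a word `f w` is simulated by one that works on `w`.
-/

namespace Pool.Agent.V8H47.MH

open Relation

/-- A virtual tape: every position of the tape with the word `f w` is represented by some control
data and the positions of some heads on the tape with the word `w`. -/
structure VT (α β C : Type) (f : List α → List β) where
  D : Type
  finD : Finite D
  d0 : D
  sym : D → (C → Sym α) → Sym β
  mv : D → (C → Sym α) → Dir → D × (C → Dir)
  rep : List α → ℕ → D × (C → ℕ)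
  rep_zero : ∀ w, rep w 0 = (d0, fun _ => 0)
  rep_sym : ∀ w p, p ≤ (f w).length + 1 →
    sym (rep w p).1 (fun c => symAt w ((rep w p).2 c)) = symAt (f w) p
  rep_mv : ∀ w p d, p ≤ (f w).length + 1 →
    rep w (d.move (f w).length p) =
      ((mv (rep w p).1 (fun c => symAt w ((rep w p).2 c)) d).1,
       fun c => ((mv (rep w p).1 (fun c => symAt w ((rep w p).2 c)) d).2 c).move w.length
        ((rep w p).2 c))

section pull

variable {α β C H : Type} {f : List α → List β} [Finite H]

/-- The automaton on `w` which simulates an automaton on `f w`. -/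
def FA.pull (V : VT α β C f) (M : FA β H) : FA α (H × C) where
  Q := M.Q × (H → V.D)
  finQ := by have := M.finQ; have := V.finD; infer_instance
  init := (M.init, fun _ => V.d0)
  acc := {q | q.1 ∈ M.acc}
  step q a := {x | ∃ t ∈ M.step q.1 (fun h => V.sym (q.2 h) (fun c => a (h, c))),
    x = ((t.1, fun h => (V.mv (q.2 h) (fun c => a (h, c)) (t.2 h)).1),
      fun z => (V.mv (q.2 z.1) (fun c => a (z.1, c)) (t.2 z.1)).2 z.2)}

theorem FA.det_pull (V : VT α β C f) (M : FA β H) (h : M.Det) : (M.pull V).Det := by
  rintro q a x ⟨t, ht, rfl⟩ x' ⟨t', ht', rfl⟩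
  rw [h _ _ ht ht']

theorem move_le {n p : ℕ} (d : Dir) (hp : p ≤ n + 1) : d.move n p ≤ n + 1 := by
  cases d <;> simp only [Dir.move] <;> omega

/-- representation of configurations -/
def FA.pullCfg (V : VT α β C f) (M : FA β H) (w : List α) (x : FCfg M.Q H) :
    FCfg (M.pull V).Q (H × C) :=
  ⟨(x.q, fun h => (V.rep w (x.pos h)).1), fun z => (V.rep w (x.pos z.1)).2 z.2⟩

theorem FA.step_pull (V : VT α β C f) (M : FA β H) (w : List α) (x : FCfg M.Q H)
    (hx : ∀ h, x.pos h ≤ (f w).length + 1) (y : FCfg (M.pull V).Q (H × C)) :
    (M.pull V).Step w (M.pullCfg V w x) y ↔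
      ∃ x', M.Step (f w) x x' ∧ y = M.pullCfg V w x' := by
  have e1 : (fun h => V.sym ((M.pullCfg V w x).q.2 h)
      (fun c => symAt w ((M.pullCfg V w x).pos (h, c)))) = fun h => symAt (f w) (x.pos h) := by
    funext h
    exact V.rep_sym w (x.pos h) (hx h)
  have key : ∀ t : M.Q × (H → Dir),
      (⟨(t.1, fun h => (V.mv ((M.pullCfg V w x).q.2 h)
          (fun c => symAt w ((M.pullCfg V w x).pos (h, c))) (t.2 h)).1),
        fun z => ((V.mv ((M.pullCfg V w x).q.2 z.1)
          (fun c => symAt w ((M.pullCfg V w x).pos (z.1, c))) (t.2 z.1)).2 z.2).move w.length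
          ((M.pullCfg V w x).pos z)⟩ : FCfg (M.pull V).Q (H × C)) =
      M.pullCfg V w ⟨t.1, fun h => (t.2 h).move (f w).length (x.pos h)⟩ := by
    intro t
    unfold FA.pullCfg
    simp only [FCfg.mk.injEq]
    constructor
    · refine congrArg (Prod.mk t.1) ?_
      funext h
      rw [V.rep_mv w (x.pos h) (t.2 h) (hx h)]
    · funext z
      rw [V.rep_mv w (x.pos z.1) (t.2 z.1) (hx z.1)]
  constructor
  · rintro ⟨u, ⟨t, ht, rfl⟩, rfl⟩
    have ht' : t ∈ M.step x.q (fun h => symAt (f w) (x.pos h)) := by
      rw [← e1]; exact ht
    exact ⟨_, ⟨t, ht', rfl⟩, key t⟩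
  · rintro ⟨x', ⟨t, ht, rfl⟩, rfl⟩
    refine ⟨_, ⟨t, ?_, rfl⟩, (key t).symm⟩
    rw [← e1] at ht
    exact ht

theorem FA.lang_pull (V : VT α β C f) (M : FA β H) (w : List α) :
    w ∈ (M.pull V).lang ↔ f w ∈ M.lang := by
  have hs : (M.pull V).start = M.pullCfg V w M.start := by
    unfold FA.pullCfg FA.start
    simp only [V.rep_zero]
    rfl
  rw [FA.mem_lang, FA.mem_lang]
  constructor
  · rintro ⟨y, hy, hacc⟩
    obtain ⟨x, hx, hP⟩ := simulate (s := M.Step (f w))
      (fun (y : FCfg (M.pull V).Q (H × C)) (x : FCfg M.Q H) =>
        y = M.pullCfg V w x ∧ ∀ h, x.pos h ≤ (f w).length + 1)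
      (by
        rintro y x y' ⟨rfl, hx⟩ hst
        obtain ⟨x', h1, h2⟩ := (M.step_pull V w x hx y').1 hst
        refine ⟨x', h1, h2, ?_⟩
        obtain ⟨t, _, rfl⟩ := h1
        exact fun h => move_le _ (hx h))
      (b0 := M.start) ⟨hs, fun _ => Nat.zero_le _⟩ hy
    refine ⟨x, hx, ?_⟩
    rw [hP.1] at hacc
    exact hacc
  · rintro ⟨x, hx, hacc⟩
    obtain ⟨y, hy, hP⟩ := simulate (s := (M.pull V).Step w)
      (fun (x : FCfg M.Q H) (y : FCfg (M.pull V).Q (H × C)) =>
        y = M.pullCfg V w x ∧ ∀ h, x.pos h ≤ (f w).length + 1)
      (by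
        rintro x y x' ⟨rfl, hx⟩ hst
        refine ⟨_, (M.step_pull V w x hx _).2 ⟨x', hst, rfl⟩, rfl, ?_⟩
        obtain ⟨t, _, rfl⟩ := hst
        exact fun h => move_le _ (hx h))
      (b0 := (M.pull V).start) ⟨hs, fun _ => Nat.zero_le _⟩ hx
    refine ⟨y, hy, ?_⟩
    rw [hP.1]
    exact hacc

end pull

/-! ### The tape of all tuples of positions -/

section tuples

variable {α : Type}

/-- the word of all tuples of symbols, in the order of the schedule -/
def tupTape (k : ℕ) (w : List α) : List (Fin k → Sym α) :=
  (List.range ((w.length + 2) ^ k)).map (fun t => syms w k t)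

theorem length_tupTape (k : ℕ) (w : List α) : (tupTape k w).length = (w.length + 2) ^ k := by
  simp [tupTape]

theorem symAt_tupTape (k : ℕ) (w : List α) (t : ℕ) (ht : t < (w.length + 2) ^ k) :
    symAt (tupTape k w) (t + 1) = Sym.letter (syms w k t) := by
  unfold symAt tupTape
  simp [ht]

open Classical in
/-- the movement on the tape of tuples -/
noncomputable def tupMv (k : ℕ) : Option Bool × (Fin k → Bool) → (Fin k → Sym α) → Dir →
    (Option Bool × (Fin k → Bool)) × (Fin k → Dir)
  | (none, D), a, Dir.R => if (∀ i, atEnd (D i) (a i)) then ((some true, D), fun _ => Dir.S)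
      else ((none, CM.newDir Dir.R D a), CM.newMove Dir.R D a)
  | (none, D), a, Dir.L => if (∀ i, a i = Sym.left) then ((some false, D), fun _ => Dir.S)
      else ((none, CM.newDir Dir.L D a), CM.newMove Dir.L D a)
  | (some false, D), _, Dir.R => ((none, D), fun _ => Dir.S)
  | (some true, D), _, Dir.L => ((none, D), fun _ => Dir.S)
  | x, _, _ => (x, fun _ => Dir.S)

/-- the control data and the head positions for a position of the tape of tuples -/
noncomputable def tupRep (k : ℕ) (w : List α) (p : ℕ) :
    (Option Bool × (Fin k → Bool)) × (Fin k → ℕ) :=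
  if p = 0 then ((some false, dirs k (w.length + 2) 0), tup k (w.length + 2) 0)
  else if p ≤ (w.length + 2) ^ k then
    ((none, dirs k (w.length + 2) (p - 1)), tup k (w.length + 2) (p - 1))
  else ((some true, dirs k (w.length + 2) ((w.length + 2) ^ k - 1)),
    tup k (w.length + 2) ((w.length + 2) ^ k - 1))

theorem tupRep_in (k : ℕ) (w : List α) (t : ℕ) (ht : t < (w.length + 2) ^ k) :
    tupRep k w (t + 1) = ((none, dirs k (w.length + 2) t), tup k (w.length + 2) t) := by
  unfold tupRep
  rw [if_neg (by omega), if_pos (by omega)]
  simp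

theorem tupRep_end (k : ℕ) (w : List α) :
    tupRep k w ((w.length + 2) ^ k + 1) =
      ((some true, dirs k (w.length + 2) ((w.length + 2) ^ k - 1)),
        tup k (w.length + 2) ((w.length + 2) ^ k - 1)) := by
  unfold tupRep
  rw [if_neg (by omega), if_neg (by omega)]

/-- The tape of tuples as a virtual tape with `k` heads. -/
noncomputable def tupVT (k : ℕ) : VT α (Fin k → Sym α) (Fin k) (tupTape k) where
  D := Option Bool × (Fin k → Bool)
  finD := inferInstance
  d0 := (some false, fun _ => true)
  sym d a := match d.1 with
    | none => Sym.letter a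
    | some false => Sym.left
    | some true => Sym.right
  mv := tupMv k
  rep := tupRep k
  rep_zero w := by
    unfold tupRep
    rw [if_pos rfl, dirs_zero]
    refine Prod.ext rfl ?_
    funext i
    exact tup_zero _ _ _
  rep_sym w p hp := by
    rw [length_tupTape] at hp
    cases p with
    | zero =>
      unfold tupRep
      simp [symAt]
    | succ t =>
      rcases Nat.lt_or_ge t ((w.length + 2) ^ k) with h | h
      · rw [tupRep_in k w t h, symAt_tupTape k w t h]
        rfl
      · have : t = (w.length + 2) ^ k := by omega
        subst this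
        rw [tupRep_end]
        simp only
        symm
        rw [symAt_eq_right, length_tupTape]
  rep_mv w p d hp := by
    rw [length_tupTape] at hp ⊢
    have hR : 0 < (w.length + 2) ^ k := Nat.pow_pos (by omega)
    cases p with
    | zero =>
      have h0 : tupRep k w 0 = ((some false, dirs k (w.length + 2) 0), tup k (w.length + 2) 0) := by
        unfold tupRep; simp
      cases d with
      | L => simp only [Dir.move, h0, tupMv, Nat.zero_sub]
      | S => simp only [Dir.move, h0, tupMv]
      | R =>
        have e1 : Dir.R.move ((w.length + 2) ^ k) 0 = 0 + 1 := by simp [Dir.move]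
        rw [e1, tupRep_in k w 0 hR, h0]
        simp only [tupMv, Dir.move]
    | succ t =>
      rcases Nat.lt_or_ge t ((w.length + 2) ^ k) with h | h
      · have e0 := tupRep_in k w t h
        cases d with
        | S => simp only [Dir.move, e0, tupMv]
        | R =>
          have hend := atEnd_all_iff w k t h
          rw [e0]
          simp only [tupMv]
          by_cases hl : t + 1 = (w.length + 2) ^ k
          · have e1 : Dir.R.move ((w.length + 2) ^ k) (t + 1) = (w.length + 2) ^ k + 1 := by
              simp only [Dir.move]; omega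
            have h3 := hend.2 hl
            unfold syms at h3
            rw [e1, tupRep_end, if_pos h3, ← hl]
            simp [Dir.move]
          · have e1 : Dir.R.move ((w.length + 2) ^ k) (t + 1) = t + 1 + 1 := by
              simp only [Dir.move]; omega
            have h3 := hend.not.2 hl
            unfold syms at h3
            rw [e1, tupRep_in k w (t + 1) (by omega), if_neg h3]
            have h1 := CM.newDir_spec w k t Dir.R h (fun _ => by omega)
            have h2 := CM.newMove_spec w k t Dir.R h (fun _ => by omega)
            simp only [Dir.cmove] at h1 h2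
            unfold syms at h1 h2
            rw [h1]
            refine Prod.ext rfl ?_
            funext i
            exact (h2 i).symm
        | L =>
          have hzero := zero_iff w k t h
          rw [e0]
          simp only [tupMv]
          by_cases hl : t = 0
          · subst hl
            have e1 : Dir.L.move ((w.length + 2) ^ k) (0 + 1) = 0 := by simp [Dir.move]
            have h3 := hzero.2 rfl
            unfold syms at h3
            rw [e1, if_pos h3]
            unfold tupRep
            simp [Dir.move]
          · obtain ⟨s, rfl⟩ := Nat.exists_eq_succ_of_ne_zero hl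
            have e1 : Dir.L.move ((w.length + 2) ^ k) (s.succ + 1) = s + 1 := by
              simp [Dir.move]
            have h3 := hzero.not.2 hl
            unfold syms at h3
            rw [e1, tupRep_in k w s (by omega), if_neg h3]
            have h1 := CM.newDir_spec w k s.succ Dir.L h (by simp)
            have h2 := CM.newMove_spec w k s.succ Dir.L h (by simp)
            simp only [Dir.cmove, Nat.succ_eq_add_one, Nat.add_sub_cancel] at h1 h2
            unfold syms at h1 h2
            simp only [Nat.succ_eq_add_one]
            rw [h1]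
            refine Prod.ext rfl ?_
            funext i
            exact (h2 i).symm
      · have : t = (w.length + 2) ^ k := by omega
        subst this
        have e0 := tupRep_end k w
        cases d with
        | S => simp only [Dir.move, e0, tupMv]
        | R =>
          have e1 : Dir.R.move ((w.length + 2) ^ k) ((w.length + 2) ^ k + 1)
              = (w.length + 2) ^ k + 1 := by simp only [Dir.move]; omega
          rw [e1, e0]
          simp only [tupMv, Dir.move]
        | L =>
          have e1 : Dir.L.move ((w.length + 2) ^ k) ((w.length + 2) ^ k + 1)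
              = ((w.length + 2) ^ k - 1) + 1 := by simp only [Dir.move]; omega
          rw [e1, tupRep_in k w _ (by omega), e0]
          simp only [tupMv, Dir.move]

end tuples

end Pool.Agent.V8H47.MH
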