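import Pool.Agent.V8H47.MH.Obliv
import Pool.Agent.V8H47.MH.VTape

/-!
# Scheduled automata with `k` heads as automata with one head on the tape of tuples
-/

namespace Pool.Agent.V8H47.MH

open Relation

theorem div_reflect {p N T T' : ℕ} (hp : 0 < p) (h : T + T' + 1 = p * N) :
    T / p + T' / p + 1 = N := by
  have h1 := Nat.div_add_mod T p
  have h2 := Nat.div_add_mod T' p
  have h3 := Nat.mod_lt T hp
  have h4 := Nat.mod_lt T' hp
  set a := T / p
  set b := T % p
  set a' := T' / p
  set b' := T' % p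
  have h5 : p * (a + a') + (b + b' + 1) = p * N := by
    rw [← h, ← h1, ← h2]; ring
  have h6 : b + b' + 1 = p := by
    have hdvd : p ∣ b + b' + 1 := by
      have : p ∣ p * (a + a') + (b + b' + 1) := by rw [h5]; exact dvd_mul_right _ _
      exact (Nat.dvd_add_right (dvd_mul_right _ _)).1 this
    obtain ⟨c, hc⟩ := hdvd
    have : c < 2 := by
      by_contra hcc
      push Not at hcc
      have : p * 2 ≤ p * c := Nat.mul_le_mul_left _ hcc
      omega
    have : c ≠ 0 := by rintro rfl; simp at hc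
    have : c = 1 := by omega
    rw [hc, this, mul_one]
  have : p * (a + a' + 1) = p * N := by rw [← h5, h6]; ring
  exact Nat.eq_of_mul_eq_mul_left hp this

theorem zig_add {r m x : ℕ} (hr : 0 < r) : zig r (r * (2 * m) + x) = zig r x := by
  unfold zig
  rw [Nat.mul_add_div hr, Nat.mul_add_mod, Nat.mul_add_mod]

/-- the tuple at time `T` only depends on the place reached by the sweep of the tape of tuples -/
theorem tup_zig {k r T : ℕ} (hr : 0 < r) (i : Fin k) :
    tup k r (zig (r ^ k) T) i = tup k r T i := by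
  have hR : 0 < r ^ k := Nat.pow_pos hr
  have hi : 0 < r ^ (i : ℕ) := Nat.pow_pos hr
  obtain ⟨d, hd⟩ := Nat.exists_eq_add_of_lt i.2
  have hRr : r ^ k = r ^ (i : ℕ) * (r * r ^ d) := by
    have : r ^ k = r ^ ((i : ℕ) + d + 1) := congrArg (fun x => r ^ x) hd
    rw [this, pow_succ, pow_add]; ring
  have h1 := Nat.div_add_mod T (r ^ k)
  have h2 := Nat.mod_lt T hR
  unfold tup
  rcases Nat.mod_two_eq_zero_or_one (T / r ^ k) with h | h
  · have e1 : zig (r ^ k) T = T % r ^ k := by unfold zig; simp [h]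
    rw [e1]
    obtain ⟨m, hm⟩ : ∃ m, T / r ^ k = 2 * m := ⟨T / r ^ k / 2, by omega⟩
    have e2 : T = r ^ (i : ℕ) * (r * (2 * (r ^ d * m))) + T % r ^ k := by
      have e3 : r ^ k * (T / r ^ k) = r ^ (i : ℕ) * (r * (2 * (r ^ d * m))) := by
        rw [hm, hRr]; ring
      rw [← e3, h1]
    conv_rhs => rw [e2]
    rw [Nat.mul_add_div hi, zig_add hr]
  · have e1 : zig (r ^ k) T = r ^ k - 1 - T % r ^ k := by unfold zig; simp [h]
    obtain ⟨m, hm⟩ : ∃ m, T / r ^ k + 1 = 2 * m := ⟨(T / r ^ k + 1) / 2, by omega⟩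
    have e2 : zig (r ^ k) T + T + 1 = r ^ (i : ℕ) * (r * (2 * (r ^ d * m))) := by
      have e3 : zig (r ^ k) T + T + 1 = r ^ k * (T / r ^ k + 1) := by
        rw [e1, Nat.mul_add, mul_one]
        omega
      rw [e3, hm, hRr]; ring
    exact (zig_reflect hr (div_reflect hi e2)).1

theorem syms_zig {α : Type} (w : List α) (k T : ℕ) :
    syms w k (zig ((w.length + 2) ^ k) T) = syms w k T := by
  funext i
  unfold syms
  rw [tup_zig (by omega)]

/-- the direction of the sweeping head -/
def sweepDir (b : Bool) : Dir := if b = true then Dir.R else Dir.L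

/-- The automaton with one head on the tape of tuples. -/
def PDA.oneHead {α Γ : Type} {k : ℕ} (M : PDA α (Fin k) Γ) :
    PDA (Fin k → Sym α) (Fin 1) Γ where
  Q := M.Q × Bool
  finQ := by have := M.finQ; infer_instance
  init := (M.init, false)
  acc := {q | q.1 ∈ M.acc}
  step q a g := match a 0 with
    | Sym.letter b => {x | ∃ t ∈ M.step q.1 b g, x = ((t.1, q.2), fun _ => sweepDir q.2, t.2.2)}
    | _ => {((q.1, !q.2), fun _ => sweepDir (!q.2), Op.keep)}

section oneHead

variable {α Γ : Type} {k : ℕ} (M : PDA α (Fin k) Γ)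

theorem PDA.det_oneHead (h : M.Det) : M.oneHead.Det := by
  intro q a g x hx y hy
  simp only [PDA.oneHead] at hx hy
  cases ha : a 0 with
  | left => rw [ha] at hx hy; rw [hx, hy]
  | right => rw [ha] at hx hy; rw [hx, hy]
  | letter b =>
    rw [ha] at hx hy
    obtain ⟨t, ht, rfl⟩ := hx
    obtain ⟨t', ht', rfl⟩ := hy
    rw [h _ _ _ ht ht']

/-- configurations inside the tape -/
def cfgA (w : List α) (T : ℕ) (c : PCfg M.Q (Fin k) Γ) : PCfg M.oneHead.Q (Fin 1) Γ :=
  ⟨(c.q, zdir ((w.length + 2) ^ k) T), fun _ => zig ((w.length + 2) ^ k) T + 1, c.st⟩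

/-- configurations at the ends of the tape -/
def cfgB (w : List α) (T : ℕ) (c : PCfg M.Q (Fin k) Γ) : PCfg M.oneHead.Q (Fin 1) Γ :=
  ⟨(c.q, !zdir ((w.length + 2) ^ k) T),
    fun _ => if zdir ((w.length + 2) ^ k) T = true then 0 else (w.length + 2) ^ k + 1, c.st⟩

theorem step_cfgB (w : List α) (T : ℕ) (hT : T % (w.length + 2) ^ k = 0)
    (c : PCfg M.Q (Fin k) Γ) (x : PCfg M.oneHead.Q (Fin 1) Γ) :
    M.oneHead.Step (tupTape k w) (cfgB M w T c) x ↔ x = cfgA M w T c := by
  have hR : 0 < (w.length + 2) ^ k := Nat.pow_pos (by omega)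
  have key : M.oneHead.step (cfgB M w T c).q
      (fun h => symAt (tupTape k w) ((cfgB M w T c).pos h)) (cfgB M w T c).st.head? =
      {((c.q, zdir ((w.length + 2) ^ k) T), fun _ => sweepDir (zdir ((w.length + 2) ^ k) T),
        Op.keep)} := by
    simp only [PDA.oneHead, cfgB]
    cases hz : zdir ((w.length + 2) ^ k) T with
    | true =>
      simp only [if_true, symAt, Bool.not_true, Bool.not_false]
      rfl
    | false =>
      have : symAt (tupTape k w) ((w.length + 2) ^ k + 1) = Sym.right := by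
        rw [symAt_eq_right, length_tupTape]
      simp only [this, Bool.false_eq_true, if_false, Bool.not_false, Bool.not_true]
      rfl
  have key2 : (⟨(c.q, zdir ((w.length + 2) ^ k) T),
      fun h => (sweepDir (zdir ((w.length + 2) ^ k) T)).move (tupTape k w).length
        ((cfgB M w T c).pos h), c.st⟩ : PCfg M.oneHead.Q (Fin 1) Γ) = cfgA M w T c := by
    simp only [cfgA, cfgB, length_tupTape, PCfg.mk.injEq, true_and, and_true]
    funext h
    unfold zig zdir
    rcases Nat.mod_two_eq_zero_or_one (T / (w.length + 2) ^ k) with h8 | h8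
    · simp [h8, hT, sweepDir, Dir.move]
    · simp [h8, hT, sweepDir, Dir.move]
      omega
  constructor
  · rintro ⟨t, ht, rfl⟩
    rw [key] at ht
    rw [Set.mem_singleton_iff.1 ht]
    exact key2
  · rintro rfl
    exact ⟨_, by rw [key]; rfl, key2.symm⟩

/-- the next configuration of the one-head automaton -/
noncomputable def nextCfg (w : List α) (T : ℕ) (c : PCfg M.Q (Fin k) Γ) :
    PCfg M.oneHead.Q (Fin 1) Γ :=
  if T % (w.length + 2) ^ k = 0 then cfgB M w T c else cfgA M w T c

theorem step_cfgA (w : List α) (T : ℕ)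
    (c : PCfg M.Q (Fin k) Γ) (hpos : c.pos = tup k (w.length + 2) T)
    (x : PCfg M.oneHead.Q (Fin 1) Γ) :
    M.oneHead.Step (tupTape k w) (cfgA M w T c) x ↔
      ∃ c', M.Step w c c' ∧ x = nextCfg M w (T + 1) c' := by
  have hR : 0 < (w.length + 2) ^ k := Nat.pow_pos (by omega)
  have hlt := zig_lt hR T
  have hsym : symAt (tupTape k w) (zig ((w.length + 2) ^ k) T + 1) =
      Sym.letter (fun h => symAt w (c.pos h)) := by
    rw [symAt_tupTape k w _ hlt, syms_zig, hpos]
    rfl
  have key : M.oneHead.step (cfgA M w T c).q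
      (fun h => symAt (tupTape k w) ((cfgA M w T c).pos h)) (cfgA M w T c).st.head? =
      {x | ∃ t ∈ M.step c.q (fun h => symAt w (c.pos h)) c.st.head?,
        x = ((t.1, zdir ((w.length + 2) ^ k) T),
          fun _ => sweepDir (zdir ((w.length + 2) ^ k) T), t.2.2)} := by
    simp only [PDA.oneHead, cfgA, hsym]
  have key2 : ∀ (q : M.Q) (pos : Fin k → ℕ) (st : List Γ),
      (⟨(q, zdir ((w.length + 2) ^ k) T),
      fun h => (sweepDir (zdir ((w.length + 2) ^ k) T)).move (tupTape k w).length
        ((cfgA M w T c).pos h), st⟩ : PCfg M.oneHead.Q (Fin 1) Γ) =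
        nextCfg M w (T + 1) ⟨q, pos, st⟩ := by
    intro q pos st
    unfold nextCfg
    by_cases he : T % (w.length + 2) ^ k = (w.length + 2) ^ k - 1
    · have h1 := succ_mod_of_eq hR he
      have h2 := zig_succ_of_eq hR he
      have h3 := (atEnd_iff hR).1 he
      rw [if_pos h1]
      simp only [cfgA, cfgB, length_tupTape, PCfg.mk.injEq, and_true, h2.2, Bool.not_not,
        true_and]
      funext h
      rcases h3 with ⟨h4, h5⟩ | ⟨h4, h5⟩
      · simp only [h4, h5, sweepDir, if_true, Dir.move, Bool.not_true, Bool.false_eq_true, if_false]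
        omega
      · simp [h4, h5, sweepDir, Dir.move]
    · have h1 : (T + 1) % (w.length + 2) ^ k ≠ 0 := by
        rw [succ_mod_of_ne hR he]; exact Nat.succ_ne_zero _
      rw [if_neg h1]
      simp only [cfgA, length_tupTape, PCfg.mk.injEq, and_true, zdir_succ_of_ne hR he, true_and]
      funext h
      cases hd : zdir ((w.length + 2) ^ k) T with
      | true =>
        have h2 := zig_succ_of_ne_up hR he hd
        have h3 := zig_lt hR (T + 1)
        rw [h2] at h3 ⊢
        simp only [sweepDir, if_true, Dir.move]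
        omega
      | false =>
        have h2 := zig_succ_of_ne_down hR he hd
        have h4 : zig ((w.length + 2) ^ k) T ≠ 0 := by
          intro h5
          exact he ((atEnd_iff hR).2 (Or.inr ⟨hd, h5⟩))
        rw [h2]
        simp only [sweepDir, Bool.false_eq_true, if_false, Dir.move]
        omega
  constructor
  · rintro ⟨t, ht, rfl⟩
    rw [key] at ht
    obtain ⟨t, ht, rfl⟩ := ht
    exact ⟨_, ⟨t, ht, rfl⟩, key2 _ _ _⟩
  · rintro ⟨c', ⟨t, ht, rfl⟩, rfl⟩
    refine ⟨((t.1, zdir ((w.length + 2) ^ k) T), fun _ => sweepDir (zdir ((w.length + 2) ^ k) T),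
      t.2.2), ?_, (key2 t.1 _ _).symm⟩
    rw [key]
    exact ⟨t, ht, rfl⟩

/-- **One head on the tape of tuples.** -/
theorem PDA.lang_oneHead
    (hM : ∀ (w : List α) (t : ℕ) (c : PCfg M.Q (Fin k) Γ), M.ReachIn w t c →
        ∀ i : Fin k, c.pos i = zig (w.length + 2) (t / (w.length + 2) ^ (i : ℕ)))
    (w : List α) : tupTape k w ∈ M.oneHead.lang ↔ w ∈ M.lang := by
  have hR : 0 < (w.length + 2) ^ k := Nat.pow_pos (by omega)
  have hzero : cfgB M w 0 M.start = M.oneHead.start := by
    simp [cfgB, PDA.start, PDA.oneHead, zdir]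
  constructor
  · rintro ⟨x, hx, hacc⟩
    rw [PDA.reach_iff] at hx
    have hinv : ∃ T c, M.ReachIn w T c ∧
        (x = cfgA M w T c ∨ (T % (w.length + 2) ^ k = 0 ∧ x = cfgB M w T c)) := by
      clear hacc
      induction hx with
      | refl => exact ⟨0, M.start, rfl, Or.inr ⟨Nat.zero_mod _, hzero.symm⟩⟩
      | @tail x y _ hs ih =>
        obtain ⟨T, c, hc, rfl | ⟨hT, rfl⟩⟩ := ih
        · obtain ⟨c', hc', rfl⟩ := (step_cfgA M w T c (funext (hM w T c hc)) y).1 hs
          refine ⟨T + 1, c', ⟨c, hc, hc'⟩, ?_⟩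
          unfold nextCfg
          by_cases h1 : (T + 1) % (w.length + 2) ^ k = 0
          · rw [if_pos h1]; exact Or.inr ⟨h1, rfl⟩
          · rw [if_neg h1]; exact Or.inl rfl
        · rw [step_cfgB M w T hT] at hs
          exact ⟨T, c, hc, Or.inl hs⟩
    obtain ⟨T, c, hc, rfl | ⟨hT, rfl⟩⟩ := hinv
    · exact ⟨c, ⟨T, hc⟩, hacc⟩
    · exact ⟨c, ⟨T, hc⟩, hacc⟩
  · rintro ⟨c, ⟨T, hc⟩, hacc⟩
    have hA : ∀ T c, M.ReachIn w T c →
        ReflTransGen (M.oneHead.Step (tupTape k w)) M.oneHead.start (cfgA M w T c) := by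
      intro T
      induction T with
      | zero =>
        intro c hc
        have hc : c = M.start := hc
        subst hc
        rw [← hzero]
        exact ReflTransGen.single ((step_cfgB M w 0 (Nat.zero_mod _) _ _).2 rfl)
      | succ T ih =>
        intro c hc
        obtain ⟨c0, h0, h1⟩ := hc
        have h2 := ih c0 h0
        have h3 := (step_cfgA M w T c0 (funext (hM w T c0 h0)) _).2 ⟨c, h1, rfl⟩
        have h4 := h2.tail h3
        unfold nextCfg at h4
        by_cases h5 : (T + 1) % (w.length + 2) ^ k = 0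
        · rw [if_pos h5] at h4
          exact h4.tail ((step_cfgB M w (T + 1) h5 _ _).2 rfl)
        · rw [if_neg h5] at h4
          exact h4
    rw [PDA.mem_lang]
    exact ⟨_, hA T c hc, hacc⟩

end oneHead

end Pool.Agent.V8H47.MH
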