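import Pool.Agent.V8H47.MH.OneHead
import Pool.Agent.V8H47.MH.Code

/-!
# Hardest languages and the number of heads
-/

namespace Pool.Agent.V8H47.MH

/-- A finite automaton for the universal language gives, with the same number of heads, finite
automata for all the languages of pushdown automata with one head. -/
theorem hardest (nd : Bool) {α Γ : Type} [Finite α] [Finite Γ] (M : PDA α (Fin 1) Γ)
    (hnd : nd = true ∨ M.Det) {m : ℕ} (F : FA UL (Fin m)) (hF : F.lang = (univ nd).lang) :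
    ∃ F' : FA α (Fin m), (F.Det → F'.Det) ∧ F'.lang = M.lang := by
  obtain ⟨K⟩ := exists_cod M
  obtain ⟨b, hb⟩ : ∃ b, ∀ a : Sym α, (K.body a).length + 1 ≤ b := by
    obtain ⟨b, hb⟩ := (Set.finite_range (fun a : Sym α => (K.body a).length + 1)).bddAbove
    exact ⟨b, fun a => hb ⟨a, rfl⟩⟩
  have hpos : 0 < b := lt_of_lt_of_le (Nat.succ_pos _) (hb Sym.left)
  have hlen : ∀ a : Sym α, (K.blk b a).length = b := K.length_blk hb
  let V := blkVT hpos (K.blk b) hlen
  refine ⟨(F.pull V).reindex (Equiv.prodUnique (Fin m) (Fin 1)),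
    fun h => FA.det_reindex _ _ (F.det_pull V h), ?_⟩
  rw [FA.lang_reindex]
  ext w
  rw [F.lang_pull V w, hF, K.univ_spec b w nd hb hnd]

/-- The languages of pushdown automata with `k` heads are languages of pushdown automata with one
head on the tape of tuples. -/
theorem to_one_head {α Γ : Type} [Finite Γ] {k : ℕ} (M : PDA α (Fin k) Γ) :
    ∃ M1 : PDA (Fin k → Sym α) (Fin 1) (Option Γ), (M.Det → M1.Det) ∧
      ∀ w, tupTape k w ∈ M1.lang ↔ w ∈ M.lang := by
  obtain ⟨M', h1, h2, h3⟩ := M.oblivious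
  refine ⟨M'.oneHead, fun h => M'.det_oneHead (h1 h), fun w => ?_⟩
  rw [M'.lang_oneHead h3 w, h2]

/-- Finite automata with `m` heads on the tape of tuples are finite automata with `m * k` heads. -/
theorem from_tuples {α : Type} {k m : ℕ} (F : FA (Fin k → Sym α) (Fin m)) :
    ∃ F' : FA α (Fin (m * k)), (F.Det → F'.Det) ∧ ∀ w, w ∈ F'.lang ↔ tupTape k w ∈ F.lang := by
  refine ⟨(F.pull (tupVT k)).reindex finProdFinEquiv,
    fun h => FA.det_reindex _ _ (F.det_pull _ h), fun w => ?_⟩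
  rw [FA.lang_reindex, F.lang_pull]

/-- From one head to `k` heads. -/
theorem one_to_many (nd : Bool) {m : ℕ}
    (h : ∀ (β Δ : Type) [Finite β] [Finite Δ] (M : PDA β (Fin 1) Δ), (nd = true ∨ M.Det) →
      ∃ F : FA β (Fin m), (nd = false → F.Det) ∧ F.lang = M.lang)
    {α Γ : Type} [Finite α] [Finite Γ] {k : ℕ} (M : PDA α (Fin k) Γ) (hnd : nd = true ∨ M.Det) :
    ∃ F : FA α (Fin (m * k)), (nd = false → F.Det) ∧ F.lang = M.lang := by
  obtain ⟨M1, h1, h2⟩ := to_one_head M
  obtain ⟨F, h3, h4⟩ := h _ _ M1 (hnd.imp id h1)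
  obtain ⟨F', h5, h6⟩ := from_tuples F
  refine ⟨F', fun h => h5 (h3 h), ?_⟩
  ext w
  rw [h6, h4, h2]

end Pool.Agent.V8H47.MH
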