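import Pool.Agent.V8H47.MH.Basic

/-!
# Pushdown systems: accepting runs of bounded height
-/

namespace Pool.Agent.V8H47.MH

open Relation

/-- An increasing sequence of subsets of a finite type, each determined by the preceding one, is
constant from the cardinality of the type on. -/
theorem chain_stable {T : Type} [Finite T] (F : ℕ → Set T) (hmono : ∀ n, F n ⊆ F (n + 1))
    (hdet : ∀ n, F n = F (n + 1) → F (n + 1) = F (n + 2)) (n : ℕ) : F n ⊆ F (Nat.card T) := by
  have hmono' : Monotone F := monotone_nat_of_le_succ hmono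
  obtain ⟨m, hm, he⟩ : ∃ m, m ≤ Nat.card T ∧ F m = F (m + 1) := by
    by_contra hcon
    push Not at hcon
    have hss : ∀ m, m ≤ Nat.card T → (F m).ncard < (F (m + 1)).ncard := by
      intro m hm
      exact Set.ncard_lt_ncard ((hmono m).ssubset_of_ne (hcon m hm)) (Set.toFinite _)
    have hge : ∀ m, m ≤ Nat.card T + 1 → m ≤ (F m).ncard := by
      intro m
      induction m with
      | zero => intro _; exact Nat.zero_le _
      | succ m ih =>
        intro hm
        have h1 := ih (by omega)
        have h2 := hss m (by omega)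
        omega
    have h1 := hge (Nat.card T + 1) le_rfl
    have h2 : (F (Nat.card T + 1)).ncard ≤ Nat.card T := by
      rw [← Set.ncard_univ]
      exact Set.ncard_le_ncard (Set.subset_univ _) (Set.toFinite _)
    omega
  have hconst : ∀ d, F (m + d) = F m ∧ F (m + d + 1) = F (m + d) := by
    intro d
    induction d with
    | zero => exact ⟨rfl, he.symm⟩
    | succ d ih =>
      have h1 : F (m + (d + 1)) = F (m + d) := ih.2
      refine ⟨h1.trans ih.1, ?_⟩
      exact (hdet (m + d) ih.2.symm).symm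
  rcases le_total n (Nat.card T) with h | h
  · exact hmono' h
  · obtain ⟨d, rfl⟩ := Nat.exists_eq_add_of_le (hm.trans h)
    rw [(hconst d).1]
    exact hmono' hm

/-- A pushdown system: `E op g x y` if in the state `x` with top symbol `g` (`none`: empty store)
the action `op` is possible, with the new state `y`. -/
structure PDS (V Γ : Type) where
  E : Op Γ → Option Γ → V → V → Prop

namespace PDS

variable {V Γ : Type} (P : PDS V Γ)

def Step (c c' : V × List Γ) : Prop :=
  ∃ op, P.E op c.2.head? c.1 c'.1 ∧ c'.2 = op.apply c.2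

def StepB (b : ℕ) (c c' : V × List Γ) : Prop :=
  P.Step c c' ∧ c.2.length ≤ b ∧ c'.2.length ≤ b

/-- steps which keep the store -/
def K (g : Option Γ) (x y : V) : Prop := P.E Op.keep g x y ∨ (g = none ∧ P.E Op.pop none x y)

/-- one step of relative height zero, or an excursion of relative height at most `h + 1` -/
def Ex (B : Option Γ → V → V → Prop) (g : Option Γ) (x y : V) : Prop :=
  P.K g x y ∨ ∃ γ x' y', P.E (Op.push γ) g x x' ∧ B (some γ) x' y' ∧ P.E Op.pop (some γ) y' y

/-- balanced runs of relative height at most `h` -/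
def Bal : ℕ → Option Γ → V → V → Prop
  | 0 => fun g => ReflTransGen (P.K g)
  | h + 1 => fun g => ReflTransGen (P.Ex (Bal h) g)

theorem bal_mono (h : ℕ) : ∀ (g : Option Γ) (x y : V), P.Bal h g x y → P.Bal (h + 1) g x y := by
  induction h with
  | zero =>
    intro g x y hb
    exact ReflTransGen.mono (fun a b hab => Or.inl hab) _ _ hb
  | succ h ih =>
    intro g x y hb
    refine ReflTransGen.mono (fun a b hab => ?_) _ _ hb
    rcases hab with hab | ⟨γ, x', y', h1, h2, h3⟩
    · exact Or.inl hab
    · exact Or.inr ⟨γ, x', y', h1, ih _ _ _ h2, h3⟩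

theorem bal_mono_le {h h' : ℕ} (hle : h ≤ h') {g : Option Γ} {x y : V} (hb : P.Bal h g x y) :
    P.Bal h' g x y := by
  induction hle with
  | refl => exact hb
  | step _ ih => exact P.bal_mono _ _ _ _ ih

/-- all heights: stable level -/
noncomputable def top : ℕ := Nat.card (Option Γ × V × V)

theorem bal_stable [Finite V] [Finite Γ] {h : ℕ} {g : Option Γ} {x y : V} (hb : P.Bal h g x y) :
    P.Bal (Nat.card (Option Γ × V × V)) g x y := by
  let F : ℕ → Set (Option Γ × V × V) := fun n => {z | P.Bal n z.1 z.2.1 z.2.2}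
  have h1 : ∀ n, F n ⊆ F (n + 1) := fun n z hz => P.bal_mono n _ _ _ hz
  have h2 : ∀ n, F n = F (n + 1) → F (n + 1) = F (n + 2) := by
    intro n hn
    have : P.Bal n = P.Bal (n + 1) := by
      funext g x y
      have := Set.ext_iff.1 hn (g, x, y)
      exact propext this
    have h3 : P.Bal (n + 1) = P.Bal (n + 2) := by
      change (fun g => ReflTransGen (P.Ex (P.Bal n) g)) =
        (fun g => ReflTransGen (P.Ex (P.Bal (n + 1)) g))
      rw [this]
    change {z : Option Γ × V × V | P.Bal (n + 1) z.1 z.2.1 z.2.2} =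
      {z | P.Bal (n + 2) z.1 z.2.1 z.2.2}
    rw [h3]
  exact chain_stable F h1 h2 h (show (g, x, y) ∈ F h from hb)

/-- balanced runs of any height -/
def BalI (g : Option Γ) (x y : V) : Prop := ∃ h, P.Bal h g x y

theorem balI_refl (g : Option Γ) (x : V) : P.BalI g x x := ⟨0, .refl⟩

theorem balI_trans {g : Option Γ} {x y z : V} (h1 : P.BalI g x y) (h2 : P.BalI g y z) :
    P.BalI g x z := by
  obtain ⟨a, ha⟩ := h1
  obtain ⟨b, hb⟩ := h2
  refine ⟨max a b + 1, ?_⟩
  have h3 := P.bal_mono_le (show a ≤ max a b + 1 by omega) ha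
  have h4 := P.bal_mono_le (show b ≤ max a b + 1 by omega) hb
  exact ReflTransGen.trans h3 h4

theorem balI_keep {g : Option Γ} {x y : V} (h : P.K g x y) : P.BalI g x y :=
  ⟨0, ReflTransGen.single h⟩

theorem balI_ex {g : Option Γ} {x y x' y' : V} {γ : Γ} (h1 : P.E (Op.push γ) g x x')
    (h2 : P.BalI (some γ) x' y') (h3 : P.E Op.pop (some γ) y' y) : P.BalI g x y := by
  obtain ⟨h, h2⟩ := h2
  exact ⟨h + 1, ReflTransGen.single (Or.inr ⟨γ, x', y', h1, h2, h3⟩)⟩

/-- soundness of balanced runs -/
theorem bal_sound (b : ℕ) : ∀ (h : ℕ) (g : Option Γ) (x y : V), P.Bal h g x y →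
    ∀ st : List Γ, st.head? = g → st.length + h ≤ b →
      ReflTransGen (P.StepB b) (x, st) (y, st) := by
  have hK : ∀ (g : Option Γ) (x y : V), P.K g x y → ∀ st : List Γ, st.head? = g →
      st.length ≤ b → P.StepB b (x, st) (y, st) := by
    intro g x y hk st hst hle
    refine ⟨?_, hle, hle⟩
    rcases hk with hk | ⟨rfl, hk⟩
    · exact ⟨Op.keep, by rw [hst]; exact hk, rfl⟩
    · refine ⟨Op.pop, by rw [hst]; exact hk, ?_⟩
      cases st with
      | nil => rfl
      | cons a st => simp at hst
  intro h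
  induction h with
  | zero =>
    intro g x y hb st hst hle
    induction hb with
    | refl => exact .refl
    | tail _ hs ih => exact ih.tail (hK _ _ _ hs st hst (by omega))
  | succ h ih =>
    intro g x y hb st hst hle
    induction hb with
    | refl => exact .refl
    | @tail u v _ hs ih2 =>
      refine ih2.trans ?_
      rcases hs with hs | ⟨γ, x', y', h1, h2, h3⟩
      · exact ReflTransGen.single (hK _ _ _ hs st hst (by omega))
      · have e1 : P.StepB b (u, st) (x', γ :: st) :=
          ⟨⟨Op.push γ, by rw [hst]; exact h1, rfl⟩, by simp only; omega,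
            by simp only [List.length_cons]; omega⟩
        have e2 := ih (some γ) x' y' h2 (γ :: st) rfl (by simp only [List.length_cons]; omega)
        have e3 : P.StepB b (y', γ :: st) (v, st) :=
          ⟨⟨Op.pop, h3, rfl⟩, by simp only [List.length_cons]; omega, by simp only; omega⟩
        exact (ReflTransGen.single e1).trans (e2.tail e3)

/-- acceptance with relative height at most `h` above balanced runs -/
def AccR (A : Set V) : ℕ → Option Γ → V → Prop
  | 0 => fun g x => ∃ y ∈ A, P.BalI g x y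
  | h + 1 => fun g x => ∃ y, P.BalI g x y ∧
      (y ∈ A ∨ ∃ γ z, P.E (Op.push γ) g y z ∧ AccR A h (some γ) z)

theorem accR_mono (A : Set V) (h : ℕ) : ∀ (g : Option Γ) (x : V),
    P.AccR A h g x → P.AccR A (h + 1) g x := by
  induction h with
  | zero => rintro g x ⟨y, hy, hb⟩; exact ⟨y, hb, Or.inl hy⟩
  | succ h ih =>
    rintro g x ⟨y, hb, hy⟩
    refine ⟨y, hb, ?_⟩
    rcases hy with hy | ⟨γ, z, h1, h2⟩
    · exact Or.inl hy
    · exact Or.inr ⟨γ, z, h1, ih _ _ h2⟩

theorem accR_stable [Finite V] [Finite Γ] (A : Set V) {h : ℕ} {g : Option Γ} {x : V}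
    (hb : P.AccR A h g x) : P.AccR A (Nat.card (Option Γ × V)) g x := by
  let F : ℕ → Set (Option Γ × V) := fun n => {z | P.AccR A n z.1 z.2}
  have h1 : ∀ n, F n ⊆ F (n + 1) := fun n z hz => P.accR_mono A n _ _ hz
  have h2 : ∀ n, F n = F (n + 1) → F (n + 1) = F (n + 2) := by
    intro n hn
    have : P.AccR A n = P.AccR A (n + 1) := by
      funext g x
      have := Set.ext_iff.1 hn (g, x)
      exact propext this
    have h3 : P.AccR A (n + 1) = P.AccR A (n + 2) := by
      change (fun g x => ∃ y, P.BalI g x y ∧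
        (y ∈ A ∨ ∃ γ z, P.E (Op.push γ) g y z ∧ P.AccR A n (some γ) z)) =
        (fun g x => ∃ y, P.BalI g x y ∧
        (y ∈ A ∨ ∃ γ z, P.E (Op.push γ) g y z ∧ P.AccR A (n + 1) (some γ) z))
      rw [this]
    change {z : Option Γ × V | P.AccR A (n + 1) z.1 z.2} = {z | P.AccR A (n + 2) z.1 z.2}
    rw [h3]
  exact chain_stable F h1 h2 h (show (g, x) ∈ F h from hb)

theorem accR_sound [Finite V] [Finite Γ] (A : Set V) (b : ℕ) : ∀ (h : ℕ) (g : Option Γ) (x : V),
    P.AccR A h g x → ∀ st : List Γ, st.head? = g →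
      st.length + h + Nat.card (Option Γ × V × V) ≤ b →
      ∃ y ∈ A, ∃ st', ReflTransGen (P.StepB b) (x, st) (y, st') := by
  intro h
  induction h with
  | zero =>
    rintro g x ⟨y, hy, h', hb⟩ st hst hle
    exact ⟨y, hy, st, P.bal_sound b _ g x y (P.bal_stable hb) st hst (by omega)⟩
  | succ h ih =>
    rintro g x ⟨y, ⟨h', hb⟩, hy⟩ st hst hle
    have e1 := P.bal_sound b _ g x y (P.bal_stable hb) st hst (by omega)
    rcases hy with hy | ⟨γ, z, h1, h2⟩
    · exact ⟨y, hy, st, e1⟩
    · obtain ⟨y', hy', st', h3⟩ := ih (some γ) z h2 (γ :: st) rfl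
        (by simp only [List.length_cons]; omega)
      refine ⟨y', hy', st', (e1.tail ?_).trans h3⟩
      exact ⟨⟨Op.push γ, by rw [hst]; exact h1, rfl⟩, by simp only; omega,
            by simp only [List.length_cons]; omega⟩

/-- acceptance from a configuration -/
def CanAcc (A : Set V) : List Γ → V → Prop
  | [] => fun x => ∃ h, P.AccR A h none x
  | γ :: st => fun x => (∃ h, P.AccR A h (some γ) x) ∨
      ∃ y' y, P.BalI (some γ) x y' ∧ P.E Op.pop (some γ) y' y ∧ CanAcc A st y

theorem accR_of_balI (A : Set V) {g : Option Γ} {x y : V} (h1 : P.BalI g x y)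
    (h2 : ∃ h, P.AccR A h g y) : ∃ h, P.AccR A h g x := by
  obtain ⟨h, h2⟩ := h2
  cases h with
  | zero => obtain ⟨z, hz, hb⟩ := h2; exact ⟨0, z, hz, P.balI_trans h1 hb⟩
  | succ h => obtain ⟨z, hb, hz⟩ := h2; exact ⟨h + 1, z, P.balI_trans h1 hb, hz⟩

theorem canAcc_of_balI (A : Set V) {st : List Γ} {x y : V} (h1 : P.BalI st.head? x y)
    (h2 : P.CanAcc A st y) : P.CanAcc A st x := by
  cases st with
  | nil => exact P.accR_of_balI A h1 h2
  | cons γ st =>
    rcases h2 with h2 | ⟨y', z, h3, h4, h5⟩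
    · exact Or.inl (P.accR_of_balI A h1 h2)
    · exact Or.inr ⟨y', z, P.balI_trans h1 h3, h4, h5⟩

theorem canAcc_of_accR (A : Set V) {st : List Γ} {x : V} (h : ∃ h, P.AccR A h st.head? x) :
    P.CanAcc A st x := by
  cases st with
  | nil => exact h
  | cons γ st => exact Or.inl h

theorem canAcc_step (A : Set V) {c c' : V × List Γ} (hs : P.Step c c')
    (h : P.CanAcc A c'.2 c'.1) : P.CanAcc A c.2 c.1 := by
  obtain ⟨x, st⟩ := c
  obtain ⟨y, st'⟩ := c'
  obtain ⟨op, he, hop⟩ := hs
  simp only at he hop h ⊢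
  subst hop
  cases op with
  | keep => exact P.canAcc_of_balI A (P.balI_keep (Or.inl he)) h
  | push γ =>
    rcases h with ⟨h', h⟩ | ⟨y', z, h3, h4, h5⟩
    · refine P.canAcc_of_accR A ⟨h' + 1, x, P.balI_refl _ _, Or.inr ⟨γ, y, he, h⟩⟩
    · exact P.canAcc_of_balI A (P.balI_ex he h3 h4) h5
  | pop =>
    cases st with
    | nil => exact P.canAcc_of_balI A (P.balI_keep (Or.inr ⟨rfl, he⟩)) h
    | cons γ st => exact Or.inr ⟨x, y, P.balI_refl _ _, he, h⟩

theorem canAcc_of_reach (A : Set V) {c c' : V × List Γ} (hs : ReflTransGen P.Step c c')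
    (h : c'.1 ∈ A) : P.CanAcc A c.2 c.1 := by
  induction hs using ReflTransGen.head_induction_on with
  | refl => exact P.canAcc_of_accR A ⟨0, c'.1, h, P.balI_refl _ _⟩
  | head hs _ ih => exact P.canAcc_step A hs ih

/-- An accepting state that can be reached from the empty store can be reached with small
height. -/
theorem exists_small [Finite V] [Finite Γ] (A : Set V) {x : V} {c' : V × List Γ}
    (hs : ReflTransGen P.Step (x, []) c') (h : c'.1 ∈ A) {b : ℕ}
    (hb : Nat.card (Option Γ × V) + Nat.card (Option Γ × V × V) ≤ b) :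
    ∃ y ∈ A, ∃ st', ReflTransGen (P.StepB b) (x, []) (y, st') := by
  have h1 := P.canAcc_of_reach A hs h
  obtain ⟨h', h1⟩ := h1
  exact P.accR_sound A b _ none x (P.accR_stable A h1) [] rfl (by simpa using hb)

end PDS

end Pool.Agent.V8H47.MH
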