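import Pool.Agent.V8H47.OW.Main

/-!
# If the context-free languages are in NL, the store costs `m * (k + c + 1)` heads

The definitions used in the statement (two-way multihead automata, `twoNFA`) are in
`Pool.Agent.V8H47.MH.Defs`; one-way pushdown automata and `CFL` are in
`Pool.Agent.V8H47.MH.OneWayDefs`, time bounded pushdown automata (`twoNPDAT`) in
`Pool.Agent.V8H47.OW.TimeDefs`.

There is a context-free language `U` such that if `U` is accepted by a nondeterministic two-way
finite automaton with `m` heads, then for all `k` and `c` every language accepted by a
nondeterministic two-way pushdown automaton with `k` heads in time `O(n ^ c)` is accepted by a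
nondeterministic two-way finite automaton with `m * (k + c + 1)` heads. Hence all context-free
languages are in 2:multi-NFA = NSPACE(log n) if and only if there is a constant `m` such that
2:`k`-NPDA with time `O(n ^ c)` is contained in 2:`(m * (k + c + 1))`-NFA for all `k` and `c`.

Idea. The heads of a pushdown automaton can follow the universal schedule, which costs a factor
`O(n ^ k)` in time. An automaton that accepts in time at most `(n + 2) ^ K` then becomes a one-way
real time automaton on the tape of all `K`-tuples of symbols, in the reflected order, for
`K = k + c + 1`. A universal one-way automaton, which finds its program on the tape, one block for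
each symbol, reduces all these automata to one context-free language; each head on the tape of
tuples is simulated by `K` heads. Conversely, one-way pushdown automata accept in polynomial time.
-/

namespace Pool.Agent.V8H47.MH.ResultHeadOverhead

open Pool.Agent.V8H47.MH Pool.Agent.V8H47.OW

/-- One context-free language, and the head overhead for time bounded pushdown automata. -/
theorem result :
    ∃ (A : Type) (_ : Finite A) (U : Language A), U ∈ CFL A ∧
      (∀ m : ℕ, U ∈ twoNFA m A → ∀ (k c : ℕ) (α : Type) [Finite α],
        twoNPDAT k c α ⊆ twoNFA (m * (k + c + 1)) α) ∧
      ((∀ (α : Type) [Finite α], CFL α ⊆ ⋃ m, twoNFA m α) ↔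
        ∃ m : ℕ, ∀ (k c : ℕ) (α : Type) [Finite α],
          twoNPDAT k c α ⊆ twoNFA (m * (k + c + 1)) α) := by
  have hU : univ1.lang ∈ CFL UL := ⟨Bool, inferInstance, univ1, oneWay_univ1, rfl⟩
  refine ⟨UL, inferInstance, univ1.lang, hU, fun m h k c α _ => overhead h k c α, ?_, ?_⟩
  · intro h
    obtain ⟨m, hm⟩ := Set.mem_iUnion.1 (h UL hU)
    exact ⟨m, fun k c α _ => overhead hm k c α⟩
  · rintro ⟨m, h⟩ α _ L hL
    exact Set.mem_iUnion.2 ⟨_, h 1 3 α (cfl_subset α hL)⟩

end Pool.Agent.V8H47.MH.ResultHeadOverhead
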