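import Pool.Agent.V8H47.MH.Obliv

/-!
# The heads of nondeterministic multihead pushdown automata can follow one fixed schedule

The definitions used in the statement (two-way multihead pushdown automata, `twoNPDA`, `zig`) are
in `Pool.Agent.V8H47.MH.Defs`.

Let `r = n + 2` be the number of tape positions for inputs of length `n`. The function `zig r`
runs through `0, 1, …, r - 1, r - 1, …, 1, 0, 0, 1, …`. For every `k`, every language accepted by a
nondeterministic two-way `k`-head pushdown automaton is accepted by one, again with `k` heads, all
of whose computations have head `i` at time `t` at the position `zig r (⌊t / r ^ i⌋)`. So the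
positions of the heads depend neither on the input word (only on its length) nor on the
nondeterministic choices nor on the automaton.

Idea: the schedule enumerates all tuples of positions in the boustrophedon (reflected Gray) order,
forwards and backwards. A head is moved by one position, while the other heads keep their places,
by waiting for the mirror image of the present moment in a block of `r ^ j` moments; the distance
to the turning point is counted on the pushdown store, on top of the simulated store.
-/

namespace Pool.Agent.Results.MP_5e85fc_lc.ObliviousHeads

open Pool.Agent.V8H47.MH

/-- Every language accepted by a nondeterministic two-way `k`-head pushdown automaton is accepted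
by a nondeterministic two-way `k`-head pushdown automaton all of whose computations follow the
universal schedule of the heads. -/
theorem result (k : ℕ) (α : Type) [Finite α] (L : Language α) (hL : L ∈ twoNPDA k α) :
    ∃ (Γ : Type) (_ : Finite Γ) (M : PDA α (Fin k) Γ), M.lang = L ∧
      ∀ (w : List α) (t : ℕ) (c : PCfg M.Q (Fin k) Γ), M.ReachIn w t c →
        ∀ i : Fin k, c.pos i = zig (w.length + 2) (t / (w.length + 2) ^ (i : ℕ)) := by
  obtain ⟨Γ, _, M, rfl⟩ := hL
  obtain ⟨M', h1, h2, h3⟩ := M.oblivious
  exact ⟨Option Γ, inferInstance, M', h2, h3⟩

end Pool.Agent.Results.MP_5e85fc_lc.ObliviousHeads
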