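import Pool.Agent.V8H47.MH.Sched

/-!
# Schedule machines and their realisation by pushdown automata with scheduled heads
-/

namespace Pool.Agent.V8H47.MH

open Classical in
/-- Is a head with direction `d` that sees `a` at the end of its way? -/
def atEnd {α : Type} : Bool → Sym α → Prop
  | true, Sym.right => True
  | false, Sym.left => True
  | _, _ => False

variable {α : Type}

/-- the tuple of positions at time `t` -/
def tup (k r t : ℕ) : Fin k → ℕ := fun i => zig r (t / r ^ (i : ℕ))

/-- the directions at time `t` -/
def dirs (k r t : ℕ) : Fin k → Bool := fun i => zdir r (t / r ^ (i : ℕ))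

/-- the symbols seen at time `t` -/
def syms (w : List α) (k t : ℕ) : Fin k → Sym α := fun i => symAt w (tup k (w.length + 2) t i)

theorem symAt_zero (w : List α) : symAt w 0 = Sym.left := rfl

theorem symAt_right (w : List α) : symAt w (w.length + 1) = Sym.right := by
  simp [symAt]

theorem symAt_eq_left {w : List α} {p : ℕ} : symAt w p = Sym.left ↔ p = 0 := by
  cases p with
  | zero => simp [symAt]
  | succ p =>
    simp only [symAt]
    cases w[p]? <;> simp

theorem symAt_eq_right {w : List α} {p : ℕ} : symAt w p = Sym.right ↔ w.length + 1 ≤ p := by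
  cases p with
  | zero => simp [symAt]
  | succ p =>
    simp only [symAt]
    cases h : w[p]? with
    | none => simp at h; simp; omega
    | some a =>
      have := (List.getElem?_eq_some_iff.1 h).1
      simp; omega

theorem atEnd_sched (w : List α) (x : ℕ) :
    atEnd (zdir (w.length + 2) x) (symAt w (zig (w.length + 2) x)) ↔
      x % (w.length + 2) = w.length + 1 := by
  have hr : 0 < w.length + 2 := by omega
  have h := atEnd_iff (r := w.length + 2) (a := x) hr
  have e : w.length + 2 - 1 = w.length + 1 := by omega
  rw [e] at h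
  rw [h]
  have hlt := zig_lt (r := w.length + 2) hr x
  cases hd : zdir (w.length + 2) x with
  | true =>
    have : atEnd true (symAt w (zig (w.length + 2) x)) ↔
        symAt w (zig (w.length + 2) x) = Sym.right := by
      cases symAt w (zig (w.length + 2) x) <;> simp [atEnd]
    rw [this, symAt_eq_right]
    simp; omega
  | false =>
    have : atEnd false (symAt w (zig (w.length + 2) x)) ↔
        symAt w (zig (w.length + 2) x) = Sym.left := by
      cases symAt w (zig (w.length + 2) x) <;> simp [atEnd]
    rw [this, symAt_eq_left]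
    simp

theorem atEnd_syms (w : List α) (k t : ℕ) (i : Fin k) :
    atEnd (dirs k (w.length + 2) t i) (syms w k t i) ↔
      (t / (w.length + 2) ^ (i : ℕ)) % (w.length + 2) = w.length + 1 :=
  atEnd_sched w _

open Classical in
/-- the move of head `i` according to the schedule -/
noncomputable def schedMove {k : ℕ} (d : Fin k → Bool) (a : Fin k → Sym α) (i : Fin k) : Dir :=
  if (∀ j, j < i → atEnd (d j) (a j)) ∧ ¬ atEnd (d i) (a i) then
    (if d i = true then Dir.R else Dir.L) else Dir.S

open Classical in
/-- the new direction of head `i` according to the schedule -/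
noncomputable def schedDir {k : ℕ} (d : Fin k → Bool) (a : Fin k → Sym α) (i : Fin k) : Bool :=
  if (∀ j, j ≤ i → atEnd (d j) (a j)) then !d i else d i

theorem all_lt_iff (w : List α) (k t : ℕ) (i : ℕ) (hi : i ≤ k) :
    (∀ j : Fin k, (j : ℕ) < i → atEnd (dirs k (w.length + 2) t j) (syms w k t j)) ↔
      t % (w.length + 2) ^ i = (w.length + 2) ^ i - 1 := by
  rw [← allEnd_iff (by omega : 0 < w.length + 2) t i]
  constructor
  · intro h j hj
    have := (atEnd_syms w k t ⟨j, by omega⟩).1 (h ⟨j, by omega⟩ hj)
    simpa using this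
  · intro h j hj
    rw [atEnd_syms]
    have := h j hj
    simpa using this

theorem sched_step (w : List α) (k t : ℕ) (i : Fin k) :
    (schedMove (dirs k (w.length + 2) t) (syms w k t) i).move w.length (tup k (w.length + 2) t i)
      = tup k (w.length + 2) (t + 1) i ∧
    schedDir (dirs k (w.length + 2) t) (syms w k t) i = dirs k (w.length + 2) (t + 1) i := by
  have hr : 0 < w.length + 2 := by omega
  have h1 := all_lt_iff w k t i i.2.le
  have h1' : (∀ j : Fin k, j < i → atEnd (dirs k (w.length + 2) t j) (syms w k t j)) ↔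
      t % (w.length + 2) ^ (i : ℕ) = (w.length + 2) ^ (i : ℕ) - 1 := by
    rw [← h1]; rfl
  have h2 := atEnd_syms w k t i
  have h3 : (∀ j : Fin k, j ≤ i → atEnd (dirs k (w.length + 2) t j) (syms w k t j)) ↔
      (t % (w.length + 2) ^ (i : ℕ) = (w.length + 2) ^ (i : ℕ) - 1 ∧
        (t / (w.length + 2) ^ (i : ℕ)) % (w.length + 2) = w.length + 1) := by
    rw [← h1', ← h2]
    constructor
    · intro h; exact ⟨fun j hj => h j hj.le, h i le_rfl⟩
    · rintro ⟨ha, hb⟩ j hj
      rcases lt_or_eq_of_le hj with h | h
      · exact ha j h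
      · subst h; exact hb
  unfold schedMove schedDir
  simp only [h1', h2, h3]
  by_cases hA : t % (w.length + 2) ^ (i : ℕ) = (w.length + 2) ^ (i : ℕ) - 1
  · have hq := succ_div_pow_of_all (t := t) (i := (i : ℕ)) hr hA
    by_cases hB : (t / (w.length + 2) ^ (i : ℕ)) % (w.length + 2) = w.length + 1
    · have hz := zig_succ_of_eq hr (show (t / (w.length + 2) ^ (i : ℕ)) % (w.length + 2)
        = w.length + 2 - 1 by omega)
      simp only [hA, hB, not_true_eq_false, and_false, if_false, and_self, if_true, Dir.move]
      unfold tup dirs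
      rw [hq, hz.1, hz.2]
      exact ⟨rfl, rfl⟩
    · have hne : (t / (w.length + 2) ^ (i : ℕ)) % (w.length + 2) ≠ w.length + 2 - 1 := by omega
      simp only [hA, hB, not_false_eq_true, and_self, if_true, and_false, if_false]
      unfold tup dirs
      rw [hq, zdir_succ_of_ne hr hne]
      refine ⟨?_, rfl⟩
      cases hd : zdir (w.length + 2) (t / (w.length + 2) ^ (i : ℕ)) with
      | true =>
        have := zig_succ_of_ne_up hr hne hd
        rw [this]
        have hlt := zig_lt (r := w.length + 2) hr (t / (w.length + 2) ^ (i : ℕ) + 1)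
        rw [this] at hlt
        simp only [if_true, Dir.move]
        omega
      | false =>
        have := zig_succ_of_ne_down hr hne hd
        rw [this]
        simp [Dir.move]
  · have hq := succ_div_pow_of_not (t := t) (i := (i : ℕ)) hr hA
    simp only [hA, false_and, if_false, Dir.move]
    unfold tup dirs
    rw [hq]
    exact ⟨rfl, rfl⟩

/-- The actions of a schedule machine: jump to the mirror image at level `j`, or act on the
store and jump to the mirror image at the top level. -/
inductive Act (k : ℕ) (Γ : Type)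
  | mir : Fin (k + 1) → Act k Γ
  | op : Op Γ → Act k Γ

/-- A schedule machine. -/
structure SM (α : Type) (k : ℕ) (Γ : Type) where
  S : Type
  finS : Finite S
  init : S
  acc : Set S
  act : S → (Fin k → Sym α) → (Fin k → Bool) → Option Γ → Set (S × Act k Γ)

namespace SM

variable {k : ℕ} {Γ : Type} (N : SM α k Γ)

/-- Reachability for schedule machines: state, time, store. -/
inductive Reach (w : List α) : N.S → ℕ → List Γ → Prop
  | start : Reach w N.init 0 []
  | mir {s t σ s' j} : Reach w s t σ →
      (s', Act.mir j) ∈ N.act s (syms w k t) (dirs k (w.length + 2) t) σ.head? →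
      Reach w s' (mirror (w.length + 2) j t) σ
  | op {s t σ s' o} : Reach w s t σ →
      (s', Act.op o) ∈ N.act s (syms w k t) (dirs k (w.length + 2) t) σ.head? →
      Reach w s' (mirror (w.length + 2) k t) (o.apply σ)

def lang : Language α := {w | ∃ s t σ, N.Reach w s t σ ∧ s ∈ N.acc}

def Det : Prop := ∀ s a d g, (N.act s a d g).Subsingleton

/-- control states of the pushdown automaton which realises a schedule machine -/
inductive Ctl (S : Type) (k : ℕ)
  | main : S → Ctl S k
  | push : Fin (k + 1) → S → Ctl S k
  | pushExt : S → Ctl S k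
  | ext : S → Ctl S k

theorem finite_ctl (S : Type) [Finite S] (k : ℕ) : Finite (Ctl S k) := by
  let f : Ctl S k → S ⊕ (Fin (k + 1) × S) ⊕ S ⊕ S := fun c => match c with
    | .main s => Sum.inl s
    | .push j s => Sum.inr (Sum.inl (j, s))
    | .pushExt s => Sum.inr (Sum.inr (Sum.inl s))
    | .ext s => Sum.inr (Sum.inr (Sum.inr s))
  refine Finite.of_injective f ?_
  intro a b h
  cases a <;> cases b <;> simp_all [f]

/-- translation of store actions -/
def liftOp : Op Γ → Op (Option Γ)
  | Op.keep => Op.keep
  | Op.push g => Op.push (some g)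
  | Op.pop => Op.pop

open Classical in
/-- last time of the block of level `j`? -/
def lastIn (d : Fin k → Bool) (a : Fin k → Sym α) (j : ℕ) : Prop :=
  ∀ i : Fin k, (i : ℕ) < j → atEnd (d i) (a i)

/-- what the top symbol tells about the simulated store (when no counter symbol is on top) -/
def simTop : Option (Option Γ) → Option Γ
  | some (some g) => some g
  | _ => none

open Classical in
/-- control part of the transition of the realising automaton -/
noncomputable def ctl (d : Fin k → Bool) (a : Fin k → Sym α) (g : Option (Option Γ)) :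
    Ctl N.S k → Set (Ctl N.S k × Op (Option Γ))
  | .main s =>
      if g = some none then {(Ctl.main s, Op.pop)}
      else {x | (∃ s' j, (s', Act.mir j) ∈ N.act s a d (simTop g) ∧
                  x = if lastIn d a j then (Ctl.main s', Op.keep)
                    else (Ctl.push j s', Op.push none)) ∨
                (∃ s' o, (s', Act.op o) ∈ N.act s a d (simTop g) ∧
                  x = if lastIn d a k then (Ctl.main s', liftOp o)
                    else (Ctl.pushExt s', liftOp o))}
  | .push j s => if lastIn d a j then {(Ctl.main s, Op.keep)} else {(Ctl.push j s, Op.push none)}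
  | .pushExt s => if lastIn d a k then {(Ctl.ext s, Op.keep)} else {(Ctl.pushExt s, Op.push none)}
  | .ext s => if g = some none then {(Ctl.ext s, Op.pop)} else {(Ctl.main s, Op.keep)}

/-- the realising pushdown automaton -/
noncomputable def toPDA : PDA α (Fin k) (Option Γ) where
  Q := (Fin k → Bool) × Ctl N.S k
  finQ := by
    have := N.finS
    have := finite_ctl N.S k
    infer_instance
  init := (fun _ => true, Ctl.main N.init)
  acc := {q | ∃ s ∈ N.acc, q.2 = Ctl.main s}
  step := fun q a g => {x | ∃ y ∈ N.ctl q.1 a g q.2,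
    x = ((schedDir q.1 a, y.1), schedMove q.1 a, y.2)}

/-- The configuration with scheduled positions and directions at time `t`. -/
def cfg (w : List α) (t : ℕ) (c : Ctl N.S k) (st : List (Option Γ)) :
    PCfg N.toPDA.Q (Fin k) (Option Γ) :=
  ⟨(dirs k (w.length + 2) t, c), tup k (w.length + 2) t, st⟩

theorem step_cfg (w : List α) (t : ℕ) (c : Ctl N.S k) (st : List (Option Γ))
    (x : PCfg N.toPDA.Q (Fin k) (Option Γ)) :
    N.toPDA.Step w (N.cfg w t c st) x ↔
      ∃ y ∈ N.ctl (dirs k (w.length + 2) t) (syms w k t) st.head? c,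
        x = N.cfg w (t + 1) y.1 (y.2.apply st) := by
  have key : ∀ y : Ctl N.S k × Op (Option Γ),
      (⟨(schedDir (dirs k (w.length + 2) t) (syms w k t), y.1),
        fun h => (schedMove (dirs k (w.length + 2) t) (syms w k t) h).move w.length
          (tup k (w.length + 2) t h), y.2.apply st⟩ : PCfg N.toPDA.Q (Fin k) (Option Γ)) =
      N.cfg w (t + 1) y.1 (y.2.apply st) := by
    intro y
    have e1 : schedDir (dirs k (w.length + 2) t) (syms w k t) = dirs k (w.length + 2) (t + 1) :=
      funext fun i => (sched_step w k t i).2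
    have e2 : (fun h => (schedMove (dirs k (w.length + 2) t) (syms w k t) h).move w.length
          (tup k (w.length + 2) t h)) = tup k (w.length + 2) (t + 1) :=
      funext fun i => (sched_step w k t i).1
    rw [e1, e2]
    rfl
  unfold PDA.Step
  constructor
  · rintro ⟨z, ⟨y, hy, rfl⟩, rfl⟩
    exact ⟨y, hy, key y⟩
  · rintro ⟨y, hy, rfl⟩
    exact ⟨_, ⟨y, hy, rfl⟩, (key y).symm⟩

theorem zig_zero (r : ℕ) : zig r 0 = 0 := by simp [zig]

theorem start_eq (w : List α) : N.toPDA.start = N.cfg w 0 (Ctl.main N.init) [] := by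
  have e1 : dirs k (w.length + 2) 0 = fun _ => true := by
    funext i; simp [dirs, zdir]
  have e2 : tup k (w.length + 2) 0 = fun _ => 0 := by
    funext i; simp [tup, zig_zero]
  unfold cfg PDA.start
  rw [e1, e2]
  rfl

/-- the store of the realising automaton -/
def store (c : ℕ) (σ : List Γ) : List (Option Γ) := List.replicate c none ++ σ.map some

@[simp] theorem store_zero (σ : List Γ) : store 0 σ = σ.map some := by simp [store]

theorem store_succ (c : ℕ) (σ : List Γ) : store (c + 1) σ = none :: store c σ := by
  simp [store, List.replicate_succ]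

theorem head_store_succ (c : ℕ) (σ : List Γ) : (store (c + 1) σ).head? = some none := by
  rw [store_succ]; rfl

theorem head_store_zero (σ : List Γ) : (store 0 σ).head? ≠ some none ∧
    simTop (store 0 σ).head? = σ.head? := by
  cases σ with
  | nil => simp [store, simTop]
  | cons g σ => simp [store, simTop]

theorem liftOp_apply (o : Op Γ) (σ : List Γ) :
    (liftOp o).apply (store 0 σ) = store 0 (o.apply σ) := by
  cases o with
  | keep => rfl
  | push g => simp [liftOp, Op.apply, store]
  | pop => cases σ <;> simp [liftOp, Op.apply, store]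

theorem lastIn_iff (w : List α) (t j : ℕ) (hj : j ≤ k) :
    lastIn (dirs k (w.length + 2) t) (syms w k t) j ↔
      t % (w.length + 2) ^ j = (w.length + 2) ^ j - 1 := all_lt_iff w k t j hj

/-- The invariant. -/
def Inv (w : List α) (t : ℕ) (st : List (Option Γ)) : Ctl N.S k → Prop
  | .main s => ∃ c σ, st = store c σ ∧ N.Reach w s (t + c) σ
  | .push j s => ∃ t₀ c σ, t₀ + c = t ∧ t / (w.length + 2) ^ (j : ℕ) = t₀ / (w.length + 2) ^ (j : ℕ) ∧
      st = store c σ ∧ N.Reach w s (mirror (w.length + 2) j t₀) σ
  | .pushExt s => ∃ t₀ c σ, t₀ + 1 + c = t ∧ t / (w.length + 2) ^ k = t₀ / (w.length + 2) ^ k ∧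
      st = store c σ ∧ N.Reach w s (mirror (w.length + 2) k t₀) σ
  | .ext s => ∃ c σ, st = store c σ ∧ N.Reach w s (t + c + 1) σ

/-- arithmetic of the end of a block -/
theorem mirror_eq {r j t₀ c t : ℕ} (hr : 0 < r) (h1 : t₀ + c = t) (h2 : t / r ^ j = t₀ / r ^ j)
    (h3 : t % r ^ j = r ^ j - 1) : mirror r j t₀ = t + 1 + c := by
  have hp : 0 < r ^ j := Nat.pow_pos hr
  unfold mirror
  have e1 := Nat.div_add_mod t (r ^ j)
  have e2 := Nat.div_add_mod t₀ (r ^ j)
  rw [h2, h3] at e1
  have e3 : (t₀ / r ^ j + 1) * r ^ j = r ^ j * (t₀ / r ^ j) + r ^ j := by ring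
  rw [e3]
  generalize r ^ j * (t₀ / r ^ j) = A at *
  generalize r ^ j = P at *
  generalize t₀ % P = b at *
  omega

theorem same_block {r j t : ℕ} (hr : 0 < r) (h : ¬ t % r ^ j = r ^ j - 1) :
    (t + 1) / r ^ j = t / r ^ j := succ_div_pow_of_not hr h

theorem inv_step (w : List α) (t : ℕ) (st : List (Option Γ)) (c : Ctl N.S k)
    (h : N.Inv w t st c) (y : Ctl N.S k × Op (Option Γ))
    (hy : y ∈ N.ctl (dirs k (w.length + 2) t) (syms w k t) st.head? c) :
    N.Inv w (t + 1) (y.2.apply st) y.1 := by
  have hr : 0 < w.length + 2 := by omega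
  cases c with
  | main s =>
    obtain ⟨c, σ, rfl, hR⟩ := h
    cases c with
    | succ c =>
      simp only [ctl, head_store_succ, if_true, Set.mem_singleton_iff] at hy
      subst hy
      refine ⟨c, σ, ?_, ?_⟩
      · simp [Op.apply, store_succ]
      · have e : t + 1 + c = t + (c + 1) := by omega
        rw [e]; exact hR
    | zero =>
      have hh := head_store_zero σ
      simp only [ctl, hh.1, if_false, hh.2, Set.mem_ofPred_eq] at hy
      simp only [add_zero] at hR
      rcases hy with ⟨s', j, hact, rfl⟩ | ⟨s', o, hact, rfl⟩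
      · have hR' := Reach.mir hR hact
        by_cases hl : lastIn (dirs k (w.length + 2) t) (syms w k t) j
        · simp only [hl, if_true]
          have hm := (lastIn_iff (k := k) w t j (by omega)).1 hl
          refine ⟨0, σ, rfl, ?_⟩
          have := mirror_eq (t₀ := t) (c := 0) hr rfl rfl hm
          rw [this] at hR'
          exact hR'
        · simp only [hl, if_false]
          have hm := (lastIn_iff (k := k) w t j (by omega)).not.1 hl
          refine ⟨t, 1, σ, rfl, same_block hr hm, ?_, hR'⟩
          simp [Op.apply, store]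
      · have hR' := Reach.op hR hact
        by_cases hl : lastIn (dirs k (w.length + 2) t) (syms w k t) k
        · simp only [hl, if_true]
          have hm := (lastIn_iff (k := k) w t k le_rfl).1 hl
          refine ⟨0, o.apply σ, liftOp_apply o σ, ?_⟩
          have := mirror_eq (t₀ := t) (c := 0) hr rfl rfl hm
          rw [this] at hR'
          exact hR'
        · simp only [hl, if_false]
          have hm := (lastIn_iff (k := k) w t k le_rfl).not.1 hl
          exact ⟨t, 0, o.apply σ, by omega, same_block hr hm, liftOp_apply o σ, hR'⟩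
  | push j s =>
    obtain ⟨t₀, c, σ, h1, h2, rfl, hR⟩ := h
    by_cases hl : lastIn (dirs k (w.length + 2) t) (syms w k t) j
    · simp only [ctl, hl, if_true, Set.mem_singleton_iff] at hy
      subst hy
      have hm := (lastIn_iff (k := k) w t j (by omega)).1 hl
      refine ⟨c, σ, rfl, ?_⟩
      rw [mirror_eq hr h1 h2 hm] at hR
      exact hR
    · simp only [ctl, hl, if_false, Set.mem_singleton_iff] at hy
      subst hy
      have hm := (lastIn_iff (k := k) w t j (by omega)).not.1 hl
      refine ⟨t₀, c + 1, σ, by omega, ?_, ?_, hR⟩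
      · rw [same_block hr hm, h2]
      · simp [Op.apply, store_succ]
  | pushExt s =>
    obtain ⟨t₀, c, σ, h1, h2, rfl, hR⟩ := h
    by_cases hl : lastIn (dirs k (w.length + 2) t) (syms w k t) k
    · simp only [ctl, hl, if_true, Set.mem_singleton_iff] at hy
      subst hy
      have hm := (lastIn_iff (k := k) w t k le_rfl).1 hl
      refine ⟨c, σ, rfl, ?_⟩
      have h1' : t₀ + (c + 1) = t := by omega
      rw [mirror_eq hr h1' h2 hm] at hR
      exact hR
    · simp only [ctl, hl, if_false, Set.mem_singleton_iff] at hy
      subst hy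
      have hm := (lastIn_iff (k := k) w t k le_rfl).not.1 hl
      refine ⟨t₀, c + 1, σ, by omega, ?_, ?_, hR⟩
      · rw [same_block hr hm, h2]
      · simp [Op.apply, store_succ]
  | ext s =>
    obtain ⟨c, σ, rfl, hR⟩ := h
    cases c with
    | succ c =>
      simp only [ctl, head_store_succ, if_true, Set.mem_singleton_iff] at hy
      subst hy
      refine ⟨c, σ, ?_, ?_⟩
      · simp [Op.apply, store_succ]
      · have e : t + 1 + c + 1 = t + (c + 1) + 1 := by omega
        rw [e]; exact hR
    | zero =>
      have hh := head_store_zero σ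
      simp only [ctl, hh.1, if_false, Set.mem_singleton_iff] at hy
      subst hy
      exact ⟨0, σ, rfl, hR⟩

/-- All reachable configurations follow the schedule and satisfy the invariant. -/
theorem reachIn_inv (w : List α) (t : ℕ) (x : PCfg N.toPDA.Q (Fin k) (Option Γ))
    (h : N.toPDA.ReachIn w t x) : ∃ c st, x = N.cfg w t c st ∧ N.Inv w t st c := by
  induction t generalizing x with
  | zero =>
    have : x = N.toPDA.start := h
    rw [this, start_eq N w]
    exact ⟨_, _, rfl, 0, [], rfl, Reach.start⟩
  | succ t ih =>
    obtain ⟨x', h', hs⟩ := h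
    obtain ⟨c, st, rfl, hi⟩ := ih x' h'
    obtain ⟨y, hy, rfl⟩ := (N.step_cfg w t c st x).1 hs
    exact ⟨y.1, y.2.apply st, rfl, N.inv_step w t st c hi y hy⟩

/-- step of the realising automaton as a `ReachIn` statement -/
theorem reachIn_step {w : List α} {t : ℕ} {c : Ctl N.S k} {st : List (Option Γ)}
    (h : N.toPDA.ReachIn w t (N.cfg w t c st)) {y : Ctl N.S k × Op (Option Γ)}
    (hy : y ∈ N.ctl (dirs k (w.length + 2) t) (syms w k t) st.head? c) :
    N.toPDA.ReachIn w (t + 1) (N.cfg w (t + 1) y.1 (y.2.apply st)) :=
  ⟨_, h, (N.step_cfg w t c st _).2 ⟨y, hy, rfl⟩⟩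

theorem pop_main {w : List α} {t : ℕ} (c : ℕ) {s : N.S} {σ : List Γ}
    (h : N.toPDA.ReachIn w t (N.cfg w t (Ctl.main s) (store c σ))) :
    N.toPDA.ReachIn w (t + c) (N.cfg w (t + c) (Ctl.main s) (store 0 σ)) := by
  induction c generalizing t with
  | zero => simpa using h
  | succ c ih =>
    have := N.reachIn_step h (y := (Ctl.main s, Op.pop)) (by simp [ctl, head_store_succ])
    simp only [Op.apply, store_succ, List.tail_cons] at this
    have h2 := ih this
    have e : t + (c + 1) = t + 1 + c := by omega
    rw [e]; exact h2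

theorem pop_ext {w : List α} {t : ℕ} (c : ℕ) {s : N.S} {σ : List Γ}
    (h : N.toPDA.ReachIn w t (N.cfg w t (Ctl.ext s) (store c σ))) :
    N.toPDA.ReachIn w (t + c + 1) (N.cfg w (t + c + 1) (Ctl.main s) (store 0 σ)) := by
  induction c generalizing t with
  | zero =>
    have := N.reachIn_step h (y := (Ctl.main s, Op.keep)) (by
      have hh := head_store_zero σ
      simp only [ctl, hh.1, if_false, Set.mem_singleton_iff])
    simpa [Op.apply] using this
  | succ c ih =>
    have := N.reachIn_step h (y := (Ctl.ext s, Op.pop)) (by simp [ctl, head_store_succ])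
    simp only [Op.apply, store_succ, List.tail_cons] at this
    have h2 := ih this
    have e : t + (c + 1) + 1 = t + 1 + c + 1 := by omega
    rw [e]; exact h2

/-- the end of the block is reached, and the pushed symbols are popped again -/
theorem run_push {w : List α} (j : Fin (k + 1)) {s : N.S} {σ : List Γ} (m : ℕ) {t t₀ c : ℕ}
    (hm : t % (w.length + 2) ^ (j : ℕ) + m = (w.length + 2) ^ (j : ℕ) - 1)
    (h1 : t₀ + c = t)
    (h2 : t / (w.length + 2) ^ (j : ℕ) = t₀ / (w.length + 2) ^ (j : ℕ))
    (h : N.toPDA.ReachIn w t (N.cfg w t (Ctl.push j s) (store c σ))) :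
    N.toPDA.ReachIn w (mirror (w.length + 2) j t₀)
      (N.cfg w (mirror (w.length + 2) j t₀) (Ctl.main s) (store 0 σ)) := by
  have hr : 0 < w.length + 2 := by omega
  induction m generalizing t c with
  | zero =>
    have hl := (lastIn_iff (k := k) w t j (by omega)).2 (by omega)
    have := N.reachIn_step h (y := (Ctl.main s, Op.keep)) (by simp [ctl, hl])
    simp only [Op.apply] at this
    have h3 := N.pop_main c this
    rw [mirror_eq hr h1 h2 (by omega)]
    exact h3
  | succ m ih =>
    have hnl : ¬ t % (w.length + 2) ^ (j : ℕ) = (w.length + 2) ^ (j : ℕ) - 1 := by omega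
    have hl := (lastIn_iff (k := k) w t j (by omega)).not.2 hnl
    have := N.reachIn_step h (y := (Ctl.push j s, Op.push none)) (by simp [ctl, hl])
    simp only [Op.apply] at this
    rw [← store_succ] at this
    refine ih ?_ (by omega) ?_ this
    · rw [succ_mod_of_ne (Nat.pow_pos hr) hnl]; omega
    · rw [same_block hr hnl, h2]

theorem run_pushExt {w : List α} {s : N.S} {σ : List Γ} (m : ℕ) {t t₀ c : ℕ}
    (hm : t % (w.length + 2) ^ k + m = (w.length + 2) ^ k - 1)
    (h1 : t₀ + 1 + c = t)
    (h2 : t / (w.length + 2) ^ k = t₀ / (w.length + 2) ^ k)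
    (h : N.toPDA.ReachIn w t (N.cfg w t (Ctl.pushExt s) (store c σ))) :
    N.toPDA.ReachIn w (mirror (w.length + 2) k t₀)
      (N.cfg w (mirror (w.length + 2) k t₀) (Ctl.main s) (store 0 σ)) := by
  have hr : 0 < w.length + 2 := by omega
  induction m generalizing t c with
  | zero =>
    have hl := (lastIn_iff (k := k) w t k le_rfl).2 (by omega)
    have := N.reachIn_step h (y := (Ctl.ext s, Op.keep)) (by simp [ctl, hl])
    simp only [Op.apply] at this
    have h3 := N.pop_ext c this
    have h1' : t₀ + (c + 1) = t := by omega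
    rw [mirror_eq hr h1' h2 (by omega)]
    have e : t + 1 + (c + 1) = t + 1 + c + 1 := by omega
    rw [e]; exact h3
  | succ m ih =>
    have hnl : ¬ t % (w.length + 2) ^ k = (w.length + 2) ^ k - 1 := by omega
    have hl := (lastIn_iff (k := k) w t k le_rfl).not.2 hnl
    have := N.reachIn_step h (y := (Ctl.pushExt s, Op.push none)) (by simp [ctl, hl])
    simp only [Op.apply] at this
    rw [← store_succ] at this
    refine ih ?_ (by omega) ?_ this
    · rw [succ_mod_of_ne (Nat.pow_pos hr) hnl]; omega
    · rw [same_block hr hnl, h2]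

theorem reach_toPDA {w : List α} {s : N.S} {t : ℕ} {σ : List Γ} (h : N.Reach w s t σ) :
    N.toPDA.ReachIn w t (N.cfg w t (Ctl.main s) (store 0 σ)) := by
  have hr : 0 < w.length + 2 := by omega
  induction h with
  | start => simp only [store_zero, List.map_nil]; exact (start_eq N w).symm
  | @mir s t σ s' j _ hact ih =>
    have hh := head_store_zero σ
    have hp : 0 < (w.length + 2) ^ (j : ℕ) := Nat.pow_pos hr
    have hlt := Nat.mod_lt t hp
    by_cases hl : lastIn (dirs k (w.length + 2) t) (syms w k t) j
    · have hm := (lastIn_iff (k := k) w t j (by omega)).1 hl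
      have := N.reachIn_step ih (y := (Ctl.main s', Op.keep)) (by
        simp only [ctl, hh.1, if_false, hh.2, Set.mem_ofPred_eq]
        exact Or.inl ⟨s', j, hact, by simp [hl]⟩)
      simp only [Op.apply] at this
      rw [mirror_eq (t₀ := t) (c := 0) hr rfl rfl hm]
      exact this
    · have hm := (lastIn_iff (k := k) w t j (by omega)).not.1 hl
      have := N.reachIn_step ih (y := (Ctl.push j s', Op.push none)) (by
        simp only [ctl, hh.1, if_false, hh.2, Set.mem_ofPred_eq]
        exact Or.inl ⟨s', j, hact, by simp [hl]⟩)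
      simp only [Op.apply] at this
      rw [← store_succ] at this
      refine N.run_push j ((w.length + 2) ^ (j : ℕ) - 1 - (t + 1) % (w.length + 2) ^ (j : ℕ))
        ?_ rfl (same_block hr hm) this
      have := Nat.mod_lt (t + 1) hp
      omega
  | @op s t σ s' o _ hact ih =>
    have hh := head_store_zero σ
    have hp : 0 < (w.length + 2) ^ k := Nat.pow_pos hr
    have hlt := Nat.mod_lt t hp
    by_cases hl : lastIn (dirs k (w.length + 2) t) (syms w k t) k
    · have hm := (lastIn_iff (k := k) w t k le_rfl).1 hl
      have := N.reachIn_step ih (y := (Ctl.main s', liftOp o)) (by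
        simp only [ctl, hh.1, if_false, hh.2, Set.mem_ofPred_eq]
        exact Or.inr ⟨s', o, hact, by simp [hl]⟩)
      simp only [liftOp_apply] at this
      rw [mirror_eq (t₀ := t) (c := 0) hr rfl rfl hm]
      exact this
    · have hm := (lastIn_iff (k := k) w t k le_rfl).not.1 hl
      have := N.reachIn_step ih (y := (Ctl.pushExt s', liftOp o)) (by
        simp only [ctl, hh.1, if_false, hh.2, Set.mem_ofPred_eq]
        exact Or.inr ⟨s', o, hact, by simp [hl]⟩)
      simp only [liftOp_apply] at this
      refine N.run_pushExt ((w.length + 2) ^ k - 1 - (t + 1) % (w.length + 2) ^ k)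
        (c := 0) ?_ rfl (same_block hr hm) this
      have := Nat.mod_lt (t + 1) hp
      simp only [add_zero]
      omega

theorem lang_toPDA : N.toPDA.lang = N.lang := by
  ext w
  constructor
  · rintro ⟨x, ⟨t, hx⟩, s, hs, hq⟩
    obtain ⟨c, st, rfl, hi⟩ := N.reachIn_inv w t x hx
    have : c = Ctl.main s := hq
    subst this
    obtain ⟨c, σ, _, hR⟩ := hi
    exact ⟨s, _, σ, hR, hs⟩
  · rintro ⟨s, t, σ, hR, hs⟩
    exact ⟨_, ⟨t, N.reach_toPDA hR⟩, s, hs, rfl⟩

theorem det_toPDA (h : N.Det) : N.toPDA.Det := by
  intro q a g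
  rintro x ⟨y, hy, rfl⟩ x' ⟨y', hy', rfl⟩
  suffices y = y' by rw [this]
  obtain ⟨d, c⟩ := q
  cases c with
  | main s =>
    simp only [ctl] at hy hy'
    by_cases hg : g = some none
    · simp only [hg, if_true, Set.mem_singleton_iff] at hy hy'
      rw [hy, hy']
    · simp only [hg, if_false, Set.mem_ofPred_eq] at hy hy'
      have hdet := h s a d (simTop g)
      rcases hy with ⟨s1, j1, h1, rfl⟩ | ⟨s1, o1, h1, rfl⟩ <;>
      rcases hy' with ⟨s2, j2, h2, rfl⟩ | ⟨s2, o2, h2, rfl⟩
      · have := hdet h1 h2
        simp only [Prod.mk.injEq, Act.mir.injEq] at this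
        obtain ⟨rfl, rfl⟩ := this
        rfl
      · have := hdet h1 h2
        simp at this
      · have := hdet h1 h2
        simp at this
      · have := hdet h1 h2
        simp only [Prod.mk.injEq, Act.op.injEq] at this
        obtain ⟨rfl, rfl⟩ := this
        rfl
  | push j s =>
    simp only [ctl] at hy hy'
    split_ifs at hy hy' <;> simp_all
  | pushExt s =>
    simp only [ctl] at hy hy'
    split_ifs at hy hy' <;> simp_all
  | ext s =>
    simp only [ctl] at hy hy'
    split_ifs at hy hy' <;> simp_all

theorem sched_toPDA (w : List α) (t : ℕ) (x : PCfg N.toPDA.Q (Fin k) (Option Γ))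
    (h : N.toPDA.ReachIn w t x) (i : Fin k) :
    x.pos i = zig (w.length + 2) (t / (w.length + 2) ^ (i : ℕ)) := by
  obtain ⟨c, st, rfl, -⟩ := N.reachIn_inv w t x h
  rfl

end SM

end Pool.Agent.V8H47.MH
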