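import Pool.Agent.V8H47.MH.Defs

/-!
# The boustrophedon schedule

Arithmetic of the reflected base `r` numeration: digit `i` at time `t` is `zig r (t / r ^ i)`.
-/

namespace Pool.Agent.V8H47.MH

/-- The direction at time `x`: `true` if upwards. -/
def zdir (r x : ℕ) : Bool := decide ((x / r) % 2 = 0)

theorem zig_lt {r : ℕ} (hr : 0 < r) (x : ℕ) : zig r x < r := by
  unfold zig
  have := Nat.mod_lt x hr
  split_ifs <;> omega

theorem div_add_mod_lt {r x : ℕ} (hr : 0 < r) : x % r < r := Nat.mod_lt x hr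

/-- reflection: if `x + x' + 1` is an even multiple of `r` then the positions agree. -/
theorem zig_reflect {r x x' m : ℕ} (hr : 0 < r) (h : x + x' + 1 = r * (2 * m)) :
    zig r x = zig r x' ∧ zdir r x = !zdir r x' := by
  have h1 := Nat.div_add_mod x r
  have h2 := Nat.div_add_mod x' r
  have h3 := Nat.mod_lt x hr
  have h4 := Nat.mod_lt x' hr
  set a := x / r
  set b := x % r
  set a' := x' / r
  set b' := x' % r
  have h5 : r * (a + a') + (b + b' + 1) = r * (2 * m) := by
    rw [← h, ← h1, ← h2]; ring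
  have h6 : b + b' + 1 = r := by
    have hdvd : r ∣ b + b' + 1 := by
      have : r ∣ r * (a + a') + (b + b' + 1) := by rw [h5]; exact dvd_mul_right _ _
      exact (Nat.dvd_add_right (dvd_mul_right _ _)).1 this
    obtain ⟨c, hc⟩ := hdvd
    have : c < 2 := by
      by_contra hcc
      push Not at hcc
      have : r * 2 ≤ r * c := Nat.mul_le_mul_left _ hcc
      omega
    have : c ≠ 0 := by rintro rfl; simp at hc
    have : c = 1 := by omega
    rw [hc, this, mul_one]
  have h7 : a + a' + 1 = 2 * m := by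
    have : r * (a + a' + 1) = r * (2 * m) := by rw [← h5, h6]; ring
    exact Nat.eq_of_mul_eq_mul_left hr this
  constructor
  · unfold zig
    change (if a % 2 = 0 then b else r - 1 - b) = (if a' % 2 = 0 then b' else r - 1 - b')
    rcases Nat.mod_two_eq_zero_or_one a with h8 | h8 <;>
    rcases Nat.mod_two_eq_zero_or_one a' with h9 | h9 <;> simp [h8, h9] <;> omega
  · unfold zdir
    change decide (a % 2 = 0) = !decide (a' % 2 = 0)
    rcases Nat.mod_two_eq_zero_or_one a with h8 | h8 <;>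
    rcases Nat.mod_two_eq_zero_or_one a' with h9 | h9 <;> simp [h8, h9] <;> omega

/-- The mirror image of time `t` at level `j`: the time in the next block of length `r ^ j` with
the reflected offset. -/
def mirror (r j t : ℕ) : ℕ := (t / r ^ j + 1) * r ^ j + (r ^ j - 1 - t % r ^ j)

theorem mirror_div_high {r j i t : ℕ} (hr : 0 < r) (h : j ≤ i) :
    mirror r j t / r ^ i = (t / r ^ j + 1) / r ^ (i - j) := by
  obtain ⟨d, rfl⟩ := Nat.exists_eq_add_of_le h
  rw [pow_add, ← Nat.div_div_eq_div_mul]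
  have hp : 0 < r ^ j := Nat.pow_pos hr
  have h1 : mirror r j t / r ^ j = t / r ^ j + 1 := by
    unfold mirror
    rw [Nat.add_comm, Nat.add_mul_div_right _ _ hp]
    have : r ^ j - 1 - t % r ^ j < r ^ j :=
      lt_of_le_of_lt (Nat.sub_le _ _) (Nat.sub_lt hp one_pos)
    rw [Nat.div_eq_of_lt this]; omega
  rw [h1]; simp

theorem mirror_low {r j i t : ℕ} (hr : 0 < r) (h : i < j) :
    t / r ^ i + mirror r j t / r ^ i + 1 = r * (2 * ((t / r ^ j + 1) * r ^ (j - i - 1))) := by
  obtain ⟨d, rfl⟩ := Nat.exists_eq_add_of_lt h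
  have e1 : i + d + 1 - i - 1 = d := by omega
  rw [e1]
  have hp : 0 < r ^ i := Nat.pow_pos hr
  have hp' : 0 < r ^ (d + 1) := Nat.pow_pos hr
  set R := r ^ (i + d + 1) with hR
  have hR2 : R = r ^ i * r ^ (d + 1) := by rw [hR, ← pow_add]; congr 1
  have hRpos : 0 < R := Nat.pow_pos hr
  -- t = a R + b, b = β r^i + γ
  set a := t / R
  set b := t % R
  have ht : t = R * a + b := (Nat.div_add_mod t R).symm
  have hb : b < R := Nat.mod_lt _ hRpos
  set β := b / r ^ i
  set γ := b % r ^ i
  have hbγ : b = r ^ i * β + γ := (Nat.div_add_mod b (r ^ i)).symm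
  have hγ : γ < r ^ i := Nat.mod_lt _ hp
  have hβ : β < r ^ (d + 1) := by
    apply Nat.div_lt_of_lt_mul
    rw [← hR2]; exact hb
  have h1 : t / r ^ i = a * r ^ (d + 1) + β := by
    have : t = r ^ i * (a * r ^ (d + 1) + β) + γ := by rw [ht, hbγ, hR2]; ring
    rw [this, Nat.mul_add_div hp, Nat.div_eq_of_lt hγ]; simp
  have h2 : mirror r (i + d + 1) t / r ^ i = (a + 1) * r ^ (d + 1) + (r ^ (d + 1) - 1 - β) := by
    have e2 : mirror r (i + d + 1) t
        = r ^ i * ((a + 1) * r ^ (d + 1) + (r ^ (d + 1) - 1 - β)) + (r ^ i - 1 - γ) := by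
      change (a + 1) * R + (R - 1 - b) = _
      have h3 : r ^ i * (r ^ (d + 1) - 1 - β) + (r ^ i - 1 - γ) = R - 1 - b := by
        obtain ⟨e, he⟩ := Nat.exists_eq_add_of_lt hβ
        obtain ⟨f, hf⟩ := Nat.exists_eq_add_of_lt hγ
        have e3 : r ^ (d + 1) - 1 - β = e := by omega
        have e4 : r ^ i - 1 - γ = f := by omega
        rw [e3, e4]
        have e5 : R = r ^ i * β + r ^ i * e + r ^ i := by
          rw [hR2, he]; ring
        have e6 : R = r ^ i * β + r ^ i * e + (γ + f + 1) := by rw [e5, ← hf]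
        omega
      rw [Nat.mul_add, Nat.add_assoc, h3, hR2]; ring
    rw [e2, Nat.mul_add_div hp]
    have : r ^ i - 1 - γ < r ^ i :=
      lt_of_le_of_lt (Nat.sub_le _ _) (Nat.sub_lt hp one_pos)
    rw [Nat.div_eq_of_lt this]; simp
  rw [h1, h2]
  obtain ⟨e, he⟩ := Nat.exists_eq_add_of_lt hβ
  have e3 : r ^ (d + 1) - 1 - β = e := by omega
  rw [e3]
  have e4 : r * (2 * ((a + 1) * r ^ d)) = 2 * (a + 1) * r ^ (d + 1) := by ring
  rw [e4]
  nlinarith [he]

/-- The digits below level `j` are unchanged and their directions are reversed. -/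
theorem zig_mirror_low {r j i t : ℕ} (hr : 0 < r) (h : i < j) :
    zig r (mirror r j t / r ^ i) = zig r (t / r ^ i) ∧
    zdir r (mirror r j t / r ^ i) = !zdir r (t / r ^ i) := by
  have := zig_reflect hr (mirror_low (t := t) hr h)
  refine ⟨this.1.symm, ?_⟩
  rw [this.2]; simp

/-- digits and directions above level `j` do not change unless digit `j` is at its end -/
theorem mirror_high {r j i t : ℕ} (hr : 0 < r) (h : j < i) (hne : (t / r ^ j) % r ≠ r - 1) :
    mirror r j t / r ^ i = t / r ^ i := by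
  rw [mirror_div_high hr h.le]
  obtain ⟨d, rfl⟩ := Nat.exists_eq_add_of_lt h
  have e1 : j + d + 1 - j = d + 1 := by omega
  have e2 : r ^ (j + d + 1) = r ^ j * r ^ (d + 1) := by rw [← pow_add]; congr 1
  rw [e1, e2, ← Nat.div_div_eq_div_mul]
  set a := t / r ^ j
  rw [pow_succ', ← Nat.div_div_eq_div_mul, ← Nat.div_div_eq_div_mul]
  congr 1
  have h1 := Nat.div_add_mod a r
  have h2 := Nat.mod_lt a hr
  have h3 : a % r + 1 < r := by omega
  conv_lhs => rw [← h1]
  rw [Nat.add_assoc, Nat.mul_add_div hr, Nat.div_eq_of_lt h3]; simp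

theorem succ_div_of_ne {r a : ℕ} (hr : 0 < r) (hne : a % r ≠ r - 1) : (a + 1) / r = a / r := by
  have h1 := Nat.div_add_mod a r
  have h2 := Nat.mod_lt a hr
  have h3 : a % r + 1 < r := by omega
  conv_lhs => rw [← h1]
  rw [Nat.add_assoc, Nat.mul_add_div hr, Nat.div_eq_of_lt h3]; simp

theorem succ_mod_of_ne {r a : ℕ} (hr : 0 < r) (hne : a % r ≠ r - 1) : (a + 1) % r = a % r + 1 := by
  have h2 := Nat.mod_lt a hr
  have h3 : a % r + 1 < r := by omega
  rw [Nat.add_mod]
  by_cases h1 : r = 1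
  · subst h1; omega
  · have : 1 % r = 1 := Nat.mod_eq_of_lt (by omega)
    rw [this, Nat.mod_eq_of_lt h3]

theorem succ_div_of_eq {r a : ℕ} (hr : 0 < r) (he : a % r = r - 1) : (a + 1) / r = a / r + 1 := by
  have h1 := Nat.div_add_mod a r
  have : a + 1 = r * (a / r + 1) := by
    rw [Nat.mul_add, mul_one]; omega
  rw [this, Nat.mul_div_cancel_left _ hr]

theorem succ_mod_of_eq {r a : ℕ} (hr : 0 < r) (he : a % r = r - 1) : (a + 1) % r = 0 := by
  have h1 := Nat.div_add_mod a r
  have : a + 1 = r * (a / r + 1) := by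
    rw [Nat.mul_add, mul_one]; omega
  rw [this]; simp

theorem zig_succ_of_ne_up {r a : ℕ} (hr : 0 < r) (hne : a % r ≠ r - 1) (hd : zdir r a = true) :
    zig r (a + 1) = zig r a + 1 := by
  unfold zdir at hd; unfold zig
  simp only [decide_eq_true_eq] at hd
  rw [succ_div_of_ne hr hne, succ_mod_of_ne hr hne]; simp [hd]

theorem zig_succ_of_ne_down {r a : ℕ} (hr : 0 < r) (hne : a % r ≠ r - 1) (hd : zdir r a = false) :
    zig r (a + 1) = zig r a - 1 := by
  unfold zdir at hd; unfold zig
  simp only [decide_eq_false_iff_not] at hd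
  rw [succ_div_of_ne hr hne, succ_mod_of_ne hr hne]
  simp only [hd, if_false]
  have := Nat.mod_lt a hr
  omega

theorem zdir_succ_of_ne {r a : ℕ} (hr : 0 < r) (hne : a % r ≠ r - 1) :
    zdir r (a + 1) = zdir r a := by
  unfold zdir; rw [succ_div_of_ne hr hne]

theorem zig_succ_of_eq {r a : ℕ} (hr : 0 < r) (he : a % r = r - 1) :
    zig r (a + 1) = zig r a ∧ zdir r (a + 1) = !zdir r a := by
  unfold zig zdir
  rw [succ_div_of_eq hr he, succ_mod_of_eq hr he, he]
  rcases Nat.mod_two_eq_zero_or_one (a / r) with h8 | h8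
  · have : (a / r + 1) % 2 = 1 := by omega
    simp [h8, this]
  · have : (a / r + 1) % 2 = 0 := by omega
    simp [h8, this]

theorem atEnd_iff {r a : ℕ} (hr : 0 < r) :
    a % r = r - 1 ↔ ((zdir r a = true ∧ zig r a = r - 1) ∨ (zdir r a = false ∧ zig r a = 0)) := by
  unfold zig zdir
  have := Nat.mod_lt a hr
  rcases Nat.mod_two_eq_zero_or_one (a / r) with h8 | h8
  · simp [h8]
  · simp only [h8]; simp; omega

/-- All the digits below `j` are at their ends iff `t` is the last time of its block. -/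
theorem allEnd_iff {r : ℕ} (hr : 0 < r) (t j : ℕ) :
    (∀ i, i < j → (t / r ^ i) % r = r - 1) ↔ t % r ^ j = r ^ j - 1 := by
  induction j with
  | zero => simp [Nat.mod_one]
  | succ j ih =>
    have h1 : (∀ i, i < j + 1 → (t / r ^ i) % r = r - 1) ↔
        (∀ i, i < j → (t / r ^ i) % r = r - 1) ∧ (t / r ^ j) % r = r - 1 := by
      constructor
      · intro h; exact ⟨fun i hi => h i (by omega), h j (by omega)⟩
      · rintro ⟨h1, h2⟩ i hi
        rcases Nat.lt_succ_iff_lt_or_eq.1 hi with h | h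
        · exact h1 i h
        · subst h; exact h2
    rw [h1, ih]
    have hp : 0 < r ^ j := Nat.pow_pos hr
    have h2 : t % r ^ (j + 1) = r ^ j * ((t / r ^ j) % r) + t % r ^ j := by
      rw [pow_succ, Nat.mod_mul]; ring
    rw [h2]
    have h3 := Nat.mod_lt (t / r ^ j) hr
    have h4 := Nat.mod_lt t hp
    constructor
    · rintro ⟨h5, h6⟩
      rw [h5, h6]
      have : r ^ (j + 1) = r ^ j * (r - 1) + r ^ j := by
        obtain ⟨s, rfl⟩ : ∃ s, r = s + 1 := ⟨r - 1, by omega⟩
        simp only [Nat.add_sub_cancel]; ring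
      omega
    · intro h5
      obtain ⟨e, he⟩ := Nat.exists_eq_add_of_lt h3
      obtain ⟨f, hf⟩ := Nat.exists_eq_add_of_lt h4
      set x := (t / r ^ j) % r
      set y := t % r ^ j
      have h6 : r ^ (j + 1) = r ^ j * x + r ^ j * e + r ^ j := by
        rw [pow_succ]; nth_rw 2 [he]; ring
      have h7 : r ^ j * e + f = 0 := by omega
      have h8 : r ^ j * e = 0 := by omega
      have h9 : e = 0 := by
        rcases Nat.mul_eq_zero.1 h8 with h | h
        · omega
        · exact h
      have h10 : f = 0 := by omega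
      exact ⟨by omega, by omega⟩

/-- Increment of the quotient. -/
theorem succ_div_pow_of_all {r t i : ℕ} (hr : 0 < r) (h : t % r ^ i = r ^ i - 1) :
    (t + 1) / r ^ i = t / r ^ i + 1 := succ_div_of_eq (Nat.pow_pos hr) h

theorem succ_div_pow_of_not {r t i : ℕ} (hr : 0 < r) (h : t % r ^ i ≠ r ^ i - 1) :
    (t + 1) / r ^ i = t / r ^ i := succ_div_of_ne (Nat.pow_pos hr) h

end Pool.Agent.V8H47.MH
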