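import Pool.Agent.V8H47.MH.PDS
import Pool.Agent.V8H47.MH.Counter

/-!
# Thin languages of store contents

Paths in a deterministic automaton all of whose strongly connected components are cycles, and
their description by finitely many counters.
-/

namespace Pool.Agent.V8H47.MH

open Relation

/-- `R` contains, together with all its prefixes, every word of the form `u v₁ ⋯ vₘ` with
`vᵢ ∈ {x, y}`, for some words `u` and `x ≠ y` with `x` and `y` of the same length. -/
def Thick {Γ : Type} (R : Set (List Γ)) : Prop :=
  ∃ u x y : List Γ, x.length = y.length ∧ x ≠ y ∧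
    ∀ l : List (List Γ), (∀ v ∈ l, v = x ∨ v = y) → ∀ p, p <+: u ++ l.flatten → p ∈ R

section graph

variable {Γ σ : Type} (A : DFA Γ σ)

def edge (s t : σ) : Prop := ∃ a, A.step s a = t ∧ t ∈ A.accept

def conn : σ → σ → Prop := ReflTransGen (edge A)

/-- the letter `a` leads from `s` to an accepting state from which `s` can be reached -/
def intl (s : σ) (a : Γ) : Prop := A.step s a ∈ A.accept ∧ conn A (A.step s a) s

/-- at most one letter of each state stays in the component -/
def ThinA : Prop := ∀ s, conn A A.start s → ∀ a b, intl A s a → intl A s b → a = b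

inductive Pth : σ → List Γ → σ → Prop
  | nil (s) : Pth s [] s
  | cons {s a v t} : A.step s a ∈ A.accept → Pth (A.step s a) v t → Pth s (a :: v) t

variable {A}

theorem Pth.append {s t r : σ} {u v : List Γ} (h1 : Pth A s u t) (h2 : Pth A t v r) :
    Pth A s (u ++ v) r := by
  induction h1 with
  | nil => exact h2
  | cons h _ ih => exact Pth.cons h (ih h2)

theorem exists_pth {s t : σ} (h : conn A s t) : ∃ v, Pth A s v t := by
  unfold conn at h
  induction h using ReflTransGen.head_induction_on with
  | refl => exact ⟨[], .nil _⟩
  | head hs _ ih =>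
    obtain ⟨a, rfl, ha⟩ := hs
    obtain ⟨v, hv⟩ := ih
    exact ⟨a :: v, .cons ha hv⟩

theorem Pth.prefix_mem {s t : σ} {v : List Γ} (h : Pth A s v t) (hs : s ∈ A.accept) :
    ∀ p, p <+: v → A.evalFrom s p ∈ A.accept := by
  induction h with
  | nil s =>
    intro p hp
    have : p = [] := List.prefix_nil.1 hp
    subst this; exact hs
  | @cons s a v t h _ ih =>
    intro p hp
    cases p with
    | nil => exact hs
    | cons b p =>
      obtain ⟨rfl, hp'⟩ := List.cons_prefix_cons.1 hp
      simpa [DFA.evalFrom] using ih h p hp'

theorem thinA_of_not_thick (h0 : A.start ∈ A.accept) (h : ¬ Thick (A.accepts : Set (List Γ))) :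
    ThinA A := by
  intro s hs a b ha hb
  by_contra hab
  apply h
  obtain ⟨u, hu⟩ := exists_pth hs
  obtain ⟨p1, hp1⟩ := exists_pth ha.2
  obtain ⟨p2, hp2⟩ := exists_pth hb.2
  have h1 : Pth A s (a :: p1) s := .cons ha.1 hp1
  have h2 : Pth A s (b :: p2) s := .cons hb.1 hp2
  refine ⟨u, (a :: p1) ++ (b :: p2), (b :: p2) ++ (a :: p1), ?_, ?_, ?_⟩
  · simp only [List.length_append]; omega
  · intro he
    simp only [List.cons_append, List.cons.injEq] at he
    exact hab he.1
  · intro l hl p hp
    have h3 : Pth A s l.flatten s := by
      clear hp p
      induction l with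
      | nil => exact .nil _
      | cons v l ih =>
        rw [List.flatten_cons]
        have hv : Pth A s v s := by
          rcases hl v (by simp) with rfl | rfl
          · exact h1.append h2
          · exact h2.append h1
        exact hv.append (ih (fun v' hv' => hl v' (by simp [hv'])))
    exact (hu.append h3).prefix_mem h0 p hp

variable (A)

open Classical in
/-- the next state in the component -/
noncomputable def nx (s : σ) : σ := if h : ∃ a, intl A s a then A.step s h.choose else s

variable {A}

theorem nx_eq (hT : ThinA A) {s : σ} {a : Γ} (hs : conn A A.start s) (ha : intl A s a) :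
    nx A s = A.step s a := by
  have h : ∃ a, intl A s a := ⟨a, ha⟩
  unfold nx
  rw [dif_pos h, hT s hs _ _ h.choose_spec ha]

theorem conn_step {s : σ} {a : Γ} (h : A.step s a ∈ A.accept) : conn A s (A.step s a) :=
  ReflTransGen.single ⟨a, rfl, h⟩

theorem exists_iterate (hT : ThinA A) {s t : σ} (hs : conn A A.start s) (h1 : conn A s t)
    (h2 : conn A t s) : ∃ i, (nx A)^[i] s = t := by
  unfold conn at h1
  induction h1 using ReflTransGen.head_induction_on with
  | refl => exact ⟨0, rfl⟩
  | @head s s1 he hrest ih =>
    obtain ⟨a, rfl, ha⟩ := he
    have h3 : conn A (A.step s a) s := ReflTransGen.trans hrest h2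
    obtain ⟨i, hi⟩ := ih (ReflTransGen.trans hs (conn_step ha))
      (ReflTransGen.trans h2 (conn_step ha))
    refine ⟨i + 1, ?_⟩
    rw [Function.iterate_succ_apply, nx_eq hT hs ⟨ha, h3⟩, hi]

theorem pred_unique (hT : ThinA A) {s s' : σ} {a a' : Γ} (hs : conn A A.start s)
    (hs' : conn A A.start s') (ha : intl A s a) (ha' : intl A s' a')
    (he : A.step s a = A.step s' a') : s = s' ∧ a = a' := by
  have h1 := nx_eq hT hs ha
  have h2 := nx_eq hT hs' ha'
  have ht : conn A A.start (A.step s a) := ReflTransGen.trans hs (conn_step ha.1)
  obtain ⟨i, hi⟩ := exists_iterate hT ht ha.2 (conn_step ha.1)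
  obtain ⟨j, hj⟩ := exists_iterate hT ht (by rw [he]; exact ha'.2)
    (by rw [he]; exact conn_step ha'.1)
  have hss : s = s' := by
    set f := (nx A)^[j + 1] with hf
    have e1 : f s = s' := by rw [hf, Function.iterate_succ_apply, h1, hj]
    have e2 : f s' = s' := by rw [hf, Function.iterate_succ_apply, h2, ← he, hj]
    have e3 : (nx A)^[i + 1] s = s := by rw [Function.iterate_succ_apply, h1, hi]
    have e4 : ∀ n, f^[n + 1] s = s' := by
      intro n
      induction n with
      | zero => exact e1
      | succ n ih => rw [Function.iterate_succ_apply', ih, e2]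
    have e5 : f^[i + 1] s = s := by
      rw [hf, ← Function.iterate_mul, mul_comm, Function.iterate_mul]
      exact Function.IsFixedPt.iterate e3 _
    rw [← e5, e4]
  subst hss
  exact ⟨rfl, hT s hs a a' ha ha'⟩

variable (A)

open Classical in
/-- the preceding state in the component and the letter which leads from there -/
noncomputable def pre (t : σ) : σ × Option Γ :=
  if h : ∃ s a, conn A A.start s ∧ intl A s a ∧ A.step s a = t then
    (h.choose, some h.choose_spec.choose) else (t, none)

variable {A}

theorem pre_eq (hT : ThinA A) {s : σ} {a : Γ} (hs : conn A A.start s) (ha : intl A s a) :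
    pre A (A.step s a) = (s, some a) := by
  have h : ∃ s' a', conn A A.start s' ∧ intl A s' a' ∧ A.step s' a' = A.step s a :=
    ⟨s, a, hs, ha, rfl⟩
  unfold pre
  rw [dif_pos h]
  have h1 := h.choose_spec.choose_spec
  have := pred_unique hT h1.1 hs h1.2.1 ha h1.2.2
  simp only [Prod.mk.injEq, Option.some.injEq]
  exact this

variable (A)

/-- the number of states that can be reached -/
noncomputable def rk (s : σ) : ℕ := {t | conn A s t}.ncard

variable {A}

theorem rk_intl {s : σ} {a : Γ} (ha : intl A s a) : rk A (A.step s a) = rk A s := by
  unfold rk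
  congr 1
  ext t
  exact ⟨fun h => ReflTransGen.trans (conn_step ha.1) h, fun h => ReflTransGen.trans ha.2 h⟩

theorem rk_lt [Finite σ] {s : σ} {a : Γ} (h : A.step s a ∈ A.accept) (ha : ¬ intl A s a) :
    rk A (A.step s a) < rk A s := by
  unfold rk
  refine Set.ncard_lt_ncard ?_ (Set.toFinite _)
  refine ⟨fun t ht => ReflTransGen.trans (conn_step h) ht, fun hcon => ?_⟩
  exact ha ⟨h, hcon (show conn A s s from .refl)⟩

theorem rk_pos [Finite σ] (s : σ) : 0 < rk A s := by
  unfold rk
  rw [Set.ncard_pos (Set.toFinite _)]
  exact ⟨s, show conn A s s from .refl⟩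

theorem rk_le [Finite σ] (s : σ) : rk A s ≤ Nat.card σ := by
  unfold rk
  rw [← Set.ncard_univ]
  exact Set.ncard_le_ncard (Set.subset_univ _) (Set.toFinite _)

/-! ### Stacks as lists of segments -/

/-- a segment: the letter with which the component was entered, the present state, the number
of letters read in the component -/
abbrev Seg (Γ σ : Type) := Option Γ × σ × ℕ

variable (A)

open Classical in
noncomputable def pushE (g : Γ) (E : Seg Γ σ × List (Seg Γ σ)) : Seg Γ σ × List (Seg Γ σ) :=
  if intl A E.1.2.1 g then ((E.1.1, A.step E.1.2.1 g, E.1.2.2 + 1), E.2)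
  else ((some g, A.step E.1.2.1 g, 0), E.1 :: E.2)

/-- the list of segments of a store content (top symbol first) -/
noncomputable def enc : List Γ → Seg Γ σ × List (Seg Γ σ)
  | [] => ((none, A.start, 0), [])
  | g :: st => pushE A g (enc st)

/-- all prefixes (read from the bottom) lead to accepting states -/
def Good (st : List Γ) : Prop := ∀ st', st' <:+ st → A.eval st'.reverse ∈ A.accept

variable {A}

theorem eval_cons (g : Γ) (st : List Γ) :
    A.eval (g :: st).reverse = A.step (A.eval st.reverse) g := by
  simp

theorem enc_state (st : List Γ) : (enc A st).1.2.1 = A.eval st.reverse := by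
  induction st with
  | nil => simp [enc]
  | cons g st ih =>
    rw [eval_cons]
    unfold enc pushE
    split_ifs
    · simp only; rw [ih]
    · simp only; rw [ih]

theorem Good.tail {g : Γ} {st : List Γ} (h : Good A (g :: st)) : Good A st :=
  fun st' hst' => h st' (hst'.trans (List.suffix_cons g st))

theorem Good.conn {st : List Γ} (h : Good A st) : conn A A.start (A.eval st.reverse) := by
  induction st with
  | nil => exact .refl
  | cons g st ih =>
    have h1 := h (g :: st) List.suffix_rfl
    rw [eval_cons] at h1 ⊢
    exact ReflTransGen.trans (ih h.tail) (conn_step h1)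

theorem Good.step_mem {g : Γ} {st : List Γ} (h : Good A (g :: st)) :
    A.step (A.eval st.reverse) g ∈ A.accept := by
  have h1 := h (g :: st) List.suffix_rfl
  rwa [eval_cons] at h1

theorem enc_cons_intl {g : Γ} {st : List Γ} (h : intl A (A.eval st.reverse) g) :
    enc A (g :: st) = (((enc A st).1.1, A.step (A.eval st.reverse) g, (enc A st).1.2.2 + 1),
      (enc A st).2) := by
  rw [enc, pushE, enc_state, if_pos h]

theorem enc_cons_not {g : Γ} {st : List Γ} (h : ¬ intl A (A.eval st.reverse) g) :
    enc A (g :: st) = ((some g, A.step (A.eval st.reverse) g, 0),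
      (enc A st).1 :: (enc A st).2) := by
  rw [enc, pushE, enc_state, if_neg h]

theorem enc_length [Finite σ] {st : List Γ} (h : Good A st) :
    (enc A st).2.length + rk A (A.eval st.reverse) ≤ Nat.card σ := by
  induction st with
  | nil => simpa [enc] using rk_le (A := A) _
  | cons g st ih =>
    have ih := ih h.tail
    rw [eval_cons]
    by_cases hi : intl A (A.eval st.reverse) g
    · rw [enc_cons_intl hi, rk_intl hi]; exact ih
    · rw [enc_cons_not hi]
      have := rk_lt h.step_mem hi
      simp only [List.length_cons]
      omega

theorem enc_length_lt [Finite σ] {st : List Γ} (h : Good A st) :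
    (enc A st).2.length < Nat.card σ := by
  have h1 := enc_length h
  have h2 := rk_pos (A := A) (A.eval st.reverse)
  omega

/-- the values of the counters -/
def cnt : List (Seg Γ σ) → ℕ → ℕ
  | [] => fun _ => 0
  | x :: F => Function.update (cnt F) F.length x.2.2

theorem cnt_of_le (F : List (Seg Γ σ)) : ∀ j, F.length ≤ j → cnt F j = 0 := by
  induction F with
  | nil => intro j _; rfl
  | cons x F ih =>
    intro j hj
    simp only [List.length_cons] at hj
    unfold cnt
    rw [Function.update_of_ne (by omega)]
    exact ih j (by omega)

/-- the counters of a store content -/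
noncomputable def cnts (A : DFA Γ σ) (st : List Γ) : ℕ → ℕ := cnt ((enc A st).1 :: (enc A st).2)

theorem cnts_le (st : List Γ) (j : ℕ) : cnts A st j ≤ st.length := by
  have key : ∀ st : List Γ, (enc A st).1.2.2 ≤ st.length ∧ ∀ j, cnts A st j ≤ st.length := by
    intro st
    induction st with
    | nil =>
      refine ⟨le_rfl, fun j => ?_⟩
      unfold cnts enc cnt
      by_cases hj : j = 0
      · subst hj; simp
      · rw [Function.update_of_ne (by simpa using hj)]; simp [cnt]
    | cons g st ih =>
      by_cases hi : intl A (A.eval st.reverse) g
      · unfold cnts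
        rw [enc_cons_intl hi]
        refine ⟨by simp only [List.length_cons]; omega, fun j => ?_⟩
        have h2 := ih.2 j
        unfold cnts at h2
        unfold cnt at h2 ⊢
        by_cases hj : j = (enc A st).2.length
        · subst hj
          rw [Function.update_self] at h2 ⊢
          simp only [List.length_cons]
          omega
        · rw [Function.update_of_ne hj] at h2 ⊢
          simp only [List.length_cons]
          omega
      · unfold cnts
        rw [enc_cons_not hi]
        refine ⟨Nat.zero_le _, fun j => ?_⟩
        rw [cnt]
        by_cases hj : j = ((enc A st).1 :: (enc A st).2).length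
        · subst hj; rw [Function.update_self]; exact Nat.zero_le _
        · rw [Function.update_of_ne hj]
          have := ih.2 j
          unfold cnts at this
          simp only [List.length_cons]
          omega
  exact (key st).2 j

theorem cnts_top (st : List Γ) : cnts A st (enc A st).2.length = (enc A st).1.2.2 := by
  unfold cnts cnt; rw [Function.update_self]

/-! ### The shape of a list of segments, and the actions on it -/

/-- shapes: segments without their counters -/
abbrev Shp (Γ σ : Type) := (Option Γ × σ) × List (Option Γ × σ)

/-- forgetting the counters -/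
def forget (E : Seg Γ σ × List (Seg Γ σ)) : Shp Γ σ :=
  ((E.1.1, E.1.2.1), E.2.map fun x => (x.1, x.2.1))

variable (A)

open Classical in
/-- the top symbol; `z`: is the counter of the top segment zero? -/
noncomputable def shTop (z : Prop) (E : Shp Γ σ) : Option Γ := if z then E.1.1 else (pre A E.1.2).2

open Classical in
/-- the new shape and the action on the counter of the (old) top segment -/
noncomputable def shOp (z : Prop) (E : Shp Γ σ) : Op Γ → Shp Γ σ × Dir
  | Op.keep => (E, Dir.S)
  | Op.push g => if intl A E.1.2 g then (((E.1.1, A.step E.1.2 g), E.2), Dir.R)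
      else (((some g, A.step E.1.2 g), E.1 :: E.2), Dir.S)
  | Op.pop => if z then (match E.2 with
        | [] => (E, Dir.S)
        | y :: F => ((y, F), Dir.S))
      else (((E.1.1, (pre A E.1.2).1), E.2), Dir.L)

variable {A}

theorem shTop_spec (hT : ThinA A) {st : List Γ} (h : Good A st) :
    shTop A ((enc A st).1.2.2 = 0) (forget (enc A st)) = st.head? := by
  cases st with
  | nil => simp [shTop, enc, forget]
  | cons g st =>
    by_cases hi : intl A (A.eval st.reverse) g
    · rw [enc_cons_intl hi]
      simp [shTop, forget, pre_eq hT h.tail.conn hi]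
    · rw [enc_cons_not hi]
      simp [shTop, forget]

theorem shOp_spec (hT : ThinA A) {st : List Γ} (op : Op Γ) (h : Good A st) :
    (shOp A ((enc A st).1.2.2 = 0) (forget (enc A st)) op).1 = forget (enc A (op.apply st)) ∧
    ∀ j, (if j = (enc A st).2.length then
      (shOp A ((enc A st).1.2.2 = 0) (forget (enc A st)) op).2 else Dir.S).cmove (cnts A st j)
        = cnts A (op.apply st) j := by
  have hst := enc_state (A := A) st
  cases op with
  | keep =>
    refine ⟨rfl, fun j => ?_⟩
    simp [shOp, Op.apply, Dir.cmove]
  | push g =>
    simp only [Op.apply]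
    by_cases hi : intl A (A.eval st.reverse) g
    · unfold cnts
      rw [enc_cons_intl hi]
      simp only [shOp, forget, hst, hi, if_true]
      refine ⟨trivial, fun j => ?_⟩
      unfold cnt
      by_cases hj : j = (enc A st).2.length
      · subst hj
        simp [Dir.cmove]
      · simp [Dir.cmove, hj]
    · unfold cnts
      rw [enc_cons_not hi]
      simp only [shOp, forget, hst, hi, if_false]
      refine ⟨by simp [hst], fun j => ?_⟩
      conv_rhs => rw [cnt]
      by_cases hj : j = ((enc A st).1 :: (enc A st).2).length
      · have : cnt ((enc A st).1 :: (enc A st).2) j = 0 := cnt_of_le _ _ (by omega)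
        rw [this]
        subst hj
        simp [Dir.cmove]
      · rw [Function.update_of_ne hj]
        simp [Dir.cmove]
  | pop =>
    cases st with
    | nil =>
      simp only [Op.apply, List.tail_nil, shOp, enc, forget, if_true, List.map_nil, true_and]
      intro j
      simp [Dir.cmove]
    | cons g st =>
      simp only [Op.apply, List.tail_cons]
      by_cases hi : intl A (A.eval st.reverse) g
      · unfold cnts
        rw [enc_cons_intl hi]
        have hpre := pre_eq hT h.tail.conn hi
        simp only [shOp, forget, Nat.add_eq_zero_iff, one_ne_zero, and_false, if_false, hpre]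
        refine ⟨by rw [enc_state], fun j => ?_⟩
        unfold cnt
        by_cases hj : j = (enc A st).2.length
        · subst hj
          simp [Dir.cmove]
        · simp [Dir.cmove, hj]
      · unfold cnts
        rw [enc_cons_not hi]
        simp only [shOp, forget, if_true, List.map_cons]
        refine ⟨by simp, fun j => ?_⟩
        conv_lhs => rw [cnt]
        by_cases hj : j = ((enc A st).1 :: (enc A st).2).length
        · have : cnt ((enc A st).1 :: (enc A st).2) j = 0 := cnt_of_le _ _ (by omega)
          rw [this]
          subst hj
          simp [Dir.cmove]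
        · rw [Function.update_of_ne hj]
          simp [Dir.cmove]

end graph

end Pool.Agent.V8H47.MH
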